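import Pool.Agent.Lib.MP_eeb174_ag.Line

open Filter Set WithZero Module Finsupp IntermediateField

noncomputable section

namespace Pool.Agent.Lib.MP_eeb174_ag

variable {K : Type} [Field K] [Algebra ℂ K]

section FF
variable [IsFF K] {D : Derivation ℂ K K}

lemma deriv_ne_zero (hD : D ≠ 0) {v : K} (hv : Transcendental ℂ v) : D v ≠ 0 := by
  intro h0
  apply hD
  haveI := IsFF.fin v hv
  have h1 : ∀ r : ℂ⟮v⟯, D (r : K) = 0 := by
    intro r
    obtain ⟨p, q, hr⟩ := (IntermediateField.mem_adjoin_simple_iff ℂ (r : K)).1 r.2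
    rw [hr, Derivation.leibniz_div, D.map_aeval, D.map_aeval, h0]
    simp
  let D' : Derivation ℂ⟮v⟯ K K :=
    { toFun := D
      map_add' := D.map_add
      map_smul' := fun r z => by
        change D ((r : K) * z) = (r : K) * D z
        rw [D.leibniz, h1]; simp
      map_one_eq_zero' := D.map_one_eq_zero
      leibniz' := D.leibniz }
  ext z
  have h2 := D'.map_aeval (minpoly ℂ⟮v⟯ z) z
  rw [minpoly.aeval, map_zero, eq_comm, smul_eq_zero] at h2
  exact h2.resolve_left ((Algebra.IsSeparable.isSeparable ℂ⟮v⟯ z).aeval_derivative_ne_zero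
    (minpoly.aeval _ _))

lemma val_deriv_le {v : K} (hv : Transcendental ℂ v) : ∃ (m : ℕ) (b : Fin m → K),
    ∀ (x : Place K) (γ : ℤᵐ⁰), v ∈ x.O → x.val (D v) ≤ γ → (∀ i, x.val (D (b i)) ≤ γ) →
      ∀ z ∈ x.O, x.val (D z) ≤ γ := by
  obtain ⟨m, b, hb, hg⟩ := exists_gens_chartRing hv
  refine ⟨m, b, fun x γ hx h1 h2 z hz => ?_⟩
  have h3 : ∀ a c : K, a ∈ x.O → x.val c ≤ γ → x.val (a * c) ≤ γ := fun a c ha hc => by
    rw [map_mul]; exact (mul_le_of_le_one_left' (x.mem_iff.1 ha)).trans hc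
  have h4 : ∀ z ∈ chartRing {x : Place K | v ∈ x.O}, x.val (D z) ≤ γ := by
    intro z hz
    obtain ⟨p, rfl⟩ := hg z hz
    rw [map_sum]
    refine x.val.map_sum_le fun i _ => ?_
    rw [D.leibniz, D.map_aeval]
    exact x.val.map_add_le (h3 _ _ (x.aeval_mem hx _) (h2 i))
      (h3 _ _ (hb i x hx) (h3 _ _ (x.aeval_mem hx _) h1))
  obtain ⟨s, hs, hs0, hs1, hs2⟩ := exists_denom hv x hx hz
  have h5 : D z = s⁻¹ * (D (s * z) - z * D s) := by
    rw [D.leibniz, smul_eq_mul, smul_eq_mul, add_sub_cancel_right, inv_mul_cancel_left₀ hs0]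
  rw [h5]
  exact h3 _ _ hs1 (x.val.map_sub_le (h4 _ hs2) (h3 _ _ hz (h4 _ hs)))

lemma transc_of_not_const {z : K} (h : ∀ c : ℂ, z ≠ algebraMap ℂ K c) : Transcendental ℂ z := by
  intro ha
  obtain ⟨c, hc⟩ : z ∈ (algebraMap ℂ K).range :=
    minpoly.mem_range_of_degree_eq_one ℂ z
      (IsAlgClosed.degree_eq_one_of_irreducible ℂ (minpoly.irreducible ha.isIntegral))
  exact h c hc.symm

lemma Place.transc_unif (x : Place K) : Transcendental ℂ x.unif :=
  transc_of_not_const fun c hc => by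
    have h : x.val x.unif < 1 := by rw [x.val_lt_one_iff, x.val_unif]
    have h1 := x.unif_ne_zero
    rw [hc] at h h1
    rw [x.const_eq_zero h] at h1
    exact h1 (map_zero _)

lemma Place.unif_mem (x : Place K) : x.unif ∈ x.O :=
  x.mem_iff.2 (by rw [x.val_unif, ← exp_zero, exp_le_exp]; omega)

lemma val_deriv_le_unif (hD : D ≠ 0) (x : Place K) {z : K} (hz : z ∈ x.O) :
    x.val (D z) ≤ x.val (D x.unif) := by
  obtain ⟨m, b, hb⟩ := val_deriv_le (D := D) x.transc_unif
  obtain ⟨M, hM⟩ : ∃ M : ℤ, ∀ z ∈ x.O, x.val (D z) ≤ exp M := by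
    have h1 : ∀ z : K, ∃ M : ℕ, x.val z ≤ exp (M : ℤ) := fun z => by
      by_cases h0 : z = 0
      · exact ⟨0, by simp [h0]⟩
      · exact ⟨(x.ord z).natAbs, by rw [x.val_eq h0, exp_le_exp]; omega⟩
    choose M hM using h1
    refine ⟨(M (D x.unif) + ∑ i, M (D (b i)) : ℕ), hb x _ x.unif_mem
      ((hM _).trans (exp_le_exp.2 (by omega))) fun i => (hM _).trans (exp_le_exp.2 ?_)⟩
    have := Finset.single_le_sum (f := fun i => M (D (b i))) (fun _ _ => Nat.zero_le _)
      (Finset.mem_univ i)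
    omega
  have h1 : ∀ k : ℕ, ∀ z ∈ x.O, x.val (D z) ≤ max (x.val (D x.unif)) (exp (M - k)) := by
    intro k
    induction k with
    | zero => exact fun z hz => le_max_of_le_right (by simpa using hM z hz)
    | succ k ih =>
      intro z hz
      obtain ⟨c, hc⟩ := x.exists_res hz
      have h2 : x.unif ^ (-1 : ℤ) * (z - algebraMap ℂ K c) ∈ x.O :=
        x.zpow_mul_mem_iff.2 (x.val_lt_one_iff.1 hc)
      have h3 : D z = D (x.unif * (x.unif ^ (-1 : ℤ) * (z - algebraMap ℂ K c))) := by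
        rw [zpow_neg_one, mul_inv_cancel_left₀ x.unif_ne_zero, map_sub, D.map_algebraMap, sub_zero]
      rw [h3, D.leibniz, smul_eq_mul, smul_eq_mul]
      refine x.val.map_add_le ?_ (le_max_of_le_left ?_)
      · rw [map_mul, x.val_unif]
        refine (mul_le_mul_right (ih _ h2) _).trans ?_
        rw [mul_max]
        refine max_le_max (mul_le_of_le_one_left' ?_) ?_
        · rw [← exp_zero, exp_le_exp]; omega
        · rw [← exp_add, exp_le_exp]; push_cast; omega
      · rw [map_mul]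
        exact mul_le_of_le_one_left' (x.mem_iff.1 h2)
  have h2 := deriv_ne_zero hD x.transc_unif
  refine (h1 (M + x.ord (D x.unif)).natAbs z hz).trans (max_le le_rfl ?_)
  rw [x.val_eq h2, exp_le_exp]
  omega

lemma ord_deriv (hD : D ≠ 0) (x : Place K) {z : K} (hz : x.ord z ≠ 0) :
    x.ord (D z) = x.ord (D x.unif) + x.ord z - 1 := by
  have h0 : z ≠ 0 := by rintro rfl; simp at hz
  have h2 := deriv_ne_zero hD x.transc_unif
  have ht := fun m : ℤ => zpow_ne_zero m x.unif_ne_zero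
  obtain ⟨m, hm⟩ : ∃ m, m = x.ord z := ⟨_, rfl⟩
  obtain ⟨ε, hε⟩ : ∃ ε, ε = x.unif ^ (-m) * z := ⟨_, rfl⟩
  rw [← hm] at hz ⊢
  have h3 : x.val ε = 1 := by
    rw [hε, map_mul, x.val_unif_zpow, x.val_eq h0, ← exp_add]; simp [hm]
  have h4 : z = x.unif ^ m * ε := by rw [hε, zpow_neg, mul_inv_cancel_left₀ (ht m)]
  have h5 : x.val (ε * (algebraMap ℂ K m * (x.unif ^ (m - 1) * D x.unif))) =
      exp (-(x.ord (D x.unif) + m - 1)) := by
    rw [map_mul, map_mul, map_mul, h3, x.val_const (by exact_mod_cast hz), x.val_unif_zpow,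
      x.val_eq h2, one_mul, one_mul, ← exp_add]
    congr 1; ring
  refine x.ord_eq_of_val ?_
  rw [h4, D.leibniz, D.leibniz_zpow, smul_eq_mul, smul_eq_mul, smul_eq_mul, zsmul_eq_mul,
    ← map_intCast (algebraMap ℂ K), x.val.map_add_eq_of_lt_right, h5]
  rw [h5, map_mul, x.val_unif_zpow]
  refine (mul_le_mul_right (val_deriv_le_unif hD x (x.mem_iff.2 h3.le)) _).trans_lt ?_
  rw [x.val_eq h2, ← exp_add, exp_lt_exp]
  omega

lemma ord_deriv_of_res (hD : D ≠ 0) (x : Place K) {v : K} (hv : Transcendental ℂ v) {a : ℂ}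
    (h : x.val (v - algebraMap ℂ K a) < 1) :
    x.ord (D v) = x.ord (D x.unif) + x.ord (v - algebraMap ℂ K a) - 1 := by
  rw [x.val_lt_one_iff, x.val_le_iff (transc_sub_ne hv a)] at h
  rw [← ord_deriv hD x (by omega), map_sub, D.map_algebraMap, sub_zero]

lemma finite_ord_deriv (hD : D ≠ 0) :
    (Function.support fun x : Place K => x.ord (D x.unif)).Finite := by
  obtain ⟨u, hu⟩ := IsFF.ex (K := K)
  obtain ⟨m, b, hb⟩ := val_deriv_le (D := D) hu
  have h1 : ∀ᶠ x : Place K in cofinite, ∀ i, D (b i) ∈ x.O :=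
    eventually_all.2 fun i => eventually_mem _
  have h2 : ∀ᶠ x : Place K in cofinite, x.ord (D u) = 0 := Place.finite_ord _
  refine Set.Finite.subset (h1.and (h2.and ((eventually_mem u).and (eventually_mem (D u)))))
    fun x hx'' hx' => ?_
  obtain ⟨a, ha⟩ := x.exists_res hx'.2.2.1
  have h3 := ord_deriv_of_res hD x hu ha
  have h4 := hb x 1 hx'.2.2.1 (x.mem_iff.1 hx'.2.2.2) (fun i => x.mem_iff.1 (hx'.1 i)) _ x.unif_mem
  rw [← x.mem_iff, x.mem_iff_ord (deriv_ne_zero hD x.transc_unif)] at h4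
  rw [x.val_lt_one_iff, x.val_le_iff (transc_sub_ne hu a)] at ha
  have := hx'.2.1
  have h5 : x.ord (D x.unif) ≠ 0 := hx''
  omega

/-- The zeros of a function. -/
def zerosF (z : K) : Finset (Place K) := (divF z).support.filter fun x => 0 < x.ord z

lemma mem_zerosF {z : K} (hz : z ≠ 0) {x : Place K} : x ∈ zerosF z ↔ x.val z < 1 := by
  rw [x.val_lt_one_iff, x.val_le_iff hz]
  simp only [zerosF, Finset.mem_filter, Finsupp.mem_support_iff, divF_apply]
  omega

lemma Place.res_unique (x : Place K) {v : K} {a b : ℂ} (ha : x.val (v - algebraMap ℂ K a) < 1)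
    (hb : x.val (v - algebraMap ℂ K b) < 1) : a = b := by
  have h3 := x.val.map_sub_lt hb ha
  rw [sub_sub_sub_cancel_left, ← map_sub] at h3
  exact sub_eq_zero.1 (x.const_eq_zero h3)

end FF

variable [Algebra (RatFunc ℂ) K] [IsScalarTower ℂ (RatFunc ℂ) K]
  [FiniteDimensional (RatFunc ℂ) K]

lemma exists_deriv : ∃ D : Derivation ℂ K K, D ≠ 0 := by
  haveI : Algebra.EssFiniteType (Polynomial ℂ) (RatFunc ℂ) :=
    Algebra.EssFiniteType.of_isLocalization _ (nonZeroDivisors (Polynomial ℂ))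
  haveI := Algebra.EssFiniteType.comp ℂ (Polynomial ℂ) (RatFunc ℂ)
  haveI := Algebra.EssFiniteType.comp ℂ (RatFunc ℂ) K
  by_contra h
  push Not at h
  haveI : Algebra.FormallyUnramified ℂ K := by
    rw [Algebra.formallyUnramified_iff]
    refine subsingleton_of_forall_eq 0 fun ω => (Module.forall_dual_apply_eq_zero_iff K ω).1
      fun φ => ?_
    have := h (KaehlerDifferential.linearMapEquivDerivation ℂ K φ)
    rw [LinearEquiv.map_eq_zero_iff] at this
    rw [this]; rfl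
  exact uu_transc (K := K)
    ((Algebra.FormallyUnramified.isSeparable ℂ K).isSeparable ℂ _).isIntegral.isAlgebraic

end Pool.Agent.Lib.MP_eeb174_ag
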