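import Pool.Agent.Lib.MP_eeb174_ag.Dual
import Pool.Agent.Lib.MP_eeb174_ag.RH

open Filter Set WithZero Module Finsupp

noncomputable section

namespace Pool.Agent.Lib.MP_eeb174_ag

/-- Divisors. -/
abbrev Dv (K : Type) [Field K] [Algebra ℂ K] : Type := Place K →₀ ℤ

variable {K : Type} [Field K] [Algebra ℂ K]

section FF
variable [IsFF K]

/-- The Riemann-Roch space. -/
def LL (D : Dv K) : Submodule ℂ K where
  carrier := {z | ∀ x : Place K, x.val z ≤ exp (D x)}
  add_mem' := fun ha hb x => x.val.map_add_le (ha x) (hb x)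
  zero_mem' := fun x => by simp
  smul_mem' := fun c z hz x => (x.val_smul_le c z).trans (hz x)

lemma mem_LL {D : Dv K} {z : K} : z ∈ LL D ↔ ∀ x : Place K, x.val z ≤ exp (D x) := Iff.rfl

/-- Dimension of the Riemann-Roch space. -/
def el (D : Dv K) : ℤ := finrank ℂ (LL D)

lemma el_nonneg (D : Dv K) : 0 ≤ el D := Int.natCast_nonneg _

lemma Place.val_le_exp_iff (x : Place K) {z : K} (hz : z ≠ 0) {m : ℤ} :
    x.val z ≤ exp m ↔ -m ≤ x.ord z := by
  rw [← x.val_le_iff hz, neg_neg]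

lemma Place.val_eq_exp_iff (x : Place K) {z : K} {m : ℤ} :
    x.val z = exp m ↔ z ≠ 0 ∧ x.ord z = -m := by
  constructor
  · intro h
    have hz : z ≠ 0 := by rintro rfl; simp at h; exact exp_ne_zero h.symm
    exact ⟨hz, x.ord_eq_of_val (by rw [h, neg_neg])⟩
  · rintro ⟨hz, h⟩
    rw [x.val_eq hz, h, neg_neg]

lemma Place.val_eq_of_not_le (x : Place K) {z : K} {m : ℤ} (h : x.val z ≤ exp m)
    (h' : ¬ x.val z ≤ exp (m - 1)) : x.val z = exp m :=
  le_antisymm h (not_lt.1 fun h1 => h' (x.val_lt_exp_iff.1 h1))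

lemma Place.not_le_of_val_eq (x : Place K) {z : K} {m : ℤ} (h : x.val z = exp m) :
    ¬ x.val z ≤ exp (m - 1) := by
  rw [h, exp_le_exp]; omega

lemma mem_LL_iff {D : Dv K} {z : K} (hz : z ≠ 0) : z ∈ LL D ↔ 0 ≤ D + divF z := by
  simp only [mem_LL, Place.val_le_exp_iff _ hz, Finsupp.le_def, Finsupp.add_apply, divF_apply,
    Finsupp.coe_zero, Pi.zero_apply]
  exact forall_congr' fun x => by omega

lemma mem_LL_iff_ord {D : Dv K} {z : K} (hz : z ≠ 0) : z ∈ LL D ↔ ∀ x, -D x ≤ x.ord z := by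
  simp only [mem_LL, Place.val_le_exp_iff _ hz]

lemma LL_mono {D E : Dv K} (h : D ≤ E) : LL D ≤ LL E :=
  fun _ hz x => (hz x).trans (exp_le_exp.2 (h x))

lemma mul_mem_LL {D E : Dv K} {a b : K} (ha : a ∈ LL D) (hb : b ∈ LL E) : a * b ∈ LL (D + E) :=
  fun x => by
    rw [map_mul, Finsupp.add_apply, exp_add]
    exact mul_le_mul' (ha x) (hb x)

lemma one_mem_LL {D : Dv K} : (1 : K) ∈ LL D ↔ 0 ≤ D := by
  simp only [mem_LL, map_one, Finsupp.le_def, Finsupp.coe_zero, Pi.zero_apply]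
  exact forall_congr' fun x => by rw [← exp_zero, exp_le_exp]

lemma const_mem_LL {D : Dv K} (h : 0 ≤ D) (c : ℂ) : algebraMap ℂ K c ∈ LL D := by
  rw [Algebra.algebraMap_eq_smul_one]
  exact (LL D).smul_mem c (one_mem_LL.2 h)

lemma divF_mul {a b : K} (ha : a ≠ 0) (hb : b ≠ 0) : divF (a * b) = divF a + divF b := by
  ext x; simp [x.ord_mul ha hb]

@[simp] lemma divF_one : divF (1 : K) = 0 := by ext x; simp

lemma divF_zpow (a : K) (m : ℤ) : divF (a ^ m) = m • divF a := by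
  ext x; simp [x.ord_zpow]

lemma divF_pow (a : K) (m : ℕ) : divF (a ^ m) = (m : ℤ) • divF a := by
  rw [← divF_zpow, zpow_natCast]

lemma divF_inv (a : K) : divF a⁻¹ = -divF a := by
  rw [← zpow_neg_one, divF_zpow]; simp

lemma divF_div {a b : K} (ha : a ≠ 0) (hb : b ≠ 0) : divF (a / b) = divF a - divF b := by
  rw [div_eq_mul_inv, divF_mul ha (inv_ne_zero hb), divF_inv, sub_eq_add_neg]

lemma divF_const (c : ℂ) : divF (algebraMap ℂ K c) = 0 := by
  ext x
  by_cases hc : c = 0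
  · simp [hc]
  · simpa using x.ord_eq_of_val (m := 0) (by simpa using x.val_const hc)

lemma mem_LL_neg_divF (z : K) : z ∈ LL (-divF z) := by
  by_cases hz : z = 0
  · simp [hz]
  · rw [mem_LL_iff hz]; simp

lemma mem_LL_add_divF {D : Dv K} {w z : K} (hw : w ≠ 0) : z ∈ LL (D + divF w) ↔ z * w ∈ LL D := by
  by_cases hz : z = 0
  · simp [hz]
  · rw [mem_LL_iff hz, mem_LL_iff (mul_ne_zero hz hw), divF_mul hz hw, add_assoc, add_comm (divF w)]

lemma mem_LL_sub_single {D : Dv K} {z : K} {x : Place K} {m : ℤ} (hm : 0 ≤ m) :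
    z ∈ LL (D - single x m) ↔ z ∈ LL D ∧ x.val z ≤ exp (D x - m) := by
  classical
  refine ⟨fun h => ⟨LL_mono (sub_le_self _ (by simpa using hm)) h, by simpa using h x⟩,
    fun h y => ?_⟩
  by_cases hy : x = y
  · subst hy; simpa using h.2
  · simpa [Finsupp.single_apply, hy] using h.1 y

lemma val_eq_of_not_mem {D : Dv K} {z : K} {x : Place K} (h : z ∈ LL D)
    (h' : z ∉ LL (D - single x 1)) : x.val z = exp (D x) :=
  x.val_eq_of_not_le (h x) fun h1 => h' ((mem_LL_sub_single zero_le_one).2 ⟨h, h1⟩)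

lemma not_mem_of_val_eq {D : Dv K} {z : K} {x : Place K} (h : x.val z = exp (D x)) :
    z ∉ LL (D - single x 1) :=
  fun h1 => x.not_le_of_val_eq h ((mem_LL_sub_single zero_le_one).1 h1).2

/-- Multiplication by a nonzero function as a linear equivalence of Riemann-Roch spaces. -/
lemma LL_add_divF (D : Dv K) {w : K} (hw : w ≠ 0) :
    (LL (D + divF w)).map (LinearMap.mulRight ℂ w) = LL D := by
  ext z
  simp only [Submodule.mem_map, LinearMap.mulRight_apply, mem_LL_add_divF hw]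
  exact ⟨by rintro ⟨y, hy, rfl⟩; exact hy, fun h => ⟨z / w, by rwa [div_mul_cancel₀ _ hw],
    div_mul_cancel₀ _ hw⟩⟩

omit [IsFF K] in
lemma finrank_map_mul (V : Submodule ℂ K) {w : K} (hw : w ≠ 0) :
    finrank ℂ (V.map (LinearMap.mulRight ℂ w)) = finrank ℂ V :=
  (Submodule.equivMapOfInjective _ (mul_left_injective₀ hw) V).finrank_eq.symm

lemma el_add_divF (D : Dv K) {w : K} (hw : w ≠ 0) : el (D + divF w) = el D := by
  rw [el, el, ← LL_add_divF D hw, finrank_map_mul _ hw]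

/-- Linear equivalence of divisors. -/
def LinEq (D E : Dv K) : Prop := ∃ w : K, w ≠ 0 ∧ E = D + divF w

lemma LinEq.refl (D : Dv K) : LinEq D D := ⟨1, one_ne_zero, by simp⟩

lemma LinEq.symm {D E : Dv K} (h : LinEq D E) : LinEq E D := by
  obtain ⟨w, hw, rfl⟩ := h
  exact ⟨w⁻¹, inv_ne_zero hw, by simp [divF_inv]⟩

lemma LinEq.add {D E D' E' : Dv K} (h : LinEq D E) (h' : LinEq D' E') :
    LinEq (D + D') (E + E') := by
  obtain ⟨w, hw, rfl⟩ := h
  obtain ⟨w', hw', rfl⟩ := h'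
  exact ⟨w * w', mul_ne_zero hw hw', by rw [divF_mul hw hw']; abel⟩

lemma LinEq.trans {D E G : Dv K} (h : LinEq D E) (h' : LinEq E G) : LinEq D G := by
  obtain ⟨w, hw, rfl⟩ := h
  obtain ⟨w', hw', rfl⟩ := h'
  exact ⟨w * w', mul_ne_zero hw hw', by rw [divF_mul hw hw']; abel⟩

lemma LinEq.neg {D E : Dv K} (h : LinEq D E) : LinEq (-D) (-E) := by
  obtain ⟨w, hw, rfl⟩ := h
  exact ⟨w⁻¹, inv_ne_zero hw, by rw [divF_inv]; abel⟩

lemma LinEq.sub {D E D' E' : Dv K} (h : LinEq D E) (h' : LinEq D' E') :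
    LinEq (D - D') (E - E') := by
  simpa only [sub_eq_add_neg] using h.add h'.neg

lemma LinEq.zsmul {D E : Dv K} (h : LinEq D E) (m : ℤ) : LinEq (m • D) (m • E) := by
  obtain ⟨w, hw, rfl⟩ := h
  exact ⟨w ^ m, zpow_ne_zero _ hw, by rw [divF_zpow, smul_add]⟩

lemma LinEq.el_eq {D E : Dv K} (h : LinEq D E) : el D = el E := by
  obtain ⟨w, hw, rfl⟩ := h
  exact (el_add_divF D hw).symm

lemma linEq_iff_sub {D E : Dv K} : LinEq D E ↔ LinEq 0 (E - D) :=
  ⟨fun h => by simpa using h.sub (LinEq.refl D), fun h => by simpa using h.add (LinEq.refl D)⟩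

/-- The polar divisor. -/
def pol (f : K) : Dv K := Finsupp.mapRange (fun n => max (-n) 0) (by simp) (divF f)

lemma pol_apply (f : K) (x : Place K) : pol f x = max (-x.ord f) 0 := by simp [pol]

lemma pol_nonneg (f : K) : 0 ≤ pol f := fun x => by simp [pol_apply]

lemma one_mem_pol (f : K) : (1 : K) ∈ LL (pol f) := one_mem_LL.2 (pol_nonneg f)

lemma mem_pol (f : K) : f ∈ LL (pol f) :=
  LL_mono (fun x => by simp [pol_apply]) (mem_LL_neg_divF f)

lemma pol_le {f : K} {D : Dv K} (h0 : 0 ≤ D) (h : f ∈ LL D) : pol f ≤ D := by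
  intro x
  by_cases hf : f = 0
  · simpa [pol_apply, hf] using h0 x
  · have h1 := (mem_LL_iff_ord hf).1 h x
    have h2 : 0 ≤ D x := h0 x
    rw [pol_apply]; omega

/-- `D` is the smallest divisor whose Riemann-Roch space contains `V`. -/
structure IsBase (V : Submodule ℂ K) (D : Dv K) : Prop where
  le : V ≤ LL D
  ex : ∀ x, ∃ v ∈ V, x.val v = exp (D x)

lemma IsBase.le_of {V : Submodule ℂ K} {D E : Dv K} (h : IsBase V D) (hE : V ≤ LL E) : D ≤ E := by
  intro x
  obtain ⟨v, hv, h1⟩ := h.ex x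
  have := hE hv x
  rwa [h1, exp_le_exp] at this

lemma IsBase.unique {V : Submodule ℂ K} {D E : Dv K} (h : IsBase V D) (h' : IsBase V E) : D = E :=
  le_antisymm (h.le_of h'.le) (h'.le_of h.le)

lemma exists_isBase (V : Submodule ℂ K) [FiniteDimensional ℂ V] (hV : V ≠ ⊥) :
    ∃ D, IsBase V D := by
  classical
  obtain ⟨s, hs⟩ := Module.Finite.iff_fg.1 (inferInstance : Module.Finite ℂ V)
  have hne : (s.erase 0).Nonempty := by
    by_contra h
    rw [Finset.not_nonempty_iff_eq_empty] at h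
    apply hV
    rw [← hs, Submodule.span_eq_bot]
    intro v hv
    by_contra h0
    have : v ∈ s.erase 0 := Finset.mem_erase.2 ⟨h0, hv⟩
    simp [h] at this
  refine ⟨(s.erase 0).sup' hne fun v => -divF v, ?_, fun x => ?_⟩
  · rw [← hs, Submodule.span_le]
    intro v hv
    by_cases h0 : v = 0
    · simp [h0]
    · exact LL_mono (Finset.le_sup' (fun v => -divF v) (Finset.mem_erase.2 ⟨h0, hv⟩))
        (mem_LL_neg_divF v)
  · have h1 : ((s.erase 0).sup' hne fun v => -divF v) x =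
        (s.erase 0).sup' hne fun v => (-divF v) x :=
      Finset.apply_sup'_eq_sup'_comp hne (fun D : Dv K => D x) fun _ _ => Finsupp.sup_apply _ _ _
    obtain ⟨v, hv, h2⟩ := Finset.exists_mem_eq_sup' hne fun v => (-divF v) x
    refine ⟨v, hs ▸ Submodule.subset_span (Finset.mem_erase.1 hv).2, ?_⟩
    rw [h1, h2, x.val_eq (Finset.mem_erase.1 hv).1]
    simp

lemma exists_sub_smul_mem {D : Dv K} {x : Place K} {v w : K} (hv : v ∈ LL D)
    (hx : x.val v = exp (D x)) (hw : w ∈ LL D) : ∃ c : ℂ, w - c • v ∈ LL (D - single x 1) := by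
  have h0 : v ≠ 0 := (x.val_eq_exp_iff.1 hx).1
  have h1 : w / v ∈ x.O := by
    rw [x.mem_iff, map_div₀, hx, div_le_one₀ exp_pos]; exact hw x
  obtain ⟨c, hc⟩ := x.exists_res h1
  refine ⟨c, (mem_LL_sub_single zero_le_one).2 ⟨sub_mem hw ((LL D).smul_mem c hv), ?_⟩⟩
  have : w - c • v = (w / v - algebraMap ℂ K c) * v := by
    rw [Algebra.smul_def]; field_simp
  rw [← x.val_lt_exp_iff, this, map_mul, hx]
  exact mul_lt_of_lt_one_left exp_pos hc

lemma finrank_inf_le (V : Submodule ℂ K) [FiniteDimensional ℂ V] {D : Dv K} (h : V ≤ LL D)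
    (x : Place K) : finrank ℂ V ≤ finrank ℂ (V ⊓ LL (D - single x 1) : Submodule ℂ K) + 1 := by
  by_cases h1 : V ≤ LL (D - single x 1)
  · rw [inf_eq_left.2 h1]; omega
  · obtain ⟨v, hv, hv'⟩ := SetLike.not_le_iff_exists.1 h1
    have h2 : V ≤ (V ⊓ LL (D - single x 1)) ⊔ ℂ ∙ v := fun w hw => by
      obtain ⟨c, hc⟩ := exists_sub_smul_mem (h hv) (val_eq_of_not_mem (h hv) hv') (h hw)
      rw [← sub_add_cancel w (c • v)]
      exact Submodule.add_mem_sup ⟨sub_mem hw (V.smul_mem c hv), hc⟩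
        (Submodule.smul_mem _ c (Submodule.mem_span_singleton_self v))
    refine (Submodule.finrank_mono h2).trans ((Submodule.finrank_add_le_finrank_add_finrank _ _).trans
      ?_)
    have := finrank_span_le_card (R := ℂ) ({v} : Set K)
    simp only [Set.toFinset_singleton, Finset.card_singleton] at this
    omega

lemma IsBase.finrank_inf {V : Submodule ℂ K} [FiniteDimensional ℂ V] {D : Dv K} (h : IsBase V D)
    (x : Place K) : finrank ℂ (V ⊓ LL (D - single x 1) : Submodule ℂ K) + 1 = finrank ℂ V := by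
  refine le_antisymm ?_ (finrank_inf_le V h.le x)
  obtain ⟨v, hv, h1⟩ := h.ex x
  exact Submodule.finrank_lt_finrank_of_lt (lt_of_le_of_ne inf_le_left fun h2 =>
    not_mem_of_val_eq h1 (inf_eq_left.1 h2 hv))

end FF

variable [Algebra (RatFunc ℂ) K] [IsScalarTower ℂ (RatFunc ℂ) K] [FiniteDimensional (RatFunc ℂ) K]

lemma LL_eq_map (D : Dv K) : LL D = (sec (line (1 : Fin 1 → K) D) 0).map
    (LinearEquiv.funUnique (Fin 1) ℂ K : (Fin 1 → K) →ₗ[ℂ] K) := by
  ext z
  simp only [Submodule.mem_map, mem_sec, tw_zero, one_smul, mem_line_one, mem_LL]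
  exact ⟨fun h => ⟨fun _ => z, h, rfl⟩, by rintro ⟨w, hw, rfl⟩; exact hw⟩

instance (D : Dv K) : FiniteDimensional ℂ (LL D) := by
  rw [LL_eq_map]; infer_instance

lemma el_eq_ell (D : Dv K) : el D = ell K D := by
  rw [el, LL_eq_map, LinearEquiv.finrank_map_eq]; rfl

lemma finiteDimensional_of_le_LL {V : Submodule ℂ K} {D : Dv K} (h : V ≤ LL D) :
    FiniteDimensional ℂ V := Submodule.finiteDimensional_of_le h

variable (K) in
/-- The genus. -/
def gen : ℤ := 1 - chiO K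

/-- Riemann-Roch. -/
lemma rr (D : Dv K) : el D - el (canon K - D) = degree D + 1 - gen K := by
  rw [el_eq_ell, el_eq_ell, ell_sub, gen]; ring

lemma degree_canon' : degree (canon K) = 2 * gen K - 2 := by rw [degree_canon, gen]; ring

lemma el_eq_zero {D : Dv K} (h : degree D < 0) : el D = 0 := by
  rw [el_eq_ell, ell_eq_zero h]

lemma el_eq {D : Dv K} (h : 2 * gen K - 2 < degree D) : el D = degree D + 1 - gen K := by
  rw [el_eq_ell, ell_eq (by rw [gen] at h; omega), gen]; ring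

lemma le_el (D : Dv K) : degree D + 1 - gen K ≤ el D := by
  have := rr D
  have := el_nonneg (canon K - D)
  omega

lemma el_mono {D E : Dv K} (h : D ≤ E) : el D ≤ el E :=
  Int.ofNat_le.2 (Submodule.finrank_mono (LL_mono h))

lemma finrank_le_el {V : Submodule ℂ K} {D : Dv K} (h : V ≤ LL D) : (finrank ℂ V : ℤ) ≤ el D :=
  Int.ofNat_le.2 (Submodule.finrank_mono h)

lemma eq_LL_of_finrank {V : Submodule ℂ K} {D : Dv K} (h : V ≤ LL D)
    (h' : el D ≤ finrank ℂ V) : V = LL D :=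
  Submodule.eq_of_le_of_finrank_le h (Int.ofNat_le.1 h')

lemma el_pos_iff {D : Dv K} : 0 < el D ↔ ∃ z, z ≠ 0 ∧ z ∈ LL D := by
  rw [el, Int.natCast_pos, pos_iff_ne_zero, Ne, Submodule.finrank_eq_zero,
    ← Ne, Submodule.ne_bot_iff]
  simp only [and_comm]

lemma eq_zero_of_el {D : Dv K} (h : el D ≤ 0) {z : K} (hz : z ∈ LL D) : z = 0 := by
  by_contra h0
  have := el_pos_iff.2 ⟨z, h0, hz⟩
  omega

lemma LL_inf_single (D : Dv K) (x : Place K) : LL D ⊓ LL (D - single x 1) = LL (D - single x 1) :=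
  inf_eq_right.2 (LL_mono (sub_le_self _ (by simp)))

lemma el_le_sub_single (D : Dv K) (x : Place K) : el D ≤ el (D - single x 1) + 1 := by
  have := finrank_inf_le (LL D) le_rfl x
  rw [LL_inf_single] at this
  rw [el, el]; omega

lemma el_sub_single_le (D : Dv K) (x : Place K) : el (D - single x 1) ≤ el D :=
  el_mono (sub_le_self _ (by simp))

omit [Algebra (RatFunc ℂ) K] [IsScalarTower ℂ (RatFunc ℂ) K] [FiniteDimensional (RatFunc ℂ) K] in
lemma degree_single' (x : Place K) (m : ℤ) : degree (single x m : Dv K) = m :=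
  Finsupp.degree_single _ _

omit [Algebra (RatFunc ℂ) K] [IsScalarTower ℂ (RatFunc ℂ) K] [FiniteDimensional (RatFunc ℂ) K] in
lemma degree_mono {D E : Dv K} (h : D ≤ E) : degree D ≤ degree E := by
  have := degree_nonneg (sub_nonneg.2 h)
  rw [map_sub] at this; omega

omit [Algebra (RatFunc ℂ) K] [IsScalarTower ℂ (RatFunc ℂ) K] [FiniteDimensional (RatFunc ℂ) K] in
lemma eq_zero_of_degree {B : Dv K} (h : 0 ≤ B) (h' : degree B ≤ 0) : B = 0 := by
  ext x
  have h1 := le_degree_of_nonneg h x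
  have h2 : 0 ≤ B x := h x
  simp only [Finsupp.coe_zero, Pi.zero_apply]; omega

omit [Algebra (RatFunc ℂ) K] [IsScalarTower ℂ (RatFunc ℂ) K] [FiniteDimensional (RatFunc ℂ) K] in
lemma eq_of_le_of_degree {D E : Dv K} (h : D ≤ E) (h' : degree E ≤ degree D) : D = E := by
  have := eq_zero_of_degree (sub_nonneg.2 h) (by rw [map_sub]; omega)
  exact (sub_eq_zero.1 this).symm

omit [Algebra (RatFunc ℂ) K] [IsScalarTower ℂ (RatFunc ℂ) K] [FiniteDimensional (RatFunc ℂ) K] in
lemma single_le_of_pos {B : Dv K} (h : 0 ≤ B) {x : Place K} (hx : 0 < B x) : single x 1 ≤ B := by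
  classical
  intro y
  by_cases hy : x = y
  · subst hy; rw [Finsupp.single_eq_same]; omega
  · simpa [Finsupp.single_apply, hy] using h y

omit [Algebra (RatFunc ℂ) K] [IsScalarTower ℂ (RatFunc ℂ) K] [FiniteDimensional (RatFunc ℂ) K] in
/-- Induction over effective divisors, adding one point at a time. -/
lemma eff_induction {P : Dv K → Prop} (h0 : P 0)
    (h1 : ∀ B x, 0 ≤ B → P B → P (B + single x 1)) {B : Dv K} (hB : 0 ≤ B) : P B := by
  obtain ⟨m, hm⟩ := Int.eq_ofNat_of_zero_le (degree_nonneg hB)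
  induction m generalizing B with
  | zero => rw [eq_zero_of_degree hB hm.le]; exact h0
  | succ m ih =>
    have h2 : B ≠ 0 := by rintro rfl; simp at hm; omega
    obtain ⟨x, hx⟩ := Finsupp.ne_iff.1 h2
    have h3 : 0 ≤ B - single x 1 :=
      sub_nonneg.2 (single_le_of_pos hB (lt_of_le_of_ne (hB x) (Ne.symm hx)))
    have := h1 _ x h3 (ih h3 (by rw [map_sub, degree_single']; push_cast at hm; omega))
    rwa [sub_add_cancel] at this

omit [Algebra (RatFunc ℂ) K] [IsScalarTower ℂ (RatFunc ℂ) K] [FiniteDimensional (RatFunc ℂ) K] in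
lemma eq_single_of_degree_one {B : Dv K} (h : 0 ≤ B) (h' : degree B = 1) :
    ∃ x, B = single x 1 := by
  have h2 : B ≠ 0 := by rintro rfl; simp at h'
  obtain ⟨x, hx⟩ := Finsupp.ne_iff.1 h2
  exact ⟨x, (eq_of_le_of_degree (single_le_of_pos h (lt_of_le_of_ne (h x) (Ne.symm hx)))
    (by rw [degree_single', h'])).symm⟩

lemma el_le_sub (D : Dv K) {B : Dv K} (hB : 0 ≤ B) : el D ≤ el (D - B) + degree B := by
  refine eff_induction (P := fun B => el D ≤ el (D - B) + degree B) (by simp) (fun B x _ h => ?_) hB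
  have := el_le_sub_single (D - B) x
  rw [map_add, degree_single', ← sub_sub]
  omega

lemma finrank_le_inf (V : Submodule ℂ K) {D : Dv K} (h : V ≤ LL D) {B : Dv K} (hB : 0 ≤ B) :
    (finrank ℂ V : ℤ) ≤ finrank ℂ (V ⊓ LL (D - B) : Submodule ℂ K) + degree B := by
  have := finiteDimensional_of_le_LL h
  refine eff_induction (P := fun B => (finrank ℂ V : ℤ) ≤
    finrank ℂ (V ⊓ LL (D - B) : Submodule ℂ K) + degree B) (by rw [sub_zero, inf_eq_left.2 h]; simp)
    (fun B x _ h1 => ?_) hB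
  have h2 := finrank_inf_le (V ⊓ LL (D - B)) inf_le_right x
  rw [inf_assoc, LL_inf_single] at h2
  rw [map_add, degree_single', ← sub_sub]
  omega

lemma exists_exact {D : Dv K} {x : Place K} (h : el (D - single x 1) < el D) :
    ∃ z ∈ LL D, x.val z = exp (D x) := by
  have h1 : ¬ LL D ≤ LL (D - single x 1) := fun h1 => by
    have := finrank_le_el h1
    rw [el] at h; rw [el] at h this; omega
  obtain ⟨z, hz, hz'⟩ := SetLike.not_le_iff_exists.1 h1
  exact ⟨z, hz, val_eq_of_not_mem hz hz'⟩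

lemma el_sub_single_of_exact {D : Dv K} {x : Place K} {z : K} (hz : z ∈ LL D)
    (h : x.val z = exp (D x)) : el (D - single x 1) + 1 = el D := by
  refine le_antisymm ?_ (el_le_sub_single D x)
  have := Submodule.finrank_lt_finrank_of_lt (lt_of_le_of_ne
    (LL_mono (sub_le_self D (show 0 ≤ single x 1 by simp))) fun h2 =>
      not_mem_of_val_eq h (h2 ▸ hz))
  rw [el, el]; omega

lemma exists_exact_of_degree {D : Dv K} (h : 2 * gen K ≤ degree D) (x : Place K) :
    ∃ z ∈ LL D, x.val z = exp (D x) :=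
  exists_exact (by
    rw [el_eq (D := D) (by omega), el_eq (by rw [map_sub, degree_single']; omega), map_sub,
      degree_single']
    omega)

lemma exists_exact_finite (V : Submodule ℂ K) {D : Dv K} (h : V ≤ LL D) {S : Set (Place K)}
    (hS : S.Finite) (hx : ∀ x ∈ S, ∃ z ∈ V, x.val z = exp (D x)) :
    ∃ z ∈ V, ∀ x ∈ S, x.val z = exp (D x) := by
  have := hS.to_subtype
  obtain ⟨z, hz⟩ := Submodule.exists_forall_notMem_of_forall_ne_top
    (fun x : S => (LL (D - single x.1 1)).comap V.subtype) fun x h1 => by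
      obtain ⟨z, hz, h2⟩ := hx x x.2
      exact not_mem_of_val_eq h2 (h1.ge (Submodule.mem_top (x := (⟨z, hz⟩ : V))))
  exact ⟨z, z.2, fun x hx => val_eq_of_not_mem (h z.2) (hz ⟨x, hx⟩)⟩

lemma LinEq.degree_eq {D E : Dv K} (h : LinEq D E) : degree D = degree E := by
  obtain ⟨w, -, rfl⟩ := h
  rw [map_add, degree_divF, add_zero]

lemma degree_nonneg_of_mem {D : Dv K} {z : K} (hz : z ≠ 0) (h : z ∈ LL D) : 0 ≤ degree D := by
  have := degree_nonneg ((mem_LL_iff hz).1 h)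
  rwa [map_add, degree_divF, add_zero] at this

lemma eq_neg_divF_of_degree {D : Dv K} {z : K} (hz : z ≠ 0) (h : z ∈ LL D) (h0 : degree D ≤ 0) :
    D = -divF z :=
  eq_neg_of_add_eq_zero_left (eq_zero_of_degree ((mem_LL_iff hz).1 h)
    (by rwa [map_add, degree_divF, add_zero]))

lemma el_pos_iff_linEq {D : Dv K} : 0 < el D ↔ ∃ Z, 0 ≤ Z ∧ LinEq D Z := by
  rw [el_pos_iff]
  exact ⟨fun ⟨z, hz, h⟩ => ⟨_, (mem_LL_iff hz).1 h, z, hz, rfl⟩,
    fun ⟨Z, hZ, z, hz, h⟩ => ⟨z, hz, (mem_LL_iff hz).2 (h ▸ hZ)⟩⟩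

lemma degree_le_of_el_pos {D E : Dv K} (h : 0 < el (E - D)) : degree D ≤ degree E := by
  obtain ⟨z, hz, h⟩ := el_pos_iff.1 h
  have := degree_nonneg_of_mem hz h
  rw [map_sub] at this; omega

lemma linEq_of_el_pos {D E : Dv K} (h : 0 < el (E - D)) (h' : degree E ≤ degree D) :
    LinEq D E := by
  obtain ⟨z, hz, h⟩ := el_pos_iff.1 h
  have := eq_neg_divF_of_degree hz h (by rw [map_sub]; omega)
  exact ⟨z⁻¹, inv_ne_zero hz, by rw [divF_inv, ← this]; abel⟩

lemma el_le_of_el_pos {D E : Dv K} (h : 0 < el (E - D)) : el D ≤ el E := by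
  obtain ⟨Z, hZ, h⟩ := el_pos_iff_linEq.1 h
  have h1 : LinEq E (D + Z) := by simpa [add_comm] using h.add (LinEq.refl D)
  rw [h1.el_eq]
  exact el_mono (le_add_of_nonneg_right hZ)

lemma el_pos_add {D E : Dv K} (h : 0 < el D) (h' : 0 < el E) : 0 < el (D + E) := by
  obtain ⟨z, hz, h⟩ := el_pos_iff.1 h
  obtain ⟨w, hw, h'⟩ := el_pos_iff.1 h'
  exact el_pos_iff.2 ⟨z * w, mul_ne_zero hz hw, mul_mem_LL h h'⟩

lemma mem_LL_zero {z : K} : z ∈ LL (0 : Dv K) ↔ ∃ c : ℂ, z = algebraMap ℂ K c :=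
  ⟨fun h => exists_const fun x => x.mem_iff.2 (by simpa using h x),
    by rintro ⟨c, rfl⟩; exact const_mem_LL le_rfl c⟩

lemma LL_zero : LL (0 : Dv K) = ℂ ∙ (1 : K) := by
  ext z
  simp only [mem_LL_zero, Submodule.mem_span_singleton, Algebra.algebraMap_eq_smul_one, eq_comm]

@[simp] lemma el_zero : el (0 : Dv K) = 1 := by
  rw [el, LL_zero, finrank_span_singleton one_ne_zero]; rfl

lemma el_canon : el (canon K) = gen K := by
  have := rr (0 : Dv K)
  simp at this; omega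

lemma gen_nonneg : 0 ≤ gen K := el_canon (K := K) ▸ el_nonneg _

lemma el_le_degree_succ {D : Dv K} (h : 0 < el D) : el D ≤ degree D + 1 := by
  obtain ⟨Z, hZ, h⟩ := el_pos_iff_linEq.1 h
  have := el_le_sub Z hZ
  rw [h.el_eq, h.degree_eq]
  simp at this; omega

lemma two_le_el_iff {D : Dv K} :
    2 ≤ el D ↔ ∃ a b : K, a ∈ LL D ∧ b ∈ LL D ∧ a ≠ 0 ∧ ∀ c : ℂ, b ≠ c • a := by
  constructor
  · intro h
    obtain ⟨a, ha, h1⟩ := el_pos_iff.1 (show 0 < el D by omega)
    have h2 : ¬ LL D ≤ ℂ ∙ a := fun h2 => by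
      have := Submodule.finrank_mono h2
      rw [finrank_span_singleton ha] at this
      rw [el] at h; omega
    obtain ⟨b, hb, h3⟩ := SetLike.not_le_iff_exists.1 h2
    exact ⟨a, b, h1, hb, ha, fun c hc => h3 (Submodule.mem_span_singleton.2 ⟨c, hc.symm⟩)⟩
  · rintro ⟨a, b, ha, hb, h0, h⟩
    have h1 : (ℂ ∙ a) < LL D := lt_of_le_of_ne ((Submodule.span_singleton_le_iff_mem _ _).2 ha)
      fun h1 => by
        obtain ⟨c, hc⟩ := Submodule.mem_span_singleton.1 (h1.ge hb)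
        exact h c hc.symm
    have := Submodule.finrank_lt_finrank_of_lt h1
    rw [finrank_span_singleton h0] at this
    rw [el]; omega

omit [Algebra (RatFunc ℂ) K] [IsScalarTower ℂ (RatFunc ℂ) K] [FiniteDimensional (RatFunc ℂ) K] in
lemma transc_ne_const {f : K} (hf : Transcendental ℂ f) (c : ℂ) : f ≠ algebraMap ℂ K c :=
  fun h => hf (h ▸ isAlgebraic_algebraMap c)

lemma transc_div {a b : K} (ha : a ≠ 0) (h : ∀ c : ℂ, b ≠ c • a) : Transcendental ℂ (b / a) :=
  transc_of_not_const fun c hc => h c (by rw [Algebra.smul_def, ← hc, div_mul_cancel₀ _ ha])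

lemma two_le_el_pol {f : K} (hf : Transcendental ℂ f) : 2 ≤ el (pol f) :=
  two_le_el_iff.2 ⟨1, f, one_mem_pol f, mem_pol f, one_ne_zero, fun c hc =>
    transc_ne_const hf c (by rw [hc, Algebra.algebraMap_eq_smul_one])⟩

lemma mem_LL_sub_pol {D : Dv K} {a f : K} (ha : a ∈ LL D) (hb : f * a ∈ LL D) :
    a ∈ LL (D - pol f) := by
  by_cases h0 : a = 0
  · simp [h0]
  by_cases hf : f = 0
  · rwa [show pol f = 0 by ext x; simp [pol_apply, hf], sub_zero]
  rw [mem_LL_iff_ord h0] at ha ⊢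
  rw [mem_LL_iff_ord (mul_ne_zero hf h0)] at hb
  intro x
  have h1 := ha x
  have h2 := hb x
  rw [x.ord_mul hf h0] at h2
  rw [Finsupp.sub_apply, pol_apply]; omega

lemma exists_pol_of_two_le {D : Dv K} (h : 2 ≤ el D) :
    ∃ f, Transcendental ℂ f ∧ 0 < el (D - pol f) := by
  obtain ⟨a, b, ha, hb, h0, h⟩ := two_le_el_iff.1 h
  exact ⟨b / a, transc_div h0 h, el_pos_iff.2 ⟨a, h0,
    mem_LL_sub_pol ha (by rwa [div_mul_cancel₀ _ h0])⟩⟩

/-- The base point free pencil trick. -/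
lemma pencil_trick {f : K} (hf : f ≠ 0) (D : Dv K) :
    2 * el D ≤ el (D + pol f) + el (D - pol f) := by
  have h1 := Submodule.finrank_sup_add_finrank_inf_eq (LL D) (LL (D - divF f))
  have h2 : LL D ⊔ LL (D - divF f) ≤ LL (D + pol f) :=
    sup_le (LL_mono (le_add_of_nonneg_right (pol_nonneg f)))
      (LL_mono fun x => by simp [pol_apply]; omega)
  have h3 : LL D ⊓ LL (D - divF f) ≤ LL (D - pol f - divF f) := fun z hz x => by
    have h4 := hz.1 x
    have h5 := hz.2 x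
    simp only [Finsupp.sub_apply, divF_apply, pol_apply] at h5 ⊢
    rcases le_total (x.ord f) 0 with h | h
    · rwa [max_eq_left (by omega), show D x - -x.ord f - x.ord f = D x by ring]
    · rwa [max_eq_right (by omega), sub_zero]
  have h4 := finrank_le_el h2
  have h5 := finrank_le_el h3
  have h6 : ∀ E : Dv K, el (E - divF f) = el E := fun E => by
    rw [sub_eq_add_neg, ← divF_inv, el_add_divF _ (inv_ne_zero hf)]
  have h7 := h6 D
  rw [h6] at h5
  rw [el, el] at h7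
  rw [el]
  omega

/-- Two effective divisors of small degree that are linearly equivalent are equal. -/
lemma eq_of_linEq {n : ℤ} (hn : ∀ D : Dv K, 2 ≤ el D → n ≤ degree D) {A B : Dv K} (hA : 0 ≤ A)
    (hB : 0 ≤ B) (h : LinEq A B) (hd : degree A < n) : A = B := by
  obtain ⟨w, hw, rfl⟩ := h
  by_cases h1 : ∃ c : ℂ, w = c • (1 : K)
  · obtain ⟨c, rfl⟩ := h1
    rw [← Algebra.algebraMap_eq_smul_one, divF_const, add_zero]
  · push Not at h1
    have := hn A (two_le_el_iff.2 ⟨1, w, one_mem_LL.2 hA, (mem_LL_iff hw).2 hB, one_ne_zero, h1⟩)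
    omega

/-- The subfield generated by the ratios of elements of `V`. -/
def KV (V : Submodule ℂ K) : IntermediateField ℂ K :=
  IntermediateField.adjoin ℂ {z | ∃ v ∈ V, ∃ w ∈ V, z = v / w}

omit [Algebra (RatFunc ℂ) K] [IsScalarTower ℂ (RatFunc ℂ) K] [FiniteDimensional (RatFunc ℂ) K] in
lemma div_mem_KV {V : Submodule ℂ K} {v w : K} (hv : v ∈ V) (hw : w ∈ V) : v / w ∈ KV V :=
  IntermediateField.subset_adjoin _ _ ⟨v, hv, w, hw, rfl⟩

omit [Algebra (RatFunc ℂ) K] [IsScalarTower ℂ (RatFunc ℂ) K] [FiniteDimensional (RatFunc ℂ) K] in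
lemma KV_mono {V W : Submodule ℂ K} (h : V ≤ W) : KV V ≤ KV W :=
  IntermediateField.adjoin.mono _ _ _ fun _ ⟨v, hv, w, hw, e⟩ => ⟨v, h hv, w, h hw, e⟩

omit [Algebra (RatFunc ℂ) K] [IsScalarTower ℂ (RatFunc ℂ) K] [FiniteDimensional (RatFunc ℂ) K] in
lemma KV_map_mul (V : Submodule ℂ K) {u : K} (hu : u ≠ 0) :
    KV (V.map (LinearMap.mulRight ℂ u)) = KV V := by
  unfold KV
  congr 1
  ext z
  constructor
  · rintro ⟨_, ⟨v, hv, rfl⟩, _, ⟨w, hw, rfl⟩, rfl⟩
    exact ⟨v, hv, w, hw, mul_div_mul_right _ _ hu⟩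
  · rintro ⟨v, hv, w, hw, rfl⟩
    exact ⟨_, ⟨v, hv, rfl⟩, _, ⟨w, hw, rfl⟩, (mul_div_mul_right _ _ hu).symm⟩

end Pool.Agent.Lib.MP_eeb174_ag
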