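import Pool.Agent.Lib.MP_eeb174_ag.Krull
import Pool.Agent.Lib.MP_eeb174_ag.RR

open Filter Set WithZero Module Finsupp

noncomputable section

namespace Pool.Agent.Lib.MP_eeb174_ag

namespace QU

theorem det_zero {p q : ℕ} (U B : Fin q → Fin p → ℂ) (s : Finset (Fin q)) (hs : s.card < p)
    (hB : ∀ m, m ∉ s → ∀ j, B m j = 0) :
    (Matrix.of fun i j : Fin p => ∑ m, U m i * B m j).det = 0 := by
  classical
  let φ : (Fin p → ℂ) →ₗ[ℂ] (s → ℂ) := Matrix.mulVecLin (Matrix.of fun (m : s) j => B m j)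
  have hk : LinearMap.ker φ ≠ ⊥ := LinearMap.ker_ne_bot_of_finrank_lt (by simpa using hs)
  obtain ⟨x, hx, hx0⟩ := Submodule.exists_mem_ne_zero_of_ne_bot hk
  refine Matrix.exists_mulVec_eq_zero_iff.1 ⟨x, hx0, ?_⟩
  have h1 : ∀ m, ∑ j, B m j * x j = 0 := fun m => by
    by_cases hm : m ∈ s
    · exact congrFun (LinearMap.mem_ker.1 hx) ⟨m, hm⟩
    · simp [hB m hm]
  funext i
  simp only [Matrix.mulVec, dotProduct, Matrix.of_apply, Finset.sum_mul, Pi.zero_apply]
  rw [Finset.sum_comm]
  refine Finset.sum_eq_zero fun m _ => ?_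
  simp only [mul_assoc, ← Finset.mul_sum, h1, mul_zero]

/-- The Gram parametrisation of symmetric matrices of rank at most four. -/
def th (n : ℕ) (ij : Fin n × Fin n) : MvPolynomial (Fin 4 × Fin n) ℂ :=
  ∑ k : Fin 4, MvPolynomial.X (k, ij.1) * MvPolynomial.X (k, ij.2)

theorem eval_th {n : ℕ} (a : Fin 4 × Fin n → ℂ) (ij : Fin n × Fin n) :
    MvPolynomial.eval a (th n ij) = ∑ k : Fin 4, a (k, ij.1) * a (k, ij.2) := by
  simp [th]

def off (n k : ℕ) : ℕ :=
  if k = 0 then 3 * n - 6 else if k = 1 then 2 * n - 5 else if k = 2 then n - 3 else 0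

def SS (n t : ℕ) : Set (Fin 4 × Fin n) :=
  {v | (v.2 : ℕ) < v.1 ∨ off n v.1 + (n - 1 - v.2) < t}

theorem ev_det {ι : Type} {p : ℕ} (ζ : ι → ℂ) (M : Fin p → Fin p → MvPolynomial ι ℂ) :
    MvPolynomial.eval ζ (Matrix.of M).det
      = (Matrix.of fun i j => MvPolynomial.eval ζ (M i j)).det := by
  rw [RingHom.map_det]; rfl

theorem witness {n : ℕ} (hn : 4 ≤ n) (t : ℕ) (ht : t < 4 * n - 6) :
    ∃ w : MvPolynomial (Fin n × Fin n) ℂ,
      (∀ a : Fin 4 × Fin n → ℂ, (∀ v ∈ SS n (t + 1), a v = 0) →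
        MvPolynomial.eval (fun i => MvPolynomial.eval a (th n i)) w = 0) ∧
      ∃ a : Fin 4 × Fin n → ℂ, (∀ v ∈ SS n t, a v = 0) ∧
        MvPolynomial.eval (fun i => MvPolynomial.eval a (th n i)) w ≠ 0 := by
  classical
  obtain ⟨k, l, hk, hkl, hl, hT⟩ :
      ∃ k l : ℕ, k < 4 ∧ k ≤ l ∧ l < n ∧ off n k + (n - 1 - l) = t := by
    by_cases h3 : t < n - 3
    · exact ⟨3, n - 1 - t, by omega, by omega, by omega, by simp [off]; omega⟩
    by_cases h2 : t < 2 * n - 5
    · exact ⟨2, n - 1 - (t - (n - 3)), by omega, by omega, by omega, by simp [off]; omega⟩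
    by_cases h1 : t < 3 * n - 6
    · exact ⟨1, n - 1 - (t - (2 * n - 5)), by omega, by omega, by omega, by simp [off]; omega⟩
    · exact ⟨0, n - 1 - (t - (3 * n - 6)), by omega, by omega, by omega, by simp [off]; omega⟩
  have hoff : ∀ m m' : ℕ, m < m' → m' < 4 → off n m' + (n - 1 - m') < off n m := by
    intro m m' h1 h2
    unfold off
    split_ifs <;> omega
  let r : Fin (k + 1) → Fin n := fun i => ⟨i, by omega⟩
  let c : Fin (k + 1) → Fin n := fun j => if (j : ℕ) = k then ⟨l, hl⟩ else r j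
  refine ⟨(Matrix.of fun i j => MvPolynomial.X (r i, c j)).det, fun a ha => ?_, ?_⟩
  · rw [ev_det]
    simp only [MvPolynomial.eval_X, eval_th]
    refine det_zero (fun m i => a (m, r i)) (fun m j => a (m, c j))
      (Finset.univ.filter fun m : Fin 4 => (m : ℕ) < k) ?_ fun m hm j => ha _ ?_
    · have : (Finset.univ.filter fun m : Fin 4 => (m : ℕ) < k).card ≤ (Finset.range k).card :=
        Finset.card_le_card_of_injOn (fun m => (m : ℕ)) (fun m hm => by simpa using hm)
          fun a _ b _ h => Fin.ext h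
      simp only [Finset.card_range] at this
      omega
    · simp only [Finset.mem_filter, Finset.mem_univ, true_and, not_lt] at hm
      have hj := j.2
      simp only [SS, c, r, mem_ofPred_eq]
      rcases hm.lt_or_eq with h | h
      · have := hoff k m h m.2
        split_ifs <;> simp only <;> omega
      · rw [← h]
        split_ifs <;> simp only <;> omega
  · refine ⟨fun v => if ((v.1 : ℕ) = v.2 ∧ (v.1 : ℕ) ≤ k) ∨ ((v.1 : ℕ) = k ∧ (v.2 : ℕ) = l)
      then 1 else 0, fun v hv => ?_, ?_⟩
    · refine if_neg ?_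
      simp only [SS, mem_ofPred_eq] at hv
      rintro (⟨h1, h2⟩ | ⟨h1, h2⟩)
      · rcases h2.lt_or_eq with h | h
        · have := hoff v.1 k h hk
          omega
        · rw [h] at hv; omega
      · rw [h1] at hv; omega
    · rw [ev_det]
      simp only [MvPolynomial.eval_X, eval_th]
      have : (Matrix.of fun i j : Fin (k + 1) => ∑ m : Fin 4,
          (if ((m : ℕ) = r i ∧ (m : ℕ) ≤ k) ∨ ((m : ℕ) = k ∧ (r i : ℕ) = l) then (1 : ℂ) else 0) *
          (if ((m : ℕ) = c j ∧ (m : ℕ) ≤ k) ∨ ((m : ℕ) = k ∧ (c j : ℕ) = l) then (1 : ℂ) else 0))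
          = 1 := by
        ext i j
        have hi := i.2
        have hj := j.2
        rw [Matrix.of_apply, Finset.sum_eq_single (⟨i, by omega⟩ : Fin 4)]
        · rw [if_pos (Or.inl ⟨rfl, by simp only; omega⟩), one_mul, Matrix.one_apply]
          simp only [c, r, Fin.ext_iff]
          by_cases h : (j : ℕ) = k
          · simp only [if_pos h, and_true]
            exact if_congr (by omega) rfl rfl
          · simp only [if_neg h]
            exact if_congr (by omega) rfl rfl
        · intro m _ hm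
          rw [if_neg, zero_mul]
          simp only [r, ne_eq, Fin.ext_iff] at hm ⊢
          omega
        · simp
      rw [this, Matrix.det_one]
      exact one_ne_zero

theorem exists_gram {n : ℕ} (ζ : Fin n × Fin n → ℂ) (h0 : ζ ≠ 0)
    (hs : ∀ i j, ζ (i, j) = ζ (j, i))
    (h5 : ∀ A : Fin 5 → Fin n → ℂ,
      (Matrix.of fun p q : Fin 5 => ∑ i, ∑ j, A p i * A q j * ζ (i, j)).det = 0) :
    ∃ (m : ℕ) (y : Fin m → Fin n → ℂ), 1 ≤ m ∧ m ≤ 4 ∧ LinearIndependent ℂ y ∧
      ∀ i j, ζ (i, j) = ∑ p, y p i * y p j := by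
  classical
  let B : LinearMap.BilinForm ℂ (Fin n → ℂ) := Matrix.toBilin' (Matrix.of fun i j => ζ (i, j))
  have hB : ∀ x y : Fin n → ℂ, B x y = ∑ i, ∑ j, x i * y j * ζ (i, j) := fun x y => by
    simp only [B, Matrix.toBilin'_apply, Matrix.of_apply]
    exact Finset.sum_congr rfl fun i _ => Finset.sum_congr rfl fun j _ => by ring
  have hsym : B.IsSymm := ⟨fun x y => by
    rw [hB, hB, Finset.sum_comm]
    exact Finset.sum_congr rfl fun i _ => Finset.sum_congr rfl fun j _ => by rw [hs j i]; ring⟩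
  obtain ⟨v, hv⟩ := LinearMap.BilinForm.exists_orthogonal_basis (LinearMap.BilinForm.isSymm_iff.1 hsym)
  have hv' : ∀ l l', l ≠ l' → B (v l) (v l') = 0 := fun l l' h => hv h
  let s := Finset.univ.filter fun l => B (v l) (v l) ≠ 0
  have hexp : ∀ x y, B x y = ∑ l ∈ s, B (v l) (v l) * (v.repr x l * v.repr y l) := fun x y => by
    rw [Finset.sum_filter_of_ne fun l _ h => left_ne_zero_of_mul h]
    conv_lhs => rw [← v.sum_repr x, ← v.sum_repr y]
    simp only [map_sum, map_smul, LinearMap.sum_apply, LinearMap.smul_apply, smul_eq_mul]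
    refine Finset.sum_congr rfl fun l _ => ?_
    rw [Finset.sum_eq_single l (fun l' _ h => by rw [hv' l' l h, mul_zero]) (by simp)]
    ring
  have hζ : ∀ i j, ζ (i, j) = B (Pi.single i 1) (Pi.single j 1) := fun i j => by
    simp [B]
  let f := s.orderEmbOfFin rfl
  have hf : ∀ p, B (v (f p)) (v (f p)) ≠ 0 := fun p =>
    (Finset.mem_filter.1 (s.orderEmbOfFin_mem rfl p)).2
  choose sq hsq using fun l => IsAlgClosed.exists_eq_mul_self (B (v l) (v l))
  refine ⟨s.card, fun p i => sq (f p) * v.repr (Pi.single i 1) (f p), ?_, ?_, ?_, fun i j => ?_⟩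
  · by_contra h
    have h1 : s = ∅ := Finset.card_eq_zero.1 (by omega)
    apply h0
    funext ⟨i, j⟩
    rw [hζ, hexp, h1]; simp
  · by_contra h
    let g : Fin 5 → Fin s.card := Fin.castLE (by omega)
    have := h5 fun p => v (f (g p))
    simp only [← hB] at this
    have e : (Matrix.of fun p q : Fin 5 => B (v (f (g p))) (v (f (g q))))
        = Matrix.diagonal fun p => B (v (f (g p))) (v (f (g p))) := by
      ext p q
      by_cases h : p = q
      · subst h; simp
      · rw [Matrix.diagonal_apply_ne _ h, Matrix.of_apply]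
        exact hv' _ _ fun e => h (Fin.castLE_injective _ (f.injective e))
    rw [e, Matrix.det_diagonal] at this
    obtain ⟨p, -, hp⟩ := Finset.prod_eq_zero_iff.1 this
    exact hf _ hp
  · rw [Fintype.linearIndependent_iff]
    intro g hg p
    have h1 : ∀ x : Fin n → ℂ, ∑ q, g q * (sq (f q) * v.repr x (f q)) = 0 := fun x => by
      have hx : x = ∑ i, x i • (Pi.single i 1 : Fin n → ℂ) := by
        funext j; simp [Pi.single_apply]
      have h2 : ∀ i, ∑ q, g q * (sq (f q) * v.repr (Pi.single i 1) (f q)) = 0 := fun i => by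
        simpa using congrFun hg i
      rw [hx]
      simp only [map_sum, map_smul, Finsupp.coe_finsetSum, Finset.sum_apply, Finsupp.coe_smul,
        Pi.smul_apply, smul_eq_mul, Finset.mul_sum]
      rw [Finset.sum_comm]
      refine Finset.sum_eq_zero fun i _ => ?_
      have := congrArg (x i * ·) (h2 i)
      simp only [Finset.mul_sum, mul_zero] at this
      rw [← this]
      exact Finset.sum_congr rfl fun q _ => by ring
    have h3 := h1 (v (f p))
    rw [Finset.sum_eq_single p (fun q _ h => by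
      rw [v.repr_self, Finsupp.single_eq_of_ne fun e => h (f.injective e)]; simp) (by simp)] at h3
    have h4 : sq (f p) ≠ 0 := fun e => hf p (by rw [hsq, e, mul_zero])
    simpa [h4] using h3
  · rw [hζ, hexp, ← Finset.sum_coe_sort s, ← (s.orderIsoOfFin rfl).toEquiv.sum_comp]
    refine Finset.sum_congr rfl fun p _ => ?_
    have : ((s.orderIsoOfFin rfl).toEquiv p : Fin _) = f p := rfl
    rw [this, hsq]
    ring

end QU

open QU

theorem rank_four_lemma {V W : Type} [AddCommGroup V] [Module ℂ V] [FiniteDimensional ℂ V]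
    [AddCommGroup W] [Module ℂ W] [FiniteDimensional ℂ W] (β : V →ₗ[ℂ] V →ₗ[ℂ] W)
    (h4 : 4 ≤ finrank ℂ V) (hW : finrank ℂ W + 6 < 4 * finrank ℂ V) :
    ∃ (m : ℕ) (w : Fin m → V), 1 ≤ m ∧ m ≤ 4 ∧ LinearIndependent ℂ w ∧
      ∑ i, β (w i) (w i) = 0 := by
  classical
  set n := finrank ℂ V
  let e := Module.finBasis ℂ V
  let μ : (Fin n × Fin n → ℂ) →ₗ[ℂ] W := Fintype.linearCombination ℂ fun ij => β (e ij.1) (e ij.2)
  obtain ⟨ζ, h0, hμ, hrel⟩ := krull_lemma (th n) (fun i => by simp [th]) (4 * n - 6) (SS n)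
    (fun t t' h v hv => hv.imp id fun h' => h'.trans_le h) (fun t ht => witness h4 t ht) μ
    (by omega)
  obtain ⟨m, y, h1, h2, h3, h5⟩ := exists_gram ζ h0
    (fun i j => by
      have := hrel (MvPolynomial.X (i, j) - MvPolynomial.X (j, i)) fun a => by
        simp [eval_th, mul_comm]
      simpa [sub_eq_zero] using this)
    (fun A => by
      have := hrel (Matrix.of fun p q : Fin 5 =>
        ∑ i, ∑ j, MvPolynomial.C (A p i * A q j) * MvPolynomial.X (i, j)).det fun a => by
        rw [ev_det]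
        have := det_zero (fun (m : Fin 4) (p : Fin 5) => ∑ i, A p i * a (m, i))
          (fun m p => ∑ i, A p i * a (m, i)) Finset.univ (by simp) (by simp)
        rw [← this]
        congr 1
        ext p q
        simp only [map_sum, map_mul, MvPolynomial.eval_C, MvPolynomial.eval_X, eval_th,
          Matrix.of_apply, Finset.sum_mul_sum]
        rw [Finset.sum_comm (s := (Finset.univ : Finset (Fin 4)))]
        refine Finset.sum_congr rfl fun i _ => ?_
        rw [Finset.sum_comm (s := (Finset.univ : Finset (Fin 4)))]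
        refine Finset.sum_congr rfl fun j _ => ?_
        rw [Finset.mul_sum]
        exact Finset.sum_congr rfl fun m _ => by ring
      rw [ev_det] at this
      simpa using this)
  refine ⟨m, fun p => e.equivFun.symm (y p), h1, h2,
    h3.map' e.equivFun.symm.toLinearMap e.equivFun.symm.ker, ?_⟩
  rw [← hμ]
  simp only [μ, Fintype.linearCombination_apply, Basis.equivFun_symm_apply, map_sum, map_smul,
    LinearMap.sum_apply, LinearMap.smul_apply, Fintype.sum_prod_type, h5, Finset.sum_smul,
    Finset.smul_sum]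
  rw [Finset.sum_comm]
  refine Eq.trans ?_ Finset.sum_comm
  refine Finset.sum_congr rfl fun i _ => ?_
  rw [Finset.sum_comm]
  refine Finset.sum_congr rfl fun j _ => Finset.sum_congr rfl fun p _ => ?_
  rw [smul_smul, mul_comm]

variable {K : Type} [Field K] [Algebra ℂ K] [Algebra (RatFunc ℂ) K]
  [IsScalarTower ℂ (RatFunc ℂ) K] [FiniteDimensional (RatFunc ℂ) K]

theorem QU.four {D : Dv K} (hns : ∀ A : Dv K, 2 ≤ el A → el (D - A) ≤ 1) {a b c d : K}
    (ha : a ∈ LL D) (hb : b ∈ LL D) (hc : c ∈ LL D) (hd : d ∈ LL D) (h : a * d = b * c)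
    (h0 : a ≠ 0) (hb' : ∀ t : ℂ, b ≠ t • a) (hc' : ∀ t : ℂ, c ≠ t • a) : False := by
  have hf := transc_div h0 hb'
  have h1 := hns _ (two_le_el_pol hf)
  have h2 : 2 ≤ el (D - pol (b / a)) := two_le_el_iff.2 ⟨a, c,
    mem_LL_sub_pol ha (by rwa [div_mul_cancel₀ _ h0]),
    mem_LL_sub_pol hc (by
      rwa [show b / a * c = d by rw [div_mul_eq_mul_div, ← h, mul_div_cancel_left₀ _ h0]]),
    h0, hc'⟩
  omega

theorem quad_lemma {D : Dv K} (h4 : 4 ≤ el D) (hns : ∀ A : Dv K, 2 ≤ el A → el (D - A) ≤ 1) :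
    4 * el D - 6 ≤ el (D + D) := by
  by_contra hn
  let β : LL D →ₗ[ℂ] LL D →ₗ[ℂ] LL (D + D) := LinearMap.mk₂ ℂ
    (fun a b => ⟨a * b, mul_mem_LL a.2 b.2⟩) (fun a b c => Subtype.ext (by simp [add_mul]))
    (fun t a b => Subtype.ext (by simp)) (fun a b c => Subtype.ext (by simp [mul_add]))
    (fun t a b => Subtype.ext (by simp))
  obtain ⟨m, w, h1, h2, h3, h5⟩ := rank_four_lemma β (by unfold el at h4; omega)
    (by unfold el at hn; omega)
  have hs : ∑ i, (w i : K) * w i = 0 := by
    have := congrArg Subtype.val h5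
    simpa [β] using this
  have hi : ∀ g : Fin m → ℂ, ∑ i, g i • (w i : K) = 0 → ∀ i, g i = 0 :=
    Fintype.linearIndependent_iff.1 (h3.map' (LL D).subtype (LL D).ker_subtype)
  have hI : ∀ x : K, Complex.I • x * Complex.I • x = -(x * x) := fun x => by
    rw [smul_mul_smul_comm, Complex.I_mul_I, neg_smul, one_smul]
  have hm : ∀ i, (w i : K) ∈ LL D := fun i => (w i).2
  interval_cases m
  · simp only [Fin.sum_univ_one, mul_self_eq_zero] at hs
    simpa using hi ![1] (by simp [hs]) 0
  · simp only [Fin.sum_univ_two] at hs hi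
    have : ((w 0 : K) + Complex.I • (w 1 : K)) * (w 0 - Complex.I • (w 1 : K)) = 0 := by
      linear_combination hs - hI (w 1)
    rcases mul_eq_zero.1 this with h | h
    · simpa using hi ![1, Complex.I] (by simpa using h) 0
    · simpa using hi ![1, -Complex.I] (by simpa [sub_eq_add_neg] using h) 0
  · simp only [Fin.sum_univ_three] at hs hi
    have hb : ∀ t : ℂ, Complex.I • (w 2 : K) ≠ t • ((w 0 : K) + Complex.I • (w 1 : K)) :=
      fun t h => by
        simpa using hi ![t, t * Complex.I, -Complex.I] (by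
          simp only [Matrix.cons_val_zero, Matrix.cons_val_one, Matrix.cons_val]
          rw [neg_smul, h]; module) 2
    refine QU.four hns (a := w 0 + Complex.I • (w 1 : K)) (b := Complex.I • (w 2 : K))
      (c := Complex.I • (w 2 : K)) (d := w 0 - Complex.I • (w 1 : K))
      (add_mem (hm 0) (Submodule.smul_mem _ _ (hm 1))) (Submodule.smul_mem _ _ (hm 2))
      (Submodule.smul_mem _ _ (hm 2)) (sub_mem (hm 0) (Submodule.smul_mem _ _ (hm 1)))
      (by linear_combination hs - hI (w 1) - hI (w 2)) (fun h => ?_) hb hb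
    simpa using hi ![1, Complex.I, 0] (by simpa using h) 0
  · simp only [Fin.sum_univ_four] at hs hi
    refine QU.four hns (a := w 0 + Complex.I • (w 1 : K)) (b := Complex.I • (w 2 : K) + w 3)
      (c := Complex.I • (w 2 : K) - w 3) (d := w 0 - Complex.I • (w 1 : K))
      (add_mem (hm 0) (Submodule.smul_mem _ _ (hm 1)))
      (add_mem (Submodule.smul_mem _ _ (hm 2)) (hm 3))
      (sub_mem (Submodule.smul_mem _ _ (hm 2)) (hm 3))
      (sub_mem (hm 0) (Submodule.smul_mem _ _ (hm 1)))
      (by linear_combination hs - hI (w 1) - hI (w 2)) (fun h => ?_) (fun t h => ?_)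
      (fun t h => ?_)
    · simpa using hi ![1, Complex.I, 0, 0] (by simpa using h) 0
    · simpa using hi ![t, t * Complex.I, -Complex.I, -1] (by
        simp only [Matrix.cons_val_zero, Matrix.cons_val_one, Matrix.cons_val]
        linear_combination (norm := module) -h) 3
    · simpa using hi ![t, t * Complex.I, -Complex.I, 1] (by
        simp only [Matrix.cons_val_zero, Matrix.cons_val_one, Matrix.cons_val]
        linear_combination (norm := module) -h) 3

end Pool.Agent.Lib.MP_eeb174_ag
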