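import Pool.Agent.Lib.MP_eeb174_ag.Tri1
import Pool.Agent.Lib.MP_eeb174_ag.Quad

open Filter Set WithZero Module Finsupp

noncomputable section

namespace Pool.Agent.Lib.MP_eeb174_ag

variable {K : Type} [Field K] [Algebra ℂ K] [Algebra (RatFunc ℂ) K]
  [IsScalarTower ℂ (RatFunc ℂ) K] [FiniteDimensional (RatFunc ℂ) K]

/-- A divisor computing the Clifford index, of least degree. -/
lemma exists_cliff_min {D : Dv K} (h1 : 2 ≤ el D) (h2 : 2 ≤ el (canon K - D)) :
    ∃ E : Dv K, 2 ≤ el E ∧ 2 ≤ el (canon K - E) ∧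
      (∀ F : Dv K, 2 ≤ el F → 2 ≤ el (canon K - F) →
        degree E - 2 * el E ≤ degree F - 2 * el F) ∧
      ∀ F : Dv K, 2 ≤ el F → 2 ≤ el (canon K - F) →
        degree F - 2 * el F ≤ degree E - 2 * el E → degree E ≤ degree F := by
  obtain ⟨c, ⟨E₀, a1, a2, rfl⟩, hc⟩ := Int.exists_least_of_bdd
    (P := fun c => ∃ E : Dv K, 2 ≤ el E ∧ 2 ≤ el (canon K - E) ∧ c = degree E - 2 * el E)
    ⟨-2 * gen K, by
      rintro _ ⟨E, a1, a2, rfl⟩
      have b1 := el_le_degree_succ (D := E) (by omega)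
      have b2 := degree_le_of_el_pos (D := E) (E := canon K) (by omega)
      rw [degree_canon'] at b2
      omega⟩ ⟨_, D, h1, h2, rfl⟩
  obtain ⟨δ, ⟨E, b1, b2, b3, rfl⟩, hδ⟩ := Int.exists_least_of_bdd
    (P := fun δ => ∃ E : Dv K, 2 ≤ el E ∧ 2 ≤ el (canon K - E) ∧
      degree E - 2 * el E ≤ degree E₀ - 2 * el E₀ ∧ δ = degree E)
    ⟨0, by
      rintro _ ⟨E, a1, -, -, rfl⟩
      have b1 := el_le_degree_succ (D := E) (by omega)
      omega⟩ ⟨_, E₀, a1, a2, le_rfl, rfl⟩
  exact ⟨E, b1, b2, fun F f1 f2 => b3.trans (hc _ ⟨F, f1, f2, rfl⟩),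
    fun F f1 f2 f3 => hδ _ ⟨F, f1, f2, f3.trans b3, rfl⟩⟩

lemma LL_sub_le {D : Dv K} {x y : Place K} (hxy : y ≠ x)
    (h : LL (D - single x 1) ≤ LL (D - single y 1)) :
    LL (D - single x 1) ≤ LL (D - single x 1 - single y 1) := fun z hz => by
  classical
  refine (mem_LL_sub_single zero_le_one).2 ⟨hz, ?_⟩
  have := ((mem_LL_sub_single zero_le_one).1 (h hz)).2
  simpa [Finsupp.single_apply, hxy.symm] using this

theorem cliff_lower {n : ℤ} (h8 : 8 ≤ n) (hg : 3 * n - 7 ≤ gen K)
    (hn : ∀ D : Dv K, 2 ≤ el D → n ≤ degree D)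
    (H : ∀ (D : Dv K) (r : ℕ), 2 ≤ r → el D = r + 1 → IsBase (LL D) D → KV (LL D) = ⊤ →
      4 * (r : ℤ) ≤ n + 3 → n - 3 + 2 * r < degree D)
    (D : Dv K) (h1 : 2 ≤ el D) (h2 : 2 ≤ el (canon K - D)) :
    n - 2 ≤ degree D - 2 * (el D - 1) := by
  obtain ⟨E, e1, e2, hc, hδ⟩ := exists_cliff_min h1 h2
  by_contra hcon
  have c1 := hc D h1 h2
  have c2 := hn E e1
  have c3 : degree E ≤ gen K - 1 := by
    have a1 := rr E
    have a2 := hδ (canon K - E) e2 (by rwa [sub_sub_cancel])
    rw [map_sub, degree_canon'] at a2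
    omega
  have m1 : ∀ F : Dv K, 2 ≤ el F → degree F < degree E →
      degree E - 2 * el E < degree F - 2 * el F := fun F f1 f2 => by
    have a1 := rr F
    by_contra a2
    have := hδ F f1 (by omega) (by omega)
    omega
  have b1 : ∀ x, el (E - single x 1) < el E := fun x => by
    by_contra a1
    have := m1 (E - single x 1) (by omega) (by rw [map_sub, degree_single']; omega)
    rw [map_sub, degree_single'] at this
    omega
  have b2 : ∀ x y, el (E - single x 1 - single y 1) + 2 ≤ el E := fun x y => by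
    by_contra a1
    have := m1 (E - single x 1 - single y 1) (by omega)
      (by rw [map_sub, map_sub, degree_single', degree_single']; omega)
    rw [map_sub, map_sub, degree_single', degree_single'] at this
    omega
  have hB : IsBase (LL E) E := ⟨le_rfl, fun x => exists_exact (b1 x)⟩
  have hK : KV (LL E) = ⊤ := by
    by_contra a1
    obtain ⟨x, y, hxy, a2⟩ := (eventually_partner hB (by rw [el] at e1; omega) a1).exists
    rw [LL_inf_single] at a2
    have a3 : el (E - single x 1) ≤ el (E - single x 1 - single y 1) :=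
      finrank_le_el (LL_sub_le hxy a2)
    have a4 := el_le_sub_single E x
    have a5 := b2 x y
    omega
  have key : ∀ A : Dv K, 2 ≤ el A → 2 ≤ el (E - A) → 2 * degree A ≤ degree E → False :=
    fun A a1 a2 a3 => by
      obtain ⟨f, hf, a4⟩ := exists_pol_of_two_le a1
      have a5 := degree_le_of_el_pos a4
      have a6 : el (E - A) ≤ el (E - pol f) :=
        el_le_of_el_pos (by rwa [sub_sub_sub_cancel_left])
      have a7 := hn _ (two_le_el_pol hf)
      have a8 := m1 (E - pol f) (by omega) (by rw [map_sub]; omega)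
      have a9 := pencil_trick (f := f) (by simpa using transc_ne_const hf 0) E
      have a10 : el E ≤ el (E + pol f) := el_mono (le_add_of_nonneg_right (pol_nonneg f))
      have a11 := hc (E + pol f) (by omega)
      have a12 := rr (E + pol f)
      rw [map_sub] at a8
      rw [map_add] at a11 a12
      omega
  have hns : ∀ A : Dv K, 2 ≤ el A → el (E - A) ≤ 1 := fun A a1 => by
    by_contra a2
    rcases le_total (2 * degree A) (degree E) with a3 | a3
    · exact key A a1 (by omega) a3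
    · exact key (E - A) (by omega) (by rwa [sub_sub_cancel]) (by rw [map_sub]; omega)
  obtain ⟨r, hr⟩ := Int.eq_ofNat_of_zero_le (show 0 ≤ el E - 1 by omega)
  have h4 : 4 * (r : ℤ) ≤ n + 3 := by
    by_cases a1 : 4 ≤ el E
    · have a2 := quad_lemma a1 hns
      have a3 := rr (E + E)
      have a4 := hc (E + E) (by omega)
      rw [map_add] at a3 a4
      omega
    · omega
  have := H E r (by omega) (by omega) hB hK h4
  omega

theorem no_series {h : ℕ} {δ : ℤ} (h3 : 3 ≤ h)
    (Ha : ∀ (V : Submodule ℂ K) (D : Dv K), IsBase V D → finrank ℂ V = h → KV V = ⊤ →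
      δ < degree D)
    (Hb : ∀ (V : Submodule ℂ K) (D : Dv K), IsBase V D → finrank ℂ V = h → KV V ≠ ⊤ →
      δ < degree D)
    (D : Dv K) (hD : (h : ℤ) ≤ el D) : δ < degree D := by
  obtain ⟨v, hv⟩ := exists_linearIndependent_of_le_finrank (R := ℂ) (M := LL D) (n := h)
    (by rw [el] at hD; omega)
  have h1 := hv.map' (LL D).subtype (Submodule.ker_subtype _)
  have h2 : finrank ℂ (Submodule.span ℂ (range ((LL D).subtype ∘ v))) = h := by
    rw [finrank_span_eq_card h1, Fintype.card_fin]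
  have h4 : Submodule.span ℂ (range ((LL D).subtype ∘ v)) ≤ LL D :=
    Submodule.span_le.2 (by rintro _ ⟨i, rfl⟩; exact (v i).2)
  generalize Submodule.span ℂ (range ((LL D).subtype ∘ v)) = V at h2 h4
  have := finiteDimensional_of_le_LL h4
  obtain ⟨E, hE⟩ := exists_isBase V (by rintro rfl; simp at h2; omega)
  refine lt_of_lt_of_le ?_ (degree_mono (hE.le_of h4))
  by_cases hK : KV V = ⊤
  · exact Ha V E hE h2 hK
  · exact Hb V E hE h2 hK

theorem d4_of_quad {n d e : ℤ} (hd : d ≤ 2 * n) (hn : ∀ D : Dv K, 2 ≤ el D → n ≤ degree D)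
    (He : ∀ D : Dv K, 5 ≤ el D → e ≤ degree D)
    (H : ∀ D : Dv K, 14 ≤ el D → 2 * e ≤ degree D → degree D ≤ 2 * d - 2 → False)
    (D : Dv K) (hD : 5 ≤ el D) : d ≤ degree D := by
  by_contra h
  have h1 := quad_lemma (D := D) (by omega) fun A a1 => by
    by_contra a2
    have a3 := hn A a1
    have a4 := hn (D - A) (by omega)
    rw [map_sub] at a4
    omega
  have h2 := He D hD
  exact H (D + D) (by omega) (by rw [map_add]; omega) (by rw [map_add]; omega)

end Pool.Agent.Lib.MP_eeb174_ag
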