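import Pool.Agent.Lib.MP_eeb174_ag.Krull
import Pool.Agent.Lib.MP_eeb174_ag.RR

open Filter Set WithZero Module Finsupp

noncomputable section

namespace Pool.Agent.Lib.MP_eeb174_ag

variable {K : Type} [Field K] [Algebra ℂ K] [Algebra (RatFunc ℂ) K]
  [IsScalarTower ℂ (RatFunc ℂ) K] [FiniteDimensional (RatFunc ℂ) K]

lemma hasGenus_of_gen {g : ℕ} (hg : gen K = g) : HasGenus K g :=
  (eventually_hO (K := K)).mono fun n hn => by
    rw [hn, dlt]; rw [gen] at hg; omega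

lemma mem_sec_zero {N : ℕ} {E : Lat K N} {w : Fin N → K} : w ∈ sec E 0 ↔ ∀ x, w ∈ E.S x := by
  simp only [mem_sec, tw_zero, one_smul]

lemma hdim_line_zero {N : ℕ} {s : Fin N → K} (hs : s ≠ 0) (D : Dv K) :
    hdim (line s D) 0 = el D := by
  rw [hdim_line hs, el_eq_ell]; rfl

lemma hasRD_line {N : ℕ} {s : Fin N → K} (hs : s ≠ 0) (D : Dv K) :
    HasRD (line s D) 1 (degree D) :=
  hasRD_iff.2 ⟨rk_line hs D, by rw [chiL_line hs]; push_cast; ring⟩

lemma exists_line_of_hasRD {N : ℕ} {L : Lat K N} {e : ℤ} (h : HasRD L 1 e) :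
    ∃ s D, s ≠ 0 ∧ L = line s D ∧ degree D = e := by
  obtain ⟨h1, h2⟩ := hasRD_iff.1 h
  obtain ⟨s, D, hs, rfl⟩ := exists_line_of_rk h1
  rw [chiL_line hs] at h2
  exact ⟨s, D, hs, rfl, by push_cast at h2; omega⟩

lemma gonality {n : ℤ} (hn : n + 1 ≤ gen K)
    (hC : ∀ D : Dv K, 2 ≤ el D → 2 ≤ el (canon K - D) → n - 2 ≤ degree D - 2 * (el D - 1))
    {D : Dv K} (h : 2 ≤ el D) : n ≤ degree D := by
  have h1 := rr D
  by_cases h2 : 2 ≤ el (canon K - D)
  · have := hC D h h2; omega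
  · omega

lemma isLeast_cliffSet {n : ℤ} {g : ℕ} (hg : gen K = g) (hn : n + 1 ≤ g)
    (hC : ∀ D : Dv K, 2 ≤ el D → 2 ≤ el (canon K - D) → n - 2 ≤ degree D - 2 * (el D - 1))
    (hA : ∃ A : Dv K, 2 ≤ el A ∧ degree A = n) : IsLeast (cliffSet K g) (n - 2) := by
  constructor
  · obtain ⟨A, h1, h2⟩ := hA
    have h3 := rr A
    have h4 := hC A h1 (by omega)
    refine ⟨line 1 A, degree A, hasRD_line one_ne_zero' A, ?_⟩
    rw [hdim_line_zero one_ne_zero']
    omega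
  · rintro c ⟨L, e, h1, h2, h3, rfl⟩
    obtain ⟨s, D, hs, rfl, rfl⟩ := exists_line_of_hasRD h1
    rw [hdim_line_zero hs] at h2 h3 ⊢
    have h4 := rr D
    exact hC D h2 (by omega)

omit [Algebra ℂ K] [Algebra (RatFunc ℂ) K] [IsScalarTower ℂ (RatFunc ℂ) K]
  [FiniteDimensional (RatFunc ℂ) K] in
lemma dt_expand {s y : Fin 2 → K} (h : dt s y = 1) (v w : Fin 2 → K) :
    dt v w = dt v y * dt s w - dt s v * dt w y := by
  simp only [dt_apply] at h ⊢
  linear_combination (-(v 0 * w 1 - v 1 * w 0)) * h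

namespace Flag
variable {E : Lat K 2} {s : Fin 2 → K} {y : Place K → Fin 2 → K} {y₀ : Fin 2 → K}
  {D₁ D₂ : Dv K} (h : Flag E s y y₀ D₁ D₂)
include h

lemma degree_eq {e : ℤ} (he : HasRD E 2 e) : e = degree D₁ + degree D₂ := by
  have h1 := (hasRD_iff.1 he).2
  rw [h.chiL_eq] at h1
  push_cast at h1; omega

lemma dt_mem {v w : Fin 2 → K} (hv : v ∈ sec E 0) (hw : w ∈ sec E 0) :
    dt v w ∈ LL (D₁ + D₂) := by
  intro x
  obtain ⟨h1, h2⟩ := (h.mem x v).1 (mem_sec_zero.1 hv x)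
  obtain ⟨h3, h4⟩ := (h.mem x w).1 (mem_sec_zero.1 hw x)
  rw [dt_expand (h.det x), Finsupp.add_apply, exp_add]
  refine x.val.map_sub_le ?_ ?_
  · rw [map_mul]; exact mul_le_mul' h1 h4
  · rw [map_mul, mul_comm]; exact mul_le_mul' h3 h2

lemma dt_mem_snd {w : Fin 2 → K} (hw : w ∈ sec E 0) : dt s w ∈ LL D₂ :=
  fun x => ((h.mem x w).1 (mem_sec_zero.1 hw x)).2

lemma mem_fst {z : K} (hz : z • s ∈ sec E 0) : z ∈ LL D₁ := fun x => by
  simpa [h.det] using ((h.mem x _).1 (mem_sec_zero.1 hz x)).1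

lemma line_le : line s D₁ ≤ E := h.restrict_eq ▸ E.restrict_le _

lemma le_fst {D : Dv K} (hD : line s D ≤ E) : D ≤ D₁ := fun x => by
  have := ((h.mem x _).1 (line_le_iff.1 hD x)).1
  simpa [h.det, x.val_unif_zpow, -map_inv₀, -zpow_neg, -map_zpow₀] using this

lemma hdim_le : hdim E 0 ≤ el D₁ + el D₂ := by
  let φ : sec E 0 →ₗ[ℂ] K := ((dt s).restrictScalars ℂ).domRestrict (sec E 0)
  have h1 := φ.finrank_range_add_finrank_ker
  have h2 : LinearMap.range φ ≤ LL D₂ := by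
    rintro _ ⟨w, rfl⟩
    exact h.dt_mem_snd w.2
  have h3 := finrank_le_el h2
  have h4 : (LinearMap.ker φ).map (sec E 0).subtype ≤ sec (line s D₁) 0 := by
    rintro _ ⟨w, hw, rfl⟩
    rw [← h.restrict_eq, mem_sec_zero]
    exact fun x => Lat.mem_restrict.2 ⟨mem_sec_zero.1 w.2 x, (mem_span_iff_dt h.ne_zero).2 hw⟩
  have h5 := Submodule.finrank_mono h4
  rw [Submodule.finrank_map_subtype_eq] at h5
  have h6 := hdim_line_zero h.ne_zero D₁
  rw [hdim] at h6 ⊢
  omega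

end Flag

/-- Lower bound for the rank two Clifford index. -/
lemma cliffTwo_lower {n d : ℤ} {g : ℕ} (hg : gen K = g) (hd : d < 2 * n)
    (hC : ∀ D : Dv K, 2 ≤ el D → 2 ≤ el (canon K - D) → n - 2 ≤ degree D - 2 * (el D - 1))
    (h4 : ∀ D : Dv K, 5 ≤ el D → d ≤ degree D)
    {E : Lat K 2} {e : ℤ} (he : HasRD E 2 e) (hs : Semistable E e) (h0 : 4 ≤ hdim E 0)
    (hle : e ≤ 2 * (g - 1)) : d - 4 ≤ e - 2 * (hdim E 0 - 2) := by
  have hgen : E.gen = ⊤ := rk_eq_iff_gen.1 (hasRD_iff.1 he).1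
  by_cases hA : ∃ v w : sec E 0, LinearIndependent ℂ ![v, w] ∧ dt v.1 w.1 = 0
  · obtain ⟨v, w, hi, hvw⟩ := hA
    have hv : v.1 ≠ 0 := fun h => hi.ne_zero 0 (Subtype.ext h)
    obtain ⟨y, y₀, D₁, D₂, h⟩ := exists_flag hgen hv
    obtain ⟨z, hz⟩ := Submodule.mem_span_singleton.1 ((mem_span_iff_dt hv).2 hvw)
    have h1 : 2 ≤ el D₁ := by
      refine two_le_el_iff.2 ⟨1, z, h.mem_fst (by simp), h.mem_fst (hz ▸ w.2),
        one_ne_zero, fun c hc => ?_⟩
      have := (LinearIndependent.pair_iff.1 hi c (-1) (Subtype.ext (by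
        simp [← hz, hc]))).2
      simp at this
    have h2 := h.degree_eq he
    have h3 := hs _ _ (hasRD_line hv D₁) (Lat.le_iff_st.2 h.line_le)
    have h5 := h.hdim_le
    have h6 := rr D₁
    have h7 := rr D₂
    have h8 := hC D₁ h1 (by omega)
    by_cases h9 : 2 ≤ el D₂
    · by_cases h10 : 2 ≤ el (canon K - D₂)
      · have := hC D₂ h9 h10; omega
      · omega
    · omega
  · push Not at hA
    obtain ⟨y, y₀, D₁, D₂, h⟩ := exists_flag hgen (s := ![1, 0]) (by simp)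
    let ω : sec E 0 →ₗ[ℂ] sec E 0 →ₗ[ℂ] LL (D₁ + D₂) :=
      LinearMap.mk₂ ℂ (fun v w => ⟨dt v.1 w.1, h.dt_mem v.2 w.2⟩)
        (fun _ _ _ => Subtype.ext (by simp)) (fun c v w => Subtype.ext (by
          simp [dt_apply, smul_sub]))
        (fun _ _ _ => Subtype.ext (by simp)) (fun c v w => Subtype.ext (by
          simp [dt_apply, smul_sub]))
    have h1 := pr_lemma ω (fun v => Subtype.ext (dt_self _)) fun v w hi h0 =>
      hA v w hi (congrArg Subtype.val h0)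
    obtain ⟨x⟩ : Nonempty (Place K) := inferInstance
    have h2 := el_le_sub (D₁ + D₂) (B := single x (2 * hdim E 0 - 8))
      (single_nonneg.2 (by omega))
    rw [degree_single'] at h2
    have h3 := h4 (D₁ + D₂ - single x (2 * hdim E 0 - 8)) (by
      rw [el] at h2; rw [hdim] at h2 ⊢; omega)
    rw [map_sub, map_add, degree_single', ← h.degree_eq he] at h3
    omega

/-- Four vectors of the plane with prescribed determinants. -/
def plv (u : Fin 5 → K) : Fin 4 → Fin 2 → K :=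
  ![![1, 0], ![0, u 0], ![-u 2 / u 0, u 1], ![-u 3 / u 0, u 2]]

/-- Complex combinations of the four vectors. -/
def plT (u : Fin 5 → K) : (Fin 4 → ℂ) →ₗ[ℂ] (Fin 2 → K) := Fintype.linearCombination ℂ (plv u)

omit [Algebra (RatFunc ℂ) K] [IsScalarTower ℂ (RatFunc ℂ) K] [FiniteDimensional (RatFunc ℂ) K] in
lemma dt_plT {u : Fin 5 → K} (h0 : u 0 ≠ 0) (hq : u 0 * u 4 - u 1 * u 3 + u 2 ^ 2 = 0)
    (a b : Fin 4 → ℂ) : dt (plT u a) (plT u b) =
      ∑ i, ![a 0 * b 1 - a 1 * b 0, a 0 * b 2 - a 2 * b 0,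
        a 0 * b 3 - a 3 * b 0 + (a 1 * b 2 - a 2 * b 1), a 1 * b 3 - a 3 * b 1,
        a 2 * b 3 - a 3 * b 2] i • u i := by
  have h4 : u 4 = (u 1 * u 3 - u 2 ^ 2) / u 0 := by
    field_simp; linear_combination hq
  simp only [plT, Fintype.linearCombination_apply, plv, dt_apply, Fin.sum_univ_four,
    Fin.sum_univ_five, Pi.add_apply, Pi.smul_apply]
  simp only [Matrix.cons_val_zero, Matrix.cons_val_one, Matrix.cons_val, map_sub, map_mul, map_add,
    h4, Algebra.smul_def]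
  field_simp
  ring

omit [Algebra (RatFunc ℂ) K] [IsScalarTower ℂ (RatFunc ℂ) K] [FiniteDimensional (RatFunc ℂ) K] in
lemma minors_of_dt {u : Fin 5 → K} (hu : LinearIndependent ℂ u)
    (hq : u 0 * u 4 - u 1 * u 3 + u 2 ^ 2 = 0) {a b : Fin 4 → ℂ}
    (h : dt (plT u a) (plT u b) = 0) (i j : Fin 4) : a i * b j = a j * b i := by
  rw [dt_plT (hu.ne_zero 0) hq] at h
  have h1 := Fintype.linearIndependent_iff.1 hu _ h
  have e0 : a 0 * b 1 - a 1 * b 0 = 0 := h1 0
  have e1 : a 0 * b 2 - a 2 * b 0 = 0 := h1 1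
  have e2 : a 0 * b 3 - a 3 * b 0 + (a 1 * b 2 - a 2 * b 1) = 0 := h1 2
  have e3 : a 1 * b 3 - a 3 * b 1 = 0 := h1 3
  have e4 : a 2 * b 3 - a 3 * b 2 = 0 := h1 4
  have e5 : a 0 * b 3 - a 3 * b 0 = 0 := by
    refine pow_eq_zero_iff (two_ne_zero) |>.1 ?_
    linear_combination (a 0 * b 3 - a 3 * b 0) * e2 + (a 2 * b 3 - a 3 * b 2) * e0 -
      (a 1 * b 3 - a 3 * b 1) * e1
  have e6 : a 1 * b 2 - a 2 * b 1 = 0 := by linear_combination e2 - e5
  fin_cases i <;> fin_cases j <;> simp only [Fin.zero_eta, Fin.mk_one, Fin.reduceFinMk] <;>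
    first
      | linear_combination e0 | linear_combination -e0 | linear_combination e1
      | linear_combination -e1 | linear_combination e3 | linear_combination -e3
      | linear_combination e4 | linear_combination -e4 | linear_combination e5
      | linear_combination -e5 | linear_combination e6 | linear_combination -e6

lemma plT_mem (u : Fin 5 → K) (a : Fin 4 → ℂ) : plT u a ∈ sec (Lat.free (plv u)) 0 := by
  rw [plT, Fintype.linearCombination_apply]
  exact sum_mem fun i _ => Submodule.smul_mem _ _ (mem_sec_zero.2 fun x => by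
    rw [Lat.free_S]; exact Submodule.subset_span ⟨i, rfl⟩)

lemma val_dt_le {u : Fin 5 → K} {H : Dv K} (hH : ∀ i, u i ∈ LL H) (h0 : u 0 ≠ 0)
    (hq : u 0 * u 4 - u 1 * u 3 + u 2 ^ 2 = 0) (x : Place K) {v w : Fin 2 → K}
    (hv : v ∈ (Lat.free (plv u)).S x) (hw : w ∈ (Lat.free (plv u)).S x) :
    x.val (dt v w) ≤ exp (H x) := by
  classical
  rw [Lat.free_S, mem_span_O] at hv hw
  obtain ⟨a, ha, rfl⟩ := hv
  obtain ⟨b, hb, rfl⟩ := hw
  simp only [map_sum, map_smul, LinearMap.sum_apply, LinearMap.smul_apply, smul_eq_mul]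
  refine x.val.map_sum_le fun j _ => ?_
  rw [map_mul]
  refine (mul_le_of_le_one_left' (x.mem_iff.1 (hb j))).trans (x.val.map_sum_le fun i _ => ?_)
  rw [map_mul]
  refine (mul_le_of_le_one_left' (x.mem_iff.1 (ha i))).trans ?_
  have h1 : ∀ i, plv u i = plT u (Pi.single i 1) := fun i => by
    rw [plT, Fintype.linearCombination_apply_single, one_smul]
  rw [h1, h1, dt_plT h0 hq]
  exact (LL H).sum_mem (fun k _ => (LL H).smul_mem _ (hH k)) x

lemma exists_cliffTwo {n d : ℤ} (hd : d < 2 * n) (hn : ∀ D : Dv K, 2 ≤ el D → n ≤ degree D)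
    (hH : ∃ (H : Dv K) (u : Fin 5 → K), degree H = d ∧ (∀ i, u i ∈ LL H) ∧
      LinearIndependent ℂ u ∧ u 0 * u 4 - u 1 * u 3 + u 2 ^ 2 = 0) :
    ∃ (E : Lat K 2) (e : ℤ), HasRD E 2 e ∧ Semistable E e ∧ 4 ≤ hdim E 0 ∧ e ≤ d := by
  classical
  obtain ⟨H, u, rfl, hu, hi, hq⟩ := hH
  have h0 := hi.ne_zero 0
  have hgen : (Lat.free (plv u)).gen = ⊤ := by
    rw [Lat.free_gen, eq_top_iff]
    intro w _
    have : w = w 0 • plv u 0 + (w 1 / u 0) • plv u 1 := by
      funext i; fin_cases i <;> simp [plv, h0]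
    rw [this]
    exact add_mem (Submodule.smul_mem _ _ (Submodule.subset_span ⟨0, rfl⟩))
      (Submodule.smul_mem _ _ (Submodule.subset_span ⟨1, rfl⟩))
  have he : HasRD (Lat.free (plv u)) 2 (chiL (Lat.free (plv u)) - 2 * chiO K) :=
    hasRD_iff.2 ⟨rk_eq_iff_gen.2 hgen, by push_cast; ring⟩
  have key : ∀ {s y y₀ D₁ D₂}, Flag (Lat.free (plv u)) s y y₀ D₁ D₂ →
      degree D₁ + degree D₂ ≤ degree H ∧ n ≤ degree D₂ := by
    intro s y y₀ D₁ D₂ h
    constructor
    · rw [← map_add]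
      refine degree_mono fun x => ?_
      have := val_dt_le hu h0 hq x (h.fst_mem x) (h.snd_mem x)
      simp only [map_smul, LinearMap.smul_apply, h.det, smul_eq_mul, mul_one, map_mul,
        x.val_unif_zpow, neg_neg, ← exp_add, exp_le_exp] at this
      rw [Finsupp.add_apply]; omega
    · let φ : (Fin 4 → ℂ) →ₗ[ℂ] K := ((dt s).restrictScalars ℂ).comp (plT u)
      have h1 := φ.finrank_range_add_finrank_ker
      have h2 : LinearMap.range φ ≤ LL D₂ := by
        rintro _ ⟨a, rfl⟩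
        exact h.dt_mem_snd (plT_mem u a)
      have h3 := finrank_le_el h2
      have h4 : finrank ℂ (LinearMap.ker φ) ≤ 1 := by
        by_cases h5 : LinearMap.ker φ = ⊥
        · rw [h5]; simp
        obtain ⟨a, ha, ha0⟩ := Submodule.exists_mem_ne_zero_of_ne_bot h5
        obtain ⟨i, hi'⟩ := Function.ne_iff.1 ha0
        rw [← finrank_span_singleton (K := ℂ) ha0]
        refine Submodule.finrank_mono fun b hb => Submodule.mem_span_singleton.2 ⟨b i / a i, ?_⟩
        obtain ⟨z, hz⟩ := Submodule.mem_span_singleton.1 ((mem_span_iff_dt h.ne_zero).2 ha)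
        obtain ⟨z', hz'⟩ := Submodule.mem_span_singleton.1 ((mem_span_iff_dt h.ne_zero).2 hb)
        funext j
        have := minors_of_dt hi hq (a := a) (b := b) (by rw [← hz, ← hz']; simp) i j
        have hi'' : a i ≠ 0 := hi'
        simp only [Pi.smul_apply, smul_eq_mul]
        field_simp
        linear_combination -this
      rw [finrank_fin_fun] at h1
      exact hn D₂ (by omega)
  refine ⟨_, _, he, fun L e hL hle => ?_, ?_, ?_⟩
  · obtain ⟨s, D, hs, rfl, rfl⟩ := exists_line_of_hasRD hL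
    obtain ⟨y, y₀, D₁, D₂, h⟩ := exists_flag hgen hs
    have h1 := degree_mono (h.le_fst (Lat.le_iff_st.1 hle))
    have h2 := h.degree_eq he
    have h3 := key h
    omega
  · have h1 : Function.Injective (plT u) := by
      rw [injective_iff_map_eq_zero]
      intro a ha
      funext i
      obtain ⟨j, hj⟩ := exists_ne i
      have := minors_of_dt hi hq (a := a) (b := Pi.single j 1) (by rw [ha]; simp) i j
      simpa [hj.symm] using this
    have h2 : LinearMap.range (plT u) ≤ sec (Lat.free (plv u)) 0 := by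
      rintro _ ⟨a, rfl⟩; exact plT_mem u a
    have h3 := Submodule.finrank_mono h2
    rw [LinearMap.finrank_range_of_inj h1, finrank_fin_fun] at h3
    rw [hdim]; omega
  · obtain ⟨y, y₀, D₁, D₂, h⟩ := exists_flag hgen (s := ![1, 0]) (by simp)
    rw [h.degree_eq he]
    exact (key h).1

theorem final_of_curve {n d : ℤ} {g : ℕ} (hg : gen K = g) (hn : n + 1 ≤ g) (hd : d < 2 * n)
    (hC : ∀ D : Dv K, 2 ≤ el D → 2 ≤ el (canon K - D) → n - 2 ≤ degree D - 2 * (el D - 1))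
    (hA : ∃ A : Dv K, 2 ≤ el A ∧ degree A = n)
    (h4 : ∀ D : Dv K, 5 ≤ el D → d ≤ degree D)
    (hH : ∃ (H : Dv K) (u : Fin 5 → K), degree H = d ∧ (∀ i, u i ∈ LL H) ∧
      LinearIndependent ℂ u ∧ u 0 * u 4 - u 1 * u 3 + u 2 ^ 2 = 0) :
    HasGenus K g ∧ IsLeast (cliffSet K g) (n - 2) ∧
      IsLeast (cliffTwoSet K g) (((d - 4 : ℤ) : ℚ) / 2) := by
  refine ⟨hasGenus_of_gen hg, isLeast_cliffSet hg hn hC hA, ?_, ?_⟩
  · obtain ⟨E, e, h1, h2, h3, h5⟩ := exists_cliffTwo hd (fun D => gonality (hg ▸ hn) hC) hH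
    have h6 := cliffTwo_lower hg hd hC h4 h1 h2 h3 (by omega)
    exact ⟨E, e, h1, h2, h3, by omega, by rw [show d - 4 = e - 2 * (hdim E 0 - 2) by omega]⟩
  · rintro c ⟨E, e, h1, h2, h3, h5, rfl⟩
    have h6 := cliffTwo_lower hg hd hC h4 h1 h2 h3 h5
    exact div_le_div_of_nonneg_right (Int.cast_le.2 h6) zero_le_two

end Pool.Agent.Lib.MP_eeb174_ag
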