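import Pool.Agent.Lib.MP_eeb174_ag.Special
import Pool.Agent.Lib.MP_eeb174_ag.Cliff
import Pool.Agent.Lib.MP_eeb174_ag.StepA

open Filter Set WithZero Module Finsupp Polynomial

noncomputable section

namespace Pool.Agent.Lib.MP_eeb174_ag

set_option linter.unusedSectionVars false

variable {F K : Type} [Field F] [Algebra ℂ F] [Algebra (RatFunc ℂ) F]
  [IsScalarTower ℂ (RatFunc ℂ) F] [FiniteDimensional (RatFunc ℂ) F]
  [Field K] [Algebra ℂ K] [Algebra (RatFunc ℂ) K]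
  [IsScalarTower ℂ (RatFunc ℂ) K] [FiniteDimensional (RatFunc ℂ) K]
  [Algebra F K] [IsScalarTower ℂ F K] [FiniteDimensional F K] {x y e : ℤ}

namespace Mod.Cv
variable {M : Mod F x y e} {c : F[X]} {φ : K} (Γ : M.Cv c φ)
include Γ

lemma cliff (D : Dv K) (h1 : 2 ≤ el D) (h2 : 2 ≤ el (canon K - D)) :
    x + y - 1 - e - 2 ≤ D.degree - 2 * (el D - 1) := by
  obtain ⟨hx, he, hy⟩ := Γ.hp
  have h3 := mul_nonneg (show 0 ≤ x - 3 by omega) (show 0 ≤ y - 3 by omega)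
  refine cliff_lower (by omega) (by rw [Γ.gen_eq]; rcases he with rfl | rfl <;> linarith) Γ.gon
    (fun D r h4 h5 h6 h7 h8 => ?_) D h1 h2
  by_contra h9
  obtain ⟨r, rfl⟩ : ∃ s, r = s + 1 := ⟨r - 1, by omega⟩
  push_cast at h5 h8 h9
  obtain ⟨N, n1, n2, n3, n4, n5⟩ := Γ.bir r h6 (by rw [el] at h5; omega) h7
    (by rcases he with rfl | rfl <;> linarith) (by omega)
  obtain ⟨a1, a2, a3⟩ := n1.good.cliff Γ.hp (r := r + 1) (by omega) h8 (by omega) (by omega)
  rcases a3 with a3 | a3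
  · have := Γ.deg_eq n1 n2 n3 (by rw [a1]; simp [Nm.hs]; omega)
    simp [a1, Nm.dc] at this; omega
  · have := (Γ.le_deg_of_H n1 n2 a1 n3 (by omega)).1
    omega

lemma four {δ : ℤ} (hg : 2 * (δ - 3) < x * y + 1)
    (hm : (10 ≤ x + y - 1 - e ∧ δ ≤ 3 * x + y - 2) ∨ (11 ≤ x + y - 1 - e ∧ δ ≤ 3 * x + y - 1))
    (D : Dv K) (hD : 5 ≤ el D) : δ < D.degree := by
  refine no_series (h := 5) (by omega) (fun V D h1 h2 h3 => ?_) (fun V D h1 h2 h3 => ?_) D hD
  · by_contra h4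
    obtain ⟨N, n1, n2, n3, n4, n5⟩ := Γ.bir 3 h1 h2 h3 (by omega) (by omega)
    obtain ⟨a1, a2⟩ := n1.good.four Γ.hp (by omega) n5
    have := Γ.deg_eq n1 n2 n3 (by have := finrank_le_el h1.le; omega)
    omega
  · have := Γ.nonbir (r := 3) (by omega) (by omega) h1 h2 h3
    omega

lemma d4 (D : Dv K) (hD : 5 ≤ el D) : 3 * x + y ≤ D.degree := by
  obtain ⟨hx, he, hy⟩ := Γ.hp
  have hg := Γ.gen_eq
  by_cases h1 : x = 3 ∧ y ≤ 9 - e
  · refine d4_of_quad (e := 0) (by omega) Γ.gon (fun D h => ?_) (fun D h2 _ h3 => ?_) D hD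
    · have := Γ.gon D (by omega); omega
    · have h4 := rr D
      obtain ⟨rfl, h1⟩ := h1
      have := Γ.cliff D (by omega) (by omega)
      omega
  by_cases h2 : x = 3 ∧ y = 9
  · obtain ⟨rfl, rfl⟩ := h2
    have h3 := Γ.four (δ := 16) (by omega) (by omega)
    refine d4_of_quad (e := 17) (by omega) Γ.gon h3 (fun D h4 h5 h6 => ?_) D hD
    have h7 := rr D
    have := h3 (canon K - D) (by omega)
    rw [map_sub, degree_canon'] at this
    omega
  by_cases h3 : x = 4 ∧ y = 7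
  · obtain ⟨rfl, rfl⟩ := h3
    obtain rfl : e = 0 := by omega
    refine d4_of_quad (e := 18) (by omega) Γ.gon (Γ.four (δ := 17) (by omega) (by omega))
      (fun D h4 h5 h6 => ?_) D hD
    have h7 := rr D
    have := no_series (h := 4) (δ := 16) (by omega) (fun V D h1 h2 h3 => ?_)
      (fun V D h1 h2 h3 => ?_) (canon K - D) (by omega)
    · rw [map_sub, degree_canon'] at this
      omega
    · by_contra h4
      obtain ⟨N, n1, n2, n3, n4, n5⟩ := Γ.bir 2 h1 h2 h3 (by omega) (by omega)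
      have h8 := finrank_le_el h1.le
      rcases n1.good.sp3 (by omega) n5 with a1 | a1
      · have := (Γ.le_deg_of_H n1 n2 a1 n3 (by omega)).2 rfl rfl rfl
        omega
      · have := Γ.deg_eq n1 n2 n3 (by omega)
        omega
    · have := Γ.nonbir (r := 2) (by omega) (by omega) h1 h2 h3
      omega
  · have := Γ.four (δ := 3 * x + y - 1) (by
      rcases (show x = 3 ∨ x = 4 ∨ 5 ≤ x by omega) with rfl | rfl | h
      · omega
      · omega
      · linarith [mul_nonneg (show 0 ≤ x - 5 by omega) (show 0 ≤ y - 8 by omega),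
          show 8 ≤ y by omega])
      (by omega) D hD
    omega

end Mod.Cv

theorem exists_pair {x y e : ℤ} (hp : Par x y e) : ∃ (K : Type) (_ : Field K) (_ : Algebra ℂ K)
    (_ : Algebra (RatFunc ℂ) K) (_ : IsScalarTower ℂ (RatFunc ℂ) K)
    (_ : FiniteDimensional (RatFunc ℂ) K) (g : ℕ), 4 ≤ g ∧ HasGenus K g ∧
      IsLeast (cliffSet K g) (x + y - 1 - e - 2) ∧
      IsLeast (cliffTwoSet K g) (((3 * x + y - 4 : ℤ) : ℚ) / 2) := by
  obtain ⟨F, _, _, _, _, _, hF, ⟨M⟩⟩ := exists_mod hp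
  obtain ⟨c, hc⟩ := M.exists_curve hp hF
  obtain ⟨K, _, _, _, _, _, _, _, _, φ, hφ⟩ := exists_gen hc.irreducible
  have Γ : M.Cv c φ := ⟨hp, hF, hc, hφ⟩
  obtain ⟨g, hg⟩ := Int.eq_ofNat_of_zero_le (gen_nonneg (K := K))
  obtain ⟨hx, he, hy⟩ := hp
  have h1 := Γ.gen_eq
  have h3 := mul_nonneg (show 0 ≤ x - 3 by omega) (show 0 ≤ y - 3 by omega)
  have h4 : x + y - 1 - e + 1 ≤ g := by rcases he with rfl | rfl <;> linarith
  exact ⟨K, _, _, _, ‹_›, ‹_›, g, by omega,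
    final_of_curve hg h4 (by omega) Γ.cliff Γ.exists_gonal Γ.d4 Γ.exists_H⟩

end Pool.Agent.Lib.MP_eeb174_ag
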