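import Pool.Agent.Lib.MP_eeb174_ag.RR

open Filter Set WithZero Module Polynomial

noncomputable section

namespace Pool.Agent.Lib.MP_eeb174_ag

variable {F : Type} [Field F] [Algebra ℂ F] [IsFF F]

namespace Place
variable (P : Place F)

open Classical in
/-- The value of a function at a place. -/
def res (z : F) : ℂ := if h : z ∈ P.O then (P.exists_res h).choose else 0

variable {P}

lemma val_sub_res {z : F} (h : P.val z ≤ 1) : P.val (z - algebraMap ℂ F (P.res z)) < 1 := by
  have h' := P.mem_iff.2 h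
  rw [res, dif_pos h']
  exact (P.exists_res h').choose_spec

lemma res_eq {z : F} {c : ℂ} (h : P.val (z - algebraMap ℂ F c) < 1) : P.res z = c :=
  P.res_unique (val_sub_res (P.mem_iff.1 (P.mem_of_val_sub_lt h))) h

@[simp] lemma res_const (c : ℂ) : P.res (algebraMap ℂ F c) = c := res_eq (by simp)

@[simp] lemma res_zero : P.res 0 = 0 := by simpa using res_const (P := P) 0

@[simp] lemma res_one : P.res 1 = 1 := by simpa using res_const (P := P) 1

lemma res_add {a b : F} (ha : P.val a ≤ 1) (hb : P.val b ≤ 1) :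
    P.res (a + b) = P.res a + P.res b :=
  res_eq (by
    have := P.val.map_add_lt (val_sub_res ha) (val_sub_res hb)
    rwa [map_add, add_sub_add_comm])

lemma res_mul {a b : F} (ha : P.val a ≤ 1) (hb : P.val b ≤ 1) :
    P.res (a * b) = P.res a * P.res b :=
  res_eq (by
    have h1 : a * b - algebraMap ℂ F (P.res a * P.res b) =
        (a - algebraMap ℂ F (P.res a)) * b +
          algebraMap ℂ F (P.res a) * (b - algebraMap ℂ F (P.res b)) := by
      rw [map_mul]; ring
    rw [h1]
    refine P.val.map_add_lt ?_ ?_ <;> rw [map_mul]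
    · exact (mul_le_of_le_one_right' hb).trans_lt (val_sub_res ha)
    · exact (mul_le_of_le_one_left' (P.val_const_le _)).trans_lt (val_sub_res hb))

lemma res_eq_zero_iff {a : F} (ha : P.val a ≤ 1) : P.res a = 0 ↔ P.val a < 1 :=
  ⟨fun h => by simpa [h] using val_sub_res ha, fun h => res_eq (by simpa using h)⟩

lemma res_ne_zero_iff {a : F} (ha : P.val a ≤ 1) : P.res a ≠ 0 ↔ P.val a = 1 := by
  rw [Ne, res_eq_zero_iff ha, not_lt]
  exact ⟨fun h => le_antisymm ha h, fun h => h.ge⟩

lemma res_smul (c : ℂ) {a : F} (ha : P.val a ≤ 1) : P.res (c • a) = c * P.res a := by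
  rw [Algebra.smul_def, res_mul (P.val_const_le c) ha, res_const]

lemma res_neg {a : F} (ha : P.val a ≤ 1) : P.res (-a) = -P.res a := by
  simpa using res_smul (-1) ha

lemma res_sub {a b : F} (ha : P.val a ≤ 1) (hb : P.val b ≤ 1) :
    P.res (a - b) = P.res a - P.res b := by
  rw [sub_eq_add_neg, res_add ha (by simpa using hb), res_neg hb, sub_eq_add_neg]

lemma res_sum {ι : Type*} (s : Finset ι) {a : ι → F} (ha : ∀ i ∈ s, P.val (a i) ≤ 1) :
    P.res (∑ i ∈ s, a i) = ∑ i ∈ s, P.res (a i) := by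
  classical
  induction s using Finset.induction_on with
  | empty => simp
  | insert i s hi ih =>
    have h1 : ∀ j ∈ s, P.val (a j) ≤ 1 := fun j hj => ha j (Finset.mem_insert_of_mem hj)
    rw [Finset.sum_insert hi, Finset.sum_insert hi,
      res_add (ha i (Finset.mem_insert_self _ _)) (P.val.map_sum_le h1), ih h1]

lemma res_pow {a : F} (ha : P.val a ≤ 1) (m : ℕ) : P.res (a ^ m) = P.res a ^ m := by
  induction m with
  | zero => simp
  | succ m ih =>
    rw [pow_succ, res_mul (by rw [map_pow]; exact pow_le_one' ha m) ha, ih, pow_succ]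

lemma val_zpow_mul_le_one {m : ℤ} {z : F} : P.val (P.unif ^ m * z) ≤ 1 ↔ P.val z ≤ exp m := by
  rw [← exp_zero, P.val_zpow_mul_le, zero_add]

lemma val_zpow_mul_lt_one {m : ℤ} {z : F} :
    P.val (P.unif ^ m * z) < 1 ↔ P.val z ≤ exp (m - 1) := by
  rw [P.val_lt_one_iff, P.val_zpow_mul_le, neg_add_eq_sub]

end Place

/-- The coefficients of `h` are bounded by the line of slope `s` and height `n` at `P`. -/
def Bd (P : Place F) (s n : ℤ) (h : F[X]) : Prop :=
  ∀ j : ℕ, P.val (h.coeff j) ≤ exp (n + s * j)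

/-- The initial form along a line. -/
def ini (P : Place F) (s n : ℤ) (h : F[X]) : ℂ[X] :=
  h.sum fun j a => monomial j (P.res (P.unif ^ (n + s * j) * a))

/-- Lift of a complex polynomial along a slope. -/
def up (P : Place F) (s : ℤ) : ℂ[X] →ₐ[ℂ] F[X] := aeval (C (P.unif ^ (-s)) * X)

variable {P : Place F} {s n m : ℤ} {h g : F[X]}

lemma coeff_ini (j : ℕ) :
    (ini P s n h).coeff j = P.res (P.unif ^ (n + s * j) * h.coeff j) := by
  rw [ini, coeff_sum, Polynomial.sum, Finset.sum_eq_single j]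
  · simp
  · intro b _ hb; simp [coeff_monomial, hb]
  · intro hj; simp [notMem_support_iff.1 hj]

lemma Bd.zero : Bd P s n 0 := fun _ => by simp

lemma Bd.mono (H : Bd P s n h) (hm : n ≤ m) : Bd P s m h :=
  fun j => (H j).trans (exp_le_exp.2 (by omega))

lemma Bd.add (H : Bd P s n h) (G : Bd P s n g) : Bd P s n (h + g) :=
  fun j => by rw [coeff_add]; exact P.val.map_add_le (H j) (G j)

lemma Bd.neg (H : Bd P s n h) : Bd P s n (-h) := fun j => by simpa using H j

lemma Bd.sub (H : Bd P s n h) (G : Bd P s n g) : Bd P s n (h - g) := by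
  rw [sub_eq_add_neg]; exact H.add G.neg

lemma Bd.smul (c : ℂ) (H : Bd P s n h) : Bd P s n (c • h) :=
  fun j => by rw [coeff_smul]; exact (P.val_smul_le c _).trans (H j)

lemma Bd.sum {ι : Type*} (t : Finset ι) {a : ι → F[X]} (H : ∀ i ∈ t, Bd P s n (a i)) :
    Bd P s n (∑ i ∈ t, a i) :=
  Finset.sum_induction _ _ (fun _ _ => Bd.add) Bd.zero H

lemma Bd.mul (H : Bd P s n h) (G : Bd P s m g) : Bd P s (n + m) (h * g) := fun j => by
  rw [coeff_mul]
  refine P.val.map_sum_le fun p hp => ?_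
  rw [map_mul]
  refine (mul_le_mul' (H _) (G _)).trans ?_
  rw [← exp_add, exp_le_exp, ← Finset.HasAntidiagonal.mem_antidiagonal.1 hp]
  push_cast; exact le_of_eq (by ring)

lemma bd_monomial {j : ℕ} {a : F} : Bd P s n (monomial j a) ↔ P.val a ≤ exp (n + s * j) := by
  refine ⟨fun H => by simpa using H j, fun H i => ?_⟩
  rw [coeff_monomial]
  split_ifs with hi
  · rwa [← hi]
  · simp

lemma bd_C {a : F} : Bd P s n (C a) ↔ P.val a ≤ exp n := by
  rw [← monomial_zero_left, bd_monomial]; simp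

lemma Bd.one : Bd P s 0 1 := by rw [← C_1, bd_C]; simp

lemma bd_X_pow (j : ℕ) : Bd P s (-(s * j)) (X ^ j) := by
  rw [← monomial_one_right_eq_X_pow, bd_monomial]; simp

lemma bd_X : Bd P s (-s) X := by simpa using bd_X_pow (P := P) (s := s) 1

lemma Bd.pow (H : Bd P s n h) (j : ℕ) : Bd P s (j * n) (h ^ j) := by
  induction j with
  | zero => simpa using Bd.one
  | succ j ih => rw [pow_succ]; convert ih.mul H using 1; push_cast; ring

lemma bd_unif_mul : Bd P s n (C (P.unif ^ m) * h) ↔ Bd P s (n + m) h := by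
  refine forall_congr' fun j => ?_
  rw [coeff_C_mul, P.val_zpow_mul_le, add_right_comm]

lemma Bd.le_one (H : Bd P s n h) (j : ℕ) : P.val (P.unif ^ (n + s * j) * h.coeff j) ≤ 1 :=
  Place.val_zpow_mul_le_one.2 (H j)

@[simp] lemma ini_zero : ini P s n 0 = 0 := by simp [ini]

lemma ini_add (H : Bd P s n h) (G : Bd P s n g) :
    ini P s n (h + g) = ini P s n h + ini P s n g := by
  ext j
  simp only [coeff_ini, coeff_add, mul_add]
  exact Place.res_add (H.le_one j) (G.le_one j)

lemma ini_smul (c : ℂ) (H : Bd P s n h) : ini P s n (c • h) = c • ini P s n h := by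
  ext j
  simp only [coeff_ini, coeff_smul, mul_smul_comm, smul_eq_mul]
  exact Place.res_smul c (H.le_one j)

lemma ini_neg (H : Bd P s n h) : ini P s n (-h) = -ini P s n h := by
  simpa using ini_smul (-1) H

lemma ini_sub (H : Bd P s n h) (G : Bd P s n g) :
    ini P s n (h - g) = ini P s n h - ini P s n g := by
  rw [sub_eq_add_neg, ini_add H G.neg, ini_neg G, sub_eq_add_neg]

lemma ini_mul (H : Bd P s n h) (G : Bd P s m g) :
    ini P s (n + m) (h * g) = ini P s n h * ini P s m g := by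
  ext j
  have h1 : ∀ p ∈ Finset.HasAntidiagonal.antidiagonal j, P.unif ^ (n + m + s * j) * (h.coeff p.1 * g.coeff p.2) =
      (P.unif ^ (n + s * p.1) * h.coeff p.1) * (P.unif ^ (m + s * p.2) * g.coeff p.2) :=
    fun p hp => by
      rw [mul_mul_mul_comm, ← zpow_add₀ P.unif_ne_zero, ← Finset.HasAntidiagonal.mem_antidiagonal.1 hp]
      congr 2; push_cast; ring
  rw [coeff_ini, coeff_mul, coeff_mul, Finset.mul_sum, Finset.sum_congr rfl h1, Place.res_sum]
  · exact Finset.sum_congr rfl fun p _ => by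
      rw [Place.res_mul (H.le_one _) (G.le_one _), coeff_ini, coeff_ini]
  · intro p _
    rw [map_mul]; exact mul_le_one' (H.le_one _) (G.le_one _)

lemma ini_monomial (j : ℕ) (a : F) :
    ini P s n (monomial j a) = monomial j (P.res (P.unif ^ (n + s * j) * a)) := by
  ext i
  rw [coeff_ini, coeff_monomial, coeff_monomial]
  split_ifs with hi
  · rw [hi]
  · simp

lemma ini_C (a : F) : ini P s n (C a) = C (P.res (P.unif ^ n * a)) := by
  rw [← monomial_zero_left, ini_monomial]; simp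

@[simp] lemma ini_one : ini P s 0 1 = 1 := by rw [← C_1, ini_C]; simp

lemma ini_X_pow (j : ℕ) : ini P s (-(s * j)) (X ^ j) = X ^ j := by
  rw [← monomial_one_right_eq_X_pow, ini_monomial, ← monomial_one_right_eq_X_pow]; simp

lemma ini_unif_mul : ini P s n (C (P.unif ^ m) * h) = ini P s (n + m) h := by
  ext j
  rw [coeff_ini, coeff_ini, coeff_C_mul, ← mul_assoc, ← zpow_add₀ P.unif_ne_zero, add_right_comm]

lemma coeff_ini_ne_zero (H : Bd P s n h) {j : ℕ} :
    (ini P s n h).coeff j ≠ 0 ↔ P.val (h.coeff j) = exp (n + s * j) := by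
  rw [coeff_ini, Ne, Place.res_eq_zero_iff (H.le_one j), Place.val_zpow_mul_lt_one]
  exact ⟨P.val_eq_of_not_le (H j), P.not_le_of_val_eq⟩

lemma ini_eq_zero_iff (H : Bd P s n h) : ini P s n h = 0 ↔ Bd P s (n - 1) h := by
  rw [Polynomial.ext_iff]
  refine forall_congr' fun j => ?_
  rw [coeff_ini, coeff_zero, Place.res_eq_zero_iff (H.le_one j), Place.val_zpow_mul_lt_one,
    sub_add_eq_add_sub]

lemma ini_eq_zero_of_lt (H : Bd P s m h) (hm : m < n) : ini P s n h = 0 :=
  (ini_eq_zero_iff (H.mono hm.le)).2 (H.mono (by omega))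

lemma ini_ne_zero_iff (H : Bd P s n h) :
    ini P s n h ≠ 0 ↔ ∃ j, P.val (h.coeff j) = exp (n + s * j) := by
  simp only [← coeff_ini_ne_zero H, Ne, Polynomial.ext_iff, coeff_zero, not_forall]

lemma le_of_ini_ne_zero (h0 : ini P s n h ≠ 0) (G : Bd P s m h) : n ≤ m :=
  not_lt.1 fun hm => h0 (ini_eq_zero_of_lt G hm)

lemma exists_bd (P : Place F) (s : ℤ) (h : F[X]) : ∃ n, Bd P s n h := by
  induction h using Polynomial.induction_on' with
  | add p q hp hq =>
    obtain ⟨a, ha⟩ := hp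
    obtain ⟨b, hb⟩ := hq
    exact ⟨max a b, (ha.mono (le_max_left _ _)).add (hb.mono (le_max_right _ _))⟩
  | monomial j a =>
    refine ⟨-P.ord a - s * j, bd_monomial.2 ?_⟩
    by_cases ha : a = 0
    · simp [ha]
    · rw [P.val_eq ha]; simp

lemma exists_bd_ini (P : Place F) (s : ℤ) (h0 : h ≠ 0) : ∃ n, Bd P s n h ∧ ini P s n h ≠ 0 := by
  obtain ⟨n, hn, h1⟩ := Int.exists_least_of_bdd (P := fun n => Bd P s n h)
    ⟨-P.ord h.leadingCoeff - s * h.natDegree, fun n hn => by
      have := (P.val_le_exp_iff (leadingCoeff_ne_zero.2 h0)).1 (hn h.natDegree)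
      omega⟩ (exists_bd P s h)
  exact ⟨n, hn, fun h2 => by have := h1 _ ((ini_eq_zero_iff hn).1 h2); omega⟩

/-- Gauss's lemma. -/
lemma Bd.of_mul (H : Bd P s n h) (h0 : ini P s n h ≠ 0) (G : Bd P s (n + m) (h * g)) :
    Bd P s m g := by
  by_cases hg : g = 0
  · rw [hg]; exact Bd.zero
  obtain ⟨k, hk, h1⟩ := exists_bd_ini P s hg
  have := le_of_ini_ne_zero (n := n + k) (by rw [ini_mul H hk]; exact mul_ne_zero h0 h1) G
  exact hk.mono (by omega)

lemma coeff_up (q : ℂ[X]) (j : ℕ) :
    (up P s q).coeff j = algebraMap ℂ F (q.coeff j) * P.unif ^ (-(s * j)) := by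
  induction q using Polynomial.induction_on' with
  | add p q hp hq => simp [hp, hq, add_mul]
  | monomial i a =>
    have h1 : up P s (monomial i a) = monomial i (algebraMap ℂ F a * P.unif ^ (-(s * i))) := by
      rw [up, aeval_monomial, mul_pow, ← C_pow, ← zpow_natCast, ← zpow_mul, neg_mul,
        Polynomial.algebraMap_apply, ← mul_assoc, ← C_mul, C_mul_X_pow_eq_monomial]
    rw [h1, coeff_monomial, coeff_monomial]
    split_ifs with hi
    · rw [hi]
    · simp

lemma bd_up (q : ℂ[X]) : Bd P s 0 (up P s q) := fun j => by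
  rw [coeff_up, map_mul, P.val_unif_zpow, neg_neg, zero_add]
  exact mul_le_of_le_one_left' (P.val_const_le _)

@[simp] lemma ini_up (q : ℂ[X]) : ini P s 0 (up P s q) = q := by
  ext j
  rw [coeff_ini, coeff_up, mul_left_comm, ← zpow_add₀ P.unif_ne_zero]
  simp

/-- A bounded polynomial is the lift of its initial form up to a multiple of the uniformiser. -/
lemma Bd.exists_eq_up (H : Bd P s 0 h) :
    ∃ g, Bd P s 0 g ∧ h = up P s (ini P s 0 h) + C P.unif * g := by
  refine ⟨C (P.unif ^ (-1 : ℤ)) * (h - up P s (ini P s 0 h)), ?_, ?_⟩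
  · rw [bd_unif_mul, ← sub_eq_add_neg, ← ini_eq_zero_iff (H.sub (bd_up _)), ini_sub H (bd_up _)]
    simp
  · rw [← mul_assoc, ← C_mul, zpow_neg_one, mul_inv_cancel₀ P.unif_ne_zero]; simp

lemma le_of_coeff_ini {n' : ℤ} {j : ℕ} (H : Bd P s n h) (H' : Bd P (s - 1) n' h)
    (hj : (ini P s n h).coeff j ≠ 0) : (j : ℤ) ≤ n' - n := by
  have h1 := H' j
  rw [(coeff_ini_ne_zero H).1 hj, exp_le_exp] at h1
  linarith

lemma ge_of_coeff_ini {n' : ℤ} {j : ℕ} (H : Bd P s n h) (H' : Bd P (s + 1) n' h)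
    (hj : (ini P s n h).coeff j ≠ 0) : n - n' ≤ j := by
  have h1 := H' j
  rw [(coeff_ini_ne_zero H).1 hj, exp_le_exp] at h1
  linarith

lemma Bd.val_eval_le (H : Bd P s n h) {a : F} (ha : P.val a ≤ exp (-s)) :
    P.val (h.eval a) ≤ exp n := by
  rw [eval_eq_sum_range]
  refine P.val.map_sum_le fun j _ => ?_
  rw [map_mul, map_pow]
  refine (mul_le_mul' (H j) (pow_le_pow_left' ha j)).trans ?_
  rw [← exp_nsmul, ← exp_add, exp_le_exp, nsmul_eq_mul]
  exact le_of_eq (by ring)

lemma natDegree_ini_le : (ini P s n h).natDegree ≤ h.natDegree :=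
  natDegree_le_iff_coeff_eq_zero.2 fun j hj => by
    rw [coeff_ini, coeff_eq_zero_of_natDegree_lt hj]; simp

lemma Bd.res_eval (H : Bd P s n h) (ρ : ℂ) :
    P.res (P.unif ^ n * h.eval (algebraMap ℂ F ρ * P.unif ^ s)) = (ini P s n h).eval ρ := by
  have h1 : ∀ j : ℕ, P.unif ^ n * (h.coeff j * (algebraMap ℂ F ρ * P.unif ^ s) ^ j) =
      (ρ ^ j) • (P.unif ^ (n + s * j) * h.coeff j) := fun j => by
    rw [Algebra.smul_def, zpow_add₀ P.unif_ne_zero, zpow_mul, zpow_natCast, map_pow]; ring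
  rw [eval_eq_sum_range, eval_eq_sum_range' (Nat.lt_succ_of_le natDegree_ini_le), Finset.mul_sum]
  simp only [h1]
  rw [Place.res_sum _ fun j _ => (P.val_smul_le _ _).trans (H.le_one j)]
  exact Finset.sum_congr rfl fun j _ => by rw [Place.res_smul _ (H.le_one j), coeff_ini, mul_comm]

end Pool.Agent.Lib.MP_eeb174_ag
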