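import Mathlib

open Set WithZero Polynomial Module

noncomputable section

namespace Pool.Agent.Lib.MP_eeb174_ag

open Classical in
/-- The valuation at infinity of the rational function field. -/
def vI : Valuation (RatFunc ℂ) ℤᵐ⁰ := RatFunc.inftyValuation ℂ

/-- Polynomials inside the rational function field. -/
def A0 : Subalgebra ℂ (RatFunc ℂ) := (IsScalarTower.toAlgHom ℂ ℂ[X] (RatFunc ℂ)).range

/-- The local ring at infinity. -/
def Ri : ValuationSubring (RatFunc ℂ) := vI.valuationSubring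

lemma mem_A0 {f : RatFunc ℂ} : f ∈ A0 ↔ ∃ p : ℂ[X], algebraMap ℂ[X] (RatFunc ℂ) p = f := Iff.rfl

lemma mem_Ri {f : RatFunc ℂ} : f ∈ Ri ↔ vI f ≤ 1 := Iff.rfl

lemma vI_X : vI RatFunc.X = exp 1 := by
  classical
  convert RatFunc.inftyValuation.X (F := ℂ)
  rfl

lemma vI_zpow (m : ℤ) : vI (RatFunc.X ^ m) = exp m := by
  rw [map_zpow₀, vI_X, ← exp_zsmul]; simp

lemma vI_poly {p : ℂ[X]} (hp : p ≠ 0) :
    vI (algebraMap ℂ[X] (RatFunc ℂ) p) = exp (p.natDegree : ℤ) := by
  classical
  convert RatFunc.inftyValuation.polynomial (F := ℂ) hp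
  rfl

lemma vI_C {c : ℂ} (hc : c ≠ 0) : vI (algebraMap ℂ (RatFunc ℂ) c) = 1 := by
  have := vI_poly (p := C c) (by simpa using hc)
  simpa using this

lemma vI_C_le (c : ℂ) : vI (algebraMap ℂ (RatFunc ℂ) c) ≤ 1 := by
  by_cases hc : c = 0
  · simp [hc]
  · exact (vI_C hc).le

lemma lt_one_iff_le_exp {γ : ℤᵐ⁰} : γ < 1 ↔ γ ≤ exp (-1) := by
  by_cases h : γ = 0
  · simp [h]
  · rw [← exp_log h, ← exp_zero, exp_lt_exp, exp_le_exp]; omega

lemma one_le_vI {f : RatFunc ℂ} (hf : f ∈ A0) (h0 : f ≠ 0) : 1 ≤ vI f := by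
  obtain ⟨p, rfl⟩ := mem_A0.1 hf
  rw [vI_poly (by rintro rfl; simp at h0), ← exp_zero, exp_le_exp]
  omega

lemma exists_poly_approx (f : RatFunc ℂ) : ∃ p ∈ A0, vI (f - p) < 1 := by
  have hd : f.denom ≠ 0 := f.denom_ne_zero
  have hd' : algebraMap ℂ[X] (RatFunc ℂ) f.denom ≠ 0 := by simpa using hd
  refine ⟨algebraMap ℂ[X] (RatFunc ℂ) (f.num / f.denom), ⟨_, rfl⟩, ?_⟩
  have h1 : f - algebraMap ℂ[X] (RatFunc ℂ) (f.num / f.denom) =
      algebraMap ℂ[X] (RatFunc ℂ) (f.num % f.denom) / algebraMap ℂ[X] (RatFunc ℂ) f.denom := by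
    have h2 := congrArg (algebraMap ℂ[X] (RatFunc ℂ)) (EuclideanDomain.div_add_mod f.num f.denom)
    rw [map_add, map_mul] at h2
    have h3 := f.num_div_denom
    rw [eq_div_iff hd', sub_mul]
    nth_rewrite 1 [← h3]
    rw [div_mul_cancel₀ _ hd', ← h2]
    ring
  rw [h1, map_div₀, vI_poly hd]
  by_cases h0 : f.num % f.denom = 0
  · simp [h0]
  · rw [vI_poly h0, ← exp_sub, ← exp_zero, exp_lt_exp]
    have := natDegree_lt_natDegree h0 (EuclideanDomain.mod_lt f.num hd)
    omega

lemma exists_resI {f : RatFunc ℂ} (hf : vI f ≤ 1) :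
    ∃ c : ℂ, vI (f - algebraMap ℂ (RatFunc ℂ) c) < 1 := by
  obtain ⟨p, hp, h⟩ := exists_poly_approx f
  obtain ⟨q, rfl⟩ := mem_A0.1 hp
  have h1 : vI (algebraMap ℂ[X] (RatFunc ℂ) q) ≤ 1 := by
    have := vI.map_sub_le hf h.le
    simpa using this
  by_cases hq : q = 0
  · exact ⟨0, by simpa [hq] using h⟩
  rw [vI_poly hq, ← exp_zero, exp_le_exp] at h1
  have h2 : q.natDegree = 0 := by omega
  rw [eq_C_of_natDegree_eq_zero h2] at h
  exact ⟨_, h⟩

/-- The identification of polynomials with `A0`. -/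
def polyEquivA0 : ℂ[X] ≃ₐ[ℂ] A0 :=
  AlgEquiv.ofInjective (IsScalarTower.toAlgHom ℂ ℂ[X] (RatFunc ℂ)) (RatFunc.algebraMap_injective ℂ)

instance : IsPrincipalIdealRing A0 :=
  IsPrincipalIdealRing.of_surjective polyEquivA0.toRingEquiv polyEquivA0.surjective

instance : IsFractionRing A0 (RatFunc ℂ) := by
  refine IsFractionRing.of_field A0 (RatFunc ℂ) fun z => ?_
  exact ⟨⟨_, z.num, rfl⟩, ⟨_, z.denom, rfl⟩, z.num_div_denom.symm⟩

instance : IsDiscreteValuationRing Ri := by
  classical
  haveI : vI.IsNontrivial := ⟨RatFunc.X, by simp [vI_X], by simp [vI_X]⟩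
  exact Valuation.valuationSubring_isDiscreteValuationRing vI

/-- Polynomials of degree at most `k`. -/
def Pk (k : ℤ) : Submodule ℂ (RatFunc ℂ) where
  carrier := {f | f ∈ A0 ∧ vI f ≤ exp k}
  add_mem' := fun ha hb => ⟨A0.add_mem ha.1 hb.1, vI.map_add_le ha.2 hb.2⟩
  zero_mem' := ⟨A0.zero_mem, by simp⟩
  smul_mem' := fun c f hf => ⟨A0.smul_mem hf.1 c, by
    rw [Algebra.smul_def, map_mul]
    exact (mul_le_of_le_one_left' (vI_C_le c)).trans hf.2⟩

lemma mem_Pk {k : ℤ} {f : RatFunc ℂ} : f ∈ Pk k ↔ f ∈ A0 ∧ vI f ≤ exp k := Iff.rfl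

lemma Pk_eq (k : ℤ) : Pk k = (degreeLT ℂ (k + 1).toNat).map
    (IsScalarTower.toAlgHom ℂ ℂ[X] (RatFunc ℂ)).toLinearMap := by
  ext f
  simp only [mem_Pk, Submodule.mem_map, mem_degreeLT]
  constructor
  · rintro ⟨⟨p, rfl⟩, h⟩
    refine ⟨p, ?_, rfl⟩
    by_cases hp : p = 0
    · simp [hp]
    · erw [vI_poly hp, exp_le_exp] at h
      rw [degree_eq_natDegree hp]
      exact_mod_cast (by omega : p.natDegree < (k + 1).toNat)
  · rintro ⟨p, hp, rfl⟩
    refine ⟨⟨p, rfl⟩, ?_⟩
    by_cases h0 : p = 0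
    · simp [h0]
    · erw [vI_poly h0, exp_le_exp]
      rw [degree_eq_natDegree h0] at hp
      have : p.natDegree < (k + 1).toNat := by exact_mod_cast hp
      omega

/-- Coordinates on `Pk`. -/
def PkEquiv (k : ℤ) : (Fin (k + 1).toNat → ℂ) ≃ₗ[ℂ] Pk k :=
  (degreeLTEquiv ℂ _).symm ≪≫ₗ Submodule.equivMapOfInjective
    (IsScalarTower.toAlgHom ℂ ℂ[X] (RatFunc ℂ)).toLinearMap (RatFunc.algebraMap_injective ℂ) _ ≪≫ₗ
    LinearEquiv.ofEq _ _ (Pk_eq k).symm

instance (k : ℤ) : Module.Finite ℂ (Pk k) := Module.Finite.equiv (PkEquiv k)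

lemma finrank_Pk (k : ℤ) : finrank ℂ (Pk k) = (k + 1).toNat := by
  rw [← (PkEquiv k).finrank_eq]; simp

lemma vI_sum_sub_lt {m : ℕ} (a b : Fin m → RatFunc ℂ) (α β : Fin m → ℂ) (ha : ∀ i, vI (a i) ≤ 1)
    (h1 : ∀ i, vI (a i - algebraMap ℂ _ (α i)) < 1) (h2 : ∀ i, vI (b i - algebraMap ℂ _ (β i)) < 1) :
    vI (∑ i, a i * b i - algebraMap ℂ _ (∑ i, α i * β i)) < 1 := by
  rw [map_sum, ← Finset.sum_sub_distrib]
  refine vI.map_sum_lt one_ne_zero fun i _ => ?_
  have : a i * b i - algebraMap ℂ _ (α i * β i) = a i * (b i - algebraMap ℂ _ (β i)) +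
      algebraMap ℂ _ (β i) * (a i - algebraMap ℂ _ (α i)) := by rw [map_mul]; ring
  rw [this]
  refine vI.map_add_lt ?_ ?_
  · rw [map_mul]; exact (mul_le_of_le_one_left' (ha i)).trans_lt (h2 i)
  · rw [map_mul]; exact (mul_le_of_le_one_left' (vI_C_le _)).trans_lt (h1 i)

lemma vI_C_eq_zero {c : ℂ} (h : vI (algebraMap ℂ (RatFunc ℂ) c) < 1) : c = 0 := by
  by_contra hc
  exact absurd (vI_C hc) h.ne

lemma vI_mul_zpow_le {f : RatFunc ℂ} {a b : ℤ} :
    vI (RatFunc.X ^ a * f) ≤ exp b ↔ vI f ≤ exp (b - a) := by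
  rw [map_mul, vI_zpow, exp_sub, le_div_iff₀ exp_pos, mul_comm]

theorem bg_coord {m : ℕ} (α : Fin m → Fin m → RatFunc ℂ)
    (hα : Submodule.span (RatFunc ℂ) (range α) = ⊤) :
    ∃ (e : Fin m → Fin m → RatFunc ℂ) (d : Fin m → ℤ),
      Submodule.span A0 (range e) = Submodule.span A0 (range α) ∧
      ∀ f : Fin m → RatFunc ℂ, (∀ j, vI ((∑ i, f i • e i) j) ≤ 1) ↔ ∀ i, vI (f i) ≤ exp (-d i) := by
  classical
  have hli : ∀ e : Fin m → Fin m → RatFunc ℂ,
      Submodule.span A0 (range e) = Submodule.span A0 (range α) → ∀ i, e i ≠ 0 := by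
    intro e he i
    refine LinearIndependent.ne_zero (R := RatFunc ℂ) i ?_
    refine linearIndependent_of_top_le_span_of_card_eq_finrank ?_ (by simp)
    rw [← hα, ← Submodule.span_span_of_tower A0 (RatFunc ℂ) (range α), ← he,
      Submodule.span_span_of_tower]
  obtain ⟨⟨r, hr0⟩, hr⟩ := IsLocalization.exist_integer_multiples_of_finite (nonZeroDivisors A0)
    (fun p : Fin m × Fin m => α p.1 p.2)
  have hr1 : (r : RatFunc ℂ) ≠ 0 := by
    simpa using nonZeroDivisors.ne_zero hr0
  have hr2 : ∀ w ∈ Submodule.span A0 (range α), ∀ j, (r : RatFunc ℂ) * w j ∈ A0 := by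
    intro w hw j
    induction hw using Submodule.span_induction with
    | mem w hw =>
      obtain ⟨i, rfl⟩ := hw
      obtain ⟨y, hy⟩ := hr (i, j)
      have : (r : RatFunc ℂ) * α i j = y := hy.symm
      rw [this]; exact y.2
    | zero => simp
    | add a b _ _ ha hb => rw [Pi.add_apply, mul_add]; exact A0.add_mem ha hb
    | smul c a _ ha =>
      have : (r : RatFunc ℂ) * (c • a) j = c * (r * a j) := by
        change (r : RatFunc ℂ) * (c * a j) = _
        ring
      rw [this]; exact A0.mul_mem c.2 ha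
  let P : ℤ → Prop := fun s => ∃ (e : Fin m → Fin m → RatFunc ℂ) (d : Fin m → ℤ),
    Submodule.span A0 (range e) = Submodule.span A0 (range α) ∧
      (∀ i j, vI (e i j) ≤ exp (d i)) ∧ ∑ i, d i = s
  have hbdd : ∃ b : ℤ, ∀ s, P s → b ≤ s := by
    refine ⟨∑ _i : Fin m, -log (vI r), ?_⟩
    rintro s ⟨e, d, he, hd, rfl⟩
    refine Finset.sum_le_sum fun i _ => ?_
    obtain ⟨j, hj⟩ := Function.ne_iff.1 (hli e he i)
    have h1 := one_le_vI (hr2 (e i) (he ▸ Submodule.subset_span ⟨i, rfl⟩) j) (mul_ne_zero hr1 hj)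
    have h2 : vI (r : RatFunc ℂ) ≠ 0 := by simpa using hr1
    rw [map_mul, ← exp_log h2] at h1
    have h3 := h1.trans (mul_le_mul_right (hd i j) _)
    rw [← exp_add, ← exp_zero, exp_le_exp] at h3
    omega
  have hne : ∃ s, P s := by
    have : ∀ i, ∃ d : ℤ, ∀ j, vI (α i j) ≤ exp d := by
      intro i
      obtain ⟨d, hd⟩ := Finite.exists_le fun j => log (vI (α i j))
      refine ⟨d, fun j => ?_⟩
      by_cases h : vI (α i j) = 0
      · simp [h]
      · rw [← exp_log h, exp_le_exp]; exact hd j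
    choose d hd using this
    exact ⟨_, α, d, rfl, hd, rfl⟩
  obtain ⟨s, ⟨e, d, he, hd, rfl⟩, hmin⟩ := Int.exists_least_of_bdd hbdd hne
  have hd' : ∀ i j, vI (RatFunc.X ^ (-d i) * e i j) ≤ 1 := by
    intro i j
    rw [← exp_zero, vI_mul_zpow_le]; simpa using hd i j
  choose c hc using fun i j => exists_resI (hd' i j)
  have hind : ∀ l : Fin m → ℂ, (∀ j, ∑ i, l i * c i j = 0) → ∀ i, l i = 0 := by
    intro l hl
    by_contra hne
    push Not at hne
    obtain ⟨i₀, hi₀, hmax⟩ := Finset.exists_max_image (Finset.univ.filter fun i => l i ≠ 0) d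
      (by obtain ⟨i, hi⟩ := hne; exact ⟨i, by simpa using hi⟩)
    have hl0 : l i₀ ≠ 0 := by simpa using hi₀
    let q : Fin m → A0 := fun i => l i • (⟨RatFunc.X, X, rfl⟩ : A0) ^ (d i₀ - d i).toNat
    have hq : ∀ i, (q i : RatFunc ℂ) = algebraMap ℂ _ (l i) * RatFunc.X ^ (d i₀ - d i) := by
      intro i
      by_cases h : l i = 0
      · simp [q, h]
      · have := hmax i (by simpa using h)
        rw [← Int.toNat_of_nonneg (sub_nonneg.2 this), zpow_natCast]
        simp [q, Algebra.smul_def]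
    let w : Fin m → RatFunc ℂ := ∑ i, q i • e i
    have hw : ∀ j, vI (w j) ≤ exp (d i₀ - 1) := by
      intro j
      have h1 := vI_sum_sub_lt (fun i => algebraMap ℂ _ (l i))
        (fun i => RatFunc.X ^ (-d i) * e i j) l (fun i => c i j) (fun i => vI_C_le _)
        (fun i => by simp) (fun i => hc i j)
      rw [hl j, map_zero, sub_zero, lt_one_iff_le_exp] at h1
      have h2 : w j = RatFunc.X ^ (d i₀) *
          ∑ i, algebraMap ℂ (RatFunc ℂ) (l i) * (RatFunc.X ^ (-d i) * e i j) := by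
        simp only [w, Finset.sum_apply, Finset.mul_sum]
        refine Finset.sum_congr rfl fun i _ => ?_
        change (q i : RatFunc ℂ) * e i j = _
        rw [hq, sub_eq_add_neg, zpow_add₀ RatFunc.X_ne_zero]
        ring
      rw [h2, vI_mul_zpow_le]
      convert h1 using 2
      ring
    have hspan : Submodule.span A0 (range (Function.update e i₀ w)) =
        Submodule.span A0 (range e) := by
      apply le_antisymm
      · rw [Submodule.span_le]
        rintro _ ⟨i, rfl⟩
        by_cases h : i = i₀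
        · rw [h, Function.update_self]
          exact Submodule.sum_mem _ fun i _ =>
            Submodule.smul_mem _ _ (Submodule.subset_span ⟨i, rfl⟩)
        · rw [Function.update_of_ne h]
          exact Submodule.subset_span ⟨i, rfl⟩
      · have hne : ∀ i, i ≠ i₀ → e i ∈ Submodule.span A0 (range (Function.update e i₀ w)) :=
          fun i h => Submodule.subset_span ⟨i, Function.update_of_ne h _ _⟩
        rw [Submodule.span_le]
        rintro _ ⟨i, rfl⟩
        by_cases h : i = i₀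
        · rw [h]
          have h1 : w ∈ Submodule.span A0 (range (Function.update e i₀ w)) :=
            Submodule.subset_span ⟨i₀, Function.update_self _ _ _⟩
          have h2 : w = q i₀ • e i₀ + ∑ i ∈ Finset.univ.erase i₀, q i • e i :=
            (Finset.add_sum_erase _ _ (Finset.mem_univ i₀)).symm
          have h3 : q i₀ • e i₀ ∈ Submodule.span A0 (range (Function.update e i₀ w)) := by
            rw [eq_sub_of_add_eq h2.symm]
            exact Submodule.sub_mem _ h1 (Submodule.sum_mem _ fun i hi =>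
              Submodule.smul_mem _ _ (hne i (Finset.ne_of_mem_erase hi)))
          have h4 := Submodule.smul_mem _ (algebraMap ℂ A0 (l i₀)⁻¹) h3
          have h5 : algebraMap ℂ A0 (l i₀)⁻¹ * q i₀ = 1 := by
            simp [q, Algebra.smul_def, ← map_mul, hl0]
          rwa [smul_smul, h5, one_smul] at h4
        · exact hne i h
    have h6 := hmin _ ⟨Function.update e i₀ w, Function.update d i₀ (d i₀ - 1), hspan.trans he,
      fun i j => by
        by_cases h : i = i₀
        · rw [h, Function.update_self, Function.update_self]; exact hw j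
        · rw [Function.update_of_ne h, Function.update_of_ne h]; exact hd i j, rfl⟩
    rw [Finset.sum_update_of_mem (Finset.mem_univ _),
      ← Finset.add_sum_erase _ _ (Finset.mem_univ i₀), Finset.sdiff_singleton_eq_erase] at h6
    omega
  refine ⟨e, d, he, fun f => ⟨fun hf => ?_, fun hf j => ?_⟩⟩
  · by_contra hne
    push Not at hne
    obtain ⟨i₁, hi₁⟩ := hne
    have hf1 : vI (f i₁) ≠ 0 := fun h => by simp [h] at hi₁
    obtain ⟨i₀, hi₀, hmax⟩ := Finset.exists_max_image (Finset.univ.filter fun i => vI (f i) ≠ 0)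
      (fun i => log (vI (f i)) + d i) ⟨i₁, by simpa using hf1⟩
    have hf0 : vI (f i₀) ≠ 0 := (Finset.mem_filter.1 hi₀).2
    set M := log (vI (f i₀)) + d i₀ with hM
    have hMpos : 1 ≤ M := by
      have := hmax i₁ (by simpa using hf1)
      rw [← exp_log hf1, exp_lt_exp] at hi₁
      omega
    have hg : ∀ i, vI (RatFunc.X ^ (d i - M) * f i) ≤ 1 := by
      intro i
      rw [← exp_zero, vI_mul_zpow_le]
      by_cases h : vI (f i) = 0
      · simp [h]
      · have := hmax i (by simpa using h)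
        rw [← exp_log h, exp_le_exp]; omega
    choose l hl using fun i => exists_resI (hg i)
    have h0 := hind l (fun j => by
      have h1 := vI_sum_sub_lt _ (fun i => RatFunc.X ^ (-d i) * e i j) l (fun i => c i j) hg hl
        (fun i => hc i j)
      have h2 : ∑ i, RatFunc.X ^ (d i - M) * f i * (RatFunc.X ^ (-d i) * e i j) =
          RatFunc.X ^ (-M) * (∑ i, f i • e i) j := by
        simp only [Finset.sum_apply, Finset.mul_sum, Pi.smul_apply, smul_eq_mul]
        refine Finset.sum_congr rfl fun i _ => ?_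
        rw [show -M = (d i - M) + -d i by ring, zpow_add₀ RatFunc.X_ne_zero]
        ring
      have h3 : vI (RatFunc.X ^ (-M) * (∑ i, f i • e i) j) < 1 := by
        rw [lt_one_iff_le_exp, vI_mul_zpow_le]
        refine (hf j).trans ?_
        rw [← exp_zero, exp_le_exp]; omega
      rw [h2] at h1
      have h4 := vI.map_sub_lt h3 h1
      rw [sub_sub_cancel] at h4
      exact vI_C_eq_zero h4) i₀
    have h5 := hl i₀
    rw [h0, map_zero, sub_zero, lt_one_iff_le_exp, vI_mul_zpow_le, ← exp_log hf0, exp_le_exp] at h5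
    omega
  · rw [Finset.sum_apply]
    refine vI.map_sum_le fun i _ => ?_
    rw [Pi.smul_apply, smul_eq_mul, map_mul]
    refine (mul_le_mul' (hf i) (hd i j)).trans ?_
    rw [← exp_add]; simp

lemma exists_basis_fg (R : Type) [CommRing R] [IsDomain R] [IsPrincipalIdealRing R]
    (F : Type) [Field F] [Algebra R F] [IsFractionRing R F] {W : Type} [AddCommGroup W]
    [Module F W] [Module R W] [IsScalarTower R F W] (Λ : Submodule R W) (h : Λ.FG) :
    ∃ (m : ℕ) (β : Fin m → W), LinearIndependent F β ∧ Submodule.span R (range β) = Λ := by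
  haveI : Module.Finite R Λ := Module.Finite.iff_fg.2 h
  haveI : Module.IsTorsionFree R W := by
    refine Module.IsTorsionFree.of_smul_eq_zero fun r w hrw => ?_
    rw [← algebraMap_smul F, smul_eq_zero] at hrw
    exact hrw.imp_left fun h => IsFractionRing.injective R F (by simpa using h)
  haveI : Module.Free R Λ := Module.free_of_finite_type_torsion_free'
  let b := Module.finBasis R Λ
  refine ⟨_, fun i => b i, ?_, ?_⟩
  · rw [← LinearIndependent.iff_fractionRing R F]
    exact b.linearIndependent.map' Λ.subtype Λ.ker_subtype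
  · have := congrArg (Submodule.map Λ.subtype) b.span_eq
    rw [Submodule.map_span, Submodule.map_top, Submodule.range_subtype, ← Set.range_comp] at this
    exact this

/-- Splitting of vector bundles on the projective line. -/
theorem bg {W : Type} [AddCommGroup W] [Module (RatFunc ℂ) W] (Λ₀ : Submodule A0 W)
    (Λ₁ : Submodule Ri W) (h₀ : Λ₀.FG) (h₁ : Λ₁.FG)
    (hs : Submodule.span (RatFunc ℂ) (Λ₀ : Set W) = Submodule.span (RatFunc ℂ) (Λ₁ : Set W)) :
    ∃ (m : ℕ) (e : Fin m → W) (a : Fin m → ℤ), LinearIndependent (RatFunc ℂ) e ∧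
      Submodule.span (RatFunc ℂ) (range e) = Submodule.span (RatFunc ℂ) (Λ₀ : Set W) ∧
      (∀ f : Fin m → RatFunc ℂ, ∑ i, f i • e i ∈ Λ₀ ↔ ∀ i, f i ∈ A0) ∧
      ∀ f : Fin m → RatFunc ℂ, ∑ i, f i • e i ∈ Λ₁ ↔ ∀ i, vI (f i) ≤ exp (a i) := by
  obtain ⟨m', α, hα, rfl⟩ := exists_basis_fg A0 (RatFunc ℂ) Λ₀ h₀
  obtain ⟨m, β, hβ, rfl⟩ := exists_basis_fg Ri (RatFunc ℂ) Λ₁ h₁
  rw [Submodule.span_span_of_tower, Submodule.span_span_of_tower] at hs
  obtain rfl : m' = m := by
    have h1 := finrank_span_eq_card hα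
    have h2 := finrank_span_eq_card hβ
    rw [hs, h2] at h1
    simpa using h1.symm
  let T : (Fin m' → RatFunc ℂ) →ₗ[RatFunc ℂ] W := Fintype.linearCombination (RatFunc ℂ) β
  have hT : Function.Injective T := hβ.fintypeLinearCombination_injective
  have hTr : LinearMap.range T = Submodule.span (RatFunc ℂ) (range β) :=
    Fintype.range_linearCombination _ _
  have h3 : ∀ i, ∃ c, T c = α i := fun i => by
    have : α i ∈ LinearMap.range T := by
      rw [hTr, ← hs]; exact Submodule.subset_span ⟨i, rfl⟩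
    exact this
  choose α' hα' using h3
  have h4 : Submodule.span (RatFunc ℂ) (range α') = ⊤ := by
    apply Submodule.map_injective_of_injective hT
    rw [Submodule.map_span, ← Set.range_comp, Submodule.map_top, hTr, ← hs]
    congr 2
    exact funext hα'
  obtain ⟨e, d, he, hd⟩ := bg_coord α' h4
  have h5 : Submodule.span A0 (range fun i => T (e i)) = Submodule.span A0 (range α) := by
    have := congrArg (Submodule.map (T.restrictScalars A0)) he
    rw [Submodule.map_span, Submodule.map_span, ← Set.range_comp, ← Set.range_comp] at this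
    rw [show α = (T.restrictScalars A0) ∘ α' from (funext hα').symm]
    exact this
  have h6 : Submodule.span (RatFunc ℂ) (range fun i => T (e i)) =
      Submodule.span (RatFunc ℂ) (range α) := by
    rw [← Submodule.span_span_of_tower A0 (RatFunc ℂ) (range α), ← h5,
      Submodule.span_span_of_tower]
  have h7 : LinearIndependent (RatFunc ℂ) fun i => T (e i) := by
    rw [linearIndependent_iff_card_eq_finrank_span, Set.finrank, h6, finrank_span_eq_card hα]
  refine ⟨m', fun i => T (e i), fun i => -d i, h7, by rw [h6, Submodule.span_span_of_tower],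
    fun f => ?_, fun f => ?_⟩
  · rw [← h5, Submodule.mem_span_range_iff_exists_fun]
    constructor
    · rintro ⟨c, hc⟩ i
      have := Fintype.linearIndependent_iffₛ.1 h7 (fun i => (c i : RatFunc ℂ)) f hc i
      rw [← this]; exact (c i).2
    · intro h
      exact ⟨fun i => ⟨f i, h i⟩, rfl⟩
  · rw [← hd f, Submodule.mem_span_range_iff_exists_fun]
    have h8 : ∑ i, f i • T (e i) = T (∑ i, f i • e i) := by simp
    rw [h8]
    constructor
    · rintro ⟨c, hc⟩ j
      have : T (fun i => (c i : RatFunc ℂ)) = T (∑ i, f i • e i) := hc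
      rw [← hT this]; exact (c j).2
    · intro h
      exact ⟨fun j => ⟨_, h j⟩, rfl⟩

end Pool.Agent.Lib.MP_eeb174_ag
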