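import Pool.Agent.Lib.MP_eeb174_ag.Genus

open Filter Set WithZero Module Polynomial

noncomputable section

namespace Pool.Agent.Lib.MP_eeb174_ag

set_option linter.unusedSectionVars false

variable {F K : Type} [Field F] [Algebra ℂ F] [Algebra (RatFunc ℂ) F]
  [IsScalarTower ℂ (RatFunc ℂ) F] [FiniteDimensional (RatFunc ℂ) F]
  [Field K] [Algebra ℂ K] [Algebra (RatFunc ℂ) K]
  [IsScalarTower ℂ (RatFunc ℂ) K] [FiniteDimensional (RatFunc ℂ) K]
  [Algebra F K] [IsScalarTower ℂ F K] [FiniteDimensional F K]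
  {S : Surf F} {C N : Cl F} {c y z : F[X]} {φ f : K}

namespace BP

lemma two_finrank_R (hF : gen F = 1) {M : Cl F} (hM : S.Nef M)
    (h : ∀ j : ℕ, (j : ℤ) ≤ M.k → 0 < (S.D M j).degree) :
    2 * (finrank ℂ (S.R M) : ℤ) = S.ip M M + (S.D M 0).degree + (S.D M M.k).degree := by
  have h0 := hM.k0
  rw [hM.lr.finrank_R, ← hM.sum_degree_D, show (M.k + 1).toNat = M.k.toNat + 1 by omega]
  congr 1
  refine Finset.sum_congr rfl fun j hj => ?_
  have := Finset.mem_range.1 hj
  rw [el_eq (by have := h j (by omega); omega)]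
  omega

lemma natDegree_le {M : Cl F} {h : F[X]} (H : h ∈ S.R M) : h.natDegree ≤ M.k.toNat :=
  natDegree_le_iff_coeff_eq_zero.2 fun j hj => H.1 j (by omega)

/-- The span of the products with a pencil. -/
lemma exists_range (hN : S.Exact N y z) (hyz : IsCoprime y z) {T : Cl F} (hT : S.Nef T) :
    ∃ U : Submodule ℂ F[X], (∀ h ∈ U, ∃ u ∈ S.R (T + N), ∃ w ∈ S.R (T + N), h = u * y + w * z) ∧
      2 * finrank ℂ (S.R (T + N)) ≤ finrank ℂ U + finrank ℂ (S.R T) := by
  have := hT.lr.finite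
  have := (hT.add hN.nef).lr.finite
  let Φ : (S.R (T + N) × S.R (T + N)) →ₗ[ℂ] F[X] :=
    ((LinearMap.mulRight ℂ y).domRestrict _).coprod ((LinearMap.mulRight ℂ z).domRestrict _)
  have hΦ : ∀ p, Φ p = p.1.1 * y + p.2.1 * z := fun _ => rfl
  refine ⟨LinearMap.range Φ, ?_, ?_⟩
  · rintro _ ⟨p, rfl⟩
    exact ⟨_, p.1.2, _, p.2.2, hΦ p⟩
  obtain ⟨a, b, hab⟩ := hyz
  let Ψ : (S.R (T + N) × S.R (T + N)) →ₗ[ℂ] F[X] :=
    ((LinearMap.mulRight ℂ b).domRestrict _).coprod ((LinearMap.mulRight ℂ (-a)).domRestrict _)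
  have hΨ : ∀ p, Ψ p = p.1.1 * b + p.2.1 * (-a) := fun _ => rfl
  have key : ∀ p ∈ LinearMap.ker Φ, Ψ p * y = -p.2.1 ∧ Ψ p * z = p.1.1 := fun p hp => by
    have h1 : p.1.1 * y + p.2.1 * z = 0 := hp
    rw [hΨ]
    exact ⟨by linear_combination b * h1 - p.2.1 * hab, by linear_combination -a * h1 + p.1.1 * hab⟩
  have h1 : finrank ℂ (LinearMap.ker Φ) ≤ finrank ℂ (S.R T) := by
    refine LinearMap.finrank_le_finrank_of_injective
      (f := (Ψ.domRestrict (LinearMap.ker Φ)).codRestrict (S.R T) fun p => ?_) ?_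
    · have := hN.cancel (g := Ψ p) (M := T + N) ((key _ p.2).1 ▸ neg_mem p.1.2.2)
        ((key _ p.2).2 ▸ p.1.1.2)
      rwa [add_sub_cancel_right] at this
    · rw [injective_iff_map_eq_zero]
      intro p hp
      have h2 : Ψ p = 0 := congrArg Subtype.val hp
      have h3 := key _ p.2
      rw [h2, zero_mul, zero_mul, eq_comm, neg_eq_zero] at h3
      exact Subtype.ext (Prod.ext (Subtype.ext h3.2.symm) (Subtype.ext h3.1))
  have h2 := Φ.finrank_range_add_finrank_ker
  rw [finrank_prod] at h2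
  omega

/-- Sections whose restriction to the curve vanishes on a divisor. -/
def W (S : Surf F) (φ : K) (T : Cl F) (B : Dv K) : Submodule ℂ F[X] :=
  S.R T ⊓ (LL (S.res φ T - B)).comap ((aeval φ).toLinearMap.restrictScalars ℂ)

lemma mem_W {T : Cl F} {B : Dv K} {h : F[X]} :
    h ∈ W S φ T B ↔ h ∈ S.R T ∧ aeval φ h ∈ LL (S.res φ T - B) := Iff.rfl

lemma finrank_W (hc : S.Curve C c) (hφ : IsGen c φ) (hN : S.Exact N y z) (Q : Dv F) {B : Dv K}
    (hB : 0 ≤ B) (hd : 2 * gen K + B.degree ≤ (S.res φ (C + Cl.pb 0 Q)).degree) :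
    finrank ℂ (W S φ (C + Cl.pb 0 Q + N + N) B) + B.degree ≤
      finrank ℂ (S.R (C + Cl.pb 0 Q + N + N)) := by
  have := (((hc.nef.add (Surf.nef_pb Q)).add hN.nef).add hN.nef).lr.finite
  have hfin : ∀ B, FiniteDimensional ℂ (W S φ (C + Cl.pb 0 Q + N + N) B) := fun B =>
    Submodule.finiteDimensional_of_le inf_le_left
  refine eff_induction (P := fun B => 2 * gen K + B.degree ≤ (S.res φ (C + Cl.pb 0 Q)).degree →
    finrank ℂ (W S φ (C + Cl.pb 0 Q + N + N) B) + B.degree ≤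
      finrank ℂ (S.R (C + Cl.pb 0 Q + N + N))) (fun _ => ?_) (fun B x hB ih hd => ?_) hB hd
  · have := Submodule.finrank_mono (s := W S φ (C + Cl.pb 0 Q + N + N) 0)
      (t := S.R (C + Cl.pb 0 Q + N + N)) inf_le_left
    rw [map_zero]; omega
  · rw [map_add, degree_single'] at hd ⊢
    obtain ⟨η, hη, hη'⟩ := hc.exists_exact_of_exact hφ hN x
    obtain ⟨w, hw, hw'⟩ := exists_exact_of_degree (D := S.res φ (C + Cl.pb 0 Q) - B)
      (by rw [map_sub]; omega) x
    obtain ⟨h, hh, rfl⟩ := hc.exists_lift_C hφ Q (LL_mono (sub_le_self _ hB) hw)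
    have h1 : h ∈ S.R (C + Cl.pb 0 Q) := Surf.R_mono (by simp) (fun P δ _ => by simp) hh
    have e : S.res φ (C + Cl.pb 0 Q + N + N) - B =
        S.res φ (C + Cl.pb 0 Q) - B + S.res φ N + S.res φ N := by
      rw [map_add _ _ N, map_add _ _ N]; abel
    have h2 : W S φ (C + Cl.pb 0 Q + N + N) (B + Finsupp.single x 1) <
        W S φ (C + Cl.pb 0 Q + N + N) B := by
      refine lt_of_le_of_ne (fun g hg => ⟨hg.1, LL_mono (sub_le_sub_left (by simp) _) hg.2⟩)
        fun h3 => ?_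
      have h4 : h * η * η ∈ W S φ (C + Cl.pb 0 Q + N + N) B :=
        mem_W.2 ⟨Surf.mul_mem_R (Surf.mul_mem_R h1 hη) hη, by
          rw [e, map_mul, map_mul]
          exact mul_mem_LL (mul_mem_LL hw (hc.aeval_mem hφ hη)) (hc.aeval_mem hφ hη)⟩
      have h5 := (mem_W.1 (h3 ▸ h4)).2
      rw [← sub_sub] at h5
      refine not_mem_of_val_eq ?_ h5
      rw [e, map_mul, map_mul, map_mul, map_mul, hw', hη', Finsupp.add_apply, Finsupp.add_apply,
        exp_add, exp_add]
    have := Submodule.finrank_lt_finrank_of_lt h2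
    have := ih (by omega)
    omega

lemma exists_base (hF : gen F = 1) {D : Dv F} (h : D.degree = 1) :
    ∃ q, LL D ≤ LL (D - Finsupp.single q 1) := by
  have h1 : el D = 1 := by rw [el_eq (by omega)]; omega
  obtain ⟨τ, h0, hτ⟩ := el_pos_iff.1 (show 0 < el D by omega)
  obtain ⟨q, hq⟩ := eq_single_of_degree_one ((mem_LL_iff h0).1 hτ)
    (by rw [map_add, degree_divF, h, add_zero])
  refine ⟨q, (eq_LL_of_finrank (LL_mono (sub_le_self _ (by simp))) ?_).ge⟩
  have := el_pos_iff.2 ⟨τ, h0, (mem_LL_iff (D := D - Finsupp.single q 1) h0).2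
    (by rw [← hq]; exact le_of_eq (by abel))⟩
  rw [el] at this
  omega

lemma step (hF : gen F = 1) (V : Submodule ℂ F[X]) [FiniteDimensional ℂ V] (D D' : Dv F) (j : ℕ)
    (h : D.degree = 1 → ∀ q : Place F, ∃ g ∈ V, q.val (g.coeff j) = exp (D' q)) :
    ∃ E : Dv F, LL D ≤ LL (D - E) ∧
      (finrank ℂ (V ⊓ (LL (D' - E)).comap ((lcoeff F j).restrictScalars ℂ) : Submodule ℂ F[X]) : ℤ) +
        (if D.degree = 1 then 1 else 0) ≤ finrank ℂ V := by
  split_ifs with h1
  · obtain ⟨q, hq⟩ := exists_base hF h1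
    obtain ⟨g, hg, hg'⟩ := h h1 q
    refine ⟨_, hq, ?_⟩
    have := Submodule.finrank_lt_finrank_of_lt (lt_of_le_of_ne (inf_le_left :
      V ⊓ (LL (D' - Finsupp.single q 1)).comap ((lcoeff F j).restrictScalars ℂ) ≤ V) fun e =>
        not_mem_of_val_eq hg' (e.ge hg).2)
    omega
  · refine ⟨0, by rw [sub_zero], ?_⟩
    have := Submodule.finrank_mono (inf_le_left :
      V ⊓ (LL (D' - 0)).comap ((lcoeff F j).restrictScalars ℂ) ≤ V)
    omega

lemma one_le_k (hF : gen F = 1) (hN : S.Exact N y z) (hy : aeval φ y ≠ 0)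
    (hz : aeval φ z = f * aeval φ y) (hf : Transcendental ℂ f) (h : (S.D N N.k).degree = 1) :
    1 ≤ N.k := by
  by_contra h1
  have h0 : N.k = 0 := by have := hN.k0; omega
  have e : ∀ {w : F[X]}, w ∈ S.R N → aeval φ w = algebraMap F K (w.coeff 0) := fun {w} hw => by
    have := natDegree_le hw
    rw [h0] at this
    conv_lhs => rw [eq_C_of_natDegree_le_zero this, aeval_C]
  rw [e hN.my] at hy hz
  rw [e hN.mz] at hz
  have h2 : 2 ≤ el (S.D N 0) := two_le_el_iff.2 ⟨y.coeff 0, z.coeff 0, hN.nef.lr.coeff_mem hN.my 0,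
    hN.nef.lr.coeff_mem hN.mz 0, fun h => hy (by rw [h, map_zero]), fun a ha =>
      transc_ne_const hf a (mul_right_cancel₀ hy (by
        rw [← hz, ha, Algebra.smul_def, map_mul, ← IsScalarTower.algebraMap_apply]))⟩
  rw [h0] at h
  rw [el_eq (by omega)] at h2
  omega

lemma exists_large (S : Surf F) (M : Cl F) :
    ∀ᶠ m : ℤ in atTop, ∀ j : ℕ, (j : ℤ) ≤ M.k → 2 ≤ (S.D M j).degree + m := by
  have : ∀ᶠ m : ℤ in atTop, ∀ j ∈ Finset.range (M.k.toNat + 1), 2 ≤ (S.D M j).degree + m :=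
    (eventually_all_finset _).2 fun j _ =>
      (eventually_ge_atTop (2 - (S.D M j).degree)).mono fun m hm => by omega
  exact this.mono fun m hm j hj => hm j (Finset.mem_range.2 (by omega))

end BP

open BP in
theorem Surf.Curve.bp (hc : S.Curve C c) (hφ : IsGen c φ) (hF : gen F = 1)
    (hN : S.Exact N y z) (hyz : IsCoprime y z) (hy : aeval φ y ≠ 0)
    (hz : aeval φ z = f * aeval φ y) (hf : Transcendental ℂ f) :
    S.ip N C - S.ip N N + (if (S.D N 0).degree = 1 then 1 else 0) +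
      (if (S.D N N.k).degree = 1 then 1 else 0) ≤ (pol f).degree := by
  have hn := hN.nef
  have hB : 0 ≤ S.res φ N - pol f + divF (aeval φ y) := (mem_LL_iff hy).1
    (mem_LL_sub_pol (hc.aeval_mem hφ hN.my) (hz ▸ hc.aeval_mem hφ hN.mz))
  set B := S.res φ N - pol f + divF (aeval φ y) with hBdef
  have hBd : B.degree = S.ip N C - (pol f).degree := by
    rw [hBdef, map_add, map_sub, degree_divF, hc.degree_res hφ, add_zero]
  have e0 : S.res φ N - B = pol f + -divF (aeval φ y) := by rw [hBdef]; abel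
  have hyB : aeval φ y ∈ LL (S.res φ N - B) := by
    rw [e0]; simpa using mul_mem_LL (one_mem_pol f) (mem_LL_neg_divF (aeval φ y))
  have hzB : aeval φ z ∈ LL (S.res φ N - B) := by
    rw [e0, hz]; exact mul_mem_LL (mem_pol f) (mem_LL_neg_divF (aeval φ y))
  obtain ⟨P⟩ : Nonempty (Place F) := inferInstance
  obtain ⟨m, ⟨m0, m1, m2, m3⟩, m4, m5⟩ := (((exists_large S C).and ((exists_large S (C + N)).and
    ((exists_large S (C + N + N)).and (exists_large S (N + N))))).and
    ((eventually_ge_atTop 0).and (eventually_ge_atTop (2 * gen K + B.degree - S.ip C C)))).exists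
  set Q : Dv F := Finsupp.single P m with hQ
  have hQd : Q.degree = m := degree_single' _ _
  have hT0 := hc.nef.add (Surf.nef_pb Q)
  have hT1 := hT0.add hn
  have hT2 := hT1.add hn
  have hM := (hn.add hn).add (Surf.nef_pb Q)
  have hpos : ∀ (M : Cl F) (j : ℤ), (S.D (M + Cl.pb 0 Q) j).degree = (S.D M j).degree + m :=
    fun M j => by rw [Surf.D_add_pb, map_add, hQd]
  have d0 := two_finrank_R hF hT0 fun j hj => by
    have := m0 j (by simpa using hj); rw [hpos]; omega
  have d1 := two_finrank_R hF hT1 fun j hj => by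
    have := m1 j (by simpa using hj); rw [add_right_comm, hpos]; omega
  have d2 := two_finrank_R hF hT2 fun j hj => by
    have := m2 j (by simpa using hj); rw [add_right_comm C, add_right_comm, hpos]; omega
  obtain ⟨U, hU, hU'⟩ := exists_range hN hyz hT0
  have hW := finrank_W hc hφ hN Q hB (by
    rw [hc.degree_res hφ, Surf.ip_add]
    have h1 : S.ip (Cl.pb 0 Q) C = C.k * m := by simp [Surf.ip, hQd]
    have := hc.kpos
    nlinarith)
  have eT : C + Cl.pb 0 Q + N + N = C + (N + N + Cl.pb 0 Q) := by abel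
  have hk := hc.kpos
  have hk' := hN.k0
  set T := C + Cl.pb 0 Q with hT
  have := hT2.lr.finite
  have : FiniteDimensional ℂ (W S φ (T + N + N) B) := Submodule.finiteDimensional_of_le inf_le_left
  have hcW : ∀ g ∈ S.R (N + N + Cl.pb 0 Q), c * g ∈ W S φ (T + N + N) B := fun g hg =>
    mem_W.2 ⟨eT ▸ Surf.mul_mem_R hc.mem hg, by rw [(hφ.ker _).2 (dvd_mul_right _ _)]; simp⟩
  obtain ⟨E₀, hE₀, s₀⟩ := step hF (W S φ (T + N + N) B) (S.D N 0) (S.D (T + N + N) 0) 0
    fun _ q => by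
      obtain ⟨τ, hτ, hτ'⟩ := exists_exact_of_degree (D := S.D (N + N + Cl.pb 0 Q) 0)
        (by have := m3 0 (by simp; omega); rw [hpos]; simp at this; omega) q
      refine ⟨c * monomial 0 τ, hcW _ (Surf.monomial_mem_R hM.k0 hτ), ?_⟩
      rw [mul_coeff_zero, coeff_monomial_same, map_mul, hc.val_coeff_zero, hτ', eT,
        hc.nef.D_zero_add hM, Finsupp.add_apply, exp_add]
  obtain ⟨E₁, hE₁, s₁⟩ := step hF (W S φ (T + N + N) B ⊓
      (LL (S.D (T + N + N) 0 - E₀)).comap ((lcoeff F 0).restrictScalars ℂ)) (S.D N N.k)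
      (S.D (T + N + N) ((T + N).k + N.k)) ((T + N).k.toNat + N.k.toNat) fun h1 q => by
      have h2 := one_le_k hF hN hy hz hf h1
      have h3 : (((N + N).k.toNat : ℕ) : ℤ) = (N + N + Cl.pb 0 Q).k := by simp; omega
      obtain ⟨τ, hτ, hτ'⟩ := exists_exact_of_degree
        (D := S.D (N + N + Cl.pb 0 Q) (N + N).k.toNat)
        (by have := m3 (N + N).k.toNat (by simp; omega); rw [hpos]; omega) q
      refine ⟨c * monomial (N + N).k.toNat τ, ⟨hcW _ (Surf.monomial_mem_R h3.le hτ), ?_⟩, ?_⟩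
      · change (c * monomial (N + N).k.toNat τ).coeff 0 ∈ LL _
        rw [mul_coeff_zero, coeff_monomial, if_neg (by simp; omega), mul_zero]
        exact zero_mem _
      · have h4 : (T + N).k.toNat + N.k.toNat = c.natDegree + (N + N).k.toNat := by
          have := hc.deg
          simp [hT]; omega
        have h5 : (T + N).k + N.k = C.k + (N + N + Cl.pb 0 Q).k := by simp [hT]; omega
        rw [h4, coeff_mul_monomial, hc.monic.coeff_natDegree, one_mul, hτ', h5, eT,
          hc.nef.D_top_add hM, hc.D_top, zero_add, h3]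
  have hle : U ≤ W S φ (T + N + N) B ⊓
      (LL (S.D (T + N + N) 0 - E₀)).comap ((lcoeff F 0).restrictScalars ℂ) ⊓
      (LL (S.D (T + N + N) ((T + N).k + N.k) - E₁)).comap
        ((lcoeff F ((T + N).k.toNat + N.k.toNat)).restrictScalars ℂ) := by
    have key : ∀ u ∈ S.R (T + N), ∀ v ∈ S.R N, aeval φ v ∈ LL (S.res φ N - B) →
        u * v ∈ W S φ (T + N + N) B ⊓
      (LL (S.D (T + N + N) 0 - E₀)).comap ((lcoeff F 0).restrictScalars ℂ) ⊓
      (LL (S.D (T + N + N) ((T + N).k + N.k) - E₁)).comap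
        ((lcoeff F ((T + N).k.toNat + N.k.toNat)).restrictScalars ℂ) := fun u hu v hv hv' => by
      refine ⟨⟨mem_W.2 ⟨Surf.mul_mem_R hu hv, ?_⟩, ?_⟩, ?_⟩
      · rw [map_mul, map_add _ _ N, add_sub_assoc]
        exact mul_mem_LL (hc.aeval_mem hφ hu) hv'
      · change (u * v).coeff 0 ∈ LL _
        rw [mul_coeff_zero, hT1.D_zero_add hn, add_sub_assoc]
        exact mul_mem_LL (hT1.lr.coeff_mem hu 0) (hE₀ (hn.lr.coeff_mem hv 0))
      · change (u * v).coeff _ ∈ LL _
        rw [coeff_mul_add_eq_of_natDegree_le (natDegree_le hu) (natDegree_le hv),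
          hT1.D_top_add hn, add_sub_assoc]
        have h1 := hT1.lr.coeff_mem hu (T + N).k.toNat
        have h2 := hn.lr.coeff_mem hv N.k.toNat
        rw [Int.toNat_of_nonneg hT1.k0] at h1
        rw [Int.toNat_of_nonneg hk'] at h2
        exact mul_mem_LL h1 (hE₁ h2)
    intro h hh
    obtain ⟨u, hu, w, hw, rfl⟩ := hU h hh
    exact add_mem (key u hu y hN.my hyB) (key w hw z hN.mz hzB)
  have hU2 := Submodule.finrank_mono hle
  rw [Cl.add_k (T + N), hT1.D_top_add hn, hT1.D_zero_add hn] at d2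
  rw [Cl.add_k T, hT0.D_top_add hn, hT0.D_zero_add hn] at d1 d2
  have i0 : ∀ A : Cl F, S.ip (A + N) (A + N) = S.ip A A + 2 * S.ip A N + S.ip N N := fun A => by
    rw [Surf.ip_add, Surf.ip_comm A (A + N), Surf.ip_comm N (A + N), Surf.ip_add A N A,
      Surf.ip_add A N N, Surf.ip_comm N A]
    ring
  have i1 := i0 T
  have i2 := i0 (T + N)
  rw [Surf.ip_add T N N] at i2
  simp only [map_add] at d1 d2
  omega

end Pool.Agent.Lib.MP_eeb174_ag
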