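import Pool.Agent.Lib.MP_eeb174_ag.RR

open Filter Set WithZero Module Finsupp

noncomputable section

namespace Pool.Agent.Lib.MP_eeb174_ag

section Diff
open Polynomial

lemma sard_minpoly {F : Type} [Field F] [Differential F] [CharZero F] {G q : F[X]}
    (hq : Irreducible q) (h1 : q ∣ derivative G) (h2 : q ∣ Differential.mapCoeffs G) :
    ∃ p : F[X], p ≠ 0 ∧ (∀ i, Differential.deriv (p.coeff i) = 0) ∧ q ∣ p.comp G := by
  have : Fact (Irreducible q) := ⟨hq⟩
  have : FiniteDimensional F (AdjoinRoot q) := (AdjoinRoot.powerBasis hq.ne_zero).finite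
  let := Differential.differentialFiniteDimensional F (AdjoinRoot q)
  have := Differential.differentialAlgebraFiniteDimensional (F := F) (K := AdjoinRoot q)
  set g : AdjoinRoot q := aeval (AdjoinRoot.root q) G with hg
  have hg0 : Differential.deriv g = 0 := by
    rw [hg, Differential.deriv_aeval_eq, AdjoinRoot.aeval_eq, AdjoinRoot.aeval_eq,
      AdjoinRoot.mk_eq_zero.2 h1, AdjoinRoot.mk_eq_zero.2 h2, zero_mul, zero_add]
  have hi : IsIntegral F g := IsIntegral.of_finite F g
  have hm := minpoly.monic hi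
  have h3 : aeval g (Differential.mapCoeffs (minpoly F g)) = 0 := by
    have := Differential.deriv_aeval_eq g (minpoly F g)
    rw [minpoly.aeval, map_zero, hg0, mul_zero, add_zero] at this
    exact this.symm
  have h4 : Differential.mapCoeffs (minpoly F g) = 0 := by
    by_contra hne
    have h5 := minpoly.degree_le_of_ne_zero F g hne h3
    refine absurd h5 (not_le.2 ?_)
    rw [degree_eq_natDegree hm.ne_zero, degree_lt_iff_coeff_zero]
    intro m hm'
    rw [Differential.coeff_mapCoeffs]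
    rcases hm'.eq_or_lt with rfl | hlt
    · rw [hm.coeff_natDegree]
      exact Derivation.map_one_eq_zero _
    · rw [coeff_eq_zero_of_natDegree_lt hlt, map_zero]
  refine ⟨minpoly F g, hm.ne_zero, fun i ↦ ?_, ?_⟩
  · rw [← Differential.coeff_mapCoeffs, h4, coeff_zero]
  · rw [← AdjoinRoot.mk_eq_zero, ← AdjoinRoot.aeval_eq, aeval_comp, ← hg, minpoly.aeval]

lemma finite_bad (q : ℂ[X]) (j : ℕ) (hq : q.coeff j = 0) {w : ℂ} (hw : w ≠ 0) :
    {l : ℂ | ∃ ρ : ℂ, ρ ≠ 0 ∧ 2 ≤ (q + monomial j (l * w)).rootMultiplicity ρ}.Finite := by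
  by_cases hq0 : q = 0
  · convert Set.finite_empty
    refine Set.eq_empty_of_forall_notMem ?_
    rintro l ⟨ρ, hρ, h⟩
    rw [hq0, zero_add] at h
    obtain ⟨h1, h2⟩ := rootMultiplicity_pos'.1 (lt_of_lt_of_le two_pos h)
    rw [IsRoot, eval_monomial, mul_eq_zero] at h2
    rcases h2 with h2 | h2
    · exact h1 (by rw [h2, map_zero])
    · exact pow_ne_zero j hρ h2
  have hr : X * derivative q - C (j : ℂ) * q ≠ 0 := by
    intro h0
    apply hq0
    ext i
    have := congrArg (coeff · i) h0
    by_cases hij : i = j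
    · rw [hij, hq, coeff_zero]
    have e : (X * derivative q).coeff i = q.coeff i * i := by
      cases i with
      | zero => simp
      | succ n => rw [coeff_X_mul, coeff_derivative]; push_cast; ring
    simp only [coeff_sub, e, coeff_C_mul, coeff_zero] at this
    have h3 : q.coeff i * ((i : ℂ) - j) = 0 := by linear_combination this
    exact (mul_eq_zero.1 h3).resolve_right (sub_ne_zero.2 (by exact_mod_cast hij))
  refine ((finite_setOfPred_isRoot hr).image fun ρ ↦ -q.eval ρ / (w * ρ ^ j)).subset ?_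
  rintro l ⟨ρ, hρ, h⟩
  have hne : q + monomial j (l * w) ≠ 0 := (rootMultiplicity_pos'.1 (lt_of_lt_of_le two_pos h)).1
  obtain ⟨h1, h2⟩ := (one_lt_rootMultiplicity_iff_isRoot hne).1 h
  simp only [IsRoot, eval_add, eval_monomial, derivative_add, derivative_monomial] at h1 h2
  refine ⟨ρ, ?_, ?_⟩
  · simp only [mem_ofPred_eq, IsRoot, eval_sub, eval_mul, eval_X, eval_C]
    cases j with
    | zero =>
      simp only [Nat.cast_zero, mul_zero, zero_mul, add_zero, sub_zero] at h2 ⊢
      rw [h2, mul_zero]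
    | succ n =>
      simp only [add_tsub_cancel_right] at h2
      linear_combination ρ * h2 - ((n + 1 : ℕ) : ℂ) * h1
  · have : w * ρ ^ j ≠ 0 := mul_ne_zero hw (pow_ne_zero j hρ)
    field_simp
    linear_combination -h1

theorem exists_sep_coeffs {A : Type} [Finite A] (k : ℕ) (w : A → ℕ → ℂ) :
    ∃ l : ℕ → ℂ, l k = 1 ∧ (∀ j, l j ≠ 0) ∧ ∀ a, w a 0 = 0 → ∀ ρ : ℂ, ρ ≠ 0 →
      (∑ j ∈ Finset.range (k + 1), Polynomial.monomial j (l j * w a j)).rootMultiplicity ρ
        ≤ 1 := by
  classical
  have key : ∀ j, j ≤ k → ∃ l : ℕ → ℂ, l k = 1 ∧ (∀ j, l j ≠ 0) ∧ ∀ a, (∀ i < j, w a i = 0) →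
      ∀ ρ : ℂ, ρ ≠ 0 →
      (∑ j ∈ Finset.range (k + 1), Polynomial.monomial j (l j * w a j)).rootMultiplicity ρ
        ≤ 1 := by
    intro j hj
    induction hj using Nat.decreasingInduction with
    | self =>
      refine ⟨fun _ ↦ 1, rfl, fun _ ↦ one_ne_zero, fun a ha ρ hρ ↦ ?_⟩
      rw [Finset.sum_range_succ, Finset.sum_eq_zero fun i hi ↦ by
        rw [ha i (Finset.mem_range.1 hi), mul_zero, map_zero], zero_add]
      by_contra h
      obtain ⟨h1, h2⟩ := rootMultiplicity_pos'.1 (lt_trans one_pos (not_le.1 h))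
      rw [IsRoot, eval_monomial, mul_eq_zero] at h2
      rcases h2 with h2 | h2
      · exact h1 (by rw [h2, map_zero])
      · exact pow_ne_zero k hρ h2
    | of_succ j hjk ih =>
      obtain ⟨l, hl1, hl2, hl3⟩ := ih
      set q : A → ℂ[X] := fun a ↦
        ∑ i ∈ (Finset.range (k + 1)).erase j, monomial i (l i * w a i) with hq
      have hqj (a : A) : (q a).coeff j = 0 := by
        rw [hq]
        simp only [finsetSum_coeff, coeff_monomial]
        exact Finset.sum_eq_zero fun i hi ↦ if_neg (Finset.ne_of_mem_erase hi)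
      have hfin : (⋃ a : {a // w a j ≠ 0}, {c : ℂ | ∃ ρ : ℂ, ρ ≠ 0 ∧
          2 ≤ (q a + monomial j (c * w a j)).rootMultiplicity ρ}).Finite :=
        Set.finite_iUnion fun a ↦ finite_bad (q a) j (hqj a) a.2
      obtain ⟨c, hc⟩ := (hfin.insert 0).infinite_compl.nonempty
      simp only [mem_compl_iff, mem_insert_iff, mem_iUnion, mem_ofPred_eq, not_or, not_exists,
        not_and, not_le] at hc
      have hmem : j ∈ Finset.range (k + 1) := Finset.mem_range.2 (by omega)
      have e (a : A) : ∑ i ∈ Finset.range (k + 1), monomial i (Function.update l j c i * w a i) =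
          q a + monomial j (c * w a j) := by
        rw [← Finset.sum_erase_add _ _ hmem, Function.update_self, hq]
        congr 1
        exact Finset.sum_congr rfl fun i hi ↦ by
          rw [Function.update_of_ne (Finset.ne_of_mem_erase hi)]
      refine ⟨Function.update l j c, by rw [Function.update_of_ne (by omega), hl1], fun i ↦ ?_,
        fun a ha ρ hρ ↦ ?_⟩
      · by_cases hi : i = j
        · rw [hi, Function.update_self]; exact hc.1
        · rw [Function.update_of_ne hi]; exact hl2 i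
      · rw [e]
        by_cases hw : w a j = 0
        · have := hl3 a (fun i hi ↦ by
            rcases Nat.lt_succ_iff_lt_or_eq.1 hi with h | rfl
            · exact ha i h
            · exact hw) ρ hρ
          rw [← Finset.sum_erase_add _ _ hmem] at this
          simpa only [hw, mul_zero] using this
        · exact Nat.lt_succ_iff.1 (hc.2 ⟨a, hw⟩ ρ hρ)
  obtain ⟨l, h1, h2, h3⟩ := key 0 k.zero_le
  exact ⟨l, h1, h2, fun a _ ↦ h3 a fun i hi ↦ absurd hi i.not_lt_zero⟩

theorem finite_double_root (q : Polynomial ℂ) {w : ℂ} (hw : w ≠ 0) :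
    {l : ℂ | ∃ ρ : ℂ, 2 ≤ (q + Polynomial.C (l * w)).rootMultiplicity ρ}.Finite := by
  by_cases hd : derivative q = 0
  · convert Set.finite_empty
    refine Set.eq_empty_of_forall_notMem ?_
    rintro l ⟨ρ, h⟩
    obtain ⟨h1, h2⟩ := rootMultiplicity_pos'.1 (lt_of_lt_of_le two_pos h)
    rw [eq_C_of_derivative_eq_zero hd, ← map_add] at h1 h2
    rw [IsRoot, eval_C] at h2
    exact h1 (by rw [h2, map_zero])
  refine ((finite_setOfPred_isRoot hd).image fun ρ ↦ -q.eval ρ / w).subset ?_
  rintro l ⟨ρ, h⟩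
  have hne : q + C (l * w) ≠ 0 := (rootMultiplicity_pos'.1 (lt_of_lt_of_le two_pos h)).1
  obtain ⟨h1, h2⟩ := (one_lt_rootMultiplicity_iff_isRoot hne).1 h
  simp only [IsRoot, eval_add, eval_C, derivative_add, derivative_C, add_zero] at h1 h2
  refine ⟨ρ, h2, ?_⟩
  field_simp
  linear_combination -h1

end Diff

variable {K : Type} [Field K] [Algebra ℂ K] [Algebra (RatFunc ℂ) K]
  [IsScalarTower ℂ (RatFunc ℂ) K] [FiniteDimensional (RatFunc ℂ) K]

open Polynomial in
theorem sard (G : Polynomial K) (hG : 0 < G.natDegree) :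
    ∃ Λ : Set ℂ, Λ.Finite ∧ ∀ᶠ P : Place K in cofinite, ∀ ρ l : ℂ,
      P.val (G.eval (algebraMap ℂ K ρ) - algebraMap ℂ K l) ≤ exp (-2) →
      P.val (G.derivative.eval (algebraMap ℂ K ρ)) < 1 → l ∈ Λ := by
  classical
  obtain ⟨D, hD⟩ := exists_deriv (K := K)
  have : CharZero K := charZero_of_injective_algebraMap (algebraMap ℂ K).injective
  let : Differential K := ⟨D.restrictScalars ℤ⟩
  have hDd (z : K) : Differential.deriv z = D z := rfl
  have key : ∀ Q : K[X], Q ≠ 0 → Q ∣ derivative G → Q ∣ Differential.mapCoeffs G →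
      ∃ p : ℂ[X], p ≠ 0 ∧ Q ∣ (p.map (algebraMap ℂ K)).comp G := by
    intro Q
    induction Q using WfDvdMonoid.induction_on_irreducible with
    | zero => exact fun h ↦ absurd rfl h
    | unit u hu => exact fun _ _ _ ↦ ⟨1, one_ne_zero, hu.dvd⟩
    | mul a i ha hi ih =>
      intro _ h1 h2
      obtain ⟨p, hp, hp'⟩ := ih ha (dvd_of_mul_left_dvd h1) (dvd_of_mul_left_dvd h2)
      obtain ⟨r, hr, hr1, hr2⟩ := sard_minpoly hi (dvd_of_mul_right_dvd h1)
        (dvd_of_mul_right_dvd h2)
      obtain ⟨r0, rfl⟩ : r ∈ lifts (algebraMap ℂ K) := by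
        rw [lifts_iff_coeff_lifts]
        intro n
        by_contra hn
        refine deriv_ne_zero hD (transc_of_not_const fun c hc ↦ hn ⟨c, hc.symm⟩) ?_
        rw [← hDd, hr1]
      refine ⟨r0 * p, mul_ne_zero (fun h ↦ hr (by rw [h, map_zero])) hp, ?_⟩
      rw [Polynomial.map_mul, mul_comp]
      exact mul_dvd_mul hr2 hp'
  have hG' : derivative G ≠ 0 := fun h ↦ by
    rw [derivative_eq_zero.1 h] at hG
    exact lt_irrefl _ hG
  obtain ⟨p, hp, t, ht⟩ := key (EuclideanDomain.gcd (derivative G) (Differential.mapCoeffs G))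
    (fun h ↦ hG' (EuclideanDomain.gcd_eq_zero_iff.1 h).1) (EuclideanDomain.gcd_dvd_left _ _)
    (EuclideanDomain.gcd_dvd_right _ _)
  rw [EuclideanDomain.gcd_eq_gcd_ab, add_mul, mul_assoc, mul_assoc] at ht
  set u := EuclideanDomain.gcdA (derivative G) (Differential.mapCoeffs G) * t
  set v := EuclideanDomain.gcdB (derivative G) (Differential.mapCoeffs G) * t
  have hreg (f : K[X]) : ∀ᶠ P : Place K in cofinite, ∀ ρ : ℂ,
      P.val (f.eval (algebraMap ℂ K ρ)) ≤ 1 := by
    have h1 : ∀ᶠ P : Place K in cofinite, ∀ i ∈ Finset.range (f.natDegree + 1),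
        f.coeff i ∈ P.O :=
      (Filter.eventually_all_finset _).2 fun i _ ↦ finite_poles (f.coeff i)
    filter_upwards [h1] with P hP ρ
    rw [← P.mem_iff, eval_eq_sum_range]
    exact Subring.sum_mem P.O.toSubring fun i hi ↦
      P.O.mul_mem _ _ (hP i hi) (pow_mem (P.const ρ) i)
  refine ⟨_, finite_setOfPred_isRoot hp, ?_⟩
  have hun : ∀ᶠ P : Place K in cofinite, P.ord (D P.unif) = 0 :=
    eventually_cofinite.2 (finite_ord_deriv hD)
  filter_upwards [hreg u, hreg v, hun] with P hu hv hP ρ l h1 h2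
  set g := G.eval (algebraMap ℂ K ρ) with hg
  have hz : D (g - algebraMap ℂ K l) = (Differential.mapCoeffs G).eval (algebraMap ℂ K ρ) := by
    have : DifferentialAlgebra K K := ⟨fun _ ↦ rfl⟩
    have := Differential.deriv_aeval_eq (algebraMap ℂ K ρ) G
    simp only [coe_aeval_eq_eval, hDd, Derivation.map_algebraMap, mul_zero, add_zero] at this
    rw [map_sub, Derivation.map_algebraMap, sub_zero, hg, this]
  have h3 : P.val ((Differential.mapCoeffs G).eval (algebraMap ℂ K ρ)) < 1 := by
    rw [← hz]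
    by_cases h0 : g - algebraMap ℂ K l = 0
    · simp [h0]
    by_cases h0' : D (g - algebraMap ℂ K l) = 0
    · simp [h0']
    rw [P.val_le_iff h0] at h1
    rw [P.val_lt_one_iff, P.val_le_iff h0', ord_deriv hD P (by omega), hP]
    omega
  have h1' : P.val (g - algebraMap ℂ K l) < 1 :=
    P.val_lt_one_iff.2 (h1.trans (exp_le_exp.2 (by norm_num)))
  have hgO : g ∈ P.O := by
    have := P.O.add_mem _ _ (P.mem_iff.2 h1'.le) (P.const l)
    rwa [sub_add_cancel] at this
  have h4 : P.val (aeval g p) < 1 := by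
    have := congrArg (eval (algebraMap ℂ K ρ)) ht
    rw [eval_comp, ← hg, eval_map_algebraMap, eval_add, eval_mul (q := u), eval_mul (q := v)] at this
    rw [this]
    refine P.val.map_add_lt ?_ ?_ <;> rw [map_mul]
    · exact (mul_le_of_le_one_right' (hu ρ)).trans_lt h2
    · exact (mul_le_of_le_one_right' (hv ρ)).trans_lt h3
  obtain ⟨p1, hp1⟩ := X_sub_C_dvd_sub_C_eval (p := p) (a := l)
  have h5 : algebraMap ℂ K (p.eval l) = aeval g p - (g - algebraMap ℂ K l) * aeval g p1 := by
    have := congrArg (aeval g) hp1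
    simp only [map_sub, map_mul, aeval_X, aeval_C] at this
    linear_combination -this
  refine P.const_eq_zero (c := p.eval l) ?_
  rw [h5]
  refine P.val.map_sub_lt h4 ?_
  rw [map_mul]
  exact (mul_le_of_le_one_right' (P.mem_iff.1 (P.aeval_mem hgO p1))).trans_lt h1'

end Pool.Agent.Lib.MP_eeb174_ag
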