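import Pool.Agent.Lib.MP_eeb174_ag.Sec
import Pool.Agent.Lib.MP_eeb174_ag.Sard

open Filter Set WithZero Module Polynomial

noncomputable section

namespace Pool.Agent.Lib.MP_eeb174_ag

namespace BE

variable {F : Type} [Field F] [Algebra ℂ F]

/-- The member of the linear system with coefficients `l`. -/
def cc (k : ℕ) (τ : ℕ → F) (l : ℕ → ℂ) : F[X] :=
  ∑ j ∈ Finset.range (k + 1), monomial j (l j • τ j)

lemma coeff_cc (k : ℕ) (τ : ℕ → F) (l : ℕ → ℂ) (j : ℕ) :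
    (cc k τ l).coeff j = if j ≤ k then l j • τ j else 0 := by
  simp [cc, coeff_monomial]

lemma cc_update (k : ℕ) (τ : ℕ → F) (l : ℕ → ℂ) (a : ℂ) :
    cc k τ (Function.update l 0 a) = cc k τ (Function.update l 0 0) + C (a • τ 0) := by
  ext j
  rcases j with _ | j
  · simp [coeff_cc]
  · simp [coeff_cc, coeff_C_succ]

lemma cc_monic {k : ℕ} {τ : ℕ → F} {l : ℕ → ℂ} (h1 : τ k = 1) (h2 : l k = 1) :
    (cc k τ l).Monic ∧ (cc k τ l).natDegree = k := by
  have a1 : (cc k τ l).natDegree ≤ k :=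
    natDegree_le_iff_coeff_eq_zero.2 fun j hj => by rw [coeff_cc, if_neg (by omega)]
  have a2 : (cc k τ l).coeff k = 1 := by simp [coeff_cc, h1, h2]
  exact ⟨monic_of_natDegree_le_of_coeff_eq_one k a1 a2,
    le_antisymm a1 (le_natDegree_of_ne_zero (by rw [a2]; exact one_ne_zero))⟩

variable [IsFF F]

lemma ini_cc {P : Place F} {s n : ℤ} {k : ℕ} {τ : ℕ → F}
    (h : ∀ j ≤ k, P.val (τ j) ≤ exp (n + s * j)) (l : ℕ → ℂ) :
    ini P s n (cc k τ l) = ∑ j ∈ Finset.range (k + 1),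
      monomial j (l j * P.res (P.unif ^ (n + s * j) * τ j)) := by
  ext j
  rw [coeff_ini, coeff_cc]
  simp only [finsetSum_coeff, coeff_monomial, Finset.sum_ite_eq', Finset.mem_range,
    Nat.lt_succ_iff]
  split_ifs with hj
  · rw [mul_smul_comm, Place.res_smul _ (Place.val_zpow_mul_le_one.2 (h j hj))]
  · simp

lemma val_derivative {P : Place F} {h : F[X]} (H : Bd P 0 0 h) {ρ : ℂ}
    (h2 : 2 ≤ (ini P 0 0 h).rootMultiplicity ρ) :
    P.val (h.eval (algebraMap ℂ F ρ)) < 1 ∧ P.val ((derivative h).eval (algebraMap ℂ F ρ)) < 1 := by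
  have hne : ini P 0 0 h ≠ 0 := (rootMultiplicity_pos'.1 (lt_of_lt_of_le two_pos h2)).1
  obtain ⟨r1, r2⟩ := (one_lt_rootMultiplicity_iff_isRoot hne).1 h2
  have key : ∀ g : F[X], Bd P 0 0 g → (ini P 0 0 g).eval ρ = 0 →
      P.val (g.eval (algebraMap ℂ F ρ)) < 1 := fun g G h0 => by
    have a1 := G.res_eval ρ
    have a2 := G.val_eval_le (a := algebraMap ℂ F ρ) (by simpa using P.val_const_le ρ)
    simp only [zpow_zero, one_mul, mul_one, h0] at a1
    exact (Place.res_eq_zero_iff (by simpa using a2)).1 a1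
  have e : ∀ j : ℕ, (derivative h).coeff j = ((j : ℂ) + 1) • h.coeff (j + 1) := fun j => by
    rw [coeff_derivative, Algebra.smul_def, mul_comm]; simp
  have hb : ∀ j : ℕ, P.val (h.coeff j) ≤ 1 := fun j => by simpa using H j
  refine ⟨key h H r1, key _ (fun j => ?_) ?_⟩
  · rw [e]; simpa using (P.val_smul_le _ _).trans (hb _)
  · have : ini P 0 0 (derivative h) = derivative (ini P 0 0 h) := by
      ext j
      rw [coeff_derivative, coeff_ini, coeff_ini, e]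
      simp only [zero_mul, add_zero, zpow_zero, one_mul]
      rw [Place.res_smul _ (hb _), mul_comm]
    rw [this]; exact r2

end BE

open BE

variable {F : Type} [Field F] [Algebra ℂ F] [Algebra (RatFunc ℂ) F]
  [IsScalarTower ℂ (RatFunc ℂ) F] [FiniteDimensional (RatFunc ℂ) F]

theorem Surf.exists_curve (S : Surf F) (hF : gen F = 1) {C : Cl F} (hC : S.Nef C) (hk : 0 < C.k)
    (htop : S.D C C.k = 0) (hbot : LinEq 0 (S.D C 0))
    (hpos : ∀ j : ℤ, 0 < j → j < C.k → 2 ≤ (S.D C j).degree) : ∃ c, S.Curve C c := by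
  classical
  obtain ⟨k, hk'⟩ := Int.eq_ofNat_of_zero_le hk.le
  have hk0 : k ≠ 0 := by omega
  set T := S.T₁ ∪ S.T₂ with hT
  have hex : ∀ j : ℕ, ∃ t : F, (j ≤ k → t ∈ LL (S.D C j) ∧ ∀ P, (P ∈ T ∨ j = 0 ∨ j = k) →
      P.val t = exp (S.D C j P)) ∧ (j = k → t = 1) := fun j => by
    by_cases h1 : j = k
    · subst h1
      refine ⟨1, fun _ => ?_, fun _ => rfl⟩
      rw [← hk', htop]
      exact ⟨one_mem_LL.2 le_rfl, fun P _ => by simp⟩
    by_cases h0 : j = 0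
    · subst h0
      obtain ⟨w, hw, e⟩ := hbot
      have : ∀ P : Place F, P.val w⁻¹ = exp (S.D C 0 P) := fun P => by
        rw [e, map_inv₀, P.val_eq hw, ← exp_neg]; simp
      exact ⟨w⁻¹, fun _ => ⟨fun P => (this P).le, fun P _ => this P⟩, fun h => (h1 h).elim⟩
    by_cases h2 : j ≤ k
    · obtain ⟨z, hz, hz'⟩ := exists_exact_finite (LL (S.D C j)) le_rfl T.finite_toSet fun x _ =>
        exists_exact_of_degree (by rw [hF]; exact hpos j (by omega) (by omega)) x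
      exact ⟨z, fun _ => ⟨hz, fun P hP => hz' P (by tauto)⟩, fun h => (h1 h).elim⟩
    · exact ⟨0, fun h => (h2 h).elim, fun h => (h1 h).elim⟩
  choose τ hτ hτk using hex
  have hle : ∀ P δ, S.ok P δ → ∀ j ≤ k, P.val (τ j) ≤ exp (C.nb P δ + (S.α P + δ) * j) :=
    fun P δ hδ j hj => ((hτ j hj).1 P).trans (exp_le_exp.2 (Surf.D_le hδ C j))
  let w : Place F × ℤ → ℕ → ℂ := fun a j =>
    a.1.res (a.1.unif ^ (C.nb a.1 a.2 + (S.α a.1 + a.2) * j) * τ j)
  have hR : ∀ l, cc k τ l ∈ S.R C := fun l =>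
    Surf.mem_R_of (fun j hj => by rw [coeff_cc, if_neg (by omega)]) fun j => by
      rw [coeff_cc]
      split_ifs with hj
      · exact Submodule.smul_mem _ _ (hτ j hj).1
      · exact Submodule.zero_mem _
  have hinn : ∀ l P δ, S.ok P δ → S.inn C P δ (cc k τ l) =
      ∑ j ∈ Finset.range (k + 1), monomial j (l j * w (P, δ) j) :=
    fun l P δ hδ => ini_cc (hle P δ hδ) l
  have hout : ∀ P δ, S.ok P δ → P ∉ T → δ = 0 ∧ S.lo C P δ = 0 ∧ S.hi C P δ = k :=
    fun P δ hδ hP => by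
      rw [hT, Finset.mem_union, not_or] at hP
      obtain rfl : δ = 0 := by
        rcases hδ with h | h | h
        exacts [h, (hP.1 h.2).elim, (hP.2 h.2).elim]
      simp [Surf.lo, Surf.hi, hP.1, hP.2, hk']
  have hw : ∀ P δ, S.ok P δ → ∀ j : ℕ, S.lo C P δ ≤ j → j ≤ S.hi C P δ →
      (P ∈ T ∨ j = 0 ∨ j = k) → w (P, δ) j ≠ 0 := fun P δ hδ j h1 h2 h3 => by
    have hj : j ≤ k := by have := hC.hi_le hδ; omega
    have := (hτ j hj).2 P h3
    rw [hC.D_eq hδ h1 h2] at this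
    rw [Ne, Place.res_eq_zero_iff (Place.val_zpow_mul_le_one.2 this.le),
      Place.val_zpow_mul_lt_one]
    exact P.not_le_of_val_eq this
  have hI : ∀ P δ, S.ok P δ → δ ∈ Finset.Icc (-1 : ℤ) 1 := fun P δ hδ => by
    rcases hδ with rfl | ⟨rfl, -⟩ | ⟨rfl, -⟩ <;> simp
  obtain ⟨l, hl1, hl0, hl⟩ := exists_sep_coeffs (A := ↥(T ×ˢ Finset.Icc (-1 : ℤ) 1)) k
    fun a => w a.1
  have hτ0 : τ 0 ≠ 0 := ((Classical.arbitrary (Place F)).val_eq_exp_iff.1
    ((hτ 0 k.zero_le).2 _ (Or.inr (Or.inl rfl)))).1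
  set c0 := cc k τ (Function.update l 0 0) with hc0
  have hm : ∀ a, (cc k τ (Function.update l 0 a)).Monic ∧
      (cc k τ (Function.update l 0 a)).natDegree = k := fun a =>
    cc_monic (hτk k rfl) (by rw [Function.update_of_ne hk0, hl1])
  obtain ⟨Λ, hΛ, hE⟩ := sard (Polynomial.C (τ 0)⁻¹ * c0)
    (by rw [natDegree_C_mul (inv_ne_zero hτ0), (hm 0).2]; omega)
  have hE2 : ∀ᶠ P : Place F in cofinite, P ∉ T ∧ S.α P = 0 ∧ C.B P = 0 ∧ ∀ ρ a : ℂ,
      P.val ((Polynomial.C (τ 0)⁻¹ * c0).eval (algebraMap ℂ F ρ) - algebraMap ℂ F a) ≤ exp (-2) →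
      P.val ((Polynomial.C (τ 0)⁻¹ * c0).derivative.eval (algebraMap ℂ F ρ)) < 1 → a ∈ Λ := by
    filter_upwards [T.finite_toSet.compl_mem_cofinite, S.α.hasFiniteSupport.compl_mem_cofinite,
      C.B.hasFiniteSupport.compl_mem_cofinite, hE] with P h1 h2 h3 h4
    exact ⟨h1, by simpa using h2, by simpa using h3, h4⟩
  have hfin := (eventually_cofinite.1 hE2).prod (Finset.Icc (-1 : ℤ) 1).finite_toSet
  have hbad := (hfin.inter_of_left {a | w a 0 ≠ 0}).biUnion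
    (t := fun a => {b : ℂ | ∃ ρ : ℂ,
      2 ≤ (S.inn C a.1 a.2 c0 + Polynomial.C (b * w a 0)).rootMultiplicity ρ})
    fun a ha => finite_double_root _ ha.2
  obtain ⟨b, hb⟩ := ((hbad.union (hΛ.image Neg.neg)).union (finite_singleton 0)).exists_notMem
  simp only [mem_union, not_or, mem_singleton_iff] at hb
  obtain ⟨⟨hb1, hb2⟩, hb3⟩ := hb
  have hl' : ∀ j, Function.update l 0 b j ≠ 0 := fun j => by
    rcases j with _ | j
    · simpa using hb3
    · simpa using hl0 _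
  have hco : ∀ P δ, S.ok P δ → ∀ j : ℤ, S.lo C P δ ≤ j → j ≤ S.hi C P δ →
      (P ∈ T ∨ j = 0 ∨ j = k) →
      (S.inn C P δ (cc k τ (Function.update l 0 b))).coeff j.toNat ≠ 0 :=
    fun P δ hδ j h1 h2 h3 => by
      have a1 := hC.lo_nonneg hδ
      have a2 := hC.hi_le hδ
      rw [hinn _ P δ hδ]
      simp only [finsetSum_coeff, coeff_monomial, Finset.sum_ite_eq', Finset.mem_range]
      rw [if_pos (by omega)]
      exact mul_ne_zero (hl' _) (hw P δ hδ _ (by omega) (by omega) (h3.imp id (by omega)))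
  refine ⟨cc k τ (Function.update l 0 b), hC, (hm b).1, by rw [(hm b).2, hk'], hk, hR _,
    fun P δ hδ => hco P δ hδ _ le_rfl (hC.lo_le_hi hδ) ?_,
    fun P δ hδ => hco P δ hδ _ (hC.lo_le_hi hδ) le_rfl ?_,
    fun j h1 h2 => by have := hpos j h1 h2; omega, fun P δ hδ ρ hρ h2 => ?_⟩
  · exact (em _).imp id fun h => Or.inl (hout P δ hδ h).2.1
  · exact (em _).imp id fun h => Or.inr (hout P δ hδ h).2.2
  by_cases h0 : w (P, δ) 0 = 0
  · have hP : P ∈ T := by
      by_contra h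
      obtain ⟨-, a1, a2⟩ := hout P δ hδ h
      exact hw P δ hδ 0 (by simp [a1]) (by simp [a2]) (Or.inr (Or.inl rfl)) h0
    have := hl ⟨(P, δ), Finset.mem_product.2 ⟨hP, hI P δ hδ⟩⟩ h0 ρ hρ
    rw [hinn _ P δ hδ, Finset.sum_congr rfl (g := fun j => monomial j (l j * w (P, δ) j))
      fun j _ => by rcases j with _ | j <;> simp [h0]] at h2
    exact absurd (h2.trans this) (by norm_num)
  have hgood : ¬ ¬ (P ∉ T ∧ S.α P = 0 ∧ C.B P = 0 ∧ ∀ ρ a : ℂ,
      P.val ((Polynomial.C (τ 0)⁻¹ * c0).eval (algebraMap ℂ F ρ) - algebraMap ℂ F a) ≤ exp (-2) →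
      P.val ((Polynomial.C (τ 0)⁻¹ * c0).derivative.eval (algebraMap ℂ F ρ)) < 1 → a ∈ Λ) :=
    fun h => hb1 (mem_biUnion (x := (P, δ)) ⟨⟨h, hI P δ hδ⟩, h0⟩ ⟨ρ, by
      have a0 := hle P δ hδ 0 k.zero_le
      have a1 : P.val (b • τ 0) ≤ exp (C.nb P δ) := by simpa using (P.val_smul_le b _).trans a0
      rw [cc_update, Surf.inn, ini_add ((hR _).2 P δ hδ) (bd_C.2 a1), ini_C, mul_smul_comm,
        Place.res_smul _ (Place.val_zpow_mul_le_one.2 (by simpa using a0))] at h2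
      simpa [w] using h2⟩)
  obtain ⟨g1, g2, g3, g4⟩ := not_not.1 hgood
  obtain ⟨rfl, a1, a2⟩ := hout P δ hδ g1
  have hB := (hR (Function.update l 0 b)).2 P 0 hδ
  simp only [Surf.inn, Cl.nb_zero, g2, g3, add_zero, zpow_zero, mul_one] at h2 hB ⊢
  obtain ⟨v1, v2⟩ := val_derivative hB h2
  have v0 : P.val (τ 0)⁻¹ = 1 := by
    have := (hτ 0 k.zero_le).2 P (Or.inr (Or.inl rfl))
    rw [hC.D_eq hδ (by simp [a1]) (by simp [a2])] at this
    simp [this, g3]
  refine P.val_eq_of_not_le (by simpa using P.val_lt_one_iff.1 v1) fun h => hb2 ⟨-b, ?_, neg_neg b⟩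
  rw [cc_update, ← hc0] at h v2
  refine g4 ρ _ ?_ ?_
  · have : (Polynomial.C (τ 0)⁻¹ * c0).eval (algebraMap ℂ F ρ) - algebraMap ℂ F (-b) =
        (τ 0)⁻¹ * (c0 + Polynomial.C (b • τ 0)).eval (algebraMap ℂ F ρ) := by
      simp only [eval_mul, eval_C, eval_add, map_neg, Algebra.smul_def]
      field_simp
      ring
    rw [this, map_mul, v0, one_mul]
    exact h
  · simpa [v0] using v2

end Pool.Agent.Lib.MP_eeb174_ag
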