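import Pool.Agent.Lib.MP_eeb174_ag.Genus

open Filter Set WithZero Module Polynomial

noncomputable section

namespace Pool.Agent.Lib.MP_eeb174_ag

section Alg

lemma dm_split {A : Type} [CommRing A] [IsDomain A] [IsPrincipalIdealRing A] {a e p q : A}
    (ha : a ≠ 0) (h : a * e = p * q) :
    ∃ g g' y z : A, a = g * y ∧ p = g * z ∧ q = g' * y ∧ e = g' * z ∧ IsCoprime y z := by
  classical
  let _ : GCDMonoid A := IsBezout.toGCDDomain A
  obtain ⟨y, z, hy, hz, hu⟩ := extract_gcd a p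
  have hc : IsCoprime y z := isRelPrime_iff_isCoprime.1 (gcd_isUnit_iff_isRelPrime.1 hu)
  generalize gcd a p = g at hy hz
  subst hy hz
  have g0 : g ≠ 0 := left_ne_zero_of_mul ha
  have y0 : y ≠ 0 := right_ne_zero_of_mul ha
  have h1 : y * e = z * q := mul_left_cancel₀ g0 (by linear_combination h)
  obtain ⟨g', rfl⟩ : y ∣ q := hc.dvd_of_dvd_mul_left ⟨e, h1.symm⟩
  exact ⟨g, g', y, z, rfl, rfl, mul_comm _ _, mul_left_cancel₀ y0 (by linear_combination h1), hc⟩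

lemma dm_quot {V A : Type} [AddCommGroup V] [Module ℂ V] [CommRing A] [IsDomain A] [Algebra ℂ A]
    {c : A} (hc : c ≠ 0) (T : V →ₗ[ℂ] A) (h : ∀ v, c ∣ T v) :
    ∃ U : V →ₗ[ℂ] A, ∀ v, T v = c * U v := by
  choose U hU using h
  refine ⟨⟨⟨U, fun v w => mul_left_cancel₀ hc ?_⟩, fun r v => mul_left_cancel₀ hc ?_⟩, hU⟩
  · rw [mul_add, ← hU, ← hU, ← hU, map_add]
  · simp only [RingHom.id_apply]
    rw [mul_smul_comm, ← hU, ← hU, map_smul]

lemma dm_indep {K : Type} [Field K] [Algebra ℂ K] {f : K} (hf : Transcendental ℂ f) {l m n : ℂ}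
    (h : algebraMap ℂ K l + algebraMap ℂ K m * f + algebraMap ℂ K n * (f * f) = 0) :
    l = 0 ∧ m = 0 ∧ n = 0 := by
  have h1 := (transcendental_iff.1 hf) (C l + C m * X + C n * X ^ 2) (by
    simpa [pow_two] using h)
  refine ⟨?_, ?_, ?_⟩
  · simpa using congrArg (coeff · 0) h1
  · simpa [coeff_X, coeff_C] using congrArg (coeff · 1) h1
  · simpa [coeff_X, coeff_C] using congrArg (coeff · 2) h1

end Alg

section FF
variable {F K : Type} [Field F] [Algebra ℂ F] [Field K] [Algebra ℂ K]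
  [Algebra F K] [IsScalarTower ℂ F K] [FiniteDimensional F K] [IsFF F] [IsFF K]
  {S : Surf F} {C N M : Cl F} {c y z : F[X]} {φ f : K}

omit [FiniteDimensional F K] [IsFF F] [IsFF K] in
lemma IsGen.exists_rep (hc : c.Monic) (hφ : IsGen c φ) :
    ∃ ρ : K →ₗ[ℂ] F[X], (∀ w, aeval φ (ρ w) = w) ∧
      ∀ h : F[X], h.degree < c.degree → ρ (aeval φ h) = h := by
  choose r hr using hφ.surj
  have h0 : aeval φ c = 0 := (hφ.ker c).2 dvd_rfl
  have h1 : ∀ w, aeval φ (r w %ₘ c) = w := fun w => by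
    rw [aeval_modByMonic_eq_self_of_root h0, hr]
  have h2 : ∀ w, (r w %ₘ c).degree < c.degree := fun w => degree_modByMonic_lt _ hc
  have h3 : ∀ (w : K) (h : F[X]), h.degree < c.degree → aeval φ h = w → r w %ₘ c = h :=
    fun w h hd he => sub_eq_zero.1 (eq_zero_of_dvd_of_degree_lt
      ((hφ.ker _).1 (by rw [map_sub, h1, he, sub_self]))
      ((degree_sub_le _ _).trans_lt (max_lt (h2 w) hd)))
  refine ⟨⟨⟨fun w => r w %ₘ c, fun v w => h3 _ _ ((degree_add_le _ _).trans_lt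
    (max_lt (h2 v) (h2 w))) (by rw [map_add, h1, h1])⟩, fun a w => h3 _ _
      ((degree_smul_le _ _).trans_lt (h2 w)) ?_⟩, h1, fun h hd => h3 _ _ hd rfl⟩
  simp only [RingHom.id_apply]
  rw [← IsScalarTower.algebraMap_smul F a, map_smul, h1, IsScalarTower.algebraMap_smul]

lemma Surf.Exact.le_of_mem (H : S.Exact N y z) (hy : y ∈ S.R M) (hz : z ∈ S.R M) :
    N.k ≤ M.k ∧ ∀ P δ, S.ok P δ → N.nb P δ ≤ M.nb P δ := by
  have h0 := H.k0
  refine ⟨not_lt.1 fun h => ?_, fun P δ hδ => ?_⟩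
  · exact H.top.elim (fun h1 => h1 (hy.1 _ (by omega))) fun h1 => h1 (hz.1 _ (by omega))
  · exact (H.ex P δ hδ).elim (fun h1 => le_of_ini_ne_zero h1 (hy.2 P δ hδ))
      fun h1 => le_of_ini_ne_zero h1 (hz.2 P δ hδ)

lemma Surf.Curve.dm_local (hc : S.Curve C c) (hφ : IsGen c φ) (x : Place K) {a b e w : F[X]}
    (ha : a ∈ S.R C) (hb : b ∈ S.R C) (he : e ∈ S.R C) (hw : b * b - a * e = c * w)
    (h1 : aeval φ b = f * aeval φ a) (h2 : aeval φ e = f * f * aeval φ a) (hf : x.val f ≤ 1) :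
    x.val (aeval φ w) ≤ x.val (aeval φ a) := by
  obtain ⟨u, g, hu, hg, hv, hug⟩ := hc.local_lift hφ x hf
  have hδ := S.ok_dl φ x
  have c0 : aeval φ c = 0 := (hφ.ker c).2 dvd_rfl
  obtain ⟨b1, hb1⟩ : c ∣ u * b - g * a := (hφ.ker _).1 (by
    rw [map_sub, map_mul, map_mul, h1, ← hug]; ring)
  obtain ⟨e1, he1⟩ : c ∣ u * u * e - g * g * a := (hφ.ker _).1 (by
    simp only [map_sub, map_mul]
    rw [h2, ← hug]; ring)
  have k1 : Bd (x.below F) (S.α (x.below F) + S.dl φ x) 0 b1 :=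
    (hc.mem.2 _ _ hδ).of_mul (hc.inn_ne hδ) (by
      rw [← hb1]
      simpa using (hu.mul (hb.2 _ _ hδ)).sub (hg.mul (ha.2 _ _ hδ)))
  have k2 : Bd (x.below F) (S.α (x.below F) + S.dl φ x) 0 e1 :=
    (hc.mem.2 _ _ hδ).of_mul (hc.inn_ne hδ) (by
      rw [← he1]
      simpa using ((hu.mul hu).mul (he.2 _ _ hδ)).sub ((hg.mul hg).mul (ha.2 _ _ hδ)))
  have k3 : u * u * w = a * (g * b1 + g * b1 - e1) + c * (b1 * b1) :=
    mul_left_cancel₀ hc.monic.ne_zero (by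
      linear_combination (-(u * u)) * hw + (u * b + g * a + c * b1) * hb1 - a * he1)
  have k4 : Bd (x.below F) (S.α (x.below F) + S.dl φ x) 0 (g * b1 + g * b1 - e1) := by
    have := hg.mul k1
    rw [add_zero] at this
    exact (this.add this).sub k2
  have k5 := hc.val_aeval_le hφ x k4
  rw [mul_zero, exp_zero] at k5
  have k6 := congrArg (fun p => x.val (aeval φ p)) k3
  simp only [map_mul, map_add, c0, zero_mul, add_zero, hv, one_mul] at k6
  rw [k6]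
  exact mul_le_of_le_one_right' (by simpa only [map_mul, map_add, map_sub] using k5)

omit [FiniteDimensional F K] [IsFF K] in
lemma Surf.Curve.dm_finish (hc : S.Curve C c) (hi : Irreducible c) (hφ : IsGen c φ)
    {a e p q : F[X]} {μ : ℂ} (ha : a ∈ S.R C) (he : e ∈ S.R C) (hp : p ∈ S.R C) (hq : q ∈ S.R C)
    (h : a * e = p * q) (hμ : q - p = μ • c) (a0 : aeval φ a ≠ 0)
    (h1 : aeval φ p = f * aeval φ a) :
    ∃ (N : Cl F) (y z : F[X]), S.Exact N y z ∧ IsCoprime y z ∧ aeval φ y ≠ 0 ∧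
      aeval φ z = f * aeval φ y ∧ ((∃ h, h ≠ 0 ∧ h ∈ S.R (C - N - N)) ∨
        ∃ (N' : Cl F) (y' z' : F[X]), S.Exact N' y' z' ∧ IsCoprime y' z' ∧ aeval φ y' ≠ 0 ∧
          aeval φ z' = f * aeval φ y' ∧ S.Eqv (N + N') C) := by
  have c0 : aeval φ c = 0 := (hφ.ker c).2 dvd_rfl
  have h2 : aeval φ q = f * aeval φ a := by
    rw [← h1, ← sub_eq_zero, ← map_sub, hμ, ← IsScalarTower.algebraMap_smul F μ, map_smul, c0,
      smul_zero]
  obtain ⟨g, g', y, z, rfl, rfl, rfl, rfl, hyz⟩ := dm_split (by rintro rfl; simp at a0) h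
  simp only [map_mul] at a0 h1 h2
  have g0 := left_ne_zero_of_mul a0
  have y0 := right_ne_zero_of_mul a0
  have y1 : y ≠ 0 := by rintro rfl; simp at y0
  have g1 : g ≠ 0 := by rintro rfl; simp at g0
  obtain ⟨N, hN⟩ := S.exists_exact y1 z
  have hg := hN.cancel ha hp
  have hg' := hN.cancel hq he
  refine ⟨N, y, z, hN, hyz, y0, mul_left_cancel₀ g0 (by rw [h1]; ring), ?_⟩
  by_cases hμ0 : μ = 0
  · left
    rw [hμ0, zero_smul, sub_eq_zero] at hμ
    obtain ⟨t, rfl⟩ : y ∣ g := hyz.dvd_of_dvd_mul_right ⟨g', by rw [← hμ]; ring⟩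
    have : g' = t * z := mul_right_cancel₀ y1 (by rw [hμ]; ring)
    subst this
    exact ⟨t, right_ne_zero_of_mul g1, hN.cancel (by rwa [mul_comm]) hg'⟩
  · right
    obtain ⟨N', hN'⟩ := S.exists_exact g1 g'
    have hcc : c = μ⁻¹ • (g' * y - g * z) := by rw [hμ, smul_smul, inv_mul_cancel₀ hμ0, one_smul]
    refine ⟨N', g, g', hN', ?_, g0, mul_right_cancel₀ y0 (by rw [h2]; ring), ?_⟩
    · obtain ⟨u, v, huv⟩ := hi.coprime_iff_not_dvd.2 (fun hd => g0 ((hφ.ker g).2 hd))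
      rw [Algebra.smul_def] at hcc
      exact ⟨v - u * algebraMap ℂ F[X] μ⁻¹ * z, u * algebraMap ℂ F[X] μ⁻¹ * y, by
        linear_combination huv - u * hcc⟩
    · have m1 : c ∈ S.R (N + N') := by
        rw [hcc]
        refine Submodule.smul_mem _ _ (sub_mem ?_ ?_)
        · rw [mul_comm]; exact Surf.mul_mem_R hN.my hN'.mz
        · rw [mul_comm]; exact Surf.mul_mem_R hN.mz hN'.my
      have e1 := hN'.le_of_mem hg hg'
      have e2 := hc.exact.le_of_mem m1 m1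
      refine ⟨?_, fun P δ hδ => ?_⟩
      · have := e1.1
        have := e2.1
        simp only [Cl.add_k, Cl.sub_k] at *
        omega
      · have := e1.2 P δ hδ
        have := e2.2 P δ hδ
        simp only [Cl.add_nb, Cl.sub_nb] at *
        omega

end FF

variable {F K : Type} [Field F] [Algebra ℂ F] [Algebra (RatFunc ℂ) F]
  [IsScalarTower ℂ (RatFunc ℂ) F] [FiniteDimensional (RatFunc ℂ) F]
  [Field K] [Algebra ℂ K] [Algebra (RatFunc ℂ) K]
  [IsScalarTower ℂ (RatFunc ℂ) K] [FiniteDimensional (RatFunc ℂ) K]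
  [Algebra F K] [IsScalarTower ℂ F K] [FiniteDimensional F K]
  {S : Surf F} {C N : Cl F} {c y z : F[X]} {φ f : K}

lemma Surf.Curve.degree_lt_of_mem (hc : S.Curve C c) {h : F[X]}
    (H : h ∈ S.R (C + Cl.pb (-1) 0)) : h.degree < c.degree := by
  by_cases h0 : h = 0
  · rw [h0, degree_zero, bot_lt_iff_ne_bot, Ne, degree_eq_bot]; exact hc.monic.ne_zero
  have h1 := Surf.natDegree_le_of_mem H h0
  have h2 := hc.deg
  simp only [Cl.add_k, Cl.pb_k] at h1
  exact degree_lt_degree (by omega)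

lemma dm_kernel {κ A : Dv K} (hκ : LinEq κ (canon K)) (hm : 2 * A.degree < gen K + 2)
    (hf : Transcendental ℂ f) (h0 : (1 : K) ∈ LL A) (h1 : f ∈ LL A) (δ : K →ₗ[ℂ] K)
    (hδ : ∀ β ∈ LL (κ - (A + A)), δ β ∈ LL (A + A)) :
    ∃ β ∈ LL (κ - (A + A)), β ≠ 0 ∧ ∃ l m n : ℂ,
      δ β = algebraMap ℂ K l + algebraMap ℂ K m * f + algebraMap ℂ K n * (f * f) := by
  let T : (ℂ × ℂ × ℂ) →ₗ[ℂ] K := (LinearMap.toSpanSingleton ℂ K 1).coprod
    ((LinearMap.toSpanSingleton ℂ K f).coprod (LinearMap.toSpanSingleton ℂ K (f * f)))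
  have hT : ∀ t : ℂ × ℂ × ℂ, T t = algebraMap ℂ K t.1 + algebraMap ℂ K t.2.1 * f +
      algebraMap ℂ K t.2.2 * (f * f) := fun t => by
    simp [T, Algebra.smul_def, add_assoc]
  have hT' : ∀ t, T t ∈ LL (A + A) := fun t => by
    simp only [T, LinearMap.coprod_apply, LinearMap.toSpanSingleton_apply]
    refine add_mem (Submodule.smul_mem _ _ ?_) (add_mem (Submodule.smul_mem _ _ ?_)
      (Submodule.smul_mem _ _ (mul_mem_LL h1 h1)))
    · simpa using mul_mem_LL h0 h0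
    · simpa using mul_mem_LL h0 h1
  let Ψ : (LL (κ - (A + A)) × (ℂ × ℂ × ℂ)) →ₗ[ℂ] LL (A + A) :=
    ((δ.domRestrict _).coprod (-T)).codRestrict _ fun t =>
      add_mem (hδ _ t.1.2) (neg_mem (hT' t.2))
  have hd : finrank ℂ (LL (A + A)) < finrank ℂ (LL (κ - (A + A)) × (ℂ × ℂ × ℂ)) := by
    have e1 := (hκ.sub (LinEq.refl (A + A))).el_eq
    have e2 := rr (A + A)
    rw [← e1, map_add, el, el] at e2
    simp only [finrank_prod, finrank_self]
    omega
  obtain ⟨⟨β, t⟩, ht, ht0⟩ := (Submodule.ne_bot_iff _).1 (Ψ.ker_ne_bot_of_finrank_lt hd)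
  have e : δ β = T t := by
    have := congrArg Subtype.val (LinearMap.mem_ker.1 ht)
    simpa [Ψ, add_neg_eq_zero] using this
  refine ⟨β, β.2, fun hβ => ht0 ?_, t.1, t.2.1, t.2.2, by rw [e, hT]⟩
  rw [hβ, map_zero, hT] at e
  obtain ⟨e1, e2, e3⟩ := dm_indep hf e.symm
  exact Prod.ext (Subtype.ext hβ) (Prod.ext e1 (Prod.ext e2 e3))

theorem Surf.Curve.dm (hc : S.Curve C c) (hφ : IsGen c φ) (hF : gen F = 1)
    (hf : Transcendental ℂ f) (hm : 2 * (pol f).degree < gen K + 2) :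
    ∃ (N : Cl F) (y z : F[X]), S.Exact N y z ∧ IsCoprime y z ∧ aeval φ y ≠ 0 ∧
      aeval φ z = f * aeval φ y ∧ ((∃ h, h ≠ 0 ∧ h ∈ S.R (C - N - N)) ∨
        ∃ (N' : Cl F) (y' z' : F[X]), S.Exact N' y' z' ∧ IsCoprime y' z' ∧ aeval φ y' ≠ 0 ∧
          aeval φ z' = f * aeval φ y' ∧ S.Eqv (N + N') C) := by
  obtain ⟨ρ, hρ, hρ'⟩ := hφ.exists_rep hc.monic
  have c0 : aeval φ c = 0 := (hφ.ker c).2 dvd_rfl
  have f0 : f ≠ 0 := transc_ne_zero hf
  have hmono : S.R (C + Cl.pb (-1) 0) ≤ S.R C := Surf.R_mono (by simp) fun P δ _ => by simp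
  have hR : ∀ w ∈ LL (S.res φ C), ρ w ∈ S.R (C + Cl.pb (-1) 0) := fun w hw => by
    obtain ⟨h, hh, rfl⟩ := hc.exists_lift_C hφ 0 (w := w)
      (by rwa [Surf.res_congr (M := C) fun P δ _ => by simp])
    rwa [hρ' h (hc.degree_lt_of_mem hh)]
  obtain ⟨U, hU⟩ := dm_quot hc.monic.ne_zero
    (ρ ∘ₗ LinearMap.mulLeft ℂ f - LinearMap.mulLeft ℂ (ρ f) ∘ₗ ρ) fun β => (hφ.ker _).1 (by
      simp [hρ])
  obtain ⟨W, hW⟩ := dm_quot hc.monic.ne_zero
    (ρ ∘ₗ LinearMap.mulLeft ℂ (f * f) - LinearMap.mulLeft ℂ (ρ f * ρ f) ∘ₗ ρ)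
      fun β => (hφ.ker _).1 (by simp [hρ])
  simp only [LinearMap.sub_apply, LinearMap.comp_apply, LinearMap.mulLeft_apply] at hU hW
  let δ : K →ₗ[ℂ] K := ((aeval φ : F[X] →ₐ[F] K).toLinearMap.restrictScalars ℂ) ∘ₗ
    (LinearMap.mulLeft ℂ (ρ f + ρ f) ∘ₗ U - W)
  have hδ : ∀ β, δ β = aeval φ ((ρ f + ρ f) * U β - W β) := fun β => rfl
  have hw : ∀ β, ρ (f * β) * ρ (f * β) - ρ β * ρ (f * f * β) =
      c * (ρ β * ((ρ f + ρ f) * U β - W β) + c * (U β * U β)) := fun β => by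
    linear_combination (ρ (f * β) + ρ f * ρ β + c * U β) * hU β - ρ β * hW β
  have hw' : ∀ β, aeval φ (ρ β * ((ρ f + ρ f) * U β - W β) + c * (U β * U β)) = β * δ β :=
    fun β => by rw [map_add, map_mul, map_mul _ c, c0, zero_mul, add_zero, hρ, hδ]
  have p0 := one_mem_pol f
  have p1 := mem_pol f
  have hmem : ∀ β ∈ LL (S.res φ C - (pol f + pol f)), ρ β ∈ S.R (C + Cl.pb (-1) 0) ∧
      ρ (f * β) ∈ S.R (C + Cl.pb (-1) 0) ∧ ρ (f * f * β) ∈ S.R (C + Cl.pb (-1) 0) :=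
    fun β hβ => ⟨hR _ (by simpa using mul_mem_LL (mul_mem_LL p0 p0) hβ),
      hR _ (by simpa using mul_mem_LL (mul_mem_LL p0 p1) hβ),
      hR _ (by simpa using mul_mem_LL (mul_mem_LL p1 p1) hβ)⟩
  obtain ⟨β, hβ, β0, l, m, n, e⟩ := dm_kernel (hc.linEq_canon hφ hF) hm hf p0 p1 δ (by
    intro β hβ x
    by_cases β0 : β = 0
    · simp [β0]
    obtain ⟨m1, m2, m3⟩ := hmem β hβ
    have v0 : 0 < x.val β := zero_lt_iff.2 ((_root_.map_ne_zero _).2 β0)
    rcases le_total (x.val f) 1 with h | h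
    · have := hc.dm_local hφ x (hmono m1) (hmono m2) (hmono m3) (hw β) (by rw [hρ, hρ])
        (by rw [hρ, hρ]) h
      rw [hw', hρ, map_mul] at this
      exact ((mul_le_iff_le_one_right v0).1 this).trans (by simpa using mul_mem_LL p0 p0 x)
    · have := hc.dm_local (f := f⁻¹) hφ x (hmono m3) (hmono m2) (hmono m1)
        (by rw [mul_comm (ρ (f * f * β))]; exact hw β) (by rw [hρ, hρ]; field_simp)
        (by rw [hρ, hρ]; field_simp) (by rw [map_inv₀]; exact inv_le_one_of_one_le₀ h)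
      rw [hw', hρ, map_mul, map_mul, mul_comm] at this
      exact (le_of_mul_le_mul_right this v0).trans (mul_mem_LL p1 p1 x))
  obtain ⟨m1, m2, m3⟩ := hmem β hβ
  have e1 := hw β
  have e2 := hw' β
  generalize ρ β * ((ρ f + ρ f) * U β - W β) + c * (U β * U β) = w at e1 e2
  have m4 : w ∈ S.R (C + Cl.pb (-1) 0) := by
    have := hc.cancel (g := w) (by
      rw [mul_comm, ← e1]
      exact sub_mem (Surf.mul_mem_R m2 (hmono m2)) (Surf.mul_mem_R m1 (hmono m3)))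
    rwa [add_sub_cancel_right] at this
  have e3 : w = l • ρ β + m • ρ (f * β) + n • ρ (f * f * β) := by
    rw [← hρ' w (hc.degree_lt_of_mem m4), e2, e, ← map_smul, ← map_smul, ← map_smul, ← map_add,
      ← map_add]
    congr 1
    simp only [Algebra.smul_def]; ring
  obtain ⟨μ, hμ⟩ := IsAlgClosed.exists_eq_mul_self (m / 2 * (m / 2) - l * n)
  have ev : ∀ (r : ℂ) (h : F[X]), aeval φ (h + r • c) = aeval φ h := fun r h => by
    rw [map_add, ← IsScalarTower.algebraMap_smul F r, map_smul, c0, smul_zero, add_zero]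
  have mem : ∀ (r : ℂ) {h : F[X]}, h ∈ S.R (C + Cl.pb (-1) 0) → h + r • c ∈ S.R C :=
    fun r h H => add_mem (hmono H) (Submodule.smul_mem _ _ hc.mem)
  refine hc.dm_finish hc.irreducible hφ (μ := μ + μ) (mem n m1) (mem l m3)
    (mem (-(m / 2) - μ) m2) (mem (-(m / 2) + μ) m2) ?_ ?_ (by rwa [ev, hρ]) (by rw [ev, ev, hρ, hρ])
  · have h1 := congrArg (algebraMap ℂ F[X]) hμ
    have h2 := congrArg (algebraMap ℂ F[X]) (add_halves m)
    rw [e3] at e1
    simp only [Algebra.smul_def, map_sub, map_add, map_neg, map_mul] at e1 h1 h2 ⊢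
    linear_combination -e1 - c * c * h1 + c * ρ (f * β) * h2
  · rw [add_sub_add_left_eq_sub, ← sub_smul]
    congr 1; ring

end Pool.Agent.Lib.MP_eeb174_ag
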