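import Mathlib

open Filter Module

noncomputable section

namespace Pool.Agent.Lib.MP_eeb174_ag

variable (K : Type) [Field K] [Algebra ℂ K]

/-- Closed points of the smooth projective curve with function field `K`. -/
structure Place where
  O : ValuationSubring K
  ne_top : O ≠ ⊤
  const : ∀ c : ℂ, algebraMap ℂ K c ∈ O

/-- Vector bundles inside the constant sheaf `K^N`, given by their stalks. -/
structure Lat (N : ℕ) where
  gen : Submodule K (Fin N → K)
  st : Place K → Set (Fin N → K)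
  fg : ∀ x, ∃ s : Finset (Fin N → K), st x = Submodule.span x.O (s : Set (Fin N → K))
  span_st : ∀ x, Submodule.span K (st x) = gen
  std : ∀ᶠ x in cofinite, st x = {w | w ∈ gen ∧ ∀ i, w i ∈ x.O}

variable {K} [Algebra (RatFunc ℂ) K]

open Classical in
/-- Local generator of the inverse of the twist by `n` times the polar divisor of `X`. -/
def tw (x : Place K) (n : ℤ) : K :=
  if algebraMap (RatFunc ℂ) K RatFunc.X ∈ x.O then 1 else algebraMap (RatFunc ℂ) K RatFunc.X ^ (-n)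

/-- Global sections of the `n`-th twist. -/
def sec {N : ℕ} (L : Lat K N) (n : ℤ) : Submodule ℂ (Fin N → K) :=
  Submodule.span ℂ {w | ∀ x, tw x n • w ∈ L.st x}

/-- Hilbert function. -/
def hdim {N : ℕ} (L : Lat K N) (n : ℤ) : ℤ := finrank ℂ (sec L n)

variable (K) in
/-- Hilbert function of the structure sheaf. -/
def hO (n : ℤ) : ℤ :=
  finrank ℂ (Submodule.span ℂ {z : K | ∀ x : Place K, tw x n * z ∈ x.O})

variable (K) in
/-- The curve has genus `g`. -/
def HasGenus (g : ℕ) : Prop :=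
  ∀ᶠ n : ℤ in atTop, hO K n = n * finrank (RatFunc ℂ) K + 1 - g

/-- The sheaf `E` has rank `r` and degree `d` (read off from its Hilbert polynomial). -/
def HasRD {N : ℕ} (E : Lat K N) (r : ℕ) (d : ℤ) : Prop :=
  ∀ᶠ n : ℤ in atTop, hdim E n = d + r * hO K n

variable (K) in
/-- The numbers `deg L - 2 (h⁰ L - 1)` for line bundles `L` with `h⁰ L ≥ 2` and
`h¹ L = h⁰ L - deg L - 1 + g ≥ 2`. -/
def cliffSet (g : ℕ) : Set ℤ :=
  {c | ∃ (L : Lat K 1) (d : ℤ), HasRD L 1 d ∧ 2 ≤ hdim L 0 ∧ 2 ≤ hdim L 0 - d - 1 + g ∧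
    c = d - 2 * (hdim L 0 - 1)}

/-- A rank two bundle of degree `d` is semistable: no line subsheaf has degree above `d / 2`. -/
def Semistable (E : Lat K 2) (d : ℤ) : Prop :=
  ∀ (L : Lat K 2) (e : ℤ), HasRD L 1 e → (∀ x, L.st x ⊆ E.st x) → 2 * e ≤ d

variable (K) in
/-- The numbers `(deg E - 2 (h⁰ E - 2)) / 2` for semistable rank two bundles `E` with
`h⁰ E ≥ 4` and `deg E ≤ 2 (g - 1)`. -/
def cliffTwoSet (g : ℕ) : Set ℚ :=
  {c | ∃ (E : Lat K 2) (d : ℤ), HasRD E 2 d ∧ Semistable E d ∧ 4 ≤ hdim E 0 ∧ d ≤ 2 * (g - 1) ∧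
    c = ((d - 2 * (hdim E 0 - 2) : ℤ) : ℚ) / 2}

end Pool.Agent.Lib.MP_eeb174_ag
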