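import Pool.Agent.Lib.MP_eeb174_ag.Places

open Filter Set WithZero Module Polynomial

noncomputable section

namespace Pool.Agent.Lib.MP_eeb174_ag

variable {F K : Type} [Field F] [Algebra ℂ F] [Field K] [Algebra ℂ K]
  [Algebra F K] [IsScalarTower ℂ F K] [FiniteDimensional F K] [IsFF F] [IsFF K]
  {S : Surf F} {C N : Cl F} {c h : F[X]} {φ : K}

theorem Surf.Curve.place_unique (hc : S.Curve C c) (hφ : IsGen c φ) {x y : Place K}
    (h1 : x.below F = y.below F) (h2 : S.dl φ x = S.dl φ y) (h3 : S.rho φ x = S.rho φ y) :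
    x = y := by
  refine Place.eq_of_le fun z hz => ?_
  obtain ⟨u, b, hu, hb, h4, h5⟩ := hc.local_lift hφ x (x.mem_iff.1 hz)
  have h6 := (hc.val_aeval_eq_iff hφ x hu).1 (by simpa using h4)
  rw [h1, h2] at hu hb h6
  rw [h3] at h6
  have h7 := (hc.val_aeval_eq_iff hφ y hu).2 h6
  have h8 := hc.val_aeval_le hφ y hb
  rw [← h5, map_mul, h7] at h8
  exact y.mem_iff.2 (by simpa using h8)

theorem Surf.Curve.loc_of_val (hc : S.Curve C c) (hφ : IsGen c φ) {P : Place F} {δ n : ℤ}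
    (hδ : S.ok P δ) (H : ∀ x : Place K, x.below F = P → S.dl φ x = δ →
      x.val (aeval φ h) ≤ exp (x.ram F * n)) : S.Loc C c P δ n h := by
  intro ρ hρ h0
  obtain ⟨x, rfl, rfl, rfl⟩ := hc.exists_place hφ hδ hρ h0
  have h1 : x.val (algebraMap F K ((x.below F).unif ^ n) * aeval φ h) ≤ 1 := by
    rw [map_mul, x.val_algebraMap_eq ((x.below F).val_unif_zpow n)]
    refine (mul_le_mul_right (H x rfl rfl) _).trans ?_
    rw [← exp_add]; simp
  obtain ⟨u, b, hu, hb, h4, h5⟩ := hc.local_lift hφ x h1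
  refine ⟨u, Polynomial.C ((x.below F).unif ^ (-n)) * b, hu,
    (hc.val_aeval_eq_iff hφ x hu).1 (by simpa using h4), bd_unif_mul.2 (by simpa using hb),
    (hφ.ker _).1 ?_⟩
  have h6 : algebraMap F K ((x.below F).unif ^ (-n)) * algebraMap F K ((x.below F).unif ^ n) = 1 := by
    rw [← map_mul, ← zpow_add₀ (x.below F).unif_ne_zero]; simp
  rw [map_sub, map_mul, map_mul, aeval_C, ← h5]
  linear_combination (-(aeval φ u * aeval φ h)) * h6

theorem Surf.Curve.aeval_mem (hc : S.Curve C c) (hφ : IsGen c φ) (H : h ∈ S.R N) :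
    aeval φ h ∈ LL (S.res φ N) :=
  fun x => hc.val_aeval_le hφ x (H.2 _ _ (S.ok_dl φ x))

theorem Surf.Curve.val_monomial (hc : S.Curve C c) (hφ : IsGen c φ) (x : Place K) {a : F} {j : ℕ}
    {n : ℤ} (ha : (x.below F).val a = exp (n + (S.α (x.below F) + S.dl φ x) * j)) :
    x.val (aeval φ (monomial j a)) = exp (x.ram F * n) := by
  rw [aeval_monomial, map_mul, map_pow, x.val_algebraMap_eq ha, x.val_eq (hc.phi_ne_zero hφ),
    hc.ord_phi hφ, ← exp_nsmul, ← exp_add, nsmul_eq_mul]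
  congr 1; ring

theorem Surf.Curve.exists_exact_of_exact (hc : S.Curve C c) (hφ : IsGen c φ) {y z : F[X]}
    (H : S.Exact N y z) (x : Place K) :
    ∃ h ∈ S.R N, x.val (aeval φ h) = exp (S.res φ N x) := by
  obtain ⟨w, hw, -, j, -, hj⟩ := H.exists_coeff (S.ok_dl φ x)
  exact ⟨_, Surf.monomial_coeff_mem_R hw j, hc.val_monomial hφ x hj⟩

theorem Surf.Curve.divF_phi (hc : S.Curve C c) (hφ : IsGen c φ) (k : ℤ) :
    divF φ = S.res φ (Cl.mk k S.α (fun _ => -1) fun _ => -1) := by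
  ext x
  rw [divF_apply, hc.ord_phi hφ, Surf.res_apply]
  simp [Cl.nb]

namespace Deg

lemma coeff_inn_bounds (hc : S.Curve C c) {P : Place F} {δ : ℤ} (hδ : S.ok P δ) {j : ℕ}
    (hj : (S.inn C P δ c).coeff j ≠ 0) : S.lo C P δ ≤ j ∧ (j : ℤ) ≤ S.hi C P δ := by
  constructor
  · by_cases h : S.ok P (δ + 1)
    · rw [Surf.lo_eq hδ h]
      exact ge_of_coeff_ini (hc.mem.2 P δ hδ) (by rw [add_assoc]; exact hc.mem.2 P _ h) hj
    · rw [Surf.lo_eq_zero hδ h]; omega
  · by_cases h : S.ok P (δ - 1)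
    · rw [Surf.hi_eq hδ h]
      exact le_of_coeff_ini (hc.mem.2 P δ hδ) (by rw [add_sub_assoc]; exact hc.mem.2 P _ h) hj
    · rw [Surf.hi_eq_k hδ h, ← hc.deg]
      exact_mod_cast (le_natDegree_of_ne_zero hj).trans natDegree_ini_le

lemma natDegree_inn (hc : S.Curve C c) {P : Place F} {δ : ℤ} (hδ : S.ok P δ) :
    ((S.inn C P δ c).natDegree : ℤ) = S.hi C P δ := by
  have h1 := (coeff_inn_bounds hc hδ (leadingCoeff_ne_zero.2 (hc.inn_ne hδ))).2
  have h2 := le_natDegree_of_ne_zero (hc.hi_ne P δ hδ)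
  omega

lemma natTrailingDegree_inn (hc : S.Curve C c) {P : Place F} {δ : ℤ} (hδ : S.ok P δ) :
    ((S.inn C P δ c).natTrailingDegree : ℤ) = S.lo C P δ := by
  have h1 := (coeff_inn_bounds hc hδ (trailingCoeff_nonzero_iff_nonzero.2 (hc.inn_ne hδ))).1
  have h2 := natTrailingDegree_le_of_ne_zero (hc.lo_ne P δ hδ)
  have h3 := hc.nef.lo_nonneg hδ
  omega

lemma sum_rootMultiplicity (p : ℂ[X]) :
    ∑ ρ ∈ p.roots.toFinset.erase 0, p.rootMultiplicity ρ + p.natTrailingDegree = p.natDegree := by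
  classical
  rw [← (IsAlgClosed.splits p).natDegree_eq_card_roots.symm, ← Multiset.toFinset_sum_count_eq,
    ← rootMultiplicity_eq_natTrailingDegree']
  simp only [count_roots]
  by_cases h : (0 : ℂ) ∈ p.roots.toFinset
  · exact Finset.sum_erase_add _ _ h
  · rw [Finset.erase_eq_of_notMem h, ← count_roots, Multiset.count_eq_zero.2 (by simpa using h),
      add_zero]

variable (S φ) in
open Classical in
/-- The intersection of the curve with a fibre component. -/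
def fib (P : Place F) (δ : ℤ) : Dv K :=
  ∑ x ∈ (Place.finite_above (K := K) P).toFinset with S.dl φ x = δ, Finsupp.single x (x.ram F)

open Classical in
lemma fib_apply (P : Place F) (δ : ℤ) (x : Place K) :
    fib S φ P δ x = if x.below F = P ∧ S.dl φ x = δ then x.ram F else 0 := by
  simp [fib, Finsupp.single_apply]

lemma degree_fib (hc : S.Curve C c) (hφ : IsGen c φ) {P : Place F} {δ : ℤ} (hδ : S.ok P δ) :
    (fib S φ P δ).degree = S.hi C P δ - S.lo C P δ := by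
  classical
  rw [← natDegree_inn hc hδ, ← natTrailingDegree_inn hc hδ, ← sum_rootMultiplicity, fib, map_sum]
  push_cast
  rw [add_sub_cancel_right]
  refine Finset.sum_nbij (S.rho φ) (fun x hx => ?_) (fun x hx y hy h => ?_) (fun ρ hρ => ?_)
    fun x hx => ?_
  · simp only [Finset.mem_filter, Set.Finite.mem_toFinset, mem_ofPred_eq] at hx
    obtain ⟨rfl, rfl⟩ := hx
    exact Finset.mem_erase.2 ⟨hc.rho_ne_zero hφ x, Multiset.mem_toFinset.2
      ((mem_roots (hc.inn_ne hδ)).2 (hc.eval_rho hφ x))⟩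
  · simp only [Finset.coe_filter, Set.Finite.mem_toFinset, mem_ofPred_eq] at hx hy
    exact hc.place_unique hφ (hx.1.trans hy.1.symm) (hx.2.trans hy.2.symm) h
  · obtain ⟨h1, h2⟩ := Finset.mem_erase.1 hρ
    obtain ⟨x, hx⟩ := hc.exists_place hφ hδ h1
      ((mem_roots (hc.inn_ne hδ)).1 (Multiset.mem_toFinset.1 h2))
    exact ⟨x, by simp [hx.1, hx.2.1], hx.2.2⟩
  · simp only [Finset.mem_filter, Set.Finite.mem_toFinset, mem_ofPred_eq] at hx
    obtain ⟨rfl, rfl⟩ := hx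
    rw [Finsupp.degree_single, hc.ram_eq hφ]

lemma fib_eq_zero {P : Place F} {δ : ℤ} (hδ : ¬ S.ok P δ) : fib S φ P δ = 0 := by
  ext x
  rw [fib_apply, if_neg]
  · rfl
  · rintro ⟨rfl, rfl⟩
    exact hδ (S.ok_dl φ x)

lemma degree_fib_all (hc : S.Curve C c) (hφ : IsGen c φ) (P : Place F) :
    (fib S φ P 0 + fib S φ P 1 + fib S φ P (-1)).degree = C.k := by
  rw [map_add, map_add, degree_fib hc hφ (S.ok_zero P)]
  by_cases h1 : P ∈ S.T₁ <;> by_cases h2 : P ∈ S.T₂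
  · rw [degree_fib hc hφ (Or.inr (Or.inl ⟨rfl, h1⟩)), degree_fib hc hφ (Or.inr (Or.inr ⟨rfl, h2⟩))]
    simp [Surf.lo, Surf.hi, h1, h2]
  · rw [degree_fib hc hφ (Or.inr (Or.inl ⟨rfl, h1⟩)), fib_eq_zero (δ := -1) (by simp [Surf.ok, h2])]
    simp [Surf.lo, Surf.hi, h1, h2]
  · rw [degree_fib hc hφ (Or.inr (Or.inr ⟨rfl, h2⟩)), fib_eq_zero (δ := 1) (by simp [Surf.ok, h1])]
    simp [Surf.lo, Surf.hi, h1, h2]
  · rw [fib_eq_zero (δ := -1) (by simp [Surf.ok, h2]), fib_eq_zero (δ := 1) (by simp [Surf.ok, h1])]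
    simp [Surf.lo, Surf.hi, h1, h2]

lemma res_eq_sum (S : Surf F) (φ : K) (N : Cl F) : S.res φ N =
    ∑ P ∈ N.B.support, N.B P • (fib S φ P 0 + fib S φ P 1 + fib S φ P (-1)) -
      ∑ P ∈ S.T₁, N.l P • fib S φ P 1 + ∑ P ∈ S.T₂, N.r P • fib S φ P (-1) := by
  classical
  ext x
  have h1 : ∀ P, (fib S φ P 0 + fib S φ P 1 + fib S φ P (-1)) x =
      if x.below F = P then x.ram F else 0 := fun P => by
    simp only [Finsupp.add_apply, fib_apply]
    rcases S.ok_dl φ x with h | ⟨h, -⟩ | ⟨h, -⟩ <;> simp [h]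
  rw [Surf.res_apply, Finsupp.add_apply, Finsupp.sub_apply, Finsupp.finsetSum_apply,
    Finsupp.finsetSum_apply, Finsupp.finsetSum_apply]
  simp only [Finsupp.smul_apply, h1, fib_apply, smul_eq_mul]
  have h2 : ∑ P ∈ N.B.support, N.B P * (if x.below F = P then x.ram F else 0) =
      N.B (x.below F) * x.ram F := by
    simp only [mul_ite, mul_zero, Finset.sum_ite_eq, Finsupp.mem_support_iff]
    split_ifs with h
    · rfl
    · rw [not_not.1 h, zero_mul]
  rw [h2]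
  rcases S.ok_dl φ x with h | ⟨h, h'⟩ | ⟨h, h'⟩ <;> simp [h, *] <;> ring

end Deg

theorem Surf.Curve.degree_res (hc : S.Curve C c) (hφ : IsGen c φ) (N : Cl F) :
    (S.res φ N).degree = S.ip N C := by
  have h1 := congrArg Finsupp.degree hc.nef.D_top
  rw [hc.D_top] at h1
  simp only [map_zero, map_sub, map_add, map_zsmul, map_sum, Finsupp.degree_single,
    smul_eq_mul] at h1
  rw [Deg.res_eq_sum, map_add, map_sub, map_sum, map_sum, map_sum]
  simp only [map_zsmul, Deg.degree_fib_all hc hφ, smul_eq_mul]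
  have h2 : ∑ P ∈ S.T₁, N.l P * (Deg.fib S φ P 1).degree = ∑ P ∈ S.T₁, N.l P * C.l P :=
    Finset.sum_congr rfl fun P hP => by
      rw [Deg.degree_fib hc hφ (Or.inr (Or.inl ⟨rfl, hP⟩))]; simp [Surf.lo, Surf.hi]
  have h3 : ∑ P ∈ S.T₂, N.r P * (Deg.fib S φ P (-1)).degree =
      N.k * ∑ P ∈ S.T₂, (C.k - C.r P) - ∑ P ∈ S.T₂, (N.k - N.r P) * (C.k - C.r P) := by
    rw [Finset.mul_sum, ← Finset.sum_sub_distrib]
    exact Finset.sum_congr rfl fun P hP => by
      rw [Deg.degree_fib hc hφ (Or.inr (Or.inr ⟨rfl, hP⟩))]; simp [Surf.lo, Surf.hi]; ring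
  rw [h2, h3, ← Finset.sum_mul, ← Finsupp.degree_apply, Surf.ip]
  linear_combination N.k * h1

end Pool.Agent.Lib.MP_eeb174_ag
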