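import Pool.Agent.Lib.MP_eeb174_ag.Tri2

open Filter Set WithZero Module Finsupp

noncomputable section

namespace Pool.Agent.Lib.MP_eeb174_ag

variable {K : Type} [Field K] [Algebra ℂ K] [Algebra (RatFunc ℂ) K]
  [IsScalarTower ℂ (RatFunc ℂ) K] [FiniteDimensional (RatFunc ℂ) K]

/-- The base divisor of a pencil is linearly equivalent to a polar divisor. -/
lemma IsBase.exists_pol {V : Submodule ℂ K} {D : Dv K} (hV : IsBase V D)
    (h2 : finrank ℂ V = 2) : ∃ f : K, Transcendental ℂ f ∧ LinEq D (pol f) := by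
  have := finiteDimensional_of_le_LL hV.le
  have hne : V ≠ ⊥ := by rintro rfl; simp at h2
  obtain ⟨a, ha, h0⟩ := (Submodule.ne_bot_iff V).1 hne
  have h3 : ¬ V ≤ ℂ ∙ a := fun h3 => by
    have := Submodule.finrank_mono h3
    rw [finrank_span_singleton h0] at this
    omega
  obtain ⟨b, hb, h4⟩ := SetLike.not_le_iff_exists.1 h3
  have h5 : ∀ c : ℂ, b ≠ c • a := fun c hc => h4 (Submodule.mem_span_singleton.2 ⟨c, hc.symm⟩)
  have h6 : (ℂ ∙ a) ⊔ (ℂ ∙ b) = V := by
    have h7 : (ℂ ∙ a) ⊔ (ℂ ∙ b) ≤ V := sup_le ((Submodule.span_singleton_le_iff_mem _ _).2 ha)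
      ((Submodule.span_singleton_le_iff_mem _ _).2 hb)
    have h8 : (ℂ ∙ a) < (ℂ ∙ a) ⊔ (ℂ ∙ b) := lt_of_le_of_ne le_sup_left fun h8 =>
      h4 (h8.ge (Submodule.mem_sup_right (Submodule.mem_span_singleton_self b)))
    have h9 := Submodule.finrank_lt_finrank_of_lt h8
    rw [finrank_span_singleton h0] at h9
    exact Submodule.eq_of_le_of_finrank_le h7 (by omega)
  refine ⟨b / a, transc_div h0 h5, a, h0, le_antisymm ?_ ?_⟩
  · exact pol_le ((mem_LL_iff h0).1 (hV.le ha))
      ((mem_LL_add_divF h0).2 (by rw [div_mul_cancel₀ _ h0]; exact hV.le hb))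
  · have h7 : V ≤ LL (pol (b / a) + divF a⁻¹) := by
      rw [← h6]
      refine sup_le ((Submodule.span_singleton_le_iff_mem _ _).2 ?_)
        ((Submodule.span_singleton_le_iff_mem _ _).2 ?_)
      · rw [mem_LL_add_divF (inv_ne_zero h0), mul_inv_cancel₀ h0]; exact one_mem_pol _
      · rw [mem_LL_add_divF (inv_ne_zero h0), ← div_eq_mul_inv]; exact mem_pol _
    have h8 := hV.le_of h7
    rw [divF_inv, ← sub_eq_add_neg] at h8
    exact le_sub_iff_add_le.1 h8

lemma descent_base {𝒩 : Type} (res : 𝒩 → Dv K) (kap : 𝒩 → ℤ) (m : ℤ)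
    (H1 : ∀ f : K, Transcendental ℂ f → degree (pol f) ≤ m →
      ∃ N, 0 < el (res N - pol f) ∧ kap N ≤ degree (pol f))
    {V : Submodule ℂ K} {D : Dv K} (hV : IsBase V D) (hr : finrank ℂ V = 2)
    (hm : degree D ≤ m) : ∃ N, 0 < el (res N - D) ∧ kap N ≤ degree D := by
  obtain ⟨f, hf, h⟩ := hV.exists_pol hr
  obtain ⟨N, h1, h2⟩ := H1 f hf (h.degree_eq ▸ hm)
  exact ⟨N, by rwa [((LinEq.refl (res N)).sub h).el_eq], by rwa [h.degree_eq]⟩

theorem descent_bir {𝒩 : Type} (res : 𝒩 → Dv K) (kap : 𝒩 → ℤ) (m : ℤ)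
    (H1 : ∀ f : K, Transcendental ℂ f → degree (pol f) ≤ m →
      ∃ N, 0 < el (res N - pol f) ∧ kap N ≤ degree (pol f))
    (H2 : ∀ᶠ x in cofinite, ∀ N, kap N ≤ m →
      el (canon K - res N - single x 1) < el (canon K - res N))
    (r : ℕ) {V : Submodule ℂ K} {D : Dv K} (hV : IsBase V D) (hr : finrank ℂ V = r + 2)
    (hK : r = 0 ∨ KV V = ⊤) (hm : degree D - r ≤ m) :
    ∃ N, 0 < el (res N - D) ∧ kap N ≤ degree D - r := by
  induction r generalizing V D with
  | zero => simpa using descent_base res kap m H1 hV hr (by simpa using hm)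
  | succ r ih =>
    have := finiteDimensional_of_le_LL hV.le
    have hK' : KV V = ⊤ := hK.resolve_left (by omega)
    have h3 : ∀ᶠ x in cofinite, r = 0 ∨ KV (V ⊓ LL (D - single x 1)) = ⊤ := by
      rcases Nat.eq_zero_or_pos r with h | h
      · exact Eventually.of_forall fun _ => Or.inl h
      · exact (trisecant hV (by omega) hK').mono fun _ => Or.inr
    obtain ⟨x, ⟨hx1, hx2⟩, hx3⟩ :=
      (((eventually_isBase hV (by omega) hK').and H2).and h3).exists
    have h4 := hV.finrank_inf x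
    have h5 : degree (D - single x 1) = degree D - 1 := by rw [map_sub, degree_single']
    push_cast at hm ⊢
    obtain ⟨N, h6, h7⟩ := ih hx1 (by omega) hx3 (by omega)
    refine ⟨N, ?_, by omega⟩
    obtain ⟨w, hw0, hw⟩ := el_pos_iff.1 h6
    refine el_pos_iff.2 ⟨w, hw0, ?_⟩
    by_contra hw'
    have h8 : x.val w = exp ((res N - (D - single x 1) : Dv K) x) :=
      val_eq_of_not_mem hw (by rwa [show res N - (D - single x 1) - single x 1 = res N - D by abel])
    obtain ⟨σ, hσ, h9⟩ := exists_exact (hx2 N (by omega))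
    have h10 := mul_mem_LL hσ hw
    have h11 : x.val (σ * w) = exp ((canon K - res N + (res N - (D - single x 1)) : Dv K) x) := by
      rw [map_mul, h8, h9, ← exp_add]; rfl
    have h12 := el_sub_single_of_exact h10 h11
    rw [show canon K - res N + (res N - (D - single x 1)) - single x 1 = canon K - D by abel,
      show canon K - res N + (res N - (D - single x 1)) = canon K - (D - single x 1) by abel] at h12
    obtain ⟨v, hv, hv'⟩ := hV.ex x
    have h13 := el_sub_single_of_exact (hV.le hv) hv'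
    have h14 := rr D
    have h15 := rr (D - single x 1)
    omega

/-- Base divisors of the subsystems through two points are equal or differ from `D` in disjoint
sets. -/
lemma base_disjoint {V : Submodule ℂ K} {D : Dv K} (hV : IsBase V D) {x y : Place K} {E F : Dv K}
    (hE : IsBase (V ⊓ LL (D - single x 1)) E) (hF : IsBase (V ⊓ LL (D - single y 1)) F)
    (hy : E y = D y) (z : Place K) : E z = D z ∨ F z = D z := by
  have := finiteDimensional_of_le_LL hV.le
  have key : ∀ {x : Place K} {E : Dv K}, IsBase (V ⊓ LL (D - single x 1)) E → E z ≠ D z →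
      V ⊓ LL (D - single x 1) = V ⊓ LL (D - single z 1) := fun {x E} hE h => by
    have h1 : E z ≤ D z := hE.le_of (inf_le_left.trans hV.le) z
    have h2 : V ⊓ LL (D - single x 1) ≤ V ⊓ LL (D - single z 1) := fun v hv =>
      ⟨hv.1, (mem_LL_sub_single zero_le_one).2 ⟨hV.le hv.1,
        (hE.le hv z).trans (exp_le_exp.2 (by omega))⟩⟩
    have h3 := hV.finrank_inf x
    have h4 := hV.finrank_inf z
    exact Submodule.eq_of_le_of_finrank_le h2 (by omega)
  by_contra h
  push Not at h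
  have h1 := (key hE h.1).trans (key hF h.2).symm
  rw [h1] at hE
  have h2 := hE.le_of inf_le_right y
  simp only [Finsupp.sub_apply, Finsupp.single_eq_same] at h2
  omega

/-- Two subsystems with disjoint fixed parts and linearly equivalent residual divisors. -/
lemma el_pos_of_linEq {n : ℤ} (hn : ∀ D : Dv K, 2 ≤ el D → n ≤ degree D) {D E F R S : Dv K}
    (hE : E ≤ D) (hF : F ≤ D) (hd : ∀ z, E z = D z ∨ F z = D z) (hR : 0 < el (R - E))
    (hS : 0 < el (S - F)) (h : LinEq R S) (hn' : degree R - degree E + degree D - degree F < n) :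
    0 < el (R - D) := by
  obtain ⟨Z, hZ, h1⟩ := el_pos_iff_linEq.1 hR
  obtain ⟨W, hW, h2⟩ := el_pos_iff_linEq.1 hS
  have h3 : LinEq (Z + (D - F)) (W + (D - E)) := by
    have h4 := (h1.symm.add (LinEq.refl (D - F))).trans
      ((show R - E + (D - F) = R - F + (D - E) by abel) ▸
        ((h.sub (LinEq.refl F)).trans h2).add (LinEq.refl (D - E)))
    exact h4
  have h4 := eq_of_linEq hn (add_nonneg hZ (sub_nonneg.2 hF)) (add_nonneg hW (sub_nonneg.2 hE)) h3
    (by rw [map_add, map_sub, ← h1.degree_eq, map_sub]; omega)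
  refine el_pos_iff_linEq.2 ⟨Z - (D - E), fun z => ?_, ?_⟩
  · have h5 := DFunLike.congr_fun h4 z
    have h6 : 0 ≤ Z z := hZ z
    have h7 : 0 ≤ W z := hW z
    have h8 := hd z
    simp only [Finsupp.add_apply, Finsupp.sub_apply, Finsupp.coe_zero, Pi.zero_apply] at h5 ⊢
    omega
  · exact (show R - E - (D - E) = R - D by abel) ▸ h1.sub (LinEq.refl (D - E))

lemma KV_LL_le {W : Submodule ℂ K} {E R : Dv K} (hW : W ≤ LL E) (h2 : 2 ≤ finrank ℂ W)
    (hR : 0 < el (R - E)) (hR2 : el R ≤ 2) : KV (LL R) = KV W := by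
  obtain ⟨w, hw0, hw⟩ := el_pos_iff.1 hR
  have h1 : W.map (LinearMap.mulRight ℂ w) ≤ LL R := by
    rintro _ ⟨v, hv, rfl⟩
    simpa using mul_mem_LL (hW hv) hw
  rw [← eq_LL_of_finrank h1 (by rw [finrank_map_mul _ hw0]; omega), KV_map_mul _ hw0]

theorem descent_nonbir {𝒩 τ : Type} (res : 𝒩 → Dv K) (kap : 𝒩 → ℤ) (ty : 𝒩 → τ) (n m : ℤ)
    (hn : ∀ D : Dv K, 2 ≤ el D → n ≤ degree D)
    (H1 : ∀ f : K, Transcendental ℂ f → degree (pol f) ≤ m →
      ∃ N, 0 < el (res N - pol f) ∧ kap N ≤ degree (pol f))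
    (hfin : (ty '' {N | kap N ≤ m}).Finite)
    (HY : ∀ N, kap N ≤ m → degree (res N) - 2 * kap N + m + 2 < n)
    (H3 : ∀ N₁ N₂ N₃, kap N₁ ≤ m → kap N₂ ≤ m → kap N₃ ≤ m → ty N₁ = ty N₂ → ty N₁ = ty N₃ →
      LinEq (res N₁) (res N₂) ∨ LinEq (res N₁) (res N₃) ∨ LinEq (res N₂) (res N₃) ∨
        (el (res N₁) ≤ 2 ∧ el (res N₂) ≤ 2 ∧ el (res N₃) ≤ 2 ∧
          KV (LL (res N₁)) ⊔ KV (LL (res N₂)) ⊔ KV (LL (res N₃)) = ⊤))
    (r : ℕ) {V : Submodule ℂ K} {D : Dv K} (hV : IsBase V D) (hr : finrank ℂ V = r + 2)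
    (hK : r = 0 ∨ KV V ≠ ⊤) (hm : degree D - 2 * r ≤ m) :
    ∃ N, 0 < el (res N - D) ∧ kap N ≤ degree D - 2 * r := by
  induction r generalizing V D with
  | zero => simpa using descent_base res kap m H1 hV hr (by simpa using hm)
  | succ r ih =>
    have := finiteDimensional_of_le_LL hV.le
    have hK' : KV V ≠ ⊤ := hK.resolve_left (by omega)
    push_cast at hm ⊢
    have hdim : ∀ x, finrank ℂ (V ⊓ LL (D - single x 1) : Submodule ℂ K) = r + 2 := fun x => by
      have := hV.finrank_inf x; omega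
    have h1 : ∀ᶠ x in cofinite, ∃ (N : 𝒩) (E : Dv K), IsBase (V ⊓ LL (D - single x 1)) E ∧
        degree E + 2 ≤ degree D ∧ 0 < el (res N - E) ∧ kap N ≤ degree E - 2 * r := by
      refine (eventually_partner hV (by omega) hK').mono fun x ⟨y, hy, hxy⟩ => ?_
      obtain ⟨E, hE⟩ := exists_isBase (V ⊓ LL (D - single x 1)) fun h => by
        have := hdim x
        rw [h] at this; simp at this
      have h2 : E ≤ D - single x 1 - single y 1 := fun z => by
        classical
        have h3 := hE.le_of inf_le_right z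
        have h4 := hE.le_of hxy z
        simp only [Finsupp.sub_apply, Finsupp.single_apply] at h3 h4 ⊢
        by_cases h5 : x = z
        · have h6 : y ≠ z := h5 ▸ hy
          simp only [h5, h6, if_true, if_false] at h3 h4 ⊢; omega
        · simp only [h5, if_false] at h3 h4 ⊢; omega
      have h3 := degree_mono h2
      rw [map_sub, map_sub, degree_single', degree_single'] at h3
      obtain ⟨N, h4, h5⟩ := ih hE (hdim x)
        (Or.inr fun h => hK' (top_le_iff.1 (h ▸ KV_mono inf_le_left))) (by omega)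
      exact ⟨N, E, hE, by omega, h4, h5⟩
    have h2 : {x | ∃ (N : 𝒩) (E : Dv K), IsBase (V ⊓ LL (D - single x 1)) E ∧
        degree E + 2 ≤ degree D ∧ 0 < el (res N - E) ∧ kap N ≤ degree E - 2 * r}.Infinite :=
      Set.infinite_of_finite_compl h1
    obtain ⟨t, ht⟩ : ∃ t, {x | ∃ (N : 𝒩) (E : Dv K), ty N = t ∧
        IsBase (V ⊓ LL (D - single x 1)) E ∧
        degree E + 2 ≤ degree D ∧ 0 < el (res N - E) ∧ kap N ≤ degree E - 2 * r}.Infinite := by
      by_contra h
      push Not at h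
      refine h2 ((hfin.biUnion fun t _ => h t).subset ?_)
      rintro x ⟨N, E, h3, h4, h5, h6⟩
      exact Set.mem_biUnion (x := ty N) ⟨N, show kap N ≤ m by omega, rfl⟩ ⟨N, E, rfl, h3, h4, h5, h6⟩
    have hsupp : ∀ E : Dv K, {z | E z ≠ D z}.Finite := fun E =>
      (E - D).hasFiniteSupport.subset fun z hz => by simpa [sub_eq_zero] using hz
    obtain ⟨x₁, N₁, E₁, t₁, b₁, d₁, p₁, k₁⟩ := ht.nonempty
    obtain ⟨x₂, ⟨N₂, E₂, t₂, b₂, d₂, p₂, k₂⟩, h12⟩ := (ht.sdiff (hsupp E₁)).nonempty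
    obtain ⟨x₃, ⟨N₃, E₃, t₃, b₃, d₃, p₃, k₃⟩, h3⟩ :=
      (ht.sdiff ((hsupp E₁).union (hsupp E₂))).nonempty
    simp only [Set.mem_ofPred_eq, Set.mem_union, not_or, not_not] at h12 h3
    have main : ∀ {x y : Place K} {N M : 𝒩} {E F : Dv K}, IsBase (V ⊓ LL (D - single x 1)) E →
        IsBase (V ⊓ LL (D - single y 1)) F → E y = D y → degree E + 2 ≤ degree D →
        degree F + 2 ≤ degree D → 0 < el (res N - E) → 0 < el (res M - F) →
        kap N ≤ degree E - 2 * r → kap M ≤ degree F - 2 * r → LinEq (res N) (res M) →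
        ∃ N, 0 < el (res N - D) ∧ kap N ≤ degree D - 2 * (r + 1) := by
      intro x y N M E F hE hF hy dE dF pE pF kE kF h
      have hd := base_disjoint hV hE hF hy
      have hE' := hE.le_of (inf_le_left.trans hV.le)
      have hF' := hF.le_of (inf_le_left.trans hV.le)
      have h4 := HY N (by omega)
      have h5 := HY M (by omega)
      have h6 := h.degree_eq
      exact ⟨N, el_pos_of_linEq hn hE' hF' hd pE pF h (by omega), by omega⟩
    rcases H3 N₁ N₂ N₃ (by omega) (by omega) (by omega) (t₁.trans t₂.symm) (t₁.trans t₃.symm) with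
      h | h | h | ⟨e₁, e₂, e₃, h⟩
    · exact main b₁ b₂ h12 d₁ d₂ p₁ p₂ k₁ k₂ h
    · exact main b₁ b₃ h3.1 d₁ d₃ p₁ p₃ k₁ k₃ h
    · exact main b₂ b₃ h3.2 d₂ d₃ p₂ p₃ k₂ k₃ h
    · rw [KV_LL_le b₁.le (by rw [hdim]; omega) p₁ e₁, KV_LL_le b₂.le (by rw [hdim]; omega) p₂ e₂,
        KV_LL_le b₃.le (by rw [hdim]; omega) p₃ e₃] at h
      exact absurd (top_le_iff.1 (h ▸ sup_le (sup_le (KV_mono inf_le_left) (KV_mono inf_le_left))
        (KV_mono inf_le_left))) hK'

end Pool.Agent.Lib.MP_eeb174_ag
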