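import Pool.Agent.Lib.MP_eeb174_ag.Flag

open Filter Set WithZero Module Finsupp

noncomputable section

namespace Pool.Agent.Lib.MP_eeb174_ag

variable {K : Type} [Field K] [Algebra ℂ K] [Algebra (RatFunc ℂ) K]
  [IsScalarTower ℂ (RatFunc ℂ) K] [FiniteDimensional (RatFunc ℂ) K] {N : ℕ}

/-- The trace of a bilinear form. -/
def trB (β : (Fin N → K) →ₗ[K] (Fin N → K) →ₗ[K] K) :
    LinearMap.BilinForm (RatFunc ℂ) (Fin N → K) :=
  (β.restrictScalars₁₂ (RatFunc ℂ) (RatFunc ℂ)).compr₂ (Algebra.trace (RatFunc ℂ) K)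

omit [Algebra ℂ K] [IsScalarTower ℂ (RatFunc ℂ) K] [FiniteDimensional (RatFunc ℂ) K] in
lemma trB_apply (β : (Fin N → K) →ₗ[K] (Fin N → K) →ₗ[K] K) (w v : Fin N → K) :
    trB β w v = Algebra.trace (RatFunc ℂ) K (β w v) := rfl

omit [Algebra ℂ K] [IsScalarTower ℂ (RatFunc ℂ) K] in
lemma trB_nondeg {β : (Fin N → K) →ₗ[K] (Fin N → K) →ₗ[K] K} (hβ : β.Nondegenerate) :
    (trB β).Nondegenerate := by
  have h := (traceForm_nondegenerate (RatFunc ℂ) K).1
  refine ⟨fun w hw => hβ.1 w fun v => h _ fun c => ?_, fun v hv => hβ.2 v fun w => h _ fun c => ?_⟩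
  · simpa [trB_apply, mul_comm] using hw (c • v)
  · simpa [trB_apply, mul_comm] using hv (c • w)

/-- Duality of the direct images on the projective line. -/
structure IsDual (β : (Fin N → K) →ₗ[K] (Fin N → K) →ₗ[K] K) (L L' : Lat K N) : Prop where
  gen : L'.gen = ⊤
  fin : ∀ w, w ∈ L'.Γ (U0 K) ↔ ∀ v ∈ L.Γ (U0 K), trB β w v ∈ A0
  inf : ∀ w, w ∈ L'.Γ (Ui K) ↔ ∀ v ∈ L.Γ (Ui K), vI (trB β w v) ≤ exp (-2)

section
variable {β : (Fin N → K) →ₗ[K] (Fin N → K) →ₗ[K] K} {L : Lat K N} {m : ℕ}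
  {e : Fin m → Fin N → K} {a : Fin m → ℤ} (h : IsBG L e a) (hL : L.gen = ⊤)
include h hL

lemma IsBG.dual_fin (w : Fin N → K) :
    (∀ v ∈ L.Γ (U0 K), trB β w v ∈ A0) ↔ ∀ i, trB β w (e i) ∈ A0 := by
  classical
  refine ⟨fun hw i => hw _ ?_, fun hw v hv => ?_⟩
  · have := (h.fin (Pi.single i 1)).2 fun j => by
      rw [Pi.single_apply]; split_ifs; exacts [one_mem _, zero_mem _]
    rwa [h.single_mem_gen, one_smul] at this
  · obtain ⟨f, rfl⟩ := (h.span v).1 (hL ▸ Submodule.mem_top)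
    rw [map_sum]
    refine sum_mem fun i _ => ?_
    rw [map_smul]
    exact mul_mem ((h.fin f).1 hv i) (hw i)

lemma IsBG.dual_inf (w : Fin N → K) :
    (∀ v ∈ L.Γ (Ui K), vI (trB β w v) ≤ exp (-2)) ↔
      ∀ i, vI (trB β w (e i)) ≤ exp (-a i - 2) := by
  classical
  refine ⟨fun hw i => ?_, fun hw v hv => ?_⟩
  · have := (h.inf (Pi.single i (RatFunc.X ^ a i))).2 fun j => by
      rw [Pi.single_apply]
      split_ifs with hj
      · rw [hj, vI_zpow]
      · simp
    rw [h.single_mem_gen] at this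
    have h1 := hw _ this
    rw [map_smul, smul_eq_mul, map_mul, vI_zpow, ← le_inv_mul_iff₀ exp_pos, ← exp_neg,
      ← exp_add] at h1
    exact h1
  · obtain ⟨f, rfl⟩ := (h.span v).1 (hL ▸ Submodule.mem_top)
    rw [map_sum]
    refine vI.map_sum_le fun i _ => ?_
    rw [map_smul, smul_eq_mul, map_mul]
    refine (mul_le_mul' ((h.inf f).1 hv i) (hw i)).trans ?_
    rw [← exp_add, exp_le_exp]
    omega

lemma IsBG.exists_dual_basis (hβ : β.Nondegenerate) : ∃ e' : Basis (Fin m) (RatFunc ℂ) (Fin N → K),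
    ∀ w i, e'.repr w i = trB β w (e i) := by
  let b : Basis (Fin m) (RatFunc ℂ) (Fin N → K) := Basis.mk h.li fun w _ =>
    (Submodule.mem_span_range_iff_exists_fun _).2 ((h.span w).1 (hL ▸ Submodule.mem_top))
  refine ⟨(trB β).dualBasis (trB_nondeg hβ) b, fun w i => ?_⟩
  rw [LinearMap.BilinForm.dualBasis_repr_apply, Basis.mk_apply]

end

lemma IsDual.hdim_sub {β : (Fin N → K) →ₗ[K] (Fin N → K) →ₗ[K] K} (hβ : β.Nondegenerate)
    {L L' : Lat K N} (hL : L.gen = ⊤) (hd : IsDual β L L') : hdim L 0 - hdim L' 0 = chiL L := by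
  obtain ⟨m, e, a, h⟩ := exists_isBG L
  obtain ⟨e', he'⟩ := h.exists_dual_basis hL hβ
  have h1 : IsBG L' e' fun i => -a i - 2 :=
    { li := e'.linearIndependent
      span := fun w => by
        rw [hd.gen]
        exact ⟨fun _ => ⟨_, e'.sum_repr w⟩, fun _ => trivial⟩
      fin := fun f => by
        simp only [hd.fin, h.dual_fin hL, ← he', e'.repr_sum_self]
      inf := fun f => by
        simp only [hd.inf, h.dual_inf hL, ← he', e'.repr_sum_self] }
  rw [h.hdim_eq, h1.hdim_eq, h.chiL_eq, ← Finset.sum_sub_distrib]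
  exact Finset.sum_congr rfl fun i _ => by omega

lemma exists_isDual {β : (Fin N → K) →ₗ[K] (Fin N → K) →ₗ[K] K} (hβ : β.Nondegenerate)
    {L : Lat K N} (hL : L.gen = ⊤) : ∃ L', IsDual β L L' := by
  classical
  obtain ⟨m, e, a, h⟩ := exists_isBG L
  obtain ⟨e', he'⟩ := h.exists_dual_basis hL hβ
  have h0 : ∀ i j, trB β (e' i) (e j) = if i = j then 1 else 0 := fun i j => by
    rw [← he', e'.repr_self, Finsupp.single_apply]
  have hs : ∀ c : Fin m → K, (∀ i, c i ≠ 0) →
      Submodule.span K (range fun i => c i • e' i) = ⊤ := fun c hc => by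
    rw [eq_top_iff]
    intro w _
    rw [← e'.sum_repr w]
    refine sum_mem fun i _ => ?_
    rw [← algebraMap_smul K]
    exact Submodule.smul_mem _ _ ((Submodule.smul_mem_iff _ (hc i)).1
      (Submodule.subset_span ⟨i, rfl⟩))
  let L' : Lat K N := Lat.ofGens (fun x i => tw x (a i + 2) • e' i) e'
    ((eventually_mem (uu K)).mono fun x hx => by funext j; rw [tw_U0 hx, one_smul])
    fun x => by
      rw [hs _ fun i => tw_ne_zero x _, ← hs (fun _ => 1) fun _ => one_ne_zero]
      simp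
  have hS : ∀ x, L'.S x = Submodule.span x.O (range fun i => tw x (a i + 2) • e' i) :=
    fun x => Lat.ofGens_S _ _ _ _ _
  refine ⟨L', by simpa [L'] using hs (fun _ => 1) fun _ => one_ne_zero, fun w => ⟨fun hw => ?_,
    fun hw x hx => ?_⟩, fun w => ⟨fun hw => ?_, fun hw x hx => ?_⟩⟩
  · let Λ : Submodule (chartRing (U0 K)) (Fin N → K) :=
      { carrier := {w | ∀ v ∈ L.Γ (U0 K), trB β w v ∈ A0}
        add_mem' := fun ha hb v hv => by
          rw [map_add, LinearMap.add_apply]; exact add_mem (ha v hv) (hb v hv)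
        zero_mem' := fun v _ => by simp
        smul_mem' := fun c w hw v hv => by
          have := hw _ ((L.Γ _).smul_mem c hv)
          simpa [trB_apply, Subalgebra.smul_def] using this }
    refine good_U0.mem_of_local Λ fun x hx => ?_
    refine Submodule.span_mono ?_ (hS x ▸ hw x hx)
    rintro _ ⟨i, rfl⟩
    refine (h.dual_fin hL _).2 fun j => ?_
    beta_reduce
    rw [tw_U0 hx, one_smul, h0]
    split_ifs
    exacts [one_mem _, zero_mem _]
  · rw [hS, ← e'.sum_repr w]
    refine sum_mem fun i _ => ?_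
    rw [← algebraMap_smul K, he']
    exact Submodule.smul_mem _ (⟨_, A0_mem ((h.dual_fin hL w).1 hw i) hx⟩ : x.O)
      (Submodule.subset_span ⟨i, by simp [tw_U0 hx]⟩)
  · let Λ : Submodule (chartRing (Ui K)) (Fin N → K) :=
      { carrier := {w | ∀ v ∈ L.Γ (Ui K), vI (trB β w v) ≤ exp (-2)}
        add_mem' := fun ha hb v hv => by
          rw [map_add, LinearMap.add_apply]; exact vI.map_add_le (ha v hv) (hb v hv)
        zero_mem' := fun v _ => by simp
        smul_mem' := fun c w hw v hv => by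
          have := hw _ ((L.Γ _).smul_mem c hv)
          simpa [trB_apply, Subalgebra.smul_def] using this }
    refine good_Ui.mem_of_local Λ fun x hx => ?_
    refine Submodule.span_mono ?_ (hS x ▸ hw x hx)
    rintro _ ⟨i, rfl⟩
    refine (h.dual_inf hL _).2 fun j => ?_
    beta_reduce
    rw [tw_Ui hx, uu, ← map_zpow₀, algebraMap_smul, map_smul, LinearMap.smul_apply, h0]
    split_ifs with hij
    · rw [smul_eq_mul, mul_one, vI_zpow, hij, neg_add']
    · simp
  · rw [hS, ← e'.sum_repr w]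
    refine sum_mem fun i _ => ?_
    have h1 : vI (trB β w (e i) * RatFunc.X ^ (a i + 2)) ≤ 1 := by
      rw [map_mul, vI_zpow]
      refine (mul_le_mul_left ((h.dual_inf hL w).1 hw i) _).trans ?_
      rw [← exp_add]; simp
    have h2 : e'.repr w i • e' i = algebraMap (RatFunc ℂ) K
        (trB β w (e i) * RatFunc.X ^ (a i + 2)) • tw x (a i + 2) • e' i := by
      rw [tw_Ui hx, uu, ← map_zpow₀, algebraMap_smul, algebraMap_smul, smul_smul, he', mul_assoc,
        ← zpow_add₀ RatFunc.X_ne_zero, add_neg_cancel, zpow_zero, mul_one]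
    rw [h2]
    exact Submodule.smul_mem _ (⟨_, Ri_mem h1 hx⟩ : x.O) (Submodule.subset_span ⟨i, rfl⟩)

/-- The multiplication pairing in rank one. -/
def mulB : (Fin 1 → K) →ₗ[K] (Fin 1 → K) →ₗ[K] K :=
  (LinearMap.mul K K).compl₁₂ (LinearMap.proj 0) (LinearMap.proj 0)

omit [Algebra ℂ K] [Algebra (RatFunc ℂ) K] [IsScalarTower ℂ (RatFunc ℂ) K]
  [FiniteDimensional (RatFunc ℂ) K] in
lemma mulB_apply (w v : Fin 1 → K) : mulB w v = w 0 * v 0 := rfl

omit [Algebra ℂ K] [Algebra (RatFunc ℂ) K] [IsScalarTower ℂ (RatFunc ℂ) K]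
  [FiniteDimensional (RatFunc ℂ) K] in
lemma eq_smul_one (w : Fin 1 → K) : w = w 0 • (1 : Fin 1 → K) :=
  funext fun i => by simp [Subsingleton.elim i 0]

omit [Algebra ℂ K] [Algebra (RatFunc ℂ) K] [IsScalarTower ℂ (RatFunc ℂ) K]
  [FiniteDimensional (RatFunc ℂ) K] in
lemma mulB_nondeg : (mulB (K := K)).Nondegenerate :=
  ⟨fun w hw => by rw [eq_smul_one w, show w 0 = 0 by simpa [mulB_apply] using hw 1, zero_smul],
    fun w hw => by rw [eq_smul_one w, show w 0 = 0 by simpa [mulB_apply] using hw 1, zero_smul]⟩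

omit [Algebra ℂ K] [Algebra (RatFunc ℂ) K] [IsScalarTower ℂ (RatFunc ℂ) K]
  [FiniteDimensional (RatFunc ℂ) K] in
lemma dt_nondeg : (dt (K := K)).Nondegenerate :=
  ⟨fun w hw => by_contra fun h => by
      obtain ⟨y, hy⟩ := exists_dt h
      exact one_ne_zero (hy.symm.trans (hw y)),
    fun w hw => by_contra fun h => by
      obtain ⟨y, hy⟩ := exists_dt h
      rw [dt_swap, hw y, neg_zero] at hy
      exact zero_ne_one hy⟩

omit [Algebra ℂ K] [Algebra (RatFunc ℂ) K] [IsScalarTower ℂ (RatFunc ℂ) K]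
  [FiniteDimensional (RatFunc ℂ) K] in
lemma span_one_top : (K ∙ (1 : Fin 1 → K)) = ⊤ :=
  eq_top_iff.2 fun w _ => Submodule.mem_span_singleton.2 ⟨w 0, (eq_smul_one w).symm⟩

lemma mem_line_one {D : Place K →₀ ℤ} {x : Place K} {w : Fin 1 → K} :
    w ∈ (line 1 D).S x ↔ x.val (w 0) ≤ exp (D x) := by
  conv_lhs => rw [eq_smul_one w, smul_mem_line one_ne_zero]

lemma exists_canon : ∃ κ : Place K →₀ ℤ, IsDual mulB (OO K) (line 1 κ) := by
  obtain ⟨L', h⟩ := exists_isDual mulB_nondeg (L := OO K) (by simp [OO, span_one_top])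
  obtain ⟨κ, rfl⟩ := exists_line (L := L') (s := 1) one_ne_zero (by rw [h.gen, span_one_top])
  exact ⟨κ, h⟩

variable (K) in
/-- A canonical divisor. -/
def canon : Place K →₀ ℤ := (exists_canon (K := K)).choose

lemma isDual_of_local {β : (Fin N → K) →ₗ[K] (Fin N → K) →ₗ[K] K} {L L' : Lat K N}
    (hL' : L'.gen = ⊤)
    (h : ∀ x w, w ∈ L'.S x ↔ ∀ v ∈ L.S x, x.val (β w v) ≤ exp (canon K x)) : IsDual β L L' := by
  have hc := (exists_canon (K := K)).choose_spec
  have key : ∀ (U : Set (Place K)) (Q : RatFunc ℂ → Prop), Good U →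
      (∀ w, w ∈ (line 1 (canon K)).Γ U ↔ ∀ v ∈ (OO K).Γ U, Q (trB mulB w v)) →
      ∀ w, w ∈ L'.Γ U ↔ ∀ v ∈ L.Γ U, Q (trB β w v) := by
    intro U Q hU hQ w
    constructor
    · intro hw v hv
      have := (hQ (β w v • 1)).1 (fun x hx => mem_line_one.2
        (by simpa using (h x w).1 (hw x hx) v (hv x hx))) 1 fun x hx => mem_line_one.2 (by simp)
      simpa [trB_apply, mulB_apply] using this
    · intro hw x hx
      refine (h x w).2 fun v hv => ?_
      rw [← L.span_Γ hU hx] at hv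
      induction hv using Submodule.span_induction with
      | mem v hv =>
        have := (hQ (β w v • 1)).2 (fun b hb => by
          have h1 := hw (b 0 • v) fun y hy => Lat.smul_mem
            (y.mem_iff.2 (by simpa using mem_line_one.1 (hb y hy))) (hv y hy)
          simpa [trB_apply, mulB_apply, mul_comm] using h1) x hx
        simpa using mem_line_one.1 this
      | zero => simp
      | add a b _ _ ha hb => rw [map_add]; exact x.val.map_add_le ha hb
      | smul c a _ ha =>
        change x.val (β w ((c : K) • a)) ≤ _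
        rw [map_smul, smul_eq_mul, map_mul]
        exact (mul_le_of_le_one_left' (x.mem_iff.1 c.2)).trans ha
  exact ⟨hL', key _ (· ∈ A0) good_U0 hc.fin, key _ (vI · ≤ exp (-2)) good_Ui hc.inf⟩

variable (K) in
/-- Dimension of the Riemann-Roch space. -/
def ell (D : Place K →₀ ℤ) : ℤ := hdim (line (1 : Fin 1 → K) D) 0

lemma val_mul_zpow_le (x : Place K) {z : K} {m k : ℤ} :
    x.val (z * x.unif ^ (-m)) ≤ exp k ↔ x.val z ≤ exp (k - m) := by
  rw [mul_comm, x.val_zpow_mul_le, sub_eq_add_neg]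

/-- Riemann-Roch with Serre duality. -/
lemma ell_sub (D : Place K →₀ ℤ) : ell K D - ell K (canon K - D) = chiO K + degree D := by
  rw [← chiL_line (one_ne_zero' (K := K))]
  refine IsDual.hdim_sub mulB_nondeg (by simp [span_one_top])
    (isDual_of_local (by simp [span_one_top]) fun x w => ?_)
  simp only [mem_line_one, mulB_apply, Finsupp.sub_apply]
  constructor
  · intro hw v hv
    rw [map_mul]
    refine (mul_le_mul' hw hv).trans ?_
    rw [← exp_add]; simp
  · intro hw
    have := hw (x.unif ^ (-D x) • 1) (by simp [x.val_unif_zpow, -map_zpow₀, -zpow_neg])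
    rw [← val_mul_zpow_le]
    simpa using this

lemma degree_canon : degree (canon K) = -2 * chiO K := by
  have h1 := ell_sub (0 : Place K →₀ ℤ)
  have h2 := ell_sub (canon K)
  simp only [sub_zero, sub_self, map_zero] at h1 h2
  omega

lemma ell_eq_zero {D : Place K →₀ ℤ} (h : degree D < 0) : ell K D = 0 := by
  rw [ell, hdim, Int.natCast_eq_zero, Submodule.finrank_eq_zero, eq_bot_iff]
  intro s hs
  by_contra h0
  have h1 : line s 0 ≤ line 1 D := line_le_iff_sec.2 (by simpa using hs)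
  have h2 := chiL_mono h1 (by rw [rk_line h0, rk_line one_ne_zero])
  rw [chiL_line h0, chiL_line one_ne_zero, map_zero] at h2
  omega

lemma ell_eq {D : Place K →₀ ℤ} (h : -2 * chiO K < degree D) : ell K D = chiO K + degree D := by
  rw [← ell_sub, ell_eq_zero (D := canon K - D), sub_zero]
  rw [map_sub, degree_canon]
  omega

/-- Serre duality for rank two bundles. -/
lemma exists_dual_two {V : Lat K 2} (hV : V.gen = ⊤) : ∃ κ : Place K →₀ ℤ,
    degree κ = -chiL V ∧ ∀ D : Place K →₀ ℤ,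
      hdim (V.twist D) 0 - hdim (V.twist (κ - D)) 0 = chiL V + 2 * degree D := by
  obtain ⟨y, y₀, D₁, D₂, h⟩ := exists_flag hV (s := ![1, 0]) (by simp)
  refine ⟨canon K - D₁ - D₂, by rw [map_sub, map_sub, degree_canon, h.chiL_eq]; ring, fun D => ?_⟩
  rw [← chiL_twist_two hV]
  refine IsDual.hdim_sub dt_nondeg (by simp [hV]) (isDual_of_local (by simp [hV]) fun x w => ?_)
  rw [(h.twist _).mem]
  simp only [Finsupp.add_apply, Finsupp.sub_apply]
  constructor
  · rintro ⟨h1, h2⟩ v hv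
    obtain ⟨h3, h4⟩ := ((h.twist D).mem x v).1 hv
    rw [dt_decomp (h.det x) v, map_add, map_smul, map_smul, dt_swap w]
    refine x.val.map_add_le ?_ ?_
    · rw [smul_eq_mul, map_mul, Valuation.map_neg]
      refine (mul_le_mul' h3 h2).trans ?_
      rw [← exp_add, exp_le_exp, Finsupp.add_apply]
      omega
    · rw [smul_eq_mul, map_mul]
      refine (mul_le_mul' h4 h1).trans ?_
      rw [← exp_add, exp_le_exp, Finsupp.add_apply]
      omega
  · intro hw
    have h1 := hw _ ((h.twist D).fst_mem x)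
    have h2 := hw _ ((h.twist D).snd_mem x)
    rw [map_smul, smul_eq_mul, x.val_zpow_mul_le, Finsupp.add_apply] at h1 h2
    rw [dt_swap, Valuation.map_neg] at h1
    exact ⟨h2.trans (exp_le_exp.2 (by omega)), h1.trans (exp_le_exp.2 (by omega))⟩

end Pool.Agent.Lib.MP_eeb174_ag
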