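import Pool.Agent.Lib.MP_eeb174_ag.RR
import Pool.Agent.Lib.MP_eeb174_ag.Hyper

open Filter Set WithZero Module Finsupp

noncomputable section

namespace Pool.Agent.Lib.MP_eeb174_ag

variable {K : Type} [Field K] [Algebra ℂ K] [Algebra (RatFunc ℂ) K]
  [IsScalarTower ℂ (RatFunc ℂ) K] [FiniteDimensional (RatFunc ℂ) K]

/-- At all but finitely many places a nonzero element of a space of dimension at most `m`
vanishes to order less than `m`. -/
lemma ell_eventually_ord_lt (m : ℕ) : ∀ (V : Submodule ℂ K) [FiniteDimensional ℂ V],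
    finrank ℂ V ≤ m → ∀ᶠ x : Place K in cofinite, ∀ v ∈ V, v ≠ 0 → x.ord v < m := by
  obtain ⟨D, hD⟩ := exists_deriv (K := K)
  induction m with
  | zero =>
    intro V _ h
    have : V = ⊥ := Submodule.finrank_eq_zero.1 (by omega)
    subst this
    exact Eventually.of_forall fun x v hv h0 => absurd ((Submodule.mem_bot ℂ).1 hv) h0
  | succ m ih =>
    intro V _ h
    by_cases hV : V = ⊥
    · subst hV
      exact Eventually.of_forall fun x v hv h0 => absurd ((Submodule.mem_bot ℂ).1 hv) h0
    obtain ⟨v0, hv0, h0⟩ := Submodule.exists_mem_ne_zero_of_ne_bot hV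
    let φ : V →ₗ[ℂ] K := (D : K →ₗ[ℂ] K) ∘ₗ LinearMap.mulRight ℂ v0⁻¹ ∘ₗ V.subtype
    have hφ : ∀ v : V, φ v = D (v * v0⁻¹) := fun _ => rfl
    have h1 := φ.finrank_range_add_finrank_ker
    have h2 : finrank ℂ (LinearMap.ker φ) ≠ 0 := fun h2 => by
      have h3 : (⟨v0, hv0⟩ : V) ∈ LinearMap.ker φ := by
        rw [LinearMap.mem_ker, hφ, mul_inv_cancel₀ h0, D.map_one_eq_zero]
      rw [Submodule.finrank_eq_zero.1 h2, Submodule.mem_bot] at h3
      exact h0 (congrArg Subtype.val h3)
    have h3 : ∀ᶠ x : Place K in cofinite, x.ord v0 = 0 := Place.finite_ord _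
    have h4 : ∀ᶠ x : Place K in cofinite, x.ord (D x.unif) = 0 := finite_ord_deriv hD
    filter_upwards [ih (LinearMap.range φ) (by omega), h3, h4] with x h5 h6 h7 v hv hv'
    by_contra hc
    have h8 : x.ord (v * v0⁻¹) = x.ord v := by
      rw [x.ord_mul hv' (inv_ne_zero h0), ← zpow_neg_one, x.ord_zpow, h6]; simp
    have h9 := ord_deriv hD x (z := v * v0⁻¹) (by push_cast at hc; omega)
    have h10 : D (v * v0⁻¹) ≠ 0 := deriv_ne_zero hD (transc_of_not_const fun c hc' => by
      have := congrArg (fun E : Dv K => E x) (divF_const (K := K) c)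
      simp only [divF_apply, ← hc', Finsupp.coe_zero, Pi.zero_apply] at this
      push_cast at hc; omega)
    have := h5 _ ⟨⟨v, hv⟩, rfl⟩ h10
    rw [hφ] at this
    push_cast at hc
    simp only at this
    omega

lemma ell_eventually_not_torsion (hg : gen K = 1) (o : Place K) {a : ℕ} (ha : 0 < a) :
    ∀ᶠ x : Place K in cofinite, ¬ LinEq 0 ((a : ℤ) • single x 1 - (a : ℤ) • single o 1) := by
  classical
  have h1 : el ((a : ℤ) • (single o 1 : Dv K)) = a := by
    rw [el_eq] <;> rw [map_zsmul, degree_single', hg] <;> simp [ha]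
  filter_upwards [ell_eventually_ord_lt a (LL ((a : ℤ) • (single o 1 : Dv K)))
    (by rw [el] at h1; omega), eventually_cofinite_ne o] with x h2 h3
  rintro ⟨w, hw, h⟩
  rw [zero_add] at h
  have h4 := h2 w ((mem_LL_iff hw).2 (by
    rw [← h, add_sub_cancel]; exact smul_nonneg (by positivity) (by simp))) hw
  have h5 := congrArg (fun E : Dv K => E x) h
  simp [Finsupp.single_apply, h3.symm] at h5
  omega

theorem exists_elliptic (T : ℕ) : ∃ (F : Type) (_ : Field F) (_ : Algebra ℂ F)
    (_ : Algebra (RatFunc ℂ) F) (_ : IsScalarTower ℂ (RatFunc ℂ) F)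
    (_ : FiniteDimensional (RatFunc ℂ) F) (G : Type) (_ : AddCommGroup G) (cl : Dv F →+ G) (ρ : G)
    (pt : ℤ → Place F), gen F = 1 ∧ (∀ D : Dv F, LinEq 0 D ↔ degree D = 0 ∧ cl D = 0) ∧
      (∀ a : ℤ, cl (single (pt a) 1) = a • ρ) ∧ ∀ a : ℤ, a • ρ = 0 → |a| ≤ T → a = 0 := by
  obtain ⟨F, _, _, _, _, _, hF⟩ := exists_hasGenus 1
  have hg : gen F = 1 := by rw [gen, hF.chiO_eq]; simp
  obtain ⟨o⟩ : Nonempty (Place F) := inferInstance
  let H : AddSubgroup (Dv F) :=
    { carrier := {D | LinEq 0 (D - degree D • single o 1)}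
      add_mem' := fun {a b} ha hb => by
        have := LinEq.add ha hb
        rw [add_zero] at this
        change LinEq 0 _
        convert this using 1
        rw [map_add, add_smul]; abel
      zero_mem' := by
        change LinEq 0 _
        simpa using LinEq.refl (0 : Dv F)
      neg_mem' := fun {a} ha => by
        have := LinEq.neg ha
        rw [neg_zero] at this
        change LinEq 0 _
        convert this using 1
        rw [map_neg, neg_smul]; abel }
  have hH : ∀ D : Dv F, QuotientAddGroup.mk' H D = 0 ↔ LinEq 0 (D - degree D • single o 1) :=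
    fun D => QuotientAddGroup.eq_zero_iff D
  have hpt : ∀ E : Dv F, ∃ y : Place F,
      QuotientAddGroup.mk' H (single y 1) = QuotientAddGroup.mk' H E := fun E => by
    have h1 : degree (E - (degree E - 1) • (single o 1 : Dv F)) = 1 := by
      rw [map_sub, map_zsmul, degree_single']; simp
    obtain ⟨Z, hZ, h2⟩ := el_pos_iff_linEq.1 (show 0 < el (E - (degree E - 1) • single o 1) by
      rw [el_eq] <;> rw [h1, hg] <;> norm_num)
    obtain ⟨y, rfl⟩ := eq_single_of_degree_one hZ (h2.degree_eq.symm.trans h1)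
    refine ⟨y, ?_⟩
    rw [← sub_eq_zero, ← map_sub, hH]
    convert linEq_iff_sub.1 h2 using 1
    rw [map_sub, degree_single', sub_smul, sub_smul]; abel
  have hx : ∀ᶠ x : Place F in cofinite, ∀ a ∈ Finset.Icc 1 T,
      ¬ LinEq 0 ((a : ℤ) • single x 1 - (a : ℤ) • single o 1) :=
    (eventually_all_finset _).2 fun a ha =>
      ell_eventually_not_torsion hg o (Finset.mem_Icc.1 ha).1
  obtain ⟨x, hx⟩ := hx.exists
  choose pt hpt using hpt
  refine ⟨F, _, _, _, inferInstance, inferInstance, Dv F ⧸ H, inferInstance,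
    QuotientAddGroup.mk' H, QuotientAddGroup.mk' H (single x 1), fun a => pt (a • single x 1), hg,
    fun D => ?_, fun a => by rw [hpt, map_zsmul], fun a ha hT => ?_⟩
  · rw [hH]
    refine ⟨fun h => ?_, fun h => by simpa [h.1] using h.2⟩
    have h1 : degree D = 0 := by rw [← h.degree_eq, map_zero]
    exact ⟨h1, by simpa [h1] using h⟩
  · by_contra h0
    have h1 : ((a.natAbs : ℕ) : ℤ) • QuotientAddGroup.mk' H (single x 1) = 0 := by
      rcases Int.natAbs_eq a with h | h
      · rwa [← h]
      · rw [h, neg_smul, neg_eq_zero] at ha; exact ha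
    rw [← map_zsmul, hH, map_zsmul, degree_single', smul_eq_mul, mul_one] at h1
    refine hx a.natAbs (Finset.mem_Icc.2 ⟨by omega, ?_⟩) h1
    rw [Int.abs_eq_natAbs] at hT
    exact_mod_cast hT

end Pool.Agent.Lib.MP_eeb174_ag
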