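import Pool.Agent.Lib.MP_eeb174_ag.Sec

open Filter Set WithZero Module Polynomial

noncomputable section

namespace Pool.Agent.Lib.MP_eeb174_ag

variable {F K : Type} [Field F] [Algebra ℂ F] [Field K] [Algebra ℂ K]
  [Algebra F K] [IsScalarTower ℂ F K]

/-- `K` is generated over `F` by a root `φ` of `c`. -/
structure IsGen (c : F[X]) (φ : K) : Prop where
  ker : ∀ h : F[X], aeval φ h = 0 ↔ c ∣ h
  surj : ∀ z : K, ∃ h : F[X], aeval φ h = z

variable [FiniteDimensional F K]

namespace Place

variable (F) in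
/-- The place of `F` below a place of `K`. -/
def below (x : Place K) : Place F where
  O := x.O.comap (algebraMap F K)
  ne_top := fun h => x.ne_top (eq_top_iff.2 fun z _ => by
    have h1 : ∀ a : F, algebraMap F K a ∈ x.O := fun a => h.ge (ValuationSubring.mem_top a)
    let f : F →+* x.O := (algebraMap F K).codRestrict x.O h1
    obtain ⟨p, hp, hz⟩ := Algebra.IsIntegral.isIntegral (R := F) z
    obtain ⟨y, rfl⟩ := IsIntegrallyClosed.algebraMap_eq_of_integral (R := x.O) (x := z)
      ⟨p.map f, hp.map f, by rw [eval₂_map]; exact hz⟩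
    exact y.2)
  const := fun c => by
    change algebraMap F K _ ∈ x.O
    rw [← IsScalarTower.algebraMap_apply]; exact x.const c

lemma mem_below {x : Place K} {a : F} : a ∈ (x.below F).O ↔ algebraMap F K a ∈ x.O := Iff.rfl

variable [IsFF F] [IsFF K] (x : Place K)

variable (F) in
/-- The ramification index. -/
def ram : ℤ := x.ord (algebraMap F K (x.below F).unif)

lemma ram_pos : 0 < x.ram F := by
  have h0 := (x.below F).unif_ne_zero
  have h1 : algebraMap F K (x.below F).unif ≠ 0 := by simpa using h0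
  by_contra h
  have h2 : (x.below F).unif⁻¹ ∈ (x.below F).O := by
    rw [mem_below, map_inv₀, x.mem_iff_ord (inv_ne_zero h1), ← zpow_neg_one, ord_zpow]
    rw [ram] at h; omega
  rw [mem_iff_ord _ (inv_ne_zero h0), ← zpow_neg_one, ord_zpow, ord_unif] at h2
  omega

lemma ord_algebraMap (a : F) : x.ord (algebraMap F K a) = x.ram F * (x.below F).ord a := by
  by_cases ha : a = 0
  · simp [ha]
  set P := x.below F
  have h0 := zpow_ne_zero (-P.ord a) P.unif_ne_zero
  have hu : P.unif ^ (-P.ord a) * a ≠ 0 := mul_ne_zero h0 ha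
  have h1 : P.ord (P.unif ^ (-P.ord a) * a) = 0 := by rw [P.ord_mul h0 ha, P.ord_zpow]; simp
  have h2 := (x.mem_iff_ord ((_root_.map_ne_zero _).2 hu)).1 (mem_below.1 ((P.mem_iff_ord hu).2 h1.ge))
  have h3 := (x.mem_iff_ord ((_root_.map_ne_zero _).2 (inv_ne_zero hu))).1 (mem_below.1
    ((P.mem_iff_ord (inv_ne_zero hu)).2 (by rw [← zpow_neg_one, P.ord_zpow, h1]; simp)))
  rw [map_inv₀, ← zpow_neg_one, x.ord_zpow] at h3
  rw [map_mul, x.ord_mul ((_root_.map_ne_zero _).2 h0) ((_root_.map_ne_zero _).2 ha), map_zpow₀, x.ord_zpow] at h2 h3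
  rw [ram]; linarith

lemma val_algebraMap_le {a : F} {n : ℤ} :
    x.val (algebraMap F K a) ≤ exp (x.ram F * n) ↔ (x.below F).val a ≤ exp n := by
  by_cases ha : a = 0
  · simp [ha]
  rw [x.val_le_exp_iff (by simpa using ha), val_le_exp_iff _ ha, ord_algebraMap, ← mul_neg,
    mul_le_mul_iff_right₀ x.ram_pos]

lemma val_algebraMap_eq {a : F} {n : ℤ} (h : (x.below F).val a = exp n) :
    x.val (algebraMap F K a) = exp (x.ram F * n) := by
  rw [val_eq_exp_iff] at h ⊢
  exact ⟨by simpa using h.1, by rw [ord_algebraMap, h.2, mul_neg]⟩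

lemma val_algebraMap_lt_one {a : F} : x.val (algebraMap F K a) < 1 ↔ (x.below F).val a < 1 := by
  by_cases ha : a = 0
  · simp [ha]
  have := x.ram_pos (F := F)
  rw [val_lt_one_iff, val_lt_one_iff, x.val_le_iff (by simpa using ha), val_le_iff _ ha,
    ord_algebraMap]
  constructor <;> intro h <;> nlinarith

lemma res_algebraMap {a : F} (ha : (x.below F).val a ≤ 1) :
    x.res (algebraMap F K a) = (x.below F).res a :=
  res_eq (by
    rw [IsScalarTower.algebraMap_apply ℂ F K, ← map_sub, val_algebraMap_lt_one]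
    exact val_sub_res ha)

lemma finite_above (P : Place F) : {x : Place K | x.below F = P}.Finite :=
  (finite_ord (algebraMap F K P.unif)).subset fun x hx => by
    have := x.ram_pos (F := F)
    rw [ram, show x.below F = P from hx] at this
    exact this.ne'

lemma tendsto_below : Tendsto (below F : Place K → Place F) cofinite cofinite :=
  Tendsto.cofinite_of_finite_preimage_singleton finite_above

omit [IsFF K] in
lemma below_eq {x : Place K} {P : Place F} (h : ∀ a ∈ P.O, algebraMap F K a ∈ x.O) :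
    x.below F = P := (eq_of_le h).symm

end Place

variable [IsFF F] [IsFF K]

namespace Surf
variable (S : Surf F) (φ : K)

open Classical in
/-- The fibre component on which a place of `K` lies. -/
def dl (x : Place K) : ℤ :=
  if x.below F ∈ S.T₁ ∧ x.ord φ = x.ram F * (S.α (x.below F) + 1) then 1
  else if x.below F ∈ S.T₂ ∧ x.ord φ = x.ram F * (S.α (x.below F) + -1) then -1 else 0

lemma ok_dl (x : Place K) : S.ok (x.below F) (S.dl φ x) := by
  unfold dl ok; split_ifs <;> simp_all

lemma dl_eq {x : Place K} {δ : ℤ} (h : S.ok (x.below F) δ)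
    (h' : x.ord φ = x.ram F * (S.α (x.below F) + δ)) : S.dl φ x = δ := by
  have h0 := (x.ram_pos (F := F)).ne'
  unfold dl
  rcases h with rfl | ⟨rfl, h⟩ | ⟨rfl, h⟩ <;> simp [*]

lemma finite_res (N : Cl F) :
    (Function.support fun x : Place K => x.ram F * N.nb (x.below F) (S.dl φ x)).Finite := by
  have h1 : ∀ᶠ x : Place K in cofinite, x.below F ∉ N.B.support ∧ x.below F ∉ S.T₁ ∧
      x.below F ∉ S.T₂ := Place.tendsto_below.eventually (N.B.support.eventually_cofinite_notMem.and
        (S.T₁.eventually_cofinite_notMem.and S.T₂.eventually_cofinite_notMem))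
  refine Set.Finite.subset h1 fun x hx hx' => hx ?_
  have h := S.ok_dl φ x
  rcases h with h | ⟨-, h⟩ | ⟨-, h⟩ <;> simp_all

/-- Restriction of a class to the curve. -/
def res : Cl F →+ Dv K where
  toFun N := Finsupp.ofSupportFinite _ (S.finite_res φ N)
  map_zero' := by ext x; simp [Finsupp.ofSupportFinite_coe]
  map_add' N M := by ext x; simp [Finsupp.ofSupportFinite_coe, mul_add]

lemma res_apply (N : Cl F) (x : Place K) :
    S.res φ N x = x.ram F * N.nb (x.below F) (S.dl φ x) := rfl

/-- The coordinate of a place of `K` on its fibre component. -/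
def rho (x : Place K) : ℂ :=
  x.res (φ * algebraMap F K ((x.below F).unif ^ (-(S.α (x.below F) + S.dl φ x))))

variable {S φ} {N M : Cl F}

lemma res_mono (h : ∀ P δ, S.ok P δ → N.nb P δ ≤ M.nb P δ) : S.res φ N ≤ S.res φ M :=
  fun x => mul_le_mul_of_nonneg_left (h _ _ (S.ok_dl φ x)) x.ram_pos.le

lemma res_congr (h : ∀ P δ, S.ok P δ → N.nb P δ = M.nb P δ) : S.res φ N = S.res φ M :=
  le_antisymm (res_mono fun P δ hδ => (h P δ hδ).le) (res_mono fun P δ hδ => (h P δ hδ).ge)

lemma divF_algebraMap (S : Surf F) (φ : K) (a : F) (k : ℤ) :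
    divF (algebraMap F K a) = S.res φ (Cl.pb k (divF a)) := by
  ext x; simp [res_apply, x.ord_algebraMap]

lemma linEq_res (hB : LinEq N.B M.B) (hl : ∀ P ∈ S.T₁, N.l P = M.l P)
    (hr : ∀ P ∈ S.T₂, N.r P = M.r P) : LinEq (S.res φ N) (S.res φ M) := by
  obtain ⟨w, hw, e⟩ := hB
  refine ⟨algebraMap F K w, by simpa using hw, ?_⟩
  rw [divF_algebraMap S φ w 0, ← map_add]
  refine res_congr fun P δ hδ => ?_
  rcases hδ with rfl | ⟨rfl, h⟩ | ⟨rfl, h⟩ <;> simp [e]
  · linarith [hl P h]
  · linarith [hr P h]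

end Surf

end Pool.Agent.Lib.MP_eeb174_ag
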