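import Pool.Agent.Lib.MP_eeb174_ag.Window
import Pool.Agent.Lib.MP_eeb174_ag.Degree

open Filter Set WithZero Module Polynomial

noncomputable section

namespace Pool.Agent.Lib.MP_eeb174_ag

variable {F K : Type} [Field F] [Algebra ℂ F] [Algebra (RatFunc ℂ) F]
  [IsScalarTower ℂ (RatFunc ℂ) F] [FiniteDimensional (RatFunc ℂ) F]
  [Field K] [Algebra ℂ K] [Algebra (RatFunc ℂ) K]
  [IsScalarTower ℂ (RatFunc ℂ) K] [FiniteDimensional (RatFunc ℂ) K]
  [Algebra F K] [IsScalarTower ℂ F K] [FiniteDimensional F K]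
  {S : Surf F} {C N : Cl F} {c y z : F[X]} {φ f : K}

omit [Algebra ℂ F] [Algebra (RatFunc ℂ) F] [IsScalarTower ℂ (RatFunc ℂ) F]
  [FiniteDimensional (RatFunc ℂ) F] [Algebra ℂ K] [Algebra (RatFunc ℂ) K]
  [IsScalarTower ℂ (RatFunc ℂ) K] [FiniteDimensional (RatFunc ℂ) K] [IsScalarTower ℂ F K]
  [FiniteDimensional F K] in
lemma IsGen.aeval_mod (hφ : IsGen c φ) (H : F[X]) : aeval φ (H %ₘ c) = aeval φ H :=
  aeval_modByMonic_eq_self_of_root ((hφ.ker c).2 dvd_rfl)

lemma Surf.Curve.loc_of_mem (hc : S.Curve C c) (hφ : IsGen c φ) {h : F[X]}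
    (hw : aeval φ h ∈ LL (S.res φ N)) {P : Place F} {δ : ℤ} (hδ : S.ok P δ) :
    S.Loc C c P δ (N.nb P δ) h :=
  hc.loc_of_val hφ hδ fun x h1 h2 => by
    have := hw x
    rwa [Surf.res_apply, h1, h2] at this

theorem Surf.Curve.exists_lift_C (hc : S.Curve C c) (hφ : IsGen c φ) (Q : Dv F) {w : K}
    (hw : w ∈ LL (S.res φ (C + Cl.pb 0 Q))) :
    ∃ h ∈ S.R (C + Cl.pb (-1) Q), aeval φ h = w := by
  obtain ⟨H, rfl⟩ := hφ.surj w
  rw [← hφ.aeval_mod] at hw
  have hd := degree_modByMonic_lt H hc.monic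
  refine ⟨H %ₘ c, ⟨fun j hj => coeff_eq_zero_of_degree_lt (hd.trans_le ?_), fun P δ hδ => ?_⟩,
    hφ.aeval_mod H⟩
  · have := hc.deg
    simp only [Cl.add_k, Cl.pb_k] at hj
    exact degree_le_of_natDegree_le (by omega)
  · rw [Cl.add_nb, Cl.pb_nb]
    refine hc.window hd (fun δ' hδ' => ?_) hδ
    simpa only [Cl.add_nb, Cl.pb_nb] using hc.loc_of_mem hφ hw hδ'

theorem Surf.Curve.exists_lift (hc : S.Curve C c) (hφ : IsGen c φ) (hM : S.Nef (C - N))
    (hk : 0 < (C - N).k) (hpos : ∀ i : ℤ, 0 < i → i < (C - N).k → 0 < (S.D (C - N) i).degree)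
    {w : K} (hw : w ∈ LL (S.res φ N)) : ∃ h ∈ S.R N, aeval φ h = w := by
  obtain ⟨H, rfl⟩ := hφ.surj w
  exact ⟨H %ₘ c, hc.lift hM hk hpos fun P δ hδ => hc.loc_of_mem hφ hw hδ, hφ.aeval_mod H⟩

/-- Evaluation at `φ` as a complex linear map. -/
def evl (F : Type) {K : Type} [Field F] [Algebra ℂ F] [Field K] [Algebra ℂ K] [Algebra F K]
    [IsScalarTower ℂ F K] (φ : K) : F[X] →ₗ[ℂ] K :=
  (aeval φ : F[X] →ₐ[F] K).toLinearMap.restrictScalars ℂ

theorem Surf.Curve.el_res_le (hc : S.Curve C c) (hφ : IsGen c φ) (hM : S.Nef (C - N))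
    (hk : 0 < (C - N).k) (hpos : ∀ i : ℤ, 0 < i → i < (C - N).k → 0 < (S.D (C - N) i).degree)
    (hN : S.LR N) :
    el (S.res φ N) ≤ ∑ j ∈ Finset.range (N.k + 1).toNat, el (S.D N j) := by
  have := hN.finite
  rw [← hN.finrank_R, el]
  exact Int.ofNat_le.2 ((Submodule.finrank_mono (t := (S.R N).map (evl F φ))
    fun w hw => hc.exists_lift hφ hM hk hpos hw).trans (Submodule.finrank_map_le _ _))

lemma Surf.Curve.el_res_C (hc : S.Curve C c) (hφ : IsGen c φ) (Q : Dv F) :
    el (S.res φ (C + Cl.pb 0 Q)) = ∑ j ∈ Finset.range C.k.toNat, el (S.D C j + Q) := by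
  have hN : S.LR (C + Cl.pb (-1) Q) := fun P h1 h2 => by simpa using hc.nef.lr P h1 h2
  have h1 : LinearMap.range ((evl F φ).domRestrict (S.R (C + Cl.pb (-1) Q))) =
      LL (S.res φ (C + Cl.pb 0 Q)) := by
    rw [LinearMap.range_domRestrict]
    refine le_antisymm ?_ fun w hw => hc.exists_lift_C hφ Q hw
    rintro _ ⟨h, hh, rfl⟩
    rw [Surf.res_congr (M := C + Cl.pb (-1) Q) fun P δ _ => by simp]
    exact hc.aeval_mem hφ hh
  have h2 : Function.Injective ((evl F φ).domRestrict (S.R (C + Cl.pb (-1) Q))) :=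
    (injective_iff_map_eq_zero _).2 fun h h0 => Subtype.ext (by
      by_contra h3
      have h4 := Surf.natDegree_le_of_mem h.2 h3
      have h5 := natDegree_le_of_dvd ((hφ.ker h).1 h0) h3
      have h6 := hc.deg
      simp only [Cl.add_k, Cl.pb_k] at h4
      omega)
  have h3 := hN.finrank_R
  simp only [Cl.add_k, Cl.pb_k, Surf.D_add_pb, neg_add_cancel_right] at h3
  rw [el, ← h1, LinearMap.finrank_range_of_inj h2, h3]

lemma Surf.Curve.degree_D_zero (hc : S.Curve C c) : (S.D C 0).degree = 0 := by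
  rw [hc.D_zero, map_neg, degree_divF, neg_zero]

lemma Surf.Curve.sum_degree (hc : S.Curve C c) :
    2 * ∑ j ∈ Finset.range C.k.toNat, (S.D C j).degree = S.ip C C := by
  have := hc.nef.sum_degree_D
  rw [Finset.sum_range_succ, Int.toNat_of_nonneg hc.kpos.le, hc.D_top, hc.degree_D_zero] at this
  simpa using this

theorem Surf.Curve.gen_eq (hc : S.Curve C c) (hφ : IsGen c φ) (hF : gen F = 1) :
    2 * gen K - 2 = S.ip C C := by
  obtain ⟨m, h0, hm⟩ : ∃ m : ℤ, 0 < m ∧ 2 * gen K - S.ip C C ≤ m :=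
    ⟨max 1 (2 * gen K - S.ip C C), by omega, by omega⟩
  set Q : Dv F := Finsupp.single (Classical.arbitrary _) m with hQ
  have hd : Q.degree = m := degree_single' _ _
  have h1 := hc.el_res_C hφ Q
  have h2 : (S.res φ (C + Cl.pb 0 Q)).degree = S.ip C C + C.k * m := by
    rw [hc.degree_res hφ, Surf.ip_add, ← hd]
    have h4 : S.ip (Cl.pb 0 Q) C = C.k * Q.degree := by simp [Surf.ip]
    rw [h4]
  have h3 : m ≤ C.k * m := le_mul_of_one_le_left h0.le hc.kpos
  rw [el_eq (by omega), h2, Finset.sum_congr rfl (g := fun j : ℕ => (S.D C j).degree + m)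
    fun j hj => by
      have h4 : 0 ≤ (S.D C j).degree := by
        rcases Nat.eq_zero_or_pos j with rfl | h5
        · exact hc.degree_D_zero.ge
        · have := Finset.mem_range.1 hj
          exact (hc.pos j (by omega) (by omega)).le
      rw [el_eq (by rw [map_add]; omega), map_add]; omega] at h1
  have h4 := hc.sum_degree
  rw [Finset.sum_add_distrib, Finset.sum_const, Finset.card_range, nsmul_eq_mul,
    Int.toNat_of_nonneg hc.kpos.le] at h1
  omega

theorem Surf.Curve.linEq_canon (hc : S.Curve C c) (hφ : IsGen c φ) (hF : gen F = 1) :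
    LinEq (S.res φ C) (canon K) := by
  have h1 := hc.el_res_C hφ 0
  rw [Surf.res_congr (M := C) fun P δ _ => by simp,
    Finset.sum_congr rfl (g := fun j : ℕ => (S.D C j).degree + if j = 0 then 1 else 0)
    fun j hj => by
      rw [add_zero]
      split_ifs with h5
      · subst h5
        rw [Nat.cast_zero, hc.degree_D_zero, hc.D_zero, ← divF_inv, ← zero_add (divF _),
          el_add_divF _ (inv_ne_zero hc.coeff_zero_ne), el_zero, zero_add]
      · have := Finset.mem_range.1 hj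
        have := hc.pos j (by omega) (by omega)
        rw [el_eq (by omega)]; omega] at h1
  have h0 := hc.kpos
  rw [Finset.sum_add_distrib, Finset.sum_ite_eq', if_pos (Finset.mem_range.2 (by omega))] at h1
  have h2 := hc.sum_degree
  have h3 := hc.gen_eq hφ hF
  have h4 := hc.degree_res hφ C
  have h5 := rr (S.res φ C)
  exact linEq_of_el_pos (by omega) (by rw [degree_canon']; omega)

theorem exists_gen (hc : Irreducible c) : ∃ (K : Type) (_ : Field K) (_ : Algebra ℂ K)
    (_ : Algebra (RatFunc ℂ) K) (_ : IsScalarTower ℂ (RatFunc ℂ) K)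
    (_ : FiniteDimensional (RatFunc ℂ) K) (_ : Algebra F K) (_ : IsScalarTower ℂ F K)
    (_ : FiniteDimensional F K) (φ : K), IsGen c φ := by
  have : Fact (Irreducible c) := ⟨hc⟩
  have h1 : FiniteDimensional F (AdjoinRoot c) := (AdjoinRoot.powerBasis hc.ne_zero).finite
  exact ⟨AdjoinRoot c, inferInstance, inferInstance, inferInstance, inferInstance,
    Module.Finite.trans F _, inferInstance, inferInstance, h1, AdjoinRoot.root c,
    fun h => by rw [AdjoinRoot.aeval_eq, AdjoinRoot.mk_eq_zero],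
    fun z => by simpa only [AdjoinRoot.aeval_eq] using AdjoinRoot.mk_surjective z⟩

end Pool.Agent.Lib.MP_eeb174_ag
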