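import Pool.Agent.Lib.MP_eeb174_ag.Pencil

open Filter Set WithZero Module Finsupp Polynomial

noncomputable section

namespace Pool.Agent.Lib.MP_eeb174_ag

set_option linter.unusedSectionVars false

section
variable {K : Type} [Field K] [Algebra ℂ K] [Algebra (RatFunc ℂ) K]
  [IsScalarTower ℂ (RatFunc ℂ) K] [FiniteDimensional (RatFunc ℂ) K] {D H G Z : Dv K}

lemma mem_of_sq {a : K} {z : Place K} (ha : a ∈ LL D) (h : a ^ 2 ∈ LL (D + D - single z 1)) :
    a ∈ LL (D - single z 1) := by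
  by_contra h1
  exact not_mem_of_val_eq (by
    rw [sq, map_mul, val_eq_of_not_mem ha h1, Finsupp.add_apply, exp_add]) h

lemma exists_smul_of_el {a b : K} (h : el D ≤ 1) (ha : a ∈ LL D) (hb : b ∈ LL D) (h0 : a ≠ 0) :
    ∃ c : ℂ, b = c • a := by
  by_contra h1
  have := two_le_el_iff.2 ⟨a, b, ha, hb, h0, fun c hc => h1 ⟨c, hc⟩⟩
  omega

lemma card_le_el {ι : Type} {u : ι → K} (hu : LinearIndependent ℂ u) (s : Finset ι)
    (h : ∀ i ∈ s, u i ∈ LL D) : (s.card : ℤ) ≤ el D := by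
  have := (LinearIndependent.of_comp (v := fun i : s => (⟨u i, h i i.2⟩ : LL D)) (LL D).subtype
    (hu.comp _ Subtype.val_injective)).fintype_card_le_finrank
  rw [Fintype.card_coe] at this
  exact Int.ofNat_le.2 this

lemma exists_single_le (hZ : 0 ≤ Z) (h0 : Z ≠ 0) : ∃ z, single z 1 ≤ Z :=
  (Finsupp.ne_iff.1 h0).imp fun z hz => single_le_of_pos hZ (lt_of_le_of_ne (hZ z) (Ne.symm hz))

lemma hz_half (hb : ∀ z, el (H - single z 1) ≤ 4) (hG : G ≤ H) (h3 : 3 ≤ el G) (hZ : 0 ≤ Z)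
    (h4 : 4 ≤ el (H - Z)) (hU : ¬ LL G ≤ LL (H - Z)) : LL G ⊓ LL (H - Z) ≤ LL (G - Z) ∧
      2 ≤ finrank ℂ (LL G ⊓ LL (H - Z) : Submodule ℂ K) := by
  refine ⟨fun w hw z => ?_, ?_⟩
  · rcases (hZ z).eq_or_lt with h | h
    · rw [Finsupp.sub_apply, ← h]; simpa using hw.1 z
    rcases (hG z).eq_or_lt with h1 | h1
    · rw [Finsupp.sub_apply, h1]; exact hw.2 z
    refine (hU ?_).elim
    rw [eq_LL_of_finrank (LL_mono (sub_le_sub_left (single_le_of_pos hZ h) H)) ((hb z).trans h4)]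
    exact LL_mono (le_sub_comm.1 (single_le_of_pos (sub_nonneg.2 hG) (sub_pos.2 h1)))
  · have h1 := Submodule.finrank_sup_add_finrank_inf_eq (LL G) (LL (H - Z))
    have h2 := finrank_le_el (sup_le (LL_mono hG) (LL_mono (sub_le_self H hZ)))
    have h5 := el_le_sub_single H (Classical.arbitrary _)
    have h6 := hb (Classical.arbitrary _)
    rw [el] at h3 h4
    omega

lemma hz {u : Fin 5 → K} (hu : LinearIndependent ℂ u) (hq : u 0 * u 4 - u 1 * u 3 + u 2 ^ 2 = 0)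
    {G' : Dv K} (hb : ∀ z, el (H - single z 1) ≤ 4) (hG : G < H) (hG' : G' < H)
    (hd : G'.degree = G.degree) (h1 : ∀ i ≤ 2, u i ∈ LL G) (h2 : ∀ i ≥ 2, u i ∈ LL G')
    (hZ : 0 ≤ Z) (h0 : Z ≠ 0) (h4 : 4 ≤ el (H - Z)) :
    ∃ (P : Submodule ℂ K) (D : Dv K), P ≤ LL H ∧ P ≤ LL D ∧ 2 ≤ finrank ℂ P ∧
      D.degree = G.degree - Z.degree ∧ ¬ (u 0 ∈ P ∧ u 1 ∈ P) ∧ ¬ (u 3 ∈ P ∧ u 4 ∈ P) := by
  have h5 : ∀ E < H, ¬ ∀ i, u i ∈ LL E := fun E hE h => by
    obtain ⟨z, hz⟩ := exists_single_le (sub_nonneg.2 hE.le) (sub_ne_zero.2 hE.ne')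
    have := card_le_el hu Finset.univ fun i _ => LL_mono (le_sub_comm.1 hz) (h i)
    have := hb z
    simp at *; omega
  have h6 : ∀ i, u i ∈ LL H := fun i => (le_total i 2).elim (fun h => LL_mono hG.le (h1 i h))
    fun h => LL_mono hG'.le (h2 i h)
  by_cases hc : u 0 ∈ LL (H - Z) ∧ u 1 ∈ LL (H - Z)
  · obtain ⟨z, hz⟩ := exists_single_le hZ h0
    have h7 : ∀ i j, u i ∈ LL (H - Z) → u i * u j ∈ LL (H + H - single z 1) := fun i j h => by
      simpa [add_sub_right_comm] using mul_mem_LL (LL_mono (sub_le_sub_left hz H) h) (h6 j)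
    have h8 : u 2 ∈ LL (H - single z 1) := mem_of_sq (h6 2) (by
      rw [show u 2 ^ 2 = u 1 * u 3 - u 0 * u 4 by linear_combination hq]
      exact sub_mem (h7 _ _ hc.2) (h7 _ _ hc.1))
    have h9 : ¬ (u 3 ∈ LL (H - Z) ∧ u 4 ∈ LL (H - Z)) := fun h =>
      h5 (H - single z 1) (sub_lt_self _ (by simp [lt_iff_le_and_ne, eq_comm])) fun i => by
        fin_cases i
        exacts [LL_mono (sub_le_sub_left hz H) hc.1, LL_mono (sub_le_sub_left hz H) hc.2, h8,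
          LL_mono (sub_le_sub_left hz H) h.1, LL_mono (sub_le_sub_left hz H) h.2]
    obtain ⟨a1, a2⟩ := hz_half hb hG'.le (card_le_el hu {2, 3, 4} fun i hi => h2 i (by
      revert i; decide)) hZ h4 fun h => h9 ⟨h (h2 3 (by decide)), h (h2 4 (by decide))⟩
    refine ⟨_, _, inf_le_left.trans (LL_mono hG'.le), a1, a2, by rw [map_sub, hd],
      fun h => h5 G' hG' fun i => ?_, fun h => h9 ⟨h.1.2, h.2.2⟩⟩
    fin_cases i
    exacts [h.1.1, h.2.1, h2 2 le_rfl, h2 3 (by decide), h2 4 (by decide)]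
  · obtain ⟨a1, a2⟩ := hz_half hb hG.le (card_le_el hu {0, 1, 2} fun i hi => h1 i (by
      revert i; decide)) hZ h4 fun h => hc ⟨h (h1 0 (by decide)), h (h1 1 (by decide))⟩
    refine ⟨_, _, inf_le_left.trans (LL_mono hG.le), a1, a2, by rw [map_sub],
      fun h => hc ⟨h.1.2, h.2.2⟩, fun h => h5 G hG fun i => ?_⟩
    fin_cases i
    exacts [h1 0 (by decide), h1 1 (by decide), h1 2 le_rfl, h.1.1, h.2.1]

end

variable {F K : Type} [Field F] [Algebra ℂ F] [Algebra (RatFunc ℂ) F]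
  [IsScalarTower ℂ (RatFunc ℂ) F] [FiniteDimensional (RatFunc ℂ) F]
  [Field K] [Algebra ℂ K] [Algebra (RatFunc ℂ) K]
  [IsScalarTower ℂ (RatFunc ℂ) K] [FiniteDimensional (RatFunc ℂ) K]
  [Algebra F K] [IsScalarTower ℂ F K] [FiniteDimensional F K] {x y e : ℤ}

namespace Mod
variable (M : Mod F x y e)

/-- The class of the map to projective four-space. -/
def H : Cl F := M.cls 4 (single M.o 4) 1 3 0 4

lemma nm_H : M.nm M.H = ⟨1, 3, 0, 0, 0, 0⟩ := by simp [nm, H]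

lemma D_H (j : ℤ) (h0 : 0 ≤ j) (hj : j ≤ 4) : M.S.D M.H j = single M.o (4 - j) -
    (single M.p₁ (max (1 - j) 0) + single M.p₂ (max (3 - j) 0)) := by
  rw [D_eq, H, cls_l₁, cls_l₂, cls_l₃, cls_r, cls_B, max_eq_right (a := 0 - j) (by omega),
    max_eq_right (a := j - 4) (by omega), single_zero, single_zero, single_sub]
  abel

variable {M}

lemma sm_H (hp : Par x y e) : M.Sm M.H := by
  obtain ⟨hx, he, hy⟩ := hp
  have h : M.S.Nef M.H := M.nef_iff.2 (by simpa [H] using M.lr_of (by simp) (by simp) (by simp))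
  rw [Sm, deg_D_zero h, deg_D_top h, nm_H]
  refine ⟨h, ?_⟩
  simp [H]; omega

lemma el_D_H (hF : gen F = 1) (j : ℕ) (hj : j ≤ 4) : el (M.S.D M.H j) = 1 := by
  rw [D_H _ j (by omega) (by omega)]
  interval_cases j
  · simpa using (linEq_iff_sub.1 M.hH).el_eq.symm
  all_goals first | (rw [el_eq] <;> simp [hF]; done) | simp

lemma exists_tau (hp : Par x y e) (hF : gen F = 1) : ∃ τ : ℕ → F,
    (∀ j ≤ 4, τ j ≠ 0 ∧ τ j ∈ LL (M.S.D M.H j)) ∧ τ 0 * τ 4 - τ 1 * τ 3 + τ 2 ^ 2 = 0 := by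
  classical
  obtain ⟨a, ha, h0⟩ := el_pos_iff.1 ((el_D_H (M := M) hF 0 (by omega)).symm ▸ one_pos)
  obtain ⟨b, hb, h2⟩ := el_pos_iff.1 ((el_D_H (M := M) hF 2 (by omega)).symm ▸ one_pos)
  have o1 := o_ne₁ (M := M) hp
  have o2 := o_ne₂ (M := M) hp
  have o3 := M.h12
  have h3 : ∀ {D E : Dv F} {z : F}, z ∈ LL D → (∀ P, D P ≤ E P) → z ∈ LL E := fun h h' =>
    LL_mono h' h
  obtain ⟨c, hc⟩ := exists_sub_smul_mem (x := M.o) (h3 h0 fun P => by
    simp [D_H, Finsupp.single_apply]; split_ifs <;> omega) (by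
      rw [M.o.val_eq ha, ← divF_apply, ← Finsupp.neg_apply,
        ← eq_neg_divF_of_degree ha h0 (by simp [D_H])]
      simp [D_H, o1, o2]) (mul_mem_LL h2 h2)
  rw [← sq] at hc
  refine ⟨fun j => if j = 0 then -(c • a) else if j = 1 then b ^ 2 - c • a else
    if j = 2 then b else 1, fun j hj => ?_, by simp; ring⟩
  interval_cases j
  · refine ⟨fun h => hb (eq_zero_of_mem (M := M) hp (a := 0) (b := 1) le_rfl (by omega) (by omega)
      (by omega) (by omega) (h3 (mem_of_sq (z := M.o) h2 (by simpa [neg_eq_zero.1 h] using hc))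
        fun P => ?_)), neg_mem ((LL _).smul_mem c h0)⟩
    simp [D_H, Finsupp.single_apply]; split_ifs <;> omega
  · refine ⟨fun h => hb (eq_zero_of_mem (M := M) hp (a := 1) (b := 1) (by omega) (by omega)
      (by omega) (by omega) (by omega) (h3 (mem_of_sq (z := M.p₁) h2 (h3 (sub_eq_zero.1 h ▸
        (LL _).smul_mem c h0) fun P => ?_)) fun P => ?_)), h3 hc fun P => ?_⟩ <;>
    simp [D_H, Finsupp.single_apply] <;> split_ifs <;> omega
  · exact ⟨hb, h2⟩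
  · exact ⟨one_ne_zero, one_mem_LL.2 (by simp [D_H])⟩
  · exact ⟨one_ne_zero, one_mem_LL.2 (by simp [D_H])⟩

end Mod

end Pool.Agent.Lib.MP_eeb174_ag
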