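import Mathlib

/-! Dimension counts for cones through Krull's height theorem. -/

open Module

noncomputable section

namespace Pool.Agent.Lib.MP_eeb174_ag

theorem chain_le_card {R : Type} [CommRing R] [IsNoetherianRing R] (P : ℕ → Ideal R)
    (hP : ∀ t, (P t).IsPrime) (hmono : Monotone P) (N : ℕ) (hlt : ∀ t < N, P t < P (t + 1))
    (m : Ideal R) (hm : P N ≤ m) (s : Finset R)
    (h : m ∈ (P 0 ⊔ Ideal.span (s : Set R)).minimalPrimes) : N ≤ s.card := by
  classical
  have hmp : m.IsPrime := h.isPrime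
  set f := Ideal.Quotient.mk (P 0) with hf
  have hs : Function.Surjective f := Ideal.Quotient.mk_surjective
  have hk : RingHom.ker f = P 0 := Ideal.mk_ker
  have hcm : ∀ J : Ideal R, P 0 ≤ J → (J.map f).comap f = J := fun J hJ => by
    rw [Ideal.comap_map_of_surjective f hs, ← RingHom.ker_eq_comap_bot, hk, sup_eq_left.2 hJ]
  have hpr : ∀ J : Ideal R, J.IsPrime → P 0 ≤ J → (J.map f).IsPrime := fun J hJ hJ' =>
    Ideal.map_isPrime_of_surjective hs (hk.trans_le hJ')
  have h0 : ∀ t, P 0 ≤ P t := fun t => hmono (Nat.zero_le t)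
  have hht : ∀ t ≤ N, (t : ℕ∞) ≤ ((P t).map f).height := by
    intro t
    induction t with
    | zero => intro _; simp
    | succ t ih =>
      intro ht
      have := hpr _ (hP t) (h0 t)
      have := hpr _ (hP (t + 1)) (h0 (t + 1))
      have hl : (P t).map f < (P (t + 1)).map f := by
        refine lt_of_le_of_ne (Ideal.map_mono (hlt t (by omega)).le) fun e => ?_
        have e' := congrArg (Ideal.comap f) e
        rw [hcm _ (h0 _), hcm _ (h0 _)] at e'
        exact (hlt t (by omega)).ne e'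
      refine le_trans ?_ (Ideal.height_add_one_le_of_lt_of_isPrime hl)
      push_cast
      gcongr
      exact ih (by omega)
  have hm0 : P 0 ≤ m := (h0 N).trans hm
  have hmin : m.map f ∈ (Ideal.span ((s.image f : Finset _) : Set (R ⧸ P 0))).minimalPrimes := by
    rw [Finset.coe_image, ← Ideal.map_span]
    refine ⟨⟨hpr _ hmp hm0, Ideal.map_mono (le_sup_right.trans h.1.2)⟩, fun q hq hqm => ?_⟩
    have := hq.1
    have h1 : P 0 ⊔ Ideal.span (s : Set R) ≤ q.comap f := by
      exact sup_le (hk.symm.trans_le (Ideal.ker_le_comap f)) (Ideal.map_le_iff_le_comap.1 hq.2)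
    have h2 : q.comap f ≤ m := by
      rw [← hcm m hm0]; exact Ideal.comap_mono hqm
    exact Ideal.map_le_iff_le_comap.2 (h.2 ⟨Ideal.comap_isPrime f q, h1⟩ h2)
  have h1 := Ideal.height_le_card_of_mem_minimalPrimes_span_finset hmin
  have h2 := ((hht N le_rfl).trans (Ideal.height_mono (Ideal.map_mono hm))).trans h1
  exact (Nat.cast_le.1 h2).trans Finset.card_image_le

open MvPolynomial in
theorem krull_lemma {σ ι W : Type} [Finite ι] [AddCommGroup W] [Module ℂ W] [FiniteDimensional ℂ W]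
    (θ : ι → MvPolynomial σ ℂ) (hθ : ∀ i, MvPolynomial.constantCoeff (θ i) = 0) (N : ℕ)
    (S : ℕ → Set σ) (hS : Monotone S)
    (hw : ∀ t < N, ∃ w : MvPolynomial ι ℂ,
      (∀ a : σ → ℂ, (∀ v ∈ S (t + 1), a v = 0) →
        MvPolynomial.eval (fun i => MvPolynomial.eval a (θ i)) w = 0) ∧
      ∃ a : σ → ℂ, (∀ v ∈ S t, a v = 0) ∧
        MvPolynomial.eval (fun i => MvPolynomial.eval a (θ i)) w ≠ 0)
    (μ : (ι → ℂ) →ₗ[ℂ] W) (hN : finrank ℂ W < N) :
    ∃ ζ : ι → ℂ, ζ ≠ 0 ∧ μ ζ = 0 ∧ ∀ w : MvPolynomial ι ℂ,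
      (∀ a : σ → ℂ, MvPolynomial.eval (fun i => MvPolynomial.eval a (θ i)) w = 0) →
        MvPolynomial.eval ζ w = 0 := by
  classical
  have := Fintype.ofFinite ι
  let π : ℕ → σ → MvPolynomial σ ℂ := fun t v => if v ∈ S t then 0 else X v
  let Φ : ℕ → (MvPolynomial ι ℂ →+* MvPolynomial σ ℂ) := fun t =>
    (eval₂Hom C (π t)).comp (eval₂Hom C θ)
  have hev : ∀ t (a : σ → ℂ) w, eval a (Φ t w) =
      eval (fun i => eval (fun v => if v ∈ S t then 0 else a v) (θ i)) w := by
    intro t a w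
    have e1 : (eval a).comp (eval₂Hom C (π t)) = eval (fun v => if v ∈ S t then 0 else a v) := by
      refine ringHom_ext (fun r => by simp) fun v => ?_
      by_cases hv : v ∈ S t <;> simp [π, hv]
    have e2 : ∀ b : σ → ℂ, (eval b).comp (eval₂Hom C θ) = eval (fun i => eval b (θ i)) := fun b =>
      ringHom_ext (fun r => by simp) fun v => by simp
    rw [← e2, ← e1]; rfl
  let P : ℕ → Ideal (MvPolynomial ι ℂ) := fun t => RingHom.ker (Φ t)
  have hP : ∀ t w, w ∈ P t ↔ ∀ a : σ → ℂ, (∀ v ∈ S t, a v = 0) →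
      eval (fun i => eval a (θ i)) w = 0 := by
    intro t w
    rw [RingHom.mem_ker]
    constructor
    · intro h a ha
      have e := hev t a w
      rw [h, map_zero] at e
      have : (fun v => if v ∈ S t then 0 else a v) = a := by
        funext v; by_cases hv : v ∈ S t <;> simp [hv, ha]
      rw [this] at e; exact e.symm
    · intro h
      refine MvPolynomial.funext fun a => ?_
      rw [hev, map_zero]
      exact h _ fun v hv => by simp [hv]
  have hmono : Monotone P := fun t t' h w hw' =>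
    (hP _ _).2 fun a ha => (hP _ _).1 hw' a fun v hv => ha v (hS h hv)
  have hlt : ∀ t < N, P t < P (t + 1) := fun t ht => by
    obtain ⟨w, h1, a, h2, h3⟩ := hw t ht
    exact lt_of_le_of_ne (hmono (Nat.le_succ t)) fun e =>
      h3 ((hP t w).1 (e ▸ (hP _ w).2 h1) a h2)
  let b := Module.finBasis ℂ W
  let l : Fin (finrank ℂ W) → MvPolynomial ι ℂ := fun k =>
    ∑ i, C (b.coord k (μ (Pi.single i 1))) * X i
  have hl : ∀ k (ζ : ι → ℂ), eval ζ (l k) = b.coord k (μ ζ) := by
    intro k ζ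
    conv_rhs => rw [pi_eq_sum_univ' ζ]
    simp only [l, map_sum, map_mul, eval_C, eval_X, map_smul, smul_eq_mul]
    refine Finset.sum_congr rfl fun i _ => ?_
    rw [mul_comm]
  let m : Ideal (MvPolynomial ι ℂ) := vanishingIdeal ℂ {(0 : ι → ℂ)}
  have hmem : ∀ w, w ∈ m ↔ eval (0 : ι → ℂ) w = 0 := fun w => mem_vanishingIdeal_singleton_iff _ _
  have hPm : ∀ t, P t ≤ m := fun t w hw' => by
    have e := (hP t w).1 hw' 0 fun _ _ => rfl
    have : (fun i => eval (0 : σ → ℂ) (θ i)) = 0 := by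
      funext i; simp [hθ]
    rw [this] at e
    exact (hmem w).2 e
  by_contra hcon
  set I := P 0 ⊔ Ideal.span ((Finset.univ.image l : Finset _) : Set (MvPolynomial ι ℂ)) with hI
  have hIm : I ≤ m := by
    refine sup_le (hPm 0) (Ideal.span_le.2 fun w hw' => ?_)
    obtain ⟨k, -, rfl⟩ := Finset.mem_image.1 (Finset.mem_coe.1 hw')
    exact (hmem _).2 (by rw [hl]; simp)
  have hz : zeroLocus ℂ I = {0} := by
    refine Set.eq_singleton_iff_unique_mem.2 ⟨fun p hp => (hmem p).1 (hIm hp), fun ζ hζ => ?_⟩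
    by_contra hne
    refine hcon ⟨ζ, hne, b.forall_coord_eq_zero_iff.1 fun k => ?_, fun w hw' => ?_⟩
    · rw [← hl]
      exact hζ _ (Ideal.mem_sup_right (Ideal.subset_span (by simp)))
    · exact hζ _ (Ideal.mem_sup_left ((hP 0 w).2 fun a _ => hw' a))
  have hrad : I.radical = m := by rw [← vanishingIdeal_zeroLocus_eq_radical (K := ℂ), hz]
  have hmin : m ∈ I.minimalPrimes := by
    rw [← Ideal.radical_minimalPrimes, hrad, Ideal.minimalPrimes_eq_subsingleton_self]
    rfl
  have h1 := chain_le_card P (fun t => RingHom.ker_isPrime _) hmono N hlt m (hPm N) _ hmin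
  have h2 := h1.trans Finset.card_image_le
  simp only [Finset.card_univ, Fintype.card_fin] at h2
  omega

open MvPolynomial in
theorem pr_lemma {V W : Type} [AddCommGroup V] [Module ℂ V] [FiniteDimensional ℂ V]
    [AddCommGroup W] [Module ℂ W] [FiniteDimensional ℂ W] (ω : V →ₗ[ℂ] V →ₗ[ℂ] W)
    (halt : ∀ v, ω v v = 0) (h : ∀ v w, LinearIndependent ℂ ![v, w] → ω v w ≠ 0) :
    2 * finrank ℂ V ≤ finrank ℂ W + 3 := by
  classical
  by_contra hcon
  obtain ⟨n, hn⟩ : ∃ n, finrank ℂ V = n + 2 := ⟨finrank ℂ V - 2, by omega⟩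
  let e := Module.finBasisOfFinrankEq ℂ V hn
  let θ : Fin (n + 2) × Fin (n + 2) → MvPolynomial (Bool × Fin (n + 2)) ℂ := fun p =>
    X (false, p.1) * X (true, p.2) - X (false, p.2) * X (true, p.1)
  let S : ℕ → Set (Bool × Fin (n + 2)) := fun t =>
    {v | (v.1 = true ∧ (v.2 : ℕ) ≤ t ∧ (v.2 : ℕ) ≤ n) ∨ (v.1 = false ∧ (v.2 : ℕ) + n < t)}
  have hS : Monotone S := fun t t' htt v hv => by
    rcases hv with hv | hv
    · exact Or.inl ⟨hv.1, hv.2.1.trans htt, hv.2.2⟩
    · exact Or.inr ⟨hv.1, hv.2.trans_le htt⟩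
  let μ : (Fin (n + 2) × Fin (n + 2) → ℂ) →ₗ[ℂ] W :=
    Fintype.linearCombination ℂ fun p => ω (e p.1) (e p.2)
  have hwit : ∀ t < 2 * n + 1, ∃ i j : Fin (n + 2), i ≠ j ∧ (true, i) ∈ S (t + 1) ∧
      ((false, i) ∈ S (t + 1) ∨ (true, j) ∈ S (t + 1)) ∧ (false, i) ∉ S t ∧ (true, j) ∉ S t := by
    intro t ht
    by_cases htn : t < n
    · refine ⟨0, ⟨t + 1, by omega⟩, fun e => by simp [Fin.ext_iff] at e, ?_, Or.inr ?_, ?_, ?_⟩ <;>
        simp [S] <;> omega
    · refine ⟨⟨t - n, by omega⟩, ⟨n + 1, by omega⟩, fun e => ?_, ?_, Or.inl ?_, ?_, ?_⟩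
      · simp [Fin.ext_iff] at e; omega
      all_goals simp [S]
      all_goals omega
  obtain ⟨ζ, hζ, hμ, hrel⟩ := krull_lemma θ (fun p => by simp [θ]) (2 * n + 1) S hS
    (fun t ht => by
      obtain ⟨i, j, hij, h1, h2, h3, h4⟩ := hwit t ht
      refine ⟨X (i, j), fun a ha => ?_,
        fun v => if v = (false, i) ∨ v = (true, j) then 1 else 0, fun v hv => ?_, ?_⟩
      · rcases h2 with h2 | h2 <;> simp [θ, ha _ h1, ha _ h2]
      · refine if_neg ?_
        rintro (rfl | rfl)
        exacts [h3 hv, h4 hv]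
      · simp [θ, hij]) μ (by omega)
  have hanti : ∀ i j, ζ (j, i) = -ζ (i, j) := fun i j => by
    have := hrel (X (j, i) + X (i, j)) fun a => by simp [θ]
    simpa [add_eq_zero_iff_eq_neg] using this
  have hpl : ∀ a b k l, ζ (a, k) * ζ (b, l) - ζ (b, k) * ζ (a, l) = ζ (a, b) * ζ (k, l) :=
    fun a b k l => by
      have := hrel (X (a, k) * X (b, l) - X (b, k) * X (a, l) - X (a, b) * X (k, l)) fun x => by
        simp only [θ, map_sub, map_mul, eval_X]; ring
      simpa [sub_eq_zero] using this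
  have hdiag : ∀ i, ζ (i, i) = 0 := fun i => by linear_combination (hanti i i) / 2
  obtain ⟨⟨a, b⟩, hab⟩ := Function.ne_iff.1 hζ
  replace hab : ζ (a, b) ≠ 0 := hab
  let u : Fin (n + 2) → V := fun c => ∑ k, ζ (c, k) • e k
  have hu : ∀ c k, e.repr (u c) k = ζ (c, k) := fun c k => by
    simp [u, Finsupp.single_apply]
  have hli : LinearIndependent ℂ ![u a, u b] := by
    refine LinearIndependent.pair_iff.2 fun s t hst => ?_
    have e1 := congrArg (fun x => e.repr x b) hst
    have e2 := congrArg (fun x => e.repr x a) hst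
    simp only [map_add, map_smul, Finsupp.add_apply, Finsupp.smul_apply, hu, hdiag, smul_eq_mul,
      map_zero, Finsupp.zero_apply, mul_zero, add_zero, zero_add, hanti a b, mul_neg, neg_eq_zero,
      mul_eq_zero, hab, or_false] at e1 e2
    exact ⟨e1, e2⟩
  have hω : ∀ c d, ω (u c) (u d) = ∑ k, ∑ l, (ζ (c, k) * ζ (d, l)) • ω (e k) (e l) :=
    fun c d => by
      simp only [u, map_sum, map_smul, LinearMap.sum_apply, LinearMap.smul_apply, Finset.smul_sum,
        smul_smul]
      rw [Finset.sum_comm]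
      simp only [mul_comm]
  have h1 : ω (u a) (u b) - ω (u b) (u a) = 0 := by
    rw [hω, hω, ← Finset.sum_sub_distrib]
    simp only [← Finset.sum_sub_distrib, ← sub_smul, hpl]
    simp only [mul_smul, ← Finset.smul_sum]
    rw [← Fintype.sum_prod_type (fun p : Fin (n + 2) × Fin (n + 2) => ζ p • ω (e p.1) (e p.2))]
    rw [show ∑ p : Fin (n + 2) × Fin (n + 2), ζ p • ω (e p.1) (e p.2) = μ ζ from rfl, hμ, smul_zero]
  have h2 : ω (u a) (u b) + ω (u b) (u a) = 0 := by
    have := halt (u a + u b)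
    simpa [halt, add_comm] using this
  refine h _ _ hli ?_
  have h3 : (2 : ℂ) • ω (u a) (u b) = 0 := by
    rw [two_smul]
    calc _ = (ω (u a) (u b) - ω (u b) (u a)) + (ω (u a) (u b) + ω (u b) (u a)) := by abel
      _ = 0 := by rw [h1, h2, add_zero]
  exact (smul_eq_zero.1 h3).resolve_left two_ne_zero

end Pool.Agent.Lib.MP_eeb174_ag
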