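import Pool.Agent.Lib.MP_eeb174_ag.Approx

open Filter Set WithZero

noncomputable section

namespace Pool.Agent.Lib.MP_eeb174_ag

variable {K : Type} [Field K] [Algebra ℂ K] {N N' : ℕ}

namespace Lat

/-- The stalk as a submodule. -/
def S (L : Lat K N) (x : Place K) : Submodule x.O (Fin N → K) := Submodule.span x.O (L.st x)

variable (L : Lat K N)

lemma coe_S (x : Place K) : (L.S x : Set (Fin N → K)) = L.st x := by
  obtain ⟨s, hs⟩ := L.fg x
  rw [S, hs, Submodule.span_eq]

lemma mem_st {x : Place K} {w : Fin N → K} : w ∈ L.st x ↔ w ∈ L.S x := by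
  rw [← L.coe_S]; rfl

lemma fg_S (x : Place K) : (L.S x).FG := by
  obtain ⟨s, hs⟩ := L.fg x
  exact ⟨s, SetLike.coe_injective (by rw [coe_S, hs])⟩

lemma span_S (x : Place K) : Submodule.span K (L.S x : Set (Fin N → K)) = L.gen := by
  rw [coe_S, L.span_st]

variable {L} in
lemma mem_gen {x : Place K} {w : Fin N → K} (h : w ∈ L.S x) : w ∈ L.gen :=
  L.span_S x ▸ Submodule.subset_span h

variable {L} in
lemma smul_mem {x : Place K} {z : K} {w : Fin N → K} (hz : z ∈ x.O) (h : w ∈ L.S x) :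
    z • w ∈ L.S x := (L.S x).smul_mem ⟨z, hz⟩ h

lemma std_S : ∀ᶠ x in cofinite, ∀ w, w ∈ L.S x ↔ w ∈ L.gen ∧ ∀ i, w i ∈ x.O :=
  L.std.mono fun x hx w => by rw [← mem_st, hx]; rfl

/-- Constructor from submodules. -/
def mk' (W : Submodule K (Fin N → K)) (S : ∀ x : Place K, Submodule x.O (Fin N → K))
    (fg : ∀ x, (S x).FG) (span : ∀ x, Submodule.span K (S x : Set (Fin N → K)) = W)
    (std : ∀ᶠ x in cofinite, ∀ w, w ∈ S x ↔ w ∈ W ∧ ∀ i, w i ∈ x.O) : Lat K N where
  gen := W
  st := fun x => S x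
  fg := fun x => by
    obtain ⟨s, hs⟩ := fg x
    exact ⟨s, by rw [hs]⟩
  span_st := span
  std := std.mono fun x hx => Set.ext hx

@[simp] lemma mk'_S (W : Submodule K (Fin N → K)) (S : ∀ x : Place K, Submodule x.O (Fin N → K))
    (fg span std) (x : Place K) : (mk' W S fg span std).S x = S x := Submodule.span_eq _

@[simp] lemma mk'_gen (W : Submodule K (Fin N → K)) (S : ∀ x : Place K, Submodule x.O (Fin N → K))
    (fg span std) : (mk' W S fg span std).gen = W := rfl

variable [IsFF K]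

variable {L} in
lemma ext' {L' : Lat K N} (h : ∀ x, L.S x = L'.S x) : L = L' := by
  obtain ⟨x⟩ : Nonempty (Place K) := inferInstance
  have h1 : L.gen = L'.gen := by rw [← L.span_S x, h, L'.span_S]
  have h2 : L.st = L'.st := funext fun x => by rw [← coe_S, h, coe_S]
  cases L; cases L'; cases h1; cases h2; rfl

instance : PartialOrder (Lat K N) where
  le := fun L L' => ∀ x, L.S x ≤ L'.S x
  le_refl := fun _ _ => le_rfl
  le_trans := fun _ _ _ h h' x => (h x).trans (h' x)
  le_antisymm := fun _ _ h h' => ext' fun x => le_antisymm (h x) (h' x)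

lemma le_def {L L' : Lat K N} : L ≤ L' ↔ ∀ x, L.S x ≤ L'.S x := Iff.rfl

lemma le_iff_st {L L' : Lat K N} : (∀ x, L.st x ⊆ L'.st x) ↔ L ≤ L' := by
  simp only [← coe_S, SetLike.coe_subset_coe, le_def]

lemma gen_mono {L L' : Lat K N} (h : L ≤ L') : L.gen ≤ L'.gen := by
  obtain ⟨x⟩ : Nonempty (Place K) := inferInstance
  rw [← L.span_S x, ← L'.span_S x]
  exact Submodule.span_mono (h x)

variable {L} in
lemma exists_pow_smul_mem (x : Place K) {w : Fin N → K} (hw : w ∈ L.gen) :
    ∃ M : ℕ, ∀ z : K, x.val z ≤ exp (-(M : ℤ)) → z • w ∈ L.S x := by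
  rw [← L.span_S x] at hw
  induction hw using Submodule.span_induction with
  | mem w hw =>
    exact ⟨0, fun z hz => smul_mem (x.mem_iff.2 (by simpa using hz)) hw⟩
  | zero => exact ⟨0, by simp⟩
  | add a b _ _ ha hb =>
    obtain ⟨M, hM⟩ := ha
    obtain ⟨M', hM'⟩ := hb
    refine ⟨M + M', fun z hz => ?_⟩
    rw [smul_add]
    exact add_mem (hM z (hz.trans (exp_le_exp.2 (by omega))))
      (hM' z (hz.trans (exp_le_exp.2 (by omega))))
  | smul c a _ ha =>
    obtain ⟨M, hM⟩ := ha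
    by_cases hc : c = 0
    · exact ⟨0, by simp [hc]⟩
    refine ⟨M + (x.ord c).natAbs, fun z hz => ?_⟩
    rw [smul_smul]
    refine hM _ ?_
    rw [map_mul, x.val_eq hc]
    refine (mul_le_mul_left hz _).trans ?_
    rw [← exp_add, exp_le_exp]
    omega

end Lat

variable [IsFF K]

lemma eventually_mem (z : K) : ∀ᶠ x : Place K in cofinite, z ∈ x.O := finite_poles z

lemma mem_span_O {ι : Type} [Fintype ι] {x : Place K} {v : ι → Fin N → K} {w : Fin N → K} :
    w ∈ Submodule.span x.O (range v) ↔ ∃ c : ι → K, (∀ j, c j ∈ x.O) ∧ w = ∑ j, c j • v j := by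
  rw [Submodule.mem_span_range_iff_exists_fun]
  constructor
  · rintro ⟨c, rfl⟩
    exact ⟨fun j => c j, fun j => (c j).2, rfl⟩
  · rintro ⟨c, hc, rfl⟩
    exact ⟨fun j => ⟨c j, hc j⟩, rfl⟩

lemma eventually_span_std {ι : Type} [Finite ι] (v : ι → Fin N → K) :
    ∀ᶠ x : Place K in cofinite, ∀ w, w ∈ Submodule.span x.O (range v) ↔
      w ∈ Submodule.span K (range v) ∧ ∀ i, w i ∈ x.O := by
  classical
  have := Fintype.ofFinite ι
  let T : (ι → K) →ₗ[K] (Fin N → K) := Fintype.linearCombination K v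
  obtain ⟨σ, hσ⟩ := T.rangeRestrict.exists_rightInverse_of_surjective T.range_rangeRestrict
  obtain ⟨ρ, hρ⟩ := σ.exists_extend
  have h1 : ∀ᶠ x : Place K in cofinite, ∀ j i, v j i ∈ x.O :=
    eventually_all.2 fun j => eventually_all.2 fun i => eventually_mem _
  have h2 : ∀ᶠ x : Place K in cofinite, ∀ i j, ρ (Pi.single i 1) j ∈ x.O :=
    eventually_all.2 fun j => eventually_all.2 fun i => eventually_mem _
  refine (h1.and h2).mono fun x hx w => ?_
  rw [mem_span_O]
  constructor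
  · rintro ⟨c, hc, rfl⟩
    refine ⟨sum_mem fun j _ => Submodule.smul_mem _ _ (Submodule.subset_span ⟨j, rfl⟩), fun i => ?_⟩
    rw [Finset.sum_apply]
    exact sum_mem fun j _ => x.O.mul_mem _ _ (hc j) (hx.1 j i)
  · rintro ⟨hw, hi⟩
    have hw' : w ∈ LinearMap.range T := by rwa [Fintype.range_linearCombination]
    refine ⟨ρ w, fun j => ?_, ?_⟩
    · rw [pi_eq_sum_univ' w, map_sum, Finset.sum_apply]
      refine sum_mem fun i _ => ?_
      rw [map_smul]
      exact x.O.mul_mem _ _ (hi i) (hx.2 i j)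
    · have h3 : ρ w = σ ⟨w, hw'⟩ := LinearMap.congr_fun hρ ⟨w, hw'⟩
      have h4 := congrArg Subtype.val (LinearMap.congr_fun hσ ⟨w, hw'⟩)
      rw [h3]
      exact h4.symm

namespace Lat

/-- The lattice generated by an almost constant family. -/
def ofGens {ι : Type} [Finite ι] (v : Place K → ι → Fin N → K) (v₀ : ι → Fin N → K)
    (hv : ∀ᶠ x in cofinite, v x = v₀)
    (hs : ∀ x, Submodule.span K (range (v x)) = Submodule.span K (range v₀)) : Lat K N :=
  mk' (Submodule.span K (range v₀)) (fun x => Submodule.span x.O (range (v x)))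
    (fun _ => Submodule.fg_span (finite_range _))
    (fun x => by rw [Submodule.span_span_of_tower, hs])
    ((hv.and (eventually_span_std v₀)).mono fun x hx w => by rw [hx.1]; exact hx.2 w)

@[simp] lemma ofGens_S {ι : Type} [Finite ι] (v : Place K → ι → Fin N → K) (v₀ hv hs)
    (x : Place K) : (ofGens v v₀ hv hs).S x = Submodule.span x.O (range (v x)) := by
  rw [ofGens, mk'_S]

@[simp] lemma ofGens_gen {ι : Type} [Finite ι] (v : Place K → ι → Fin N → K) (v₀ hv hs) :
    (ofGens v v₀ hv hs).gen = Submodule.span K (range v₀) := rfl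

lemma exists_gens (L : Lat K N) : ∃ (m : ℕ) (v : Fin m → Fin N → K),
    Submodule.span K (range v) = L.gen ∧
      ∀ᶠ x in cofinite, L.S x = Submodule.span x.O (range v) := by
  obtain ⟨m, v, hv⟩ := Submodule.fg_iff_exists_fin_generating_family.1
    (IsNoetherian.noetherian L.gen)
  refine ⟨m, v, hv, (L.std_S.and (eventually_span_std v)).mono fun x hx => ?_⟩
  ext w
  rw [hx.1, hx.2, hv]

/-- Image of a lattice under an almost constant family of linear maps. -/
def mapF (L : Lat K N) (g : Place K → (Fin N → K) →ₗ[K] (Fin N' → K))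
    (g₀ : (Fin N → K) →ₗ[K] (Fin N' → K)) (hg : ∀ᶠ x in cofinite, g x = g₀)
    (hW : ∀ x, L.gen.map (g x) = L.gen.map g₀) : Lat K N' :=
  mk' (L.gen.map g₀) (fun x => (L.S x).map ((g x).restrictScalars x.O))
    (fun x => (L.fg_S x).map _)
    (fun x => by
      rw [← hW x, ← L.span_S x, Submodule.map_span]; rfl)
    (by
      obtain ⟨m, v, hv, h⟩ := L.exists_gens
      refine ((hg.and h).and (eventually_span_std (g₀ ∘ v))).mono fun x hx w => ?_
      rw [hx.1.1, hx.1.2, Submodule.map_span, ← hv, Submodule.map_span, ← range_comp,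
        ← range_comp]
      exact hx.2 w)

lemma mem_mapF {L : Lat K N} {g : Place K → (Fin N → K) →ₗ[K] (Fin N' → K)} {g₀ hg hW}
    {x : Place K} {w : Fin N' → K} :
    w ∈ (L.mapF g g₀ hg hW).S x ↔ ∃ v ∈ L.S x, g x v = w := by
  rw [mapF, mk'_S]; rfl

/-- Image under a global linear map. -/
def mapL (L : Lat K N) (p : (Fin N → K) →ₗ[K] (Fin N' → K)) : Lat K N' :=
  L.mapF (fun _ => p) p (Eventually.of_forall fun _ => rfl) fun _ => rfl

lemma mem_mapL {L : Lat K N} {p : (Fin N → K) →ₗ[K] (Fin N' → K)} {x : Place K} {w : Fin N' → K} :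
    w ∈ (L.mapL p).S x ↔ ∃ v ∈ L.S x, p v = w := mem_mapF

@[simp] lemma gen_mapL (L : Lat K N) (p : (Fin N → K) →ₗ[K] (Fin N' → K)) :
    (L.mapL p).gen = L.gen.map p := rfl

lemma map_smul_id {z : K} (hz : z ≠ 0) (W : Submodule K (Fin N → K)) :
    W.map (z • LinearMap.id) = W := by
  ext w
  constructor
  · rintro ⟨v, hv, rfl⟩
    exact W.smul_mem _ hv
  · intro hw
    exact ⟨z⁻¹ • w, W.smul_mem _ hw, by simp [smul_smul, hz]⟩

/-- Twist by a divisor. -/
def twist (L : Lat K N) (D : Place K →₀ ℤ) : Lat K N :=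
  L.mapF (fun x => x.unif ^ (-D x) • LinearMap.id) LinearMap.id
    (D.support.finite_toSet.subset fun x hx => by
      by_contra h
      apply hx
      simp only [Finset.mem_coe, Finsupp.mem_support_iff, ne_eq, not_not] at h
      simp [h])
    fun x => by rw [map_smul_id (zpow_ne_zero _ x.unif_ne_zero), Submodule.map_id]

@[simp] lemma gen_twist (L : Lat K N) (D : Place K →₀ ℤ) : (L.twist D).gen = L.gen :=
  Submodule.map_id _

lemma mem_twist {L : Lat K N} {D : Place K →₀ ℤ} {x : Place K} {w : Fin N → K} :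
    w ∈ (L.twist D).S x ↔ x.unif ^ D x • w ∈ L.S x := by
  have h := zpow_ne_zero (D x) x.unif_ne_zero
  rw [twist, mem_mapF]
  constructor
  · rintro ⟨v, hv, rfl⟩
    simpa [smul_smul, h] using hv
  · intro hw
    exact ⟨_, hw, by simp [smul_smul, h]⟩

lemma smul_mem_iff_of_ord {L : Lat K N} {x : Place K} {a b : K} (ha : a ≠ 0) (hb : b ≠ 0)
    (h : x.ord a = x.ord b) {w : Fin N → K} : a • w ∈ L.S x ↔ b • w ∈ L.S x := by
  have key : ∀ a b : K, a ≠ 0 → b ≠ 0 → x.ord a = x.ord b → a • w ∈ L.S x → b • w ∈ L.S x := by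
    intro a b ha hb h hw
    have h1 : b * a⁻¹ ∈ x.O := by
      rw [x.mem_iff_ord (by simp [ha, hb]), x.ord_mul hb (inv_ne_zero ha), x.ord_inv]; omega
    have := smul_mem h1 hw
    rwa [smul_smul, inv_mul_cancel_right₀ ha] at this
  exact ⟨key a b ha hb h, key b a hb ha h.symm⟩

lemma mem_twist_of_ord {L : Lat K N} {D : Place K →₀ ℤ} {x : Place K} {z : K} (hz : z ≠ 0)
    (h : x.ord z = D x) {w : Fin N → K} : w ∈ (L.twist D).S x ↔ z • w ∈ L.S x := by
  rw [mem_twist]
  exact smul_mem_iff_of_ord (zpow_ne_zero _ x.unif_ne_zero) hz (by simp [x.ord_zpow, h])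

@[simp] lemma twist_zero (L : Lat K N) : L.twist 0 = L :=
  ext' fun x => by ext w; simp [mem_twist]

lemma twist_twist (L : Lat K N) (D D' : Place K →₀ ℤ) : (L.twist D).twist D' = L.twist (D + D') :=
  ext' fun x => by
    ext w
    simp only [mem_twist, smul_smul, Finsupp.add_apply, zpow_add₀ x.unif_ne_zero]

lemma twist_mono {L L' : Lat K N} (h : L ≤ L') (D : Place K →₀ ℤ) : L.twist D ≤ L'.twist D :=
  fun x _ hw => mem_twist.2 (h x (mem_twist.1 hw))

/-- Intersection with a subspace. -/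
def restrict (L : Lat K N) (W : Submodule K (Fin N → K)) : Lat K N :=
  mk' (L.gen ⊓ W) (fun x => L.S x ⊓ W.restrictScalars x.O)
    (fun x => (L.fg_S x).of_le inf_le_left)
    (fun x => by
      refine le_antisymm (Submodule.span_le.2 fun w hw => ⟨mem_gen hw.1, hw.2⟩) fun w hw => ?_
      obtain ⟨M, hM⟩ := exists_pow_smul_mem x hw.1
      have h := zpow_ne_zero (M : ℤ) x.unif_ne_zero
      have h1 : w = (x.unif ^ (M : ℤ))⁻¹ • x.unif ^ (M : ℤ) • w := by
        rw [smul_smul, inv_mul_cancel₀ h, one_smul]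
      rw [h1]
      exact Submodule.smul_mem _ _ (Submodule.subset_span
        ⟨hM _ (x.val_unif_zpow _).le, W.smul_mem _ hw.2⟩))
    (L.std_S.mono fun x hx w => by
      rw [Submodule.mem_inf, hx, Submodule.mem_inf, Submodule.restrictScalars_mem]; tauto)

lemma mem_restrict {L : Lat K N} {W : Submodule K (Fin N → K)} {x : Place K} {w : Fin N → K} :
    w ∈ (L.restrict W).S x ↔ w ∈ L.S x ∧ w ∈ W := by
  rw [restrict, mk'_S]; rfl

@[simp] lemma gen_restrict (L : Lat K N) (W : Submodule K (Fin N → K)) :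
    (L.restrict W).gen = L.gen ⊓ W := rfl

lemma restrict_le (L : Lat K N) (W : Submodule K (Fin N → K)) : L.restrict W ≤ L :=
  fun _ _ hw => (mem_restrict.1 hw).1

instance : OrderBot (Lat K N) where
  bot := mk' ⊥ (fun _ => ⊥) (fun _ => Submodule.fg_bot) (fun _ => by simp)
    (Eventually.of_forall fun x w => by
      simp only [Submodule.mem_bot]
      exact ⟨by rintro rfl; simp, fun h => h.1⟩)
  bot_le := fun L x => by simp

@[simp] lemma bot_S (x : Place K) : (⊥ : Lat K N).S x = ⊥ := mk'_S _ _ _ _ _ _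

@[simp] lemma bot_gen : (⊥ : Lat K N).gen = ⊥ := rfl

lemma eq_bot_of_gen {L : Lat K N} (h : L.gen = ⊥) : L = ⊥ :=
  ext' fun x => by
    rw [bot_S, eq_bot_iff]
    intro w hw
    have := mem_gen hw
    rwa [h] at this

/-- Modification of a lattice at finitely many places. -/
def modify (L : Lat K N) (S : ∀ x : Place K, Submodule x.O (Fin N → K)) (fg : ∀ x, (S x).FG)
    (span : ∀ x, Submodule.span K (S x : Set (Fin N → K)) = L.gen)
    (h : ∀ᶠ x in cofinite, S x = L.S x) : Lat K N :=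
  mk' L.gen S fg span ((h.and L.std_S).mono fun x hx w => by rw [hx.1]; exact hx.2 w)

/-- Comparison of lattices. -/
lemma exists_bound {L L' : Lat K N} (h : L.gen ≤ L'.gen) :
    ∃ (T : Set (Place K)) (M : ℕ), T.Finite ∧ ∀ (x : Place K) (z : K) (w : Fin N → K),
      w ∈ L.S x → x.val z ≤ 1 → (x ∈ T → x.val z ≤ exp (-(M : ℤ))) → z • w ∈ L'.S x := by
  have h1 : ∀ x : Place K, ∃ M : ℕ, ∀ z : K, x.val z ≤ exp (-(M : ℤ)) →
      ∀ w ∈ L.S x, z • w ∈ L'.S x := by
    intro x
    obtain ⟨m, v, hv⟩ := Submodule.fg_iff_exists_fin_generating_family.1 (L.fg_S x)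
    choose M hM using fun j => exists_pow_smul_mem (L := L') x
      (h (mem_gen (show v j ∈ L.S x from hv ▸ Submodule.subset_span ⟨j, rfl⟩)))
    refine ⟨∑ j, M j, fun z hz w hw => ?_⟩
    rw [← hv, mem_span_O] at hw
    obtain ⟨c, hc, rfl⟩ := hw
    rw [Finset.smul_sum]
    refine sum_mem fun j _ => ?_
    rw [smul_comm]
    refine smul_mem (hc j) (hM j z (hz.trans (exp_le_exp.2 ?_)))
    have := Finset.single_le_sum (f := M) (fun _ _ => Nat.zero_le _) (Finset.mem_univ j)
    omega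
  choose M hM using h1
  have h2 : ∀ᶠ x in cofinite, L.S x ≤ L'.S x :=
    (L.std_S.and L'.std_S).mono fun x hx w hw =>
      (hx.2 w).2 ⟨h ((hx.1 w).1 hw).1, ((hx.1 w).1 hw).2⟩
  have h3 : {x | ¬ L.S x ≤ L'.S x}.Finite := h2
  refine ⟨_, ∑ x ∈ h3.toFinset, M x, h3, fun x z w hw hz hx => ?_⟩
  by_cases h4 : L.S x ≤ L'.S x
  · exact smul_mem (x.mem_iff.2 hz) (h4 hw)
  · refine hM x z ((hx h4).trans (exp_le_exp.2 ?_)) w hw
    have := Finset.single_le_sum (f := M) (fun _ _ => Nat.zero_le _) (h3.mem_toFinset.2 h4)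
    omega

/-- The lattice freely generated by a family. -/
def free {ι : Type} [Finite ι] (v : ι → Fin N → K) : Lat K N :=
  ofGens (fun _ => v) v (Eventually.of_forall fun _ => rfl) fun _ => rfl

@[simp] lemma free_S {ι : Type} [Finite ι] (v : ι → Fin N → K) (x : Place K) :
    (free v).S x = Submodule.span x.O (range v) := ofGens_S _ _ _ _ _

@[simp] lemma free_gen {ι : Type} [Finite ι] (v : ι → Fin N → K) :
    (free v).gen = Submodule.span K (range v) := rfl

lemma exists_bound_vec {L : Lat K N} {w : Fin N → K} (h : w ∈ L.gen) :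
    ∃ (T : Set (Place K)) (M : ℕ), T.Finite ∧ ∀ (x : Place K) (z : K),
      x.val z ≤ 1 → (x ∈ T → x.val z ≤ exp (-(M : ℤ))) → z • w ∈ L.S x := by
  obtain ⟨T, M, hT, h⟩ := exists_bound (L := free fun _ : Unit => w) (L' := L) (by simpa using h)
  exact ⟨T, M, hT, fun x z => h x z w (by simp)⟩

/-- Sections over a set of places. -/
def Γ (L : Lat K N) (U : Set (Place K)) : Submodule (chartRing U) (Fin N → K) where
  carrier := {w | ∀ x ∈ U, w ∈ L.S x}
  add_mem' := fun ha hb x hx => add_mem (ha x hx) (hb x hx)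
  zero_mem' := fun _ _ => zero_mem _
  smul_mem' := fun c _ hw x hx => smul_mem (c.2 x hx) (hw x hx)

lemma mem_Γ {L : Lat K N} {U : Set (Place K)} {w : Fin N → K} :
    w ∈ L.Γ U ↔ ∀ x ∈ U, w ∈ L.S x := Iff.rfl

lemma span_Γ (L : Lat K N) {U : Set (Place K)} (hU : Good U) {x : Place K} (hx : x ∈ U) :
    Submodule.span x.O (L.Γ U : Set (Fin N → K)) = L.S x := by
  refine le_antisymm (Submodule.span_le.2 fun w hw => hw x hx) fun w hw => ?_
  obtain ⟨T, M, hT, h⟩ := exists_bound_vec (mem_gen hw)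
  obtain ⟨s, hs, h1, h2⟩ := hU.approx hx hT (M + 1)
  have h3 : x.val s = 1 := by
    have : x.val (s - 1) < 1 :=
      x.val_lt_one_iff.2 (h1.trans (exp_le_exp.2 (by omega)))
    simpa using x.val.map_one_add_of_lt this
  have h4 : s ≠ 0 := by rintro rfl; simp at h3
  have h5 : s • w ∈ L.Γ U := by
    intro y hy
    by_cases e : y = x
    · subst e; exact smul_mem (hs y hy) hw
    · exact h y s (y.mem_iff.1 (hs y hy)) fun hyT =>
        (h2 y hyT hy e).trans (exp_le_exp.2 (by omega))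
  have h6 : w = (⟨s⁻¹, (x.inv_mem_iff h4).2 h3.ge⟩ : x.O) • s • w := by
    change w = s⁻¹ • s • w
    rw [smul_smul, inv_mul_cancel₀ h4, one_smul]
  rw [h6]
  exact Submodule.smul_mem _ _ (Submodule.subset_span h5)

end Lat

end Pool.Agent.Lib.MP_eeb174_ag
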