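import Mathlib

/-! Numerical lemmas on classes of pencils. -/

namespace Pool.Agent.Lib.MP_eeb174_ag

/-- Parameters of the curve. -/
structure Par (x y e : ℤ) : Prop where
  hx : 3 ≤ x
  he : e = 0 ∨ e = 1
  hy : x + 3 + 2 * e ≤ y

/-- Numerical data of a class. -/
structure Nm where
  a : ℤ
  b : ℤ
  v₁ : ℤ
  v₂ : ℤ
  n₃ : ℤ
  n₄ : ℤ

namespace Nm
variable (x y e : ℤ) (N : Nm)

/-- Degree on the curve. -/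
def dc : ℤ := N.a * y + N.b * x - N.v₁ - N.v₂ - N.n₃ - N.n₄
/-- Self-intersection. -/
def sq : ℤ := 2 * N.a * N.b - N.v₁ ^ 2 - N.v₂ ^ 2 - N.n₃ ^ 2 - N.n₄ ^ 2
/-- Forced base points off the curve. -/
def bb : ℤ := (if N.v₁ - N.n₃ = 1 then 1 else 0) + if N.v₂ - N.n₄ = 1 then 1 else 0
/-- Lower bound for the degree of a pencil. -/
def kap : ℤ := N.dc x y - N.sq + N.bb
/-- Upper bound for the number of sections. -/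
def hs : ℤ := N.a * N.b + 2 - N.v₁ - N.v₂

/-- Constraints on the class of a pencil. -/
structure Good : Prop where
  n3 : 0 ≤ N.n₃
  n4 : 0 ≤ N.n₄
  u1 : N.n₃ ≤ N.v₁
  u2 : N.n₄ ≤ N.v₂
  a1 : N.v₁ ≤ N.a
  b1 : N.v₁ ≤ N.b
  a2 : N.v₂ ≤ N.a
  b2 : N.v₂ ≤ N.b
  k0 : N.a + N.b - N.v₁ - N.v₂ = 0 → 2 ≤ N.v₁
  ha : 2 * N.a ≤ x
  hb : 2 * N.a = x → 2 * N.b ≤ y
  rel : N.v₁ = N.n₃ → N.v₂ = N.n₄ →
    N.b - N.v₁ - 3 * (N.a - N.v₁) = N.n₄ * (y - 3 * x + 2) ∧ (e = 0 → N.n₃ = N.n₄)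

variable {x y e N}

theorem Good.pos (h : N.Good x y e) : 1 ≤ N.a ∧ 1 ≤ N.b := by
  obtain ⟨h1, h2, h3, h4, h5, h6, h7, h8, h9, -, -, h12⟩ := h
  by_contra hc
  have e1 : N.v₁ = 0 := by omega
  have e2 : N.v₂ = 0 := by omega
  have e3 : N.n₄ = 0 := by omega
  have := (h12 (by omega) (by omega)).1
  rw [e3, zero_mul] at this
  omega

theorem bb_nonneg : 0 ≤ N.bb := by
  unfold bb
  split_ifs <;> omega

theorem tri (t : ℤ) : 0 ≤ t ^ 2 - t := by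
  rcases le_or_gt t 0 with h | h <;> nlinarith

theorem kap_eq : N.kap x y = N.a * y + N.b * (x - 2 * N.a) + ((N.v₁ ^ 2 - N.v₁) +
    (N.v₂ ^ 2 - N.v₂) + (N.n₃ ^ 2 - N.n₃) + (N.n₄ ^ 2 - N.n₄) + N.bb) := by
  unfold kap dc sq
  ring

theorem kap_ge : N.a * y + N.b * (x - 2 * N.a) ≤ N.kap x y := by
  have := tri N.v₁
  have := tri N.v₂
  have := tri N.n₃
  have := tri N.n₄
  have := bb_nonneg (N := N)
  rw [kap_eq]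
  linarith

theorem kap_ge_two (h : N.v₁ = 2 ∨ N.v₂ = 2) :
    N.a * y + N.b * (x - 2 * N.a) + 2 ≤ N.kap x y := by
  have := tri N.v₁
  have := tri N.v₂
  have := tri N.n₃
  have := tri N.n₄
  have := bb_nonneg (N := N)
  rw [kap_eq]
  rcases h with h | h <;> rw [h] at * <;> linarith

theorem Good.small (hp : Par x y e) (h : N.Good x y e)
    (hm : 4 * N.kap x y ≤ 5 * (x + y - 1 - e) - 5 ∨
      (10 ≤ x + y - 1 - e ∧ N.kap x y ≤ 3 * x + y - 5) ∨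
      (11 ≤ x + y - 1 - e ∧ N.kap x y ≤ 3 * x + y - 4)) :
    N.v₁ ≤ 1 ∧ N.v₂ ≤ 1 ∧ 1 ≤ N.a ∧ N.a ≤ 2 ∧ N.a + 2 ≤ x ∧ 1 ≤ N.b ∧ N.b + 2 ≤ y ∧
      1 ≤ N.a + N.b - N.v₁ - N.v₂ := by
  obtain ⟨ha, hb⟩ := h.pos
  obtain ⟨hx, he, hy⟩ := hp
  have k1 := kap_ge (x := x) (y := y) (N := N)
  have k2 := kap_ge_two (x := x) (y := y) (N := N)
  obtain ⟨h1, h2, h3, h4, h5, h6, h7, h8, h9, h10, h11, -⟩ := h
  generalize N.kap x y = k at *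
  have p1 : 0 ≤ (N.b - 1) * (x - 2 * N.a) := mul_nonneg (by omega) (by omega)
  have ha2 : N.a ≤ 2 := by
    by_contra hc
    have p2 : 0 ≤ (N.a - 3) * (y - 2) := mul_nonneg (by omega) (by omega)
    have : 3 * y + x - 6 ≤ k := by nlinarith
    omega
  have hv : N.v₁ ≤ 1 ∧ N.v₂ ≤ 1 := by
    by_contra hc
    have e1 : N.a = 2 := by omega
    have k3 := k2 (by omega)
    have p2 : 0 ≤ (N.b - 2) * (x - 2 * N.a) := mul_nonneg (by omega) (by omega)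
    rw [e1] at k3 p2
    have : 2 * x + 2 * y - 6 ≤ k := by nlinarith
    omega
  refine ⟨hv.1, hv.2, ha, ha2, by omega, hb, ?_, by omega⟩
  by_contra hc
  have p2 : 0 ≤ (N.b - (y - 1)) * (x - 2 * N.a) := mul_nonneg (by omega) (by omega)
  obtain e1 | e1 : N.a = 1 ∨ N.a = 2 := by omega
  · rw [e1] at k1 p2
    have p3 : 0 ≤ (y - 6) * (x - 3) := mul_nonneg (by omega) (by omega)
    have : 2 * y + 5 * x - 16 ≤ k := by nlinarith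
    omega
  · rw [e1] at k1 p2
    have p3 : 0 ≤ (y - 7) * (x - 5) := mul_nonneg (by omega) (by omega)
    have : 3 * y + 6 * x - 31 ≤ k := by nlinarith
    omega

/-- Normal form of the invariants for small classes. -/
theorem Good.nf (h : N.Good x y e) (h1 : N.v₁ ≤ 1) (h2 : N.v₂ ≤ 1) :
    N.kap x y = N.a * y + N.b * (x - 2 * N.a) + (N.v₁ - N.n₃ + (N.v₂ - N.n₄)) ∧
      (N.v₁ = N.n₃ → N.v₂ = N.n₄ → (N.n₄ = 0 → N.b - N.v₁ - 3 * (N.a - N.v₁) = 0) ∧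
        (N.n₄ = 1 → N.b - N.v₁ - 3 * (N.a - N.v₁) = y - 3 * x + 2) ∧ (e = 0 → N.n₃ = N.n₄)) := by
  obtain ⟨g1, g2, g3, g4, -, -, -, -, -, -, -, g12⟩ := h
  have t : ∀ t : ℤ, 0 ≤ t → t ≤ 1 → t ^ 2 - t = 0 := fun t a b => by
    obtain rfl | rfl : t = 0 ∨ t = 1 := by omega
    all_goals norm_num
  constructor
  · rw [kap_eq, t _ (by omega) h1, t _ (by omega) h2, t _ g1 (by omega), t _ g2 (by omega)]
    unfold bb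
    split_ifs <;> omega
  · intro a b
    obtain ⟨c, d⟩ := g12 a b
    exact ⟨fun h => by rw [c, h, zero_mul], fun h => by rw [c, h, one_mul], d⟩

theorem Good.gon (hp : Par x y e) (h : N.Good x y e) : x + y - 1 - e ≤ N.kap x y := by
  by_contra hc
  obtain ⟨s1, s2, s3, s4, s5, s6, s7, s8⟩ := h.small hp (Or.inl (by
    obtain ⟨hx, he, hy⟩ := hp
    omega))
  obtain ⟨k1, k2⟩ := h.nf s1 s2
  obtain ⟨hx, he, hy⟩ := hp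
  obtain ⟨h1, h2, h3, h4, h5, h6, h7, h8, h9, h10, h11, -⟩ := h
  generalize N.kap x y = k at *
  obtain ⟨a, b, v₁, v₂, n₃, n₄⟩ := N
  dsimp only at *
  obtain rfl | rfl : a = 1 ∨ a = 2 := by omega
  · obtain rfl | hb : b = 1 ∨ 2 ≤ b := by omega
    · omega
    · have p : 0 ≤ (b - 2) * (x - 2) := mul_nonneg (by omega) (by omega)
      have : 2 * (x - 2) ≤ b * (x - 2 * 1) := by nlinarith
      omega
  · have p : 0 ≤ b * (x - 2 * 2) := mul_nonneg (by omega) (by omega)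
    omega

theorem three {v n : ℤ} (h1 : 0 ≤ n) (h2 : n ≤ v) (h3 : v ≤ 1) :
    (v = 0 ∧ n = 0) ∨ (v = 1 ∧ n = 0) ∨ (v = 1 ∧ n = 1) := by omega

theorem split_ab {a b : ℤ} (h1 : 1 ≤ a) (h2 : a ≤ 2) (h3 : a + 2 ≤ x) (h4 : 1 ≤ b) :
    (a = 1 ∧ (x = 3 ∨ b = 1 ∨ b = 2 ∨ b = 3 ∨ b = 4 ∨
      (4 ≤ x ∧ 5 ≤ b ∧ 2 * b + 5 * x - 20 ≤ b * (x - 2 * 1)))) ∨
    (a = 2 ∧ (x = 4 ∨ x = 5 ∨ b = 1 ∨ b = 2 ∨
      (6 ≤ x ∧ 3 ≤ b ∧ 2 * b + 3 * x - 18 ≤ b * (x - 2 * 2)))) := by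
  have p1 : 4 ≤ x → 5 ≤ b → 2 * b + 5 * x - 20 ≤ b * (x - 2 * 1) := fun hx hb => by
    nlinarith [mul_nonneg (sub_nonneg.2 hx) (sub_nonneg.2 hb)]
  have p2 : 6 ≤ x → 3 ≤ b → 2 * b + 3 * x - 18 ≤ b * (x - 2 * 2) := fun hx hb => by
    nlinarith [mul_nonneg (sub_nonneg.2 hx) (sub_nonneg.2 hb)]
  omega

theorem Good.cliff (hp : Par x y e) (h : N.Good x y e) {r : ℤ} (h2 : 2 ≤ r)
    (hr : 4 * r ≤ x + y - 1 - e + 3) (hk : N.kap x y ≤ x + y - 1 - e - 2 + r)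
    (hh : r + 1 ≤ N.hs) :
    N = ⟨1, 3, 0, 0, 0, 0⟩ ∧ x = 3 ∧ (r = 4 ∨ (r = 3 ∧ e = 0)) := by
  obtain ⟨s1, s2, s3, s4, s5, s6, s7, s8⟩ := h.small hp (Or.inl (by omega))
  obtain ⟨k1, k2⟩ := h.nf s1 s2
  obtain ⟨hx, he, hy⟩ := hp
  obtain ⟨h1, h2, h3, h4, -, -, -, -, -, -, h11, -⟩ := h
  generalize N.kap x y = k at *
  obtain ⟨a, b, v₁, v₂, n₃, n₄⟩ := N
  simp only [hs, Nm.mk.injEq] at *
  obtain ⟨rfl, rfl⟩ | ⟨rfl, rfl⟩ | ⟨rfl, rfl⟩ := three h1 h3 s1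
  all_goals obtain ⟨rfl, rfl⟩ | ⟨rfl, rfl⟩ | ⟨rfl, rfl⟩ := three h2 h4 s2
  all_goals clear h1 h2 h3 h4 s1 s2
  all_goals
    obtain ⟨rfl, rfl | rfl | rfl | rfl | rfl | p⟩ | ⟨rfl, rfl | rfl | rfl | rfl | p⟩ :=
      split_ab s3 s4 s5 s6 <;> omega

theorem Good.four (hp : Par x y e) (h : N.Good x y e)
    (hm : (10 ≤ x + y - 1 - e ∧ N.kap x y ≤ 3 * x + y - 5) ∨
      (11 ≤ x + y - 1 - e ∧ N.kap x y ≤ 3 * x + y - 4)) (hh : 5 ≤ N.hs) :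
    N.hs = 5 ∧ 3 * x + y ≤ N.dc x y := by
  obtain ⟨s1, s2, s3, s4, s5, s6, s7, s8⟩ := h.small hp (Or.inr hm)
  obtain ⟨k1, k2⟩ := h.nf s1 s2
  obtain ⟨hx, he, hy⟩ := hp
  obtain ⟨h1, h2, h3, h4, -, -, -, -, -, -, h11, -⟩ := h
  generalize N.kap x y = k at *
  obtain ⟨a, b, v₁, v₂, n₃, n₄⟩ := N
  simp only [hs, dc] at *
  obtain ⟨rfl, rfl⟩ | ⟨rfl, rfl⟩ | ⟨rfl, rfl⟩ := three h1 h3 s1
  all_goals obtain ⟨rfl, rfl⟩ | ⟨rfl, rfl⟩ | ⟨rfl, rfl⟩ := three h2 h4 s2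
  all_goals clear h1 h2 h3 h4 s1 s2
  all_goals
    obtain ⟨rfl, rfl | rfl | rfl | rfl | rfl | p⟩ | ⟨rfl, rfl | rfl | rfl | rfl | p⟩ :=
      split_ab s3 s4 s5 s6 <;> omega

theorem Good.nonbir (hp : Par x y e) (h : N.Good x y e) (hn : 10 ≤ x + y - 1 - e)
    (hm : N.kap x y ≤ 3 * x + y - 7) :
    N.hs ≤ 3 ∧ N.dc x y - 2 * N.kap x y + (3 * x + y - 7) + 2 < x + y - 1 - e ∧
      (N.v₁ = N.n₃ ∨ N.v₂ = N.n₄ ∨ N = ⟨1, 2, 1, 1, 0, 0⟩ ∨ N = ⟨2, 1, 1, 1, 0, 0⟩) := by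
  obtain ⟨s1, s2, s3, s4, s5, s6, s7, s8⟩ := h.small hp (Or.inr (Or.inl ⟨hn, by omega⟩))
  obtain ⟨k1, k2⟩ := h.nf s1 s2
  obtain ⟨hx, he, hy⟩ := hp
  obtain ⟨h1, h2, h3, h4, -, -, -, -, -, -, h11, -⟩ := h
  generalize N.kap x y = k at *
  obtain ⟨a, b, v₁, v₂, n₃, n₄⟩ := N
  simp only [hs, dc, Nm.mk.injEq] at *
  obtain ⟨rfl, rfl⟩ | ⟨rfl, rfl⟩ | ⟨rfl, rfl⟩ := three h1 h3 s1
  all_goals obtain ⟨rfl, rfl⟩ | ⟨rfl, rfl⟩ | ⟨rfl, rfl⟩ := three h2 h4 s2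
  all_goals clear h1 h2 h3 h4 s1 s2
  all_goals
    obtain ⟨rfl, rfl | rfl | rfl | rfl | rfl | p⟩ | ⟨rfl, rfl | rfl | rfl | rfl | p⟩ :=
      split_ab s3 s4 s5 s6 <;> omega

theorem Good.sp3 (h : N.Good 4 7 0) (hm : N.kap 4 7 ≤ 14) (hh : 4 ≤ N.hs) :
    N = ⟨1, 3, 0, 0, 0, 0⟩ ∨ (N.hs = 4 ∧ N.dc 4 7 = 18) := by
  obtain ⟨s1, s2, s3, s4, s5, s6, s7, s8⟩ := h.small ⟨by omega, by omega, by omega⟩
    (Or.inr (Or.inl ⟨by omega, by omega⟩))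
  obtain ⟨k1, k2⟩ := h.nf s1 s2
  obtain ⟨h1, h2, h3, h4, -, -, -, -, -, -, h11, -⟩ := h
  generalize N.kap 4 7 = k at *
  obtain ⟨a, b, v₁, v₂, n₃, n₄⟩ := N
  simp only [hs, dc, Nm.mk.injEq, true_implies] at *
  obtain ⟨rfl, rfl⟩ | ⟨rfl, rfl⟩ | ⟨rfl, rfl⟩ := three h1 h3 s1
  all_goals obtain ⟨rfl, rfl⟩ | ⟨rfl, rfl⟩ | ⟨rfl, rfl⟩ := three h2 h4 s2
  all_goals clear h1 h2 h3 h4 s1 s2
  all_goals obtain rfl | rfl : a = 1 ∨ a = 2 := by omega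
  all_goals omega

theorem Good.sp1 (h : N.Good 4 7 0) (hm : N.kap 4 7 ≤ 11) :
    N = ⟨1, 1, 1, 0, 0, 0⟩ ∨ N = ⟨1, 1, 0, 1, 0, 0⟩ := by
  obtain ⟨s1, s2, s3, s4, s5, s6, s7, s8⟩ := h.small ⟨by omega, by omega, by omega⟩
    (Or.inr (Or.inl ⟨by omega, by omega⟩))
  obtain ⟨k1, k2⟩ := h.nf s1 s2
  obtain ⟨h1, h2, h3, h4, -, -, -, -, -, -, h11, -⟩ := h
  generalize N.kap 4 7 = k at *
  obtain ⟨a, b, v₁, v₂, n₃, n₄⟩ := N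
  simp only [Nm.mk.injEq, true_implies] at *
  obtain ⟨rfl, rfl⟩ | ⟨rfl, rfl⟩ | ⟨rfl, rfl⟩ := three h1 h3 s1
  all_goals obtain ⟨rfl, rfl⟩ | ⟨rfl, rfl⟩ | ⟨rfl, rfl⟩ := three h2 h4 s2
  all_goals clear h1 h2 h3 h4 s1 s2
  all_goals obtain rfl | rfl : a = 1 ∨ a = 2 := by omega
  all_goals omega

end Nm

end Pool.Agent.Lib.MP_eeb174_ag
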