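import Pool.Agent.Lib.MP_eeb174_ag.Ell
import Pool.Agent.Lib.MP_eeb174_ag.Bertini
import Pool.Agent.Lib.MP_eeb174_ag.Lattice

open Filter Set WithZero Module Finsupp

noncomputable section

namespace Pool.Agent.Lib.MP_eeb174_ag

/-- Five points on an elliptic curve in the position required by the construction. -/
structure Mod (F : Type) [Field F] [Algebra ℂ F] [IsFF F] (x y e : ℤ) where
  o : Place F
  p₁ : Place F
  p₂ : Place F
  p₃ : Place F
  p₄ : Place F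
  h12 : p₁ ≠ p₂
  h13 : p₁ ≠ p₃
  h23 : p₂ ≠ p₃
  he : e = 1 → p₃ = o
  hC : LinEq (single p₁ (x - 1) + single p₂ (y - 1) + single p₃ 1)
    (single o (x + y - 2) + single p₄ 1)
  hH : LinEq (single p₁ 1 + single p₂ 3) (single o 4)
  rel : ∀ a b s t k : ℤ, 0 ≤ a → a ≤ x + y → 0 ≤ b → b ≤ x + y → 0 ≤ s → s ≤ x + y → 0 ≤ t →
    t ≤ x + y → LinEq (single p₁ a + single p₂ b + single p₃ s) (single o k + single p₄ t) →
      b - 3 * a = t * (y - 3 * x + 2) ∧ (e = 0 → s = t)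

theorem exists_mod {x y e : ℤ} (hp : Par x y e) : ∃ (F : Type) (_ : Field F) (_ : Algebra ℂ F)
    (_ : Algebra (RatFunc ℂ) F) (_ : IsScalarTower ℂ (RatFunc ℂ) F)
    (_ : FiniteDimensional (RatFunc ℂ) F), gen F = 1 ∧ Nonempty (Mod F x y e) := by
  obtain ⟨hx, he, hy⟩ := hp
  obtain ⟨θ, hθ⟩ : ∃ θ, θ = y - 3 * x + 2 := ⟨_, rfl⟩
  obtain ⟨W, hW⟩ : ∃ W, W = (x + y) * (4 + |θ|) + 1 := ⟨_, rfl⟩
  obtain ⟨w, hw⟩ : ∃ w, w = (1 - e) * W := ⟨_, rfl⟩
  have h1 := abs_nonneg θ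
  have hy6 : 6 ≤ y := by omega
  have hW4 : 4 ≤ W := by nlinarith
  have hw' : w = 0 ∨ w = W := by rcases he with rfl | rfl <;> simp [hw]
  obtain ⟨T, hT⟩ := Int.eq_ofNat_of_zero_le (show 0 ≤ (x + y + 2) * W by nlinarith)
  obtain ⟨F, _, _, _, _, _, G, _, cl, ρ, pt, hF, h0, hpt, hρ⟩ := exists_elliptic T
  have hs : ∀ a m : ℤ, cl (single (pt a) m) = (m * a) • ρ := fun a m => by
    rw [show (single (pt a) m : Dv F) = m • single (pt a) 1 by simp, map_zsmul, hpt, mul_smul]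
  have hne : ∀ a b : ℤ, a ≠ b → |a - b| ≤ T → pt a ≠ pt b := fun a b hab h h2 =>
    hab (sub_eq_zero.1 (hρ _ (by rw [sub_smul, ← hpt, ← hpt, h2, sub_self]) h))
  refine ⟨F, _, _, _, ‹_›, ‹_›, hF, ⟨⟨pt 0, pt (-3), pt 1, pt w, pt (w + θ), ?_, ?_, ?_, ?_, ?_,
    ?_, ?_⟩⟩⟩
  · exact hne _ _ (by norm_num) (by rw [← hT]; norm_num; nlinarith)
  · exact hne _ _ (by omega) (by rw [← hT, abs_le]; constructor <;> rcases hw' with h | h <;>
      nlinarith)
  · exact hne _ _ (by omega) (by rw [← hT, abs_le]; constructor <;> rcases hw' with h | h <;>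
      nlinarith)
  · rintro rfl; simp [hw]
  · rw [linEq_iff_sub, h0]
    simp only [map_sub, map_add, degree_single', hs, ← add_smul, ← sub_smul]
    exact ⟨by ring, by rw [hθ]; ring_nf; simp⟩
  · rw [linEq_iff_sub, h0]
    simp only [map_sub, map_add, degree_single', hs, ← add_smul, ← sub_smul]
    norm_num
  · intro a b s t k a0 a1 b0 b1 s0 s1 t0 t1 h
    rw [linEq_iff_sub, h0] at h
    simp only [map_sub, map_add, hs, ← add_smul, ← sub_smul] at h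
    have h2 : |t * θ| ≤ (x + y) * |θ| := by
      rw [abs_mul, abs_of_nonneg t0]; exact mul_le_mul_of_nonneg_right t1 h1
    rw [abs_le] at h2
    have h3 := hρ _ h.2 (by
      rw [← hT, abs_le]; constructor <;> rcases hw' with h | h <;> nlinarith)
    rw [← hθ]
    rcases he with rfl | rfl
    · have h4 : (t - s) * W = b - 3 * a - t * θ := by rw [hw] at h3; linarith
      have h5 : s = t := by
        rcases lt_trichotomy s t with h | h | h
        · nlinarith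
        · exact h
        · nlinarith
      subst h5
      exact ⟨by linarith, fun _ => rfl⟩
    · exact ⟨by rw [hw] at h3; linarith, fun h => by omega⟩

namespace Mod
variable {F : Type} [Field F] [Algebra ℂ F] [Algebra (RatFunc ℂ) F]
  [IsScalarTower ℂ (RatFunc ℂ) F] [FiniteDimensional (RatFunc ℂ) F] {x y e : ℤ} (M : Mod F x y e)

open Classical in
/-- The surface. -/
def S : Surf F := ⟨-single M.o 1, {M.p₁, M.p₂, M.p₃}, {M.p₄}⟩

open Classical in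
/-- Classes given by four break points. -/
def cls (k : ℤ) (B : Dv F) (l₁ l₂ l₃ r : ℤ) : Cl F :=
  Cl.mk k B (fun P => if P = M.p₁ then l₁ else if P = M.p₂ then l₂ else l₃) fun _ => r

section
variable (k : ℤ) (B : Dv F) (l₁ l₂ l₃ r : ℤ)
@[simp] lemma cls_k : (M.cls k B l₁ l₂ l₃ r).k = k := rfl
@[simp] lemma cls_B : (M.cls k B l₁ l₂ l₃ r).B = B := rfl
@[simp] lemma cls_r (P : Place F) : (M.cls k B l₁ l₂ l₃ r).r P = r := rfl
@[simp] lemma cls_l₁ : (M.cls k B l₁ l₂ l₃ r).l M.p₁ = l₁ := by simp [cls]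
@[simp] lemma cls_l₂ : (M.cls k B l₁ l₂ l₃ r).l M.p₂ = l₂ := by simp [cls, M.h12.symm]
@[simp] lemma cls_l₃ : (M.cls k B l₁ l₂ l₃ r).l M.p₃ = l₃ := by
  simp [cls, M.h13.symm, M.h23.symm]
end

@[simp] lemma S_α : M.S.α = -single M.o 1 := rfl
@[simp] lemma mem_T₁ {P : Place F} : P ∈ M.S.T₁ ↔ P = M.p₁ ∨ P = M.p₂ ∨ P = M.p₃ := by simp [S]
@[simp] lemma mem_T₂ {P : Place F} : P ∈ M.S.T₂ ↔ P = M.p₄ := by simp [S]

lemma sum_T₁ {A : Type} [AddCommMonoid A] (f : Place F → A) :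
    ∑ P ∈ M.S.T₁, f P = f M.p₁ + f M.p₂ + f M.p₃ := by
  classical
  rw [S, Finset.sum_insert (by simp [M.h12, M.h13]), Finset.sum_pair M.h23, add_assoc]

lemma sum_T₂ {A : Type} [AddCommMonoid A] (f : Place F → A) : ∑ P ∈ M.S.T₂, f P = f M.p₄ :=
  Finset.sum_singleton _ _

/-- The class of the curve. -/
def C : Cl F := M.cls (x + y - 2) (single M.o (x + y - 2) + single M.p₄ 1) (x - 1) (y - 1) 1
  (x + y - 3)

/-- Numerical data of a class. -/
def nm (N : Cl F) : Nm := ⟨degree N.B - N.l M.p₂, degree N.B - N.l M.p₁,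
  degree N.B - N.l M.p₁ - N.l M.p₂, degree N.B - N.k, N.l M.p₃, N.k - N.r M.p₄⟩

lemma D_eq (N : Cl F) (j : ℤ) : M.S.D N j = N.B - single M.o j -
    single M.p₁ (max (N.l M.p₁ - j) 0) - single M.p₂ (max (N.l M.p₂ - j) 0) -
    single M.p₃ (max (N.l M.p₃ - j) 0) - single M.p₄ (max (j - N.r M.p₄) 0) := by
  rw [Surf.D, sum_T₁, sum_T₂, S_α, smul_neg, smul_single, smul_eq_mul, mul_one]; abel

lemma deg_D (N : Cl F) (j : ℤ) : degree (M.S.D N j) = degree N.B - j - max (N.l M.p₁ - j) 0 -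
    max (N.l M.p₂ - j) 0 - max (N.l M.p₃ - j) 0 - max (j - N.r M.p₄) 0 := by
  simp only [D_eq, map_sub, degree_single']

lemma ip_C (N : Cl F) : M.S.ip N M.C = (M.nm N).dc x y := by
  simp only [Surf.ip, sum_T₁, sum_T₂, C, cls_k, cls_B, cls_r, cls_l₁, cls_l₂, cls_l₃, S_α, map_neg,
    map_add, degree_single', nm, Nm.dc]
  ring

lemma ip_self (N : Cl F) : M.S.ip N N = (M.nm N).sq := by
  simp only [Surf.ip, sum_T₁, sum_T₂, S_α, map_neg, degree_single', nm, Nm.sq]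
  ring

lemma nef_iff {N : Cl F} : M.S.Nef N ↔ 0 ≤ N.l M.p₁ ∧ 0 ≤ N.l M.p₂ ∧ 0 ≤ N.l M.p₃ ∧
    N.l M.p₁ ≤ N.k ∧ N.l M.p₂ ≤ N.k ∧ N.l M.p₃ ≤ N.k ∧ 0 ≤ N.r M.p₄ ∧ N.r M.p₄ ≤ N.k ∧
    M.S.LR N :=
  ⟨fun h => ⟨h.l0 _ (by simp), h.l0 _ (by simp), h.l0 _ (by simp), h.lk _ (by simp),
    h.lk _ (by simp), h.lk _ (by simp), h.r0 _ (by simp), h.rk _ (by simp), h.lr⟩,
    fun ⟨h1, h2, h3, h4, h5, h6, h7, h8, h9⟩ => ⟨by omega, by simp [*], by simp [*], by simp [*],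
      by simp [*], h9⟩⟩

lemma lr_of {N : Cl F} (h1 : N.l M.p₁ ≤ N.r M.p₄) (h2 : N.l M.p₂ ≤ N.r M.p₄)
    (h3 : N.l M.p₃ ≤ N.r M.p₄) : M.S.LR N := fun P hP hP' => by
  rw [show N.r P = N.r M.p₄ by rw [M.mem_T₂.1 hP']]
  rcases M.mem_T₁.1 hP with rfl | rfl | rfl <;> assumption

lemma nef_C (hp : Par x y e) : M.S.Nef M.C := by
  obtain ⟨hx, he, hy⟩ := hp
  refine M.nef_iff.2 ⟨?_, ?_, ?_, ?_, ?_, ?_, ?_, ?_, M.lr_of ?_ ?_ ?_⟩ <;> simp [C] <;> omega

lemma exists_curve (hp : Par x y e) (hF : gen F = 1) : ∃ c, M.S.Curve M.C c := by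
  have h := M.nef_C hp
  obtain ⟨hx, he, hy⟩ := hp
  refine M.S.exists_curve hF h (by simp [C]; omega) ?_ ?_ fun j h0 h1 => ?_
  · rw [h.D_top, sum_T₂]; simp [C]; abel
  · rw [h.D_zero, linEq_iff_sub, sub_zero, ← linEq_iff_sub, sum_T₁]; simpa [C] using M.hC
  · rw [deg_D]; simp [C] at h1 ⊢; omega

/-- Small numerical classes. -/
def Sm (N : Cl F) : Prop := M.S.Nef N ∧ 0 ≤ (M.S.D N 0).degree ∧ 0 ≤ (M.S.D N N.k).degree ∧
  (M.nm N).v₁ ≤ 1 ∧ (M.nm N).v₂ ≤ 1 ∧ 1 ≤ (M.nm N).a ∧ (M.nm N).a + 2 ≤ x ∧ 1 ≤ (M.nm N).b ∧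
  (M.nm N).b + 2 ≤ y ∧ 1 ≤ N.k

variable {M} {N : Cl F} {h : Polynomial F}

lemma deg_D_zero (h : M.S.Nef N) : degree (M.S.D N 0) = (M.nm N).v₁ - (M.nm N).n₃ := by
  have := M.nef_iff.1 h
  rw [deg_D]; simp only [nm]; omega

lemma deg_D_top (h : M.S.Nef N) : degree (M.S.D N N.k) = (M.nm N).v₂ - (M.nm N).n₄ := by
  have := M.nef_iff.1 h
  rw [deg_D]; simp only [nm]; omega

lemma Sm.nef_sub (h : M.Sm N) : M.S.Nef (M.C - N) := by
  have h1 := M.nef_iff.1 h.1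
  simp only [Sm, deg_D, nm] at h
  refine M.nef_iff.2 ⟨?_, ?_, ?_, ?_, ?_, ?_, ?_, ?_, M.lr_of ?_ ?_ ?_⟩ <;> simp [C] <;> omega

lemma Sm.k_sub (h : M.Sm N) : 2 ≤ (M.C - N).k := by
  simp only [Sm, deg_D, nm] at h
  simp [C]; omega

lemma Sm.pos_sub (h : M.Sm N) (i : ℤ) (h0 : 0 < i) (h1 : i < (M.C - N).k) :
    0 < degree (M.S.D (M.C - N) i) := by
  have h2 := M.nef_iff.1 h.1
  simp only [Sm, deg_D, nm] at h
  rw [deg_D]; simp [C] at h1 ⊢; omega

lemma Sm.two_sub (h : M.Sm N) : ∃ i : ℕ, (i : ℤ) ≤ (M.C - N).k ∧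
    2 ≤ degree (M.S.D (M.C - N) i) := by
  have h2 := M.nef_iff.1 h.1
  have h3 := h.k_sub
  simp only [Sm, deg_D, nm] at h
  by_cases h4 : 2 ≤ degree (M.S.D (M.C - N) (1 : ℕ))
  · exact ⟨1, by omega, h4⟩
  refine ⟨2, h3, ?_⟩
  rw [deg_D] at h4 ⊢; simp [C] at h3 h4 ⊢; omega

lemma Sm.sum_el (h : M.Sm N) (hF : gen F = 1) :
    ∑ j ∈ Finset.range (N.k + 1).toNat, el (M.S.D N j) ≤ (M.nm N).hs := by
  have h1 := M.nef_iff.1 h.1
  have h2 := h.1.sum_degree_D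
  have h3 := deg_D_zero h.1
  have h4 := deg_D_top h.1
  obtain ⟨k, hk⟩ := Int.eq_ofNat_of_zero_le (show 0 ≤ N.k - 1 by have := h.2.2.2.2.2.2.2.2.2; omega)
  have h5 : ∀ D : Dv F, degree D ≤ 1 → el D ≤ 1 := fun D hD => by
    by_cases h0 : 0 < degree D
    · rw [el_eq (by omega)]; omega
    · by_contra h6
      have := el_le_degree_succ (D := D) (by omega)
      omega
  have h6 : ∑ j ∈ Finset.range k, el (M.S.D N (j + 1 : ℕ)) =
      ∑ j ∈ Finset.range k, degree (M.S.D N (j + 1 : ℕ)) := Finset.sum_congr rfl fun j hj => by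
    have := Finset.mem_range.1 hj
    simp only [Sm, deg_D, nm] at h
    rw [el_eq (by rw [deg_D]; omega)]; omega
  rw [show N.k.toNat = k + 1 by omega, Finset.sum_range_succ, Finset.sum_range_succ', ← h6,
    ip_self, show ((k + 1 : ℕ) : ℤ) = N.k by omega, Nat.cast_zero, h3, h4] at h2
  rw [show (N.k + 1).toNat = k + 1 + 1 by omega, Finset.sum_range_succ, Finset.sum_range_succ',
    show ((k + 1 : ℕ) : ℤ) = N.k by omega, Nat.cast_zero]
  simp only [Sm, h3, h4] at h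
  have h7 := h5 (M.S.D N 0) (by simp only [nm] at *; omega)
  have h8 := h5 (M.S.D N N.k) (by simp only [nm] at *; omega)
  have h9 : ∀ t : ℤ, 0 ≤ t → t ≤ 1 → t ^ 2 = t := fun t h0 h1 => by
    interval_cases t <;> rfl
  rw [Nm.sq, h9 (M.nm N).v₁ (by simp only [nm] at *; omega) (by omega),
    h9 (M.nm N).v₂ (by simp only [nm] at *; omega) (by omega),
    h9 (M.nm N).n₃ (by simp only [nm] at *; omega) (by omega),
    h9 (M.nm N).n₄ (by simp only [nm] at *; omega) (by omega)] at h2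
  rw [Nm.hs]
  linarith

lemma nonneg_of_mem (H : h ∈ M.S.R N) (h0 : h ≠ 0) {P : Place F} (hP : P ∈ M.S.T₁) :
    N.l P ≤ degree N.B := by
  classical
  have h1 := degree_nonneg_of_mem (D := N.B + (h.natDegree : ℤ) • M.S.α -
    single P (N.l P - h.natDegree)) (Polynomial.leadingCoeff_ne_zero.2 h0) fun Q => by
      by_cases hQ : P = Q
      · subst hQ
        refine (H.2 P 1 (Or.inr (Or.inl ⟨rfl, hP⟩)) h.natDegree).trans (exp_le_exp.2 (le_of_eq ?_))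
        simp [-S_α]; ring
      · simpa [Finsupp.single_apply, hQ] using Surf.coeff_mem_central H h.natDegree Q
  simp at h1; omega

lemma linEq_zero (hN : M.S.Nef N) (h : 0 < el (M.S.D N 0)) (h0 : (M.nm N).v₁ = (M.nm N).n₃) :
    LinEq (single M.p₁ (N.l M.p₁) + single M.p₂ (N.l M.p₂) + single M.p₃ (N.l M.p₃)) N.B := by
  rw [hN.D_zero, sum_T₁] at h
  refine linEq_of_el_pos h ?_
  simp only [nm, map_add, degree_single'] at h0 ⊢; omega

lemma linEq_top (hN : M.S.Nef N) (h : 0 < el (M.S.D N N.k)) (h0 : (M.nm N).v₂ = (M.nm N).n₄) :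
    LinEq (single M.o N.k + single M.p₄ (N.k - N.r M.p₄)) N.B := by
  rw [hN.D_top, sum_T₂, S_α, smul_neg, smul_single, smul_eq_mul, mul_one, ← sub_eq_add_neg,
    sub_sub] at h
  refine linEq_of_el_pos h ?_
  simp only [nm, map_add, degree_single'] at h0 ⊢; omega

variable (M) in
/-- Classes of pencils. -/
structure Pen (N : Cl F) : Prop where
  ex : ∃ u v, M.S.Exact N u v
  p0 : 0 < el (M.S.D N 0)
  pk : 0 < el (M.S.D N N.k)
  good : (M.nm N).Good x y e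

lemma Pen.nef (h : M.Pen N) : M.S.Nef N := h.ex.elim fun _ h => h.elim fun _ h => h.nef

lemma pen_of {u v : Polynomial F} (hF : gen F = 1) (hN : M.S.Exact N u v) (huv : IsCoprime u v)
    (hk : N.k ≤ x + y) (h0 : N.k = 0 → 2 ≤ el (M.S.D N 0)) (ha : 2 * (M.nm N).a ≤ x)
    (hb : 2 * (M.nm N).a = x → 2 * (M.nm N).b ≤ y) : M.Pen N := by
  have h1 := hN.nef
  have h2 := M.nef_iff.1 h1
  have p0 : 0 < el (M.S.D N 0) := by
    by_contra h
    refine Polynomial.not_isUnit_X (huv.isUnit_of_dvd' ?_ ?_) <;> rw [Polynomial.X_dvd_iff]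
    · exact eq_zero_of_el (not_lt.1 h) (h1.lr.coeff_mem hN.my 0)
    · exact eq_zero_of_el (not_lt.1 h) (h1.lr.coeff_mem hN.mz 0)
  have pk : 0 < el (M.S.D N N.k) := by
    rw [← Int.toNat_of_nonneg hN.k0]
    exact el_pos_iff.2 (hN.top.elim (fun h => ⟨_, h, h1.lr.coeff_mem hN.my _⟩)
      fun h => ⟨_, h, h1.lr.coeff_mem hN.mz _⟩)
  have h3 : ∀ D : Dv F, 0 < el D → 0 ≤ degree D := fun D h => by
    have := el_le_degree_succ h; omega
  have h4 := h3 _ p0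
  have h5 := h3 _ pk
  rw [deg_D_zero h1] at h4
  rw [deg_D_top h1] at h5
  refine ⟨⟨u, v, hN⟩, p0, pk, ?_, ?_, by omega, by omega, ?_, ?_, ?_, ?_, fun h => ?_, ha, hb,
    fun h h' => ?_⟩
  any_goals simp only [nm]; omega
  · have h6 := h0 (by simp only [nm] at h; omega)
    have h7 := el_le_degree_succ p0
    rw [el_eq (by omega), deg_D_zero h1] at h6
    simp only [nm] at *; omega
  · have := M.rel _ _ _ _ _ (by omega) (by omega) (by omega) (by omega) (by omega) (by omega)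
      (by omega) (by omega) ((linEq_zero h1 p0 h).trans (linEq_top h1 pk h').symm)
    simp only [nm]
    exact ⟨by linarith [this.1], this.2⟩

lemma Pen.sm (h : M.Pen N) (hp : Par x y e)
    (hm : 4 * (M.nm N).kap x y ≤ 5 * (x + y - 1 - e) - 5 ∨
      (10 ≤ x + y - 1 - e ∧ (M.nm N).kap x y ≤ 3 * x + y - 5) ∨
      (11 ≤ x + y - 1 - e ∧ (M.nm N).kap x y ≤ 3 * x + y - 4)) : M.Sm N := by
  have h1 := h.good.small hp hm
  have h2 := h.good.u1
  have h3 := h.good.u2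
  rw [Sm, deg_D_zero h.nef, deg_D_top h.nef]
  refine ⟨h.nef, ?_⟩
  simp only [nm] at *; omega

lemma not_linEq (hp : Par x y e) {a b k : ℤ} (ha : 0 ≤ a) (ha' : a ≤ 3) (hb : 0 ≤ b) (hb' : b ≤ 3)
    (h : b ≠ 3 * a) : ¬ LinEq (single M.p₁ a + single M.p₂ b) (single M.o k) := fun h1 => by
  obtain ⟨hx, he, hy⟩ := hp
  have := (M.rel a b 0 0 k ha (by omega) hb (by omega) le_rfl (by omega) le_rfl (by omega)
    (by simpa using h1)).1
  omega

lemma eq_zero_of_mem (hp : Par x y e) {a b : ℤ} (ha : 0 ≤ a) (ha' : a ≤ 3) (hb : 0 ≤ b)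
    (hb' : b ≤ 3) (h : b ≠ 3 * a) {z : F}
    (hz : z ∈ LL (single M.o (a + b) - (single M.p₁ a + single M.p₂ b))) : z = 0 := by
  by_contra h0
  exact not_linEq hp ha ha' hb hb' h (linEq_of_el_pos (el_pos_iff.2 ⟨z, h0, hz⟩) (by simp))

lemma o_ne₁ (hp : Par x y e) : M.o ≠ M.p₁ := fun h =>
  not_linEq (M := M) hp (a := 1) (b := 0) (k := 1) (by omega) (by omega) (by omega) (by omega)
    (by omega) (by simpa [h] using LinEq.refl _)

lemma o_ne₂ (hp : Par x y e) : M.o ≠ M.p₂ := fun h =>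
  not_linEq (M := M) hp (a := 0) (b := 1) (k := 1) (by omega) (by omega) (by omega) (by omega)
    (by omega) (by simpa [h] using LinEq.refl _)

end Mod

end Pool.Agent.Lib.MP_eeb174_ag
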