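import Pool.Agent.Lib.MP_eeb174_ag.Pencil

open Filter Set WithZero Module Finsupp Polynomial

noncomputable section

namespace Pool.Agent.Lib.MP_eeb174_ag

set_option linter.unusedSectionVars false

variable {F K : Type} [Field F] [Algebra ℂ F] [Algebra (RatFunc ℂ) F]
  [IsScalarTower ℂ (RatFunc ℂ) F] [FiniteDimensional (RatFunc ℂ) F]
  [Field K] [Algebra ℂ K] [Algebra (RatFunc ℂ) K]
  [IsScalarTower ℂ (RatFunc ℂ) K] [FiniteDimensional (RatFunc ℂ) K]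
  [Algebra F K] [IsScalarTower ℂ F K] [FiniteDimensional F K] {x y e : ℤ}

lemma linEq_zero_of {D : Dv F} (h : 0 < el D) (h0 : D.degree = 0) : LinEq 0 D :=
  linEq_of_el_pos (by simpa using h) (by simp [h0])

lemma ratio_aux {ξ : Dv F} (hξ : ¬ LinEq 0 ξ) {η η' : F} {q r q' r' : Place F} (h0 : η ≠ 0)
    (h0' : η' ≠ 0) (h : divF η = single r 1 - single q 1 + ξ)
    (h' : divF η' = single r' 1 - single q' 1 + ξ) (hr : r ≠ r') :
    η / η' ∈ LL (single q 1 + single r' 1) ∧ Transcendental ℂ (η / η') := by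
  classical
  have h1 : single q 1 + single r' 1 + divF (η / η') = single r 1 + single q' 1 := by
    rw [divF_div h0 h0', h, h']; abel
  refine ⟨(mem_LL_iff (div_ne_zero h0 h0')).2 (by rw [h1]; exact add_nonneg (by simp) (by simp)),
    transc_of_not_const fun a ha => hξ ⟨η, h0, ?_⟩⟩
  rw [ha, divF_const, add_zero] at h1
  have h2 := congrArg (fun D : Dv F => D r) h1
  simp only [Finsupp.add_apply, Finsupp.single_apply, if_neg hr.symm, if_true] at h2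
  obtain rfl : q = r := by by_contra h3; rw [if_neg h3] at h2; split_ifs at h2 <;> omega
  rw [h]; abel

namespace Mod
variable {M : Mod F x y e} {N N' : Cl F} {φ : K}

lemma eq_of_nm (h : M.nm N = M.nm N') : N.k = N'.k ∧ N.l M.p₁ = N'.l M.p₁ ∧
    N.l M.p₂ = N'.l M.p₂ ∧ N.l M.p₃ = N'.l M.p₃ ∧ N.r M.p₄ = N'.r M.p₄ := by
  simp only [nm, Nm.mk.injEq] at h; omega

lemma linEq_res (h : M.nm N = M.nm N') {j : ℤ} (hj : LinEq (M.S.D N j) (M.S.D N' j)) :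
    LinEq (M.S.res φ N) (M.S.res φ N') := by
  obtain ⟨-, h1, h2, h3, h4⟩ := eq_of_nm h
  refine Surf.linEq_res ?_ (by simp [*]) (by simp [*])
  have := hj.add (LinEq.refl (N.B - M.S.D N j))
  rw [add_sub_cancel, D_eq, D_eq, h1, h2, h3, h4] at this
  convert this using 1; abel

lemma Pen.rigid (hN : M.Pen N) (hN' : M.Pen N') (h : M.nm N = M.nm N')
    (hr : (M.nm N).v₁ = (M.nm N).n₃ ∨ (M.nm N).v₂ = (M.nm N).n₄) :
    LinEq (M.S.res φ N) (M.S.res φ N') := by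
  rcases hr with hr | hr
  · exact linEq_res h ((linEq_zero_of hN.p0 (by rw [deg_D_zero hN.nef]; omega)).symm.trans
      (linEq_zero_of hN'.p0 (by rw [deg_D_zero hN'.nef, ← h]; omega)))
  · refine linEq_res h ((linEq_zero_of hN.pk (by rw [deg_D_top hN.nef]; omega)).symm.trans ?_)
    rw [(eq_of_nm h).1]
    exact linEq_zero_of hN'.pk (by rw [deg_D_top hN'.nef, ← h]; omega)

namespace Cv
variable {c : F[X]} (Γ : M.Cv c φ)
include Γ

lemma exists_ratio (hN : M.Pen N) {ξ : Dv F} (hk : N.k = 1) (h0 : (M.S.D N 0).degree = 1)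
    (h1 : (M.S.D N 1).degree = 1) (h : M.S.D N 0 = M.S.D N 1 + ξ) :
    ∃ (η : F) (q r : Place F), η ≠ 0 ∧ divF η = single r 1 - single q 1 + ξ ∧
      LinEq (M.S.D N 1) (single r 1) ∧ algebraMap F K η * φ ∈ KV (LL (M.S.res φ N)) := by
  obtain ⟨a, ha, h2⟩ := el_pos_iff.1 hN.p0
  obtain ⟨b, hb, h3⟩ := el_pos_iff.1 (hk ▸ hN.pk)
  obtain ⟨q, hq⟩ := eq_single_of_degree_one ((mem_LL_iff ha).1 h2) (by
    rw [map_add, degree_divF, h0]; rfl)
  obtain ⟨r, hr⟩ := eq_single_of_degree_one ((mem_LL_iff hb).1 h3) (by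
    rw [map_add, degree_divF, h1]; rfl)
  refine ⟨b / a, q, r, div_ne_zero hb ha, by rw [divF_div hb ha, ← hq, ← hr, h]; abel,
    ⟨b, hb, hr.symm⟩, ?_⟩
  have := div_mem_KV (Γ.hc.aeval_mem Γ.hφ (Surf.monomial_mem_R (j := 1) hk.ge h3))
    (Γ.hc.aeval_mem Γ.hφ (Surf.monomial_mem_R (j := 0) (by omega) h2))
  rwa [aeval_monomial, aeval_monomial, pow_one, pow_zero, mul_one, mul_div_right_comm,
    ← map_div₀] at this

lemma three {N₁ N₂ N₃ : Cl F} (h₁ : M.Pen N₁) (h₂ : M.Pen N₂) (h₃ : M.Pen N₃)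
    (e₂ : M.nm N₁ = M.nm N₂) (e₃ : M.nm N₁ = M.nm N₃) {ξ : Dv F} (hξ : ¬ LinEq 0 ξ)
    (H : ∀ N, M.nm N₁ = M.nm N → N.k = 1 ∧ (M.S.D N 0).degree = 1 ∧ (M.S.D N 1).degree = 1 ∧
      M.S.D N 0 = M.S.D N 1 + ξ) (n₂ : ¬ LinEq (M.S.res φ N₁) (M.S.res φ N₂))
    (n₃ : ¬ LinEq (M.S.res φ N₁) (M.S.res φ N₃)) (n₄ : ¬ LinEq (M.S.res φ N₂) (M.S.res φ N₃)) :
    KV (LL (M.S.res φ N₁)) ⊔ KV (LL (M.S.res φ N₂)) ⊔ KV (LL (M.S.res φ N₃)) = ⊤ := by
  obtain ⟨a1, a2, a3, a4⟩ := H N₁ rfl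
  obtain ⟨η₁, q₁, r₁, z₁, d₁, l₁, m₁⟩ := Γ.exists_ratio h₁ a1 a2 a3 a4
  obtain ⟨a1, a2, a3, a4⟩ := H N₂ e₂
  obtain ⟨η₂, q₂, r₂, z₂, d₂, l₂, m₂⟩ := Γ.exists_ratio h₂ a1 a2 a3 a4
  obtain ⟨a1, a2, a3, a4⟩ := H N₃ e₃
  obtain ⟨η₃, q₃, r₃, z₃, d₃, l₃, m₃⟩ := Γ.exists_ratio h₃ a1 a2 a3 a4
  obtain ⟨b1, b2⟩ := ratio_aux hξ z₁ z₂ d₁ d₂ fun h => n₂ (linEq_res e₂ (l₁.trans (h ▸ l₂.symm)))
  obtain ⟨b3, b4⟩ := ratio_aux hξ z₁ z₃ d₁ d₃ fun h => n₃ (linEq_res e₃ (l₁.trans (h ▸ l₃.symm)))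
  have h1 := adjoin_pair_eq_top (add_nonneg (by simp) (by simp)) (add_nonneg (by simp) (by simp))
    (by simp) (by simp) b1 b3 b2 b4 fun h => n₄ (linEq_res (e₂.symm.trans e₃)
      (l₂.trans (LinEq.trans (by simpa using h.sub (LinEq.refl (single q₁ 1))) l₃.symm)))
  set L := KV (LL (M.S.res φ N₁)) ⊔ KV (LL (M.S.res φ N₂)) ⊔ KV (LL (M.S.res φ N₃))
  have k₁ : algebraMap F K η₁ * φ ∈ L := (le_sup_left.trans le_sup_left : _ ≤ L) m₁
  have k₂ : algebraMap F K η₂ * φ ∈ L := (le_sup_right.trans le_sup_left : _ ≤ L) m₂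
  have k₃ : algebraMap F K η₃ * φ ∈ L := (le_sup_right : _ ≤ L) m₃
  have h0 := Γ.hc.phi_ne_zero Γ.hφ
  have h2 : ∀ a : F, algebraMap F K a ∈ L := fun a => by
    have : IntermediateField.adjoin ℂ {η₁ / η₂, η₁ / η₃} ≤
        L.comap (IsScalarTower.toAlgHom ℂ F K) := IntermediateField.adjoin_le_iff.2 (by
      rintro _ (rfl | rfl) <;> change algebraMap F K _ ∈ L
      · simpa [mul_div_mul_right _ _ h0] using L.div_mem k₁ k₂
      · simpa [mul_div_mul_right _ _ h0] using L.div_mem k₁ k₃)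
    exact this (h1.ge IntermediateField.mem_top)
  have h3 : φ ∈ L := by
    simpa [mul_div_cancel_left₀ _ ((_root_.map_ne_zero (algebraMap F K)).2 z₁)] using
      L.div_mem k₁ (h2 η₁)
  refine eq_top_iff.2 fun z _ => ?_
  obtain ⟨h, rfl⟩ := Γ.hφ.surj z
  rw [aeval_eq_sum_range]
  exact L.sum_mem fun i _ => by rw [Algebra.smul_def]; exact L.mul_mem (h2 _) (pow_mem h3 _)

lemma nonbir (hn : 10 ≤ x + y - 1 - e) {r : ℕ} (h2 : 2 ≤ r) {V : Submodule ℂ K} {D : Dv K}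
    (hV : IsBase V D) (hr : finrank ℂ V = r + 2) (hK : KV V ≠ ⊤) :
    3 * x + y - 7 < D.degree - 2 * r := by
  by_contra hm
  obtain ⟨hx, he, hy⟩ := Γ.hp
  have h1 : ∀ N : {N // M.Pen N}, (M.nm N).kap x y ≤ 3 * x + y - 7 → M.Sm N := fun N h =>
    N.2.sm Γ.hp (by omega)
  refine (descent_nonbir (𝒩 := {N // M.Pen N}) (fun N => M.S.res φ N)
    (fun N => (M.nm N).kap x y) (fun N => M.nm N) (x + y - 1 - e) (3 * x + y - 7) Γ.gon
    (fun f hf h => Γ.pencil hf (by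
      nlinarith [mul_nonneg (show 0 ≤ x - 2 by omega) (show 0 ≤ y - 6 by omega)])) ?_
    (fun N h => by rw [Γ.deg_res]; exact (N.2.good.nonbir Γ.hp hn h).2.1) ?_ r hV hr (Or.inr hK)
    (not_lt.1 hm)).elim fun N ⟨h3, h4⟩ => ?_
  · refine ((Set.finite_Icc (0 : Fin 6 → ℤ) fun _ => x + y).image
      fun t => (⟨t 0, t 1, t 2, t 3, t 4, t 5⟩ : Nm)).subset ?_
    rintro _ ⟨N, h, rfl⟩
    have h3 := N.2.good.small Γ.hp (by simp only [mem_ofPred_eq] at h; omega)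
    obtain ⟨a1, a2, a3, a4, -⟩ := N.2.good
    refine ⟨![(M.nm N).a, (M.nm N).b, (M.nm N).v₁, (M.nm N).v₂, (M.nm N).n₃, (M.nm N).n₄],
      ⟨fun i => ?_, fun i => ?_⟩, rfl⟩ <;> fin_cases i <;> simp <;> omega
  · intro N₁ N₂ N₃ k₁ k₂ k₃ e₂ e₃
    by_contra hc
    simp only [not_or] at hc
    have h3 := (N₁.2.good.nonbir Γ.hp hn k₁).2.2
    rw [← or_assoc] at h3
    rcases h3 with h3 | h3
    · exact hc.1 (N₁.2.rigid N₂.2 e₂ h3)
    have h4 : (M.nm N₁).hs = 2 := by rcases h3 with h3 | h3 <;> rw [h3] <;> rfl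
    refine hc.2.2.2 ⟨h4 ▸ Γ.el_le (h1 _ k₁), h4 ▸ e₂ ▸ Γ.el_le (h1 _ k₂),
      h4 ▸ e₃ ▸ Γ.el_le (h1 _ k₃), ?_⟩
    rcases h3 with h3 | h3
    · refine Γ.three N₁.2 N₂.2 N₃.2 e₂ e₃ (ξ := single M.o 1 - single M.p₂ 1) (fun h =>
        not_linEq (M := M) Γ.hp (a := 0) (b := 1) (k := 1) le_rfl (by omega) (by omega) (by omega)
          (by omega) (by simpa using linEq_iff_sub.2 h)) (fun N hN => ?_) hc.1 hc.2.1 hc.2.2.1
      rw [h3] at hN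
      simp only [nm, Nm.mk.injEq] at hN
      refine ⟨by omega, by rw [deg_D]; omega, by rw [deg_D]; omega, ?_⟩
      rw [D_eq, D_eq, show N.l M.p₁ = 0 by omega, show N.l M.p₂ = 1 by omega,
        show N.l M.p₃ = 0 by omega, show N.r M.p₄ = 1 by omega]
      simp
    · refine Γ.three N₁.2 N₂.2 N₃.2 e₂ e₃ (ξ := single M.o 1 - single M.p₁ 1) (fun h =>
        not_linEq (M := M) Γ.hp (a := 1) (b := 0) (k := 1) (by omega) (by omega) le_rfl (by omega)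
          (by omega) (by simpa using linEq_iff_sub.2 h)) (fun N hN => ?_) hc.1 hc.2.1 hc.2.2.1
      rw [h3] at hN
      simp only [nm, Nm.mk.injEq] at hN
      refine ⟨by omega, by rw [deg_D]; omega, by rw [deg_D]; omega, ?_⟩
      rw [D_eq, D_eq, show N.l M.p₁ = 1 by omega, show N.l M.p₂ = 0 by omega,
        show N.l M.p₃ = 0 by omega, show N.r M.p₄ = 1 by omega]
      simp
  · have := Γ.el_le (h1 N (by omega))
    have := (N.2.good.nonbir Γ.hp hn (by omega)).1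
    have := el_le_of_el_pos h3
    have := finrank_le_el hV.le
    omega

end Cv

end Mod

end Pool.Agent.Lib.MP_eeb174_ag
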