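import Pool.Agent.Lib.MP_eeb174_ag.Model
import Pool.Agent.Lib.MP_eeb174_ag.DM
import Pool.Agent.Lib.MP_eeb174_ag.BP
import Pool.Agent.Lib.MP_eeb174_ag.Descent

open Filter Set WithZero Module Finsupp Polynomial

noncomputable section

namespace Pool.Agent.Lib.MP_eeb174_ag

set_option linter.unusedSectionVars false

variable {F K : Type} [Field F] [Algebra ℂ F] [Algebra (RatFunc ℂ) F]
  [IsScalarTower ℂ (RatFunc ℂ) F] [FiniteDimensional (RatFunc ℂ) F]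
  [Field K] [Algebra ℂ K] [Algebra (RatFunc ℂ) K]
  [IsScalarTower ℂ (RatFunc ℂ) K] [FiniteDimensional (RatFunc ℂ) K]
  [Algebra F K] [IsScalarTower ℂ F K] [FiniteDimensional F K] {x y e : ℤ}

/-- The curve on the surface. -/
structure Mod.Cv (M : Mod F x y e) (c : F[X]) (φ : K) : Prop where
  hp : Par x y e
  hF : gen F = 1
  hc : M.S.Curve M.C c
  hφ : IsGen c φ

namespace Mod.Cv
variable {M : Mod F x y e} {c : F[X]} {φ f : K} (Γ : M.Cv c φ) {N : Cl F} {D : Dv K}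
include Γ

lemma deg_res (N : Cl F) : (M.S.res φ N).degree = (M.nm N).dc x y := by
  rw [Γ.hc.degree_res Γ.hφ, ip_C]

lemma gen_eq : gen K = x * y - 1 := by
  have := Γ.hc.gen_eq Γ.hφ Γ.hF
  simp only [ip_self, Nm.sq, nm, C, cls_k, cls_B, cls_r, cls_l₁, cls_l₂, cls_l₃, map_add,
    degree_single'] at this
  linarith

lemma eq_zero {h : F[X]} (h0 : aeval φ h = 0) (hd : h.natDegree ≤ 6) : h = 0 := by
  refine eq_zero_of_dvd_of_natDegree_lt ((Γ.hφ.ker h).1 h0) ?_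
  have h1 := Γ.hc.deg
  obtain ⟨hx, he, hy⟩ := Γ.hp
  simp only [C, cls_k] at h1
  omega

lemma of_exact {u v : F[X]} (hf : Transcendental ℂ f) (hN : M.S.Exact N u v) (huv : IsCoprime u v)
    (hu : aeval φ u ≠ 0) (hv : aeval φ v = f * aeval φ u) (hk : N.k ≤ x + y)
    (ha : 2 * (M.nm N).a ≤ x) (hb : 2 * (M.nm N).a = x → 2 * (M.nm N).b ≤ y) :
    ∃ N : {N // M.Pen N}, 0 < el (M.S.res φ N - pol f) ∧
      (M.nm N).kap x y ≤ (pol f).degree := by
  refine ⟨⟨N, pen_of Γ.hF hN huv hk (fun h0 => ?_) ha hb⟩, el_pos_iff.2 ⟨_, hu, mem_LL_sub_pol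
    (Γ.hc.aeval_mem Γ.hφ hN.my) (hv ▸ Γ.hc.aeval_mem Γ.hφ hN.mz)⟩, ?_⟩
  · have h1 : ∀ w ∈ M.S.R N, aeval φ w = algebraMap F K (w.coeff 0) := fun w hw => by
      rw [eq_C_of_natDegree_le_zero (natDegree_le_iff_coeff_eq_zero.2 fun j hj =>
        hw.1 j (by omega))]; simp
    rw [h1 u hN.my] at hu hv
    rw [h1 v hN.mz] at hv
    refine two_le_el_iff.2 ⟨_, _, hN.nef.lr.coeff_mem hN.my 0, hN.nef.lr.coeff_mem hN.mz 0,
      fun h => hu (by simp [h]), fun a h => transc_ne_const hf a (mul_right_cancel₀ hu ?_)⟩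
    rw [← hv, h, Algebra.smul_def, map_mul, ← IsScalarTower.algebraMap_apply]
  · have := Γ.hc.bp Γ.hφ Γ.hF hN huv hu hv hf
    rw [ip_C, ip_self, deg_D_zero hN.nef, deg_D_top hN.nef] at this
    simp only [Nm.kap, Nm.bb]
    linarith

lemma pencil (hf : Transcendental ℂ f) (hm : 2 * (pol f).degree < x * y + 1) :
    ∃ N : {N // M.Pen N}, 0 < el (M.S.res φ N - pol f) ∧
      (M.nm N).kap x y ≤ (pol f).degree := by
  obtain ⟨N, u, v, hN, huv, hu, hv, h⟩ := Γ.hc.dm Γ.hφ Γ.hF hf (by rw [Γ.gen_eq]; omega)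
  have h0 := hN.k0
  rcases h with ⟨h, h1, h2⟩ | ⟨N', u', v', hN', huv', hu', hv', h⟩
  · have h3 := nonneg_of_mem h2 h1 (P := M.p₁) (by simp)
    have h4 := nonneg_of_mem h2 h1 (P := M.p₂) (by simp)
    have h5 := Surf.natDegree_le_of_mem h2 h1
    simp [C] at h3 h4 h5
    exact Γ.of_exact hf hN huv hu hv (by omega) (by simp only [nm]; omega)
      (by simp only [nm]; omega)
  · have h1 := h.1
    have h2 := congrArg Finsupp.degree h.B_eq
    have h3 := h.l_eq (P := M.p₁) (by simp)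
    have h4 := h.l_eq (P := M.p₂) (by simp)
    have h5 := hN'.k0
    simp [C] at h1 h2 h3 h4
    by_cases h6 : 2 * (M.nm N).a < x ∨ (2 * (M.nm N).a = x ∧ 2 * (M.nm N).b ≤ y)
    · exact Γ.of_exact hf hN huv hu hv (by omega) (by omega) (by omega)
    · exact Γ.of_exact hf hN' huv' hu' hv' (by omega) (by simp only [nm] at *; omega)
        (by simp only [nm] at *; omega)

lemma gon (D : Dv K) (hD : 2 ≤ el D) : x + y - 1 - e ≤ D.degree := by
  obtain ⟨f, hf, h⟩ := exists_pol_of_two_le hD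
  refine le_trans (not_lt.1 fun h1 => ?_) (degree_le_of_el_pos h)
  obtain ⟨hx, he, hy⟩ := Γ.hp
  obtain ⟨N, -, h2⟩ := Γ.pencil hf (by
    nlinarith [mul_nonneg (show 0 ≤ x - 2 by omega) (show 0 ≤ y - 2 by omega), show 0 ≤ e by omega])
  have := N.2.good.gon Γ.hp
  omega

lemma el_le (h : M.Sm N) : el (M.S.res φ N) ≤ (M.nm N).hs :=
  (Γ.hc.el_res_le Γ.hφ h.nef_sub (by have := h.k_sub; omega) h.pos_sub h.1.lr).trans
    (h.sum_el Γ.hF)

lemma lift (h : M.Sm N) {w : K} (hw : w ∈ LL (M.S.res φ N)) : ∃ h ∈ M.S.R N, aeval φ h = w :=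
  Γ.hc.exists_lift Γ.hφ h.nef_sub (by have := h.k_sub; omega) h.pos_sub hw

lemma bpf (h : M.Pen N) (z : Place K) :
    el (M.S.res φ N - single z 1) + 1 = el (M.S.res φ N) := by
  obtain ⟨u, v, h⟩ := h.ex
  obtain ⟨w, hw, h1⟩ := Γ.hc.exists_exact_of_exact Γ.hφ h z
  exact el_sub_single_of_exact (Γ.hc.aeval_mem Γ.hφ hw) h1

lemma deg_eq (h : M.Pen N) (hs : M.Sm N) (h1 : 0 < el (M.S.res φ N - D))
    (h2 : (M.nm N).hs ≤ el D) : D.degree = (M.nm N).dc x y := by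
  obtain ⟨Z, hZ, h3⟩ := el_pos_iff_linEq.1 h1
  have h4 : LinEq (M.S.res φ N - Z) D := by simpa using (LinEq.refl (M.S.res φ N)).sub h3 |>.symm
  by_cases h0 : Z = 0
  · rw [← h4.degree_eq, h0, sub_zero, Γ.deg_res]
  obtain ⟨z, hz⟩ := Finsupp.ne_iff.1 h0
  have h5 := el_mono (sub_le_sub_left (single_le_of_pos hZ (lt_of_le_of_ne (hZ z) (Ne.symm hz)))
    (M.S.res φ N))
  have := Γ.bpf h z
  have := Γ.el_le hs
  have := h4.el_eq
  omega

lemma canon_bpf : ∀ᶠ z : Place K in cofinite, ∀ N, M.Sm N →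
    el (canon K - M.S.res φ N - single z 1) < el (canon K - M.S.res φ N) := by
  filter_upwards [Place.tendsto_below.eventually (M.S.T₁.eventually_cofinite_notMem.and
    M.S.T₂.eventually_cofinite_notMem)] with z hz N hN
  obtain ⟨i, hi, h2⟩ := hN.two_sub
  obtain ⟨τ, hτ, h3⟩ := exists_exact_of_degree (by rw [Γ.hF]; exact h2) (z.below F)
  have h0 : M.S.dl φ z = 0 := (M.S.ok_dl φ z).elim id fun h =>
    h.elim (fun h => absurd h.2 hz.1) fun h => absurd h.2 hz.2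
  have h4 := el_sub_single_of_exact (Γ.hc.aeval_mem Γ.hφ (Surf.monomial_mem_R hi hτ))
    (Γ.hc.val_monomial Γ.hφ z (by rw [h3, h0, Surf.D_apply, if_neg hz.1, if_neg hz.2]; simp [mul_comm]))
  have h5 : LinEq (M.S.res φ (M.C - N)) (canon K - M.S.res φ N) := by
    rw [map_sub]; exact (Γ.hc.linEq_canon Γ.hφ Γ.hF).sub (LinEq.refl _)
  rw [← h5.el_eq, ← (h5.sub (LinEq.refl _)).el_eq]
  omega

lemma bir (r : ℕ) {V : Submodule ℂ K} (hV : IsBase V D) (hr : finrank ℂ V = r + 2)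
    (hK : KV V = ⊤) (hg : 2 * (D.degree - r) < x * y + 1)
    (hm : 4 * (D.degree - r) ≤ 5 * (x + y - 1 - e) - 5 ∨
      (10 ≤ x + y - 1 - e ∧ D.degree - r ≤ 3 * x + y - 5) ∨
      (11 ≤ x + y - 1 - e ∧ D.degree - r ≤ 3 * x + y - 4)) :
    ∃ N, M.Pen N ∧ M.Sm N ∧ 0 < el (M.S.res φ N - D) ∧ (M.nm N).kap x y ≤ D.degree - r ∧
      (r : ℤ) + 2 ≤ (M.nm N).hs := by
  have h1 : ∀ N : {N // M.Pen N}, (M.nm N).kap x y ≤ D.degree - r → M.Sm N := fun N h =>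
    N.2.sm Γ.hp (by omega)
  obtain ⟨N, h2, h3⟩ := descent_bir (𝒩 := {N // M.Pen N}) (fun N => M.S.res φ N)
    (fun N => (M.nm N).kap x y) (D.degree - r) (fun f hf h => Γ.pencil hf (by omega))
    (Γ.canon_bpf.mono fun z hz N h => hz N (h1 N h)) r hV hr (Or.inr hK) le_rfl
  refine ⟨N, N.2, h1 N h3, h2, h3, ?_⟩
  have := Γ.el_le (h1 N h3)
  have := el_le_of_el_pos h2
  have := finrank_le_el hV.le
  omega

lemma exists_gonal : ∃ A : Dv K, 2 ≤ el A ∧ A.degree = x + y - 1 - e := by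
  obtain ⟨hx, he, hy⟩ := Γ.hp
  have h1 : ∀ j : ℕ, j ≤ 1 → aeval φ (monomial j (1 : F)) ∈
      LL (M.S.res φ (M.cls 1 (single M.o 1) 0 0 e 1)) := fun j hj =>
    Γ.hc.aeval_mem Γ.hφ (Surf.monomial_mem_R (by simpa using hj) (one_mem_LL.2 (by
      rw [D_eq, cls_l₁, cls_l₂, cls_l₃]
      rcases he with rfl | rfl <;> interval_cases j <;> simp [M.he])))
  refine ⟨_, two_le_el_iff.2 ⟨_, _, h1 0 (by omega), h1 1 le_rfl, by simp, fun a h => ?_⟩, ?_⟩
  · have := Γ.eq_zero (h := X - Polynomial.C (algebraMap ℂ F a)) (by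
      simpa [← IsScalarTower.algebraMap_apply, sub_eq_zero, Algebra.algebraMap_eq_smul_one]
        using h) (by simp)
    exact X_sub_C_ne_zero _ this
  · rw [Γ.deg_res]; simp [nm, Nm.dc]; ring

end Mod.Cv

end Pool.Agent.Lib.MP_eeb174_ag
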