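import Pool.Agent.Lib.MP_eeb174_ag.Ext

open Filter Set WithZero Module Polynomial

noncomputable section

namespace Pool.Agent.Lib.MP_eeb174_ag

namespace Plc

section up
variable {F : Type} [Field F] [Algebra ℂ F] [IsFF F]

lemma aeval_up {L : Type} [CommRing L] [Algebra ℂ L] [Algebra F L] [IsScalarTower ℂ F L]
    (P : Place F) (s : ℤ) (φ : L) (q : ℂ[X]) :
    aeval φ (up P s q) = aeval (φ * algebraMap F L (P.unif ^ (-s))) q := by
  have h := aeval_algHom_apply ((aeval φ : F[X] →ₐ[F] L).restrictScalars ℂ)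
    (C (P.unif ^ (-s)) * X) q
  simp only [AlgHom.coe_restrictScalars', map_mul, aeval_C, aeval_X] at h
  rw [mul_comm, h]; rfl

lemma eval_up (P : Place F) (s : ℤ) (ρ : ℂ) (q : ℂ[X]) :
    (up P s q).eval (algebraMap ℂ F ρ * P.unif ^ s) = algebraMap ℂ F (q.eval ρ) := by
  have h := aeval_up P s (algebraMap ℂ F ρ * P.unif ^ s) q
  rw [coe_aeval_eq_eval] at h
  rw [h, Algebra.algebraMap_self, RingHom.id_apply, mul_assoc, ← zpow_add₀ P.unif_ne_zero,
    add_neg_cancel, zpow_zero, mul_one, aeval_algebraMap_apply_eq_algebraMap_eval]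

lemma bd_unif (P : Place F) (s : ℤ) : Bd P s (-1) (C P.unif) := bd_C.2 P.val_unif.le

lemma bd_mul_zero {P : Place F} {s : ℤ} {h g : F[X]} (H : Bd P s 0 h) (G : Bd P s 0 g) :
    Bd P s 0 (h * g) := by simpa using H.mul G

lemma ini_mul_zero {P : Place F} {s : ℤ} {h g : F[X]} (H : Bd P s 0 h) (G : Bd P s 0 g) :
    ini P s 0 (h * g) = ini P s 0 h * ini P s 0 g := by simpa using ini_mul H G

end up

variable {F K : Type} [Field F] [Algebra ℂ F] [Field K] [Algebra ℂ K]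
  [Algebra F K] [IsScalarTower ℂ F K] [FiniteDimensional F K] [IsFF F] [IsFF K]
  {c h : F[X]} {φ : K} {x : Place K} {s n : ℤ}

variable (F) in
/-- The rescaled coordinate. -/
abbrev psi (x : Place K) (s : ℤ) (φ : K) : K := φ * algebraMap F K ((x.below F).unif ^ (-s))

lemma val_unif_zpow (x : Place K) (n : ℤ) :
    x.val (algebraMap F K ((x.below F).unif ^ n)) = exp (-(x.ram F * n)) := by
  rw [x.val_algebraMap_eq ((x.below F).val_unif_zpow n), mul_neg]

lemma val_psi (h0 : φ ≠ 0) : x.val (psi F x s φ) = 1 ↔ x.ord φ = x.ram F * s := by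
  rw [map_mul, val_unif_zpow, x.val_eq h0, ← exp_add, ← exp_zero, exp_inj]
  constructor <;> intro h <;> linarith

omit [IsFF K] in
lemma mul_aeval_eq (x : Place K) (s n : ℤ) (φ : K) (h : F[X]) :
    algebraMap F K ((x.below F).unif ^ n) * aeval φ h = ∑ j ∈ Finset.range (h.natDegree + 1),
      algebraMap F K ((x.below F).unif ^ (n + s * j) * h.coeff j) * psi F x s φ ^ j := by
  rw [aeval_eq_sum_range, Finset.mul_sum]
  refine Finset.sum_congr rfl fun j _ => ?_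
  have h1 : (x.below F).unif ^ (n + s * j) * ((x.below F).unif ^ (-s)) ^ j =
      (x.below F).unif ^ n := by
    rw [← zpow_natCast, ← zpow_mul, ← zpow_add₀ (x.below F).unif_ne_zero]
    congr 1; ring
  rw [← h1, Algebra.smul_def, mul_pow, map_mul, map_mul, map_pow]
  ring

lemma val_term_le (hψ : x.val (psi F x s φ) ≤ 1) (H : Bd (x.below F) s n h) (j : ℕ) :
    x.val (algebraMap F K ((x.below F).unif ^ (n + s * j) * h.coeff j)) ≤ 1 ∧
      x.val (psi F x s φ ^ j) ≤ 1 :=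
  ⟨x.mem_iff.1 (Place.mem_below.1 ((x.below F).mem_iff.2 (H.le_one j))),
    by rw [map_pow]; exact pow_le_one' hψ j⟩

lemma val_mul_aeval_le (hψ : x.val (psi F x s φ) ≤ 1) (H : Bd (x.below F) s n h) :
    x.val (algebraMap F K ((x.below F).unif ^ n) * aeval φ h) ≤ 1 := by
  rw [mul_aeval_eq x s]
  exact x.val.map_sum_le fun j _ => by
    rw [map_mul]; exact mul_le_one' (val_term_le hψ H j).1 (val_term_le hψ H j).2

lemma res_mul_aeval (hψ : x.val (psi F x s φ) ≤ 1) (H : Bd (x.below F) s n h) :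
    x.res (algebraMap F K ((x.below F).unif ^ n) * aeval φ h) =
      (ini (x.below F) s n h).eval (x.res (psi F x s φ)) := by
  rw [mul_aeval_eq x s, eval_eq_sum_range' (Nat.lt_succ_of_le natDegree_ini_le), Place.res_sum]
  · refine Finset.sum_congr rfl fun j _ => ?_
    rw [Place.res_mul (val_term_le hψ H j).1 (val_term_le hψ H j).2, Place.res_pow hψ,
      x.res_algebraMap (H.le_one j), coeff_ini]
  · intro j _
    rw [map_mul]; exact mul_le_one' (val_term_le hψ H j).1 (val_term_le hψ H j).2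

lemma val_le (hψ : x.val (psi F x s φ) ≤ 1) (H : Bd (x.below F) s n h) :
    x.val (aeval φ h) ≤ exp (x.ram F * n) := by
  have h1 := val_mul_aeval_le hψ H
  rwa [map_mul, val_unif_zpow, exp_neg, inv_mul_le_iff₀ exp_pos, mul_one] at h1

lemma val_eq_iff (hψ : x.val (psi F x s φ) ≤ 1) (H : Bd (x.below F) s n h) :
    x.val (aeval φ h) = exp (x.ram F * n) ↔
      (ini (x.below F) s n h).eval (x.res (psi F x s φ)) ≠ 0 := by
  rw [← res_mul_aeval hψ H, Place.res_ne_zero_iff (val_mul_aeval_le hψ H), map_mul,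
    val_unif_zpow, exp_neg, inv_mul_eq_one₀ exp_ne_zero, eq_comm]

lemma val_eq_one_iff (hψ : x.val (psi F x s φ) ≤ 1) (H : Bd (x.below F) s 0 h) :
    x.val (aeval φ h) = 1 ↔ (ini (x.below F) s 0 h).eval (x.res (psi F x s φ)) ≠ 0 := by
  simpa using val_eq_iff hψ H

/-! ### The Newton polygon argument -/

lemma term_lt (h0 : φ ≠ 0) (H : Bd (x.below F) s n c) {i j : ℕ}
    (hi : (x.below F).val (c.coeff i) = exp (n + s * i))
    (hj : (x.ram F * s - x.ord φ) * (j - i) < 0) :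
    x.val (c.coeff j • φ ^ j) < x.val (c.coeff i • φ ^ i) := by
  rw [Algebra.smul_def, Algebra.smul_def, map_mul, map_mul, map_pow, map_pow, x.val_eq h0,
    x.val_algebraMap_eq hi, ← exp_nsmul, ← exp_nsmul, ← exp_add]
  refine (mul_le_mul_left (x.val_algebraMap_le.2 (H j)) _).trans_lt ?_
  rw [← exp_add, exp_lt_exp, nsmul_eq_mul, nsmul_eq_mul]
  linarith

omit [Algebra ℂ F] [IsScalarTower ℂ F K] [FiniteDimensional F K] [IsFF F] in
lemma aeval_ne_zero {i : ℕ} (hi : ∀ j, j ≠ i → x.val (c.coeff j • φ ^ j) < x.val (c.coeff i • φ ^ i)) :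
    aeval φ c ≠ 0 := by
  classical
  have h1 : x.val (c.coeff i • φ ^ i) ≠ 0 := (zero_le.trans_lt (hi (i + 1) (by omega))).ne'
  have h2 : c.coeff i ≠ 0 := fun h => h1 (by simp [h])
  intro h
  rw [aeval_eq_sum_range] at h
  have h3 := x.val.map_sum_eq_of_lt (f := fun j => c.coeff j • φ ^ j)
    (Finset.mem_range.2 (Nat.lt_succ_of_le (le_natDegree_of_ne_zero h2)))
    fun j hj => hi j (by simpa using (Finset.mem_sdiff.1 hj).2)
  rw [h, map_zero] at h3
  exact h1 h3.symm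

/-! ### The local ring -/

variable (F) in
/-- Fractions of bounded polynomials with unit denominators. -/
def LB (x : Place K) (s : ℤ) (φ : K) : Subring K where
  carrier := {z | ∃ u b : F[X], Bd (x.below F) s 0 u ∧ Bd (x.below F) s 0 b ∧
    x.val (aeval φ u) = 1 ∧ aeval φ u * z = aeval φ b}
  mul_mem' := by
    rintro y z ⟨u, b, hu, hb, h1, h2⟩ ⟨u', b', hu', hb', h1', h2'⟩
    refine ⟨u * u', b * b', bd_mul_zero hu hu', bd_mul_zero hb hb', by simp [h1, h1'], ?_⟩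
    rw [map_mul, map_mul, ← h2, ← h2']; ring
  one_mem' := ⟨1, 1, Bd.one, Bd.one, by simp, by simp⟩
  add_mem' := by
    rintro y z ⟨u, b, hu, hb, h1, h2⟩ ⟨u', b', hu', hb', h1', h2'⟩
    refine ⟨u * u', b * u' + u * b', bd_mul_zero hu hu',
      (bd_mul_zero hb hu').add (bd_mul_zero hu hb'), by simp [h1, h1'], ?_⟩
    rw [map_add, map_mul, map_mul, map_mul, ← h2, ← h2']; ring
  zero_mem' := ⟨1, 0, Bd.one, Bd.zero, by simp, by simp⟩
  neg_mem' := by
    rintro y ⟨u, b, hu, hb, h1, h2⟩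
    exact ⟨u, -b, hu, hb.neg, h1, by rw [map_neg, ← h2]; ring⟩

lemma aeval_mem (H : Bd (x.below F) s 0 h) : aeval φ h ∈ LB F x s φ :=
  ⟨1, h, Bd.one, H, by simp, by simp⟩

lemma aeval_psi_mem (q : ℂ[X]) : aeval (psi F x s φ) q ∈ LB F x s φ := by
  rw [← aeval_up]; exact aeval_mem (bd_up q)

lemma unif_mem : algebraMap F K (x.below F).unif ∈ LB F x s φ := by
  simpa using aeval_mem (φ := φ) ((bd_unif (x.below F) s).mono (by norm_num))

lemma inv_mem {z : K} (hz : z ∈ LB F x s φ) (h1 : x.val z = 1) : z⁻¹ ∈ LB F x s φ := by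
  obtain ⟨u, b, hu, hb, h2, h3⟩ := hz
  have h0 : z ≠ 0 := fun h => by simp [h] at h1
  exact ⟨b, u, hb, hu, by rw [← h3, map_mul, h1, h2, mul_one], by rw [← h3]; field_simp⟩

lemma val_le_one (hψ : x.val (psi F x s φ) ≤ 1) {z : K} (hz : z ∈ LB F x s φ) : x.val z ≤ 1 := by
  obtain ⟨u, b, -, hb, h2, h3⟩ := hz
  have h4 := val_le hψ hb
  rwa [← h3, map_mul, h2, one_mul, mul_zero, exp_zero] at h4

lemma val_aeval_psi (hψ : x.val (psi F x s φ) ≤ 1) {q : ℂ[X]}
    (hq : q.eval (x.res (psi F x s φ)) ≠ 0) : x.val (aeval (psi F x s φ) q) = 1 := by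
  rw [← aeval_up, val_eq_one_iff hψ (bd_up q), ini_up]; exact hq

/-- A generator of the maximal ideal of `LB`. -/
structure Gen (F : Type) [Field F] [Algebra ℂ F] [Algebra F K] [IsScalarTower ℂ F K]
    [FiniteDimensional F K] [IsFF F] (x : Place K) (s : ℤ) (φ w : K) : Prop where
  mem : w ∈ LB F x s φ
  ne : w ≠ 0
  lt : x.val w < 1
  dt : ∃ a ∈ LB F x s φ, algebraMap F K (x.below F).unif = w * a
  dp : ∃ a ∈ LB F x s φ, psi F x s φ - algebraMap ℂ K (x.res (psi F x s φ)) = w * a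

variable {w : K}

lemma Gen.div (hw : Gen F x s φ w) (hψ : x.val (psi F x s φ) ≤ 1) {z : K} (hz : z ∈ LB F x s φ)
    (h1 : x.val z < 1) : ∃ a ∈ LB F x s φ, z = w * a := by
  obtain ⟨u, b, hu, hb, h2, h3⟩ := hz
  have h4 : (ini (x.below F) s 0 b).eval (x.res (psi F x s φ)) = 0 := by
    by_contra h4
    have := (val_eq_one_iff hψ hb).2 h4
    rw [← h3, map_mul, h2, one_mul] at this
    exact h1.ne this
  obtain ⟨q, hq⟩ := dvd_iff_isRoot.2 h4
  obtain ⟨g, hg, e⟩ := hb.exists_eq_up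
  obtain ⟨a, ha, ea⟩ := hw.dt
  obtain ⟨a', ha', ea'⟩ := hw.dp
  have h0 : aeval φ u ≠ 0 := fun h => by simp [h] at h2
  refine ⟨(a' * aeval (psi F x s φ) q + a * aeval φ g) * (aeval φ u)⁻¹,
    mul_mem (add_mem (mul_mem ha' (aeval_psi_mem q)) (mul_mem ha (aeval_mem hg)))
      (inv_mem (aeval_mem hu) h2), ?_⟩
  rw [e, hq, map_add, aeval_up, map_mul, map_mul, map_sub, aeval_X, aeval_C, aeval_C, ea,
    ea'] at h3
  rw [← mul_assoc, eq_mul_inv_iff_mul_eq₀ h0, mul_comm z, h3]; ring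

lemma Gen.ord_pos (hw : Gen F x s φ w) : 1 ≤ x.ord w :=
  (x.val_le_iff hw.ne).1 (x.val_lt_one_iff.1 hw.lt)

lemma Gen.fac (hw : Gen F x s φ w) (hψ : x.val (psi F x s φ) ≤ 1) (N : ℕ) :
    ∀ z ∈ LB F x s φ, z ≠ 0 → x.ord z < N → ∃ j : ℕ, ∃ a ∈ LB F x s φ, x.val a = 1 ∧
      z = w ^ j * a := by
  induction N with
  | zero =>
    intro z hz h0 h1
    have := (x.mem_iff_ord h0).1 (x.mem_iff.2 (val_le_one hψ hz))
    omega
  | succ N ih =>
    intro z hz h0 h1
    rcases (val_le_one hψ hz).lt_or_eq with h2 | h2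
    · obtain ⟨a, ha, rfl⟩ := hw.div hψ hz h2
      have h3 : a ≠ 0 := right_ne_zero_of_mul h0
      rw [x.ord_mul hw.ne h3] at h1
      have := hw.ord_pos
      obtain ⟨j, b, hb, h4, rfl⟩ := ih a ha h3 (by omega)
      exact ⟨j + 1, b, hb, h4, by ring⟩
    · exact ⟨0, z, hz, h2, by simp⟩

lemma Gen.zfac (hw : Gen F x s φ w) (hψ : x.val (psi F x s φ) ≤ 1)
    (hs : ∀ z : K, ∃ h : F[X], aeval φ h = z) {z : K} (h0 : z ≠ 0) :
    ∃ j : ℤ, ∃ a ∈ LB F x s φ, x.val a = 1 ∧ z = w ^ j * a := by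
  obtain ⟨h, rfl⟩ := hs z
  obtain ⟨n, hn⟩ := exists_bd (x.below F) s h
  have h1 : Bd (x.below F) s 0 (C ((x.below F).unif ^ (n.toNat : ℤ)) * h) :=
    bd_unif_mul.2 (hn.mono (by omega))
  have h2 := aeval_mem (φ := φ) h1
  rw [map_mul, aeval_C, zpow_natCast, map_pow] at h2
  have h3 : algebraMap F K (x.below F).unif ^ n.toNat ≠ 0 :=
    pow_ne_zero _ (by simpa using (x.below F).unif_ne_zero)
  obtain ⟨i, a, ha, h4, h5⟩ := hw.fac hψ _ _ (pow_mem unif_mem n.toNat) h3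
    ((Int.self_le_toNat _).trans_lt (by exact_mod_cast Nat.lt_succ_self _))
  obtain ⟨j, b, hb, h6, h7⟩ := hw.fac hψ _ _ h2 (mul_ne_zero h3 h0)
    ((Int.self_le_toNat _).trans_lt (by exact_mod_cast Nat.lt_succ_self _))
  have a0 : a ≠ 0 := fun h => by simp [h] at h4
  refine ⟨j - i, b * a⁻¹, mul_mem hb (inv_mem ha h4), by simp [h4, h6], ?_⟩
  rw [h5] at h7
  have := hw.ne
  rw [zpow_sub₀ this, zpow_natCast, zpow_natCast]
  field_simp
  linear_combination h7

omit [Algebra ℂ F] [Algebra F K] [IsScalarTower ℂ F K] [FiniteDimensional F K] [IsFF F]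
  [Field F] in
lemma ord_fac (hw : w ≠ 0) {a : K} (ha : x.val a = 1) (j : ℤ) :
    x.ord (w ^ j * a) = j * x.ord w := by
  have a0 : a ≠ 0 := fun h => by simp [h] at ha
  rw [x.ord_mul (zpow_ne_zero j hw) a0, x.ord_zpow,
    x.ord_eq_of_val (z := a) (m := 0) (by simpa using ha), add_zero]

lemma Gen.ord_eq (hw : Gen F x s φ w) (hψ : x.val (psi F x s φ) ≤ 1)
    (hs : ∀ z : K, ∃ h : F[X], aeval φ h = z) : x.ord w = 1 := by
  obtain ⟨j, a, -, h1, h2⟩ := hw.zfac hψ hs x.unif_ne_zero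
  have h3 := ord_fac hw.ne h1 j
  rw [← h2, x.ord_unif] at h3
  exact Int.eq_one_of_mul_eq_one_left (by linarith [hw.ord_pos]) h3.symm

lemma Gen.mem_of_le (hw : Gen F x s φ w) (hψ : x.val (psi F x s φ) ≤ 1)
    (hs : ∀ z : K, ∃ h : F[X], aeval φ h = z) {z : K} (hz : x.val z ≤ 1) : z ∈ LB F x s φ := by
  by_cases h0 : z = 0
  · rw [h0]; exact zero_mem _
  obtain ⟨j, a, ha, h1, rfl⟩ := hw.zfac hψ hs h0
  have h2 := (x.mem_iff_ord h0).1 (x.mem_iff.2 hz)
  rw [ord_fac hw.ne h1, hw.ord_eq hψ hs, mul_one] at h2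
  obtain ⟨m, rfl⟩ := Int.eq_ofNat_of_zero_le h2
  rw [zpow_natCast]
  exact mul_mem (pow_mem hw.mem m) ha

lemma exists_gen (hψ : x.val (psi F x s φ) ≤ 1) (hc : aeval φ c = 0) (H : Bd (x.below F) s n c)
    (H0 : ini (x.below F) s n c ≠ 0)
    (hsm : 2 ≤ (ini (x.below F) s n c).rootMultiplicity (x.res (psi F x s φ)) →
      (x.below F).val (c.eval (algebraMap ℂ F (x.res (psi F x s φ)) * (x.below F).unif ^ s)) =
        exp (n - 1)) :
    ∃ w, Gen F x s φ w ∧
      x.ram F = (ini (x.below F) s n c).rootMultiplicity (x.res (psi F x s φ)) * x.ord w := by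
  have hr : (ini (x.below F) s n c).eval (x.res (psi F x s φ)) = 0 := by
    by_contra h
    have := (val_eq_iff hψ H).2 h
    rw [hc, map_zero] at this
    exact exp_ne_zero this.symm
  have hm := (rootMultiplicity_pos H0).2 hr
  obtain ⟨q, hq, hq'⟩ := exists_eq_pow_rootMultiplicity_mul_and_not_dvd _ H0 (x.res (psi F x s φ))
  have hq1 := val_aeval_psi hψ (fun h => hq' (dvd_iff_isRoot.2 h))
  have H1 : Bd (x.below F) s 0 (C ((x.below F).unif ^ n) * c) := bd_unif_mul.2 (by simpa using H)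
  obtain ⟨g, hg, e⟩ := H1.exists_eq_up
  rw [ini_unif_mul, zero_add] at e
  have t0 : algebraMap F K (x.below F).unif ≠ 0 := by simpa using (x.below F).unif_ne_zero
  have q0 : aeval (psi F x s φ) q ≠ 0 := fun h => by simp [h] at hq1
  have e1 := congrArg (aeval φ) e
  set ρ := x.res (psi F x s φ) with hρ
  set m := (ini (x.below F) s n c).rootMultiplicity ρ with hm'
  rw [map_mul, hc, mul_zero, map_add, aeval_up, map_mul, aeval_C] at e1
  have e2 : (psi F x s φ - algebraMap ℂ K ρ) ^ m * aeval (psi F x s φ) q =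
      algebraMap F K (x.below F).unif * -aeval φ g := by
    have h1 : aeval (psi F x s φ) (ini (x.below F) s n c) =
        (psi F x s φ - algebraMap ℂ K ρ) ^ m * aeval (psi F x s φ) q := by
      conv_lhs => rw [hq]
      simp
    linear_combination -e1 - h1
  rcases (show m = 1 ∨ 2 ≤ m by omega) with h1 | h1
  · refine ⟨_, ⟨unif_mem, t0, x.val_algebraMap_lt_one.2 ?_, ⟨1, one_mem _, by simp⟩,
      -aeval φ g * (aeval (psi F x s φ) q)⁻¹,
      mul_mem (neg_mem (aeval_mem hg)) (inv_mem (aeval_psi_mem q) hq1), ?_⟩, by simp [h1, Place.ram]⟩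
    · exact (x.below F).val_lt_one_iff.2 (x.below F).val_unif.le
    · rw [h1, pow_one] at e2
      rw [← mul_assoc, ← e2, mul_inv_cancel_right₀ q0]
  · have h2 := congrArg (fun p => (x.below F).val (p.eval (algebraMap ℂ F ρ * (x.below F).unif ^ s))) e
    simp only [eval_add, eval_mul, eval_C, eval_up, hr, map_zero, zero_add, map_mul, hsm h1,
      Place.val_unif_zpow, Place.val_unif, ← exp_add] at h2
    have h3 : (x.below F).val (g.eval (algebraMap ℂ F ρ * (x.below F).unif ^ s)) = 1 := by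
      rw [show -n + (n - 1) = -1 by ring] at h2
      exact ((mul_eq_left₀ exp_ne_zero).1 h2.symm)
    have h4 := hg.res_eval ρ
    rw [zpow_zero, one_mul] at h4
    have h5 : x.val (-aeval φ g) = 1 := by
      rw [Valuation.map_neg, val_eq_one_iff hψ hg, ← hρ, ← h4, Place.res_ne_zero_iff h3.le, h3]
    have g0 : -aeval φ g ≠ 0 := fun h => by simp [h] at h5
    have w0 : psi F x s φ - algebraMap ℂ K ρ ≠ 0 := fun h => by
      rw [h, zero_pow (by omega), zero_mul] at e2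
      exact mul_ne_zero t0 g0 e2.symm
    have wm : psi F x s φ - algebraMap ℂ K ρ ∈ LB F x s φ := by
      have := aeval_psi_mem (F := F) (x := x) (s := s) (φ := φ) (X - C ρ)
      rwa [map_sub, aeval_X, aeval_C] at this
    refine ⟨_, ⟨wm, w0, Place.val_sub_res hψ,
      ⟨(psi F x s φ - algebraMap ℂ K ρ) ^ (m - 1) * aeval (psi F x s φ) q * (-aeval φ g)⁻¹,
        mul_mem (mul_mem (pow_mem wm _) (aeval_psi_mem q)) (inv_mem (neg_mem (aeval_mem hg)) h5),
        ?_⟩, 1, one_mem _, by simp [hρ]⟩, ?_⟩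
    · rw [← mul_assoc, ← mul_assoc, ← pow_succ', Nat.sub_add_cancel hm, e2,
        mul_inv_cancel_right₀ g0]
    · have h6 := ord_fac w0 hq1 m
      have h7 := ord_fac t0 h5 1
      rw [zpow_natCast, e2] at h6
      rw [zpow_one, h6] at h7
      rw [h7, one_mul, Place.ram]

lemma exists_place {P : Place F} (hφ : IsGen c φ) (H : Bd P s n c) (H0 : ini P s n c ≠ 0) {ρ : ℂ}
    (h0 : (ini P s n c).eval ρ = 0) :
    ∃ x : Place K, x.below F = P ∧ x.val (psi F x s φ - algebraMap ℂ K ρ) < 1 := by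
  let A : Subalgebra ℂ K :=
    { carrier := {z | ∃ h, Bd P s 0 h ∧ aeval φ h = z}
      mul_mem' := by
        rintro _ _ ⟨a, ha, rfl⟩ ⟨b, hb, rfl⟩
        exact ⟨a * b, bd_mul_zero ha hb, map_mul _ _ _⟩
      add_mem' := by
        rintro _ _ ⟨a, ha, rfl⟩ ⟨b, hb, rfl⟩
        exact ⟨a + b, ha.add hb, map_add _ _ _⟩
      algebraMap_mem' := fun r => ⟨up P s (C r), bd_up _, by rw [aeval_up, aeval_C]⟩ }
  let J : Ideal A :=
    { carrier := {z | ∃ h, Bd P s 0 h ∧ (ini P s 0 h).eval ρ = 0 ∧ aeval φ h = z}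
      add_mem' := by
        rintro y z ⟨a, ha, ha', ea⟩ ⟨b, hb, hb', eb⟩
        exact ⟨a + b, ha.add hb, by rw [ini_add ha hb, eval_add, ha', hb', add_zero],
          by rw [map_add, ea, eb]; rfl⟩
      zero_mem' := ⟨0, Bd.zero, by simp, by simp⟩
      smul_mem' := by
        rintro ⟨_, a, ha, rfl⟩ z ⟨b, hb, hb', eb⟩
        exact ⟨a * b, bd_mul_zero ha hb, by rw [ini_mul_zero ha hb, eval_mul, hb', mul_zero],
          by rw [map_mul, eb]; rfl⟩ }
  have hJ : J ≠ ⊤ := fun h => by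
    obtain ⟨a, ha, ha', ea⟩ := (Ideal.eq_top_iff_one J).1 h
    obtain ⟨q, hq⟩ := (hφ.ker (1 - a)).1 (by rw [map_sub, map_one, ea]; simp)
    have h1 : Bd P s (n + -n) (c * q) := by rw [← hq, add_neg_cancel]; exact Bd.one.sub ha
    have h2 := congrArg (eval ρ) (ini_mul H (H.of_mul H0 h1))
    rw [← hq, add_neg_cancel, ini_sub Bd.one ha] at h2
    simp [h0, ha'] at h2
  have ht := (bd_unif P s).mono (show (-1 : ℤ) ≤ 0 by norm_num)
  obtain ⟨x, hx, hx'⟩ := exists_place_of_ideal A J hJ (s := ⟨_, _, ht, rfl⟩)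
    ⟨_, ht, by rw [ini_eq_zero_of_lt (bd_unif P s) (by norm_num), eval_zero], rfl⟩
    (fun h => by simpa [P.unif_ne_zero] using congrArg Subtype.val h)
  have hP : x.below F = P := Place.below_eq fun a ha =>
    hx _ ⟨C a, bd_C.2 (by simpa using P.mem_iff.1 ha), aeval_C _ _⟩
  refine ⟨x, hP, ?_⟩
  have h1 := x.mem_nonunits_iff.1 (hx' ⟨_, _, bd_up (X - C ρ), rfl⟩
    ⟨_, bd_up (X - C ρ), by rw [ini_up]; simp, rfl⟩)
  simp only [aeval_up] at h1
  rw [map_sub, aeval_X, aeval_C] at h1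
  rwa [psi, hP]

end Plc

variable {F K : Type} [Field F] [Algebra ℂ F] [Field K] [Algebra ℂ K]
  [Algebra F K] [IsScalarTower ℂ F K] [FiniteDimensional F K] [IsFF F] [IsFF K]
  {S : Surf F} {C N : Cl F} {c h : F[X]} {φ : K}

omit [Algebra ℂ K] [IsScalarTower ℂ F K] [FiniteDimensional F K] [IsFF K] in
theorem Surf.Curve.phi_ne_zero (hc : S.Curve C c) (hφ : IsGen c φ) : φ ≠ 0 := fun h0 => by
  have h1 := (hφ.ker c).2 dvd_rfl
  rw [h0, ← coeff_zero_eq_aeval_zero', _root_.map_eq_zero] at h1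
  exact hc.coeff_zero_ne h1

theorem Surf.Curve.ord_phi (hc : S.Curve C c) (hφ : IsGen c φ) (x : Place K) :
    x.ord φ = x.ram F * (S.α (x.below F) + S.dl φ x) := by
  have h0 := hc.phi_ne_zero hφ
  have hr := (hφ.ker c).2 dvd_rfl
  by_contra hne
  have hne' : ∀ δ, S.ok (x.below F) δ → x.ord φ ≠ x.ram F * (S.α (x.below F) + δ) :=
    fun δ hδ h => hne (by rw [S.dl_eq φ hδ h]; exact h)
  have hlo := fun δ hδ => (coeff_ini_ne_zero (hc.mem.2 _ δ hδ)).1 (hc.lo_ne (x.below F) δ hδ)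
  have hhi := fun δ hδ => (coeff_ini_ne_zero (hc.mem.2 _ δ hδ)).1 (hc.hi_ne (x.below F) δ hδ)
  have step : ∀ δ, S.ok (x.below F) δ → x.ram F * (S.α (x.below F) + δ) < x.ord φ →
      S.ok (x.below F) (δ + 1) ∧ x.ram F * (S.α (x.below F) + (δ + 1)) < x.ord φ := by
    intro δ hδ h1
    by_contra h2
    refine Plc.aeval_ne_zero (x := x) (i := (S.lo C (x.below F) δ).toNat) (fun j hj => ?_) hr
    rcases hj.lt_or_gt with hj | hj
    · have h3 : S.ok (x.below F) (δ + 1) := by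
        by_contra h3
        rw [lo_eq_zero hδ h3] at hj
        simp at hj
      have h4 := lt_of_le_of_ne (not_lt.1 fun h => h2 ⟨h3, h⟩) (hne' _ h3)
      have h5 : S.hi C (x.below F) (δ + 1) = S.lo C (x.below F) δ := by
        rw [lo_eq hδ h3, hi_eq h3 (by simpa using hδ), add_sub_cancel_right]
      exact Plc.term_lt h0 (hc.mem.2 _ _ h3) (h5 ▸ hhi _ h3)
        (mul_neg_of_pos_of_neg (by omega) (by omega))
    · exact Plc.term_lt h0 (hc.mem.2 _ _ hδ) (hlo _ hδ)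
        (mul_neg_of_neg_of_pos (by omega) (by omega))
  obtain ⟨δ, hδ, hb⟩ := S.exists_bot (x.below F)
  have base : x.ram F * (S.α (x.below F) + δ) < x.ord φ := by
    by_contra h1
    have h2 := lt_of_le_of_ne (not_lt.1 h1) (hne' _ hδ)
    refine Plc.aeval_ne_zero (x := x) (i := (S.hi C (x.below F) δ).toNat) (fun j hj => ?_) hr
    rcases hj.lt_or_gt with hj | hj
    · exact Plc.term_lt h0 (hc.mem.2 _ _ hδ) (hhi _ hδ)
        (mul_neg_of_pos_of_neg (by omega) (by omega))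
    · rw [hi_eq_k hδ hb, ← hc.deg, Int.toNat_natCast] at hj ⊢
      rw [coeff_eq_zero_of_natDegree_lt hj, hc.monic.coeff_natDegree]
      simp [pos_iff_ne_zero, h0]
  obtain ⟨h1, h1'⟩ := step _ hδ base
  obtain ⟨h2, h2'⟩ := step _ h1 h1'
  obtain ⟨h3, -⟩ := step _ h2 h2'
  unfold Surf.ok at hδ h3
  omega

theorem Surf.Curve.val_psi (hc : S.Curve C c) (hφ : IsGen c φ) (x : Place K) :
    x.val (Plc.psi F x (S.α (x.below F) + S.dl φ x) φ) = 1 :=
  (Plc.val_psi (hc.phi_ne_zero hφ)).2 (hc.ord_phi hφ x)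

theorem Surf.Curve.val_aeval_le (hc : S.Curve C c) (hφ : IsGen c φ) (x : Place K) {n : ℤ}
    (H : Bd (x.below F) (S.α (x.below F) + S.dl φ x) n h) :
    x.val (aeval φ h) ≤ exp (x.ram F * n) :=
  Plc.val_le (hc.val_psi hφ x).le H

theorem Surf.Curve.val_aeval_eq_iff (hc : S.Curve C c) (hφ : IsGen c φ) (x : Place K) {n : ℤ}
    (H : Bd (x.below F) (S.α (x.below F) + S.dl φ x) n h) :
    x.val (aeval φ h) = exp (x.ram F * n) ↔
      (ini (x.below F) (S.α (x.below F) + S.dl φ x) n h).eval (S.rho φ x) ≠ 0 :=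
  Plc.val_eq_iff (hc.val_psi hφ x).le H

theorem Surf.Curve.rho_ne_zero (hc : S.Curve C c) (hφ : IsGen c φ) (x : Place K) :
    S.rho φ x ≠ 0 :=
  (Place.res_ne_zero_iff (hc.val_psi hφ x).le).2 (hc.val_psi hφ x)

theorem Surf.Curve.eval_rho (hc : S.Curve C c) (hφ : IsGen c φ) (x : Place K) :
    (S.inn C (x.below F) (S.dl φ x) c).eval (S.rho φ x) = 0 := by
  by_contra h
  have := (hc.val_aeval_eq_iff hφ x (hc.mem.2 _ _ (S.ok_dl φ x))).2 h
  rw [(hφ.ker c).2 dvd_rfl, map_zero] at this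
  exact exp_ne_zero this.symm

theorem Surf.Curve.exists_place (hc : S.Curve C c) (hφ : IsGen c φ) {P : Place F} {δ : ℤ}
    (hδ : S.ok P δ) {ρ : ℂ} (hρ : ρ ≠ 0) (h0 : (S.inn C P δ c).eval ρ = 0) :
    ∃ x : Place K, x.below F = P ∧ S.dl φ x = δ ∧ S.rho φ x = ρ := by
  obtain ⟨x, rfl, hx⟩ := Plc.exists_place hφ (hc.mem.2 P δ hδ) (hc.inn_ne hδ) h0
  have h1 := x.val.map_eq_of_sub_lt (hx.trans_eq (x.val_const hρ).symm)
  rw [x.val_const hρ, Plc.val_psi (hc.phi_ne_zero hφ)] at h1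
  have h2 := S.dl_eq φ hδ h1
  exact ⟨x, rfl, h2, by rw [rho, h2]; exact Place.res_eq hx⟩

theorem Surf.Curve.exists_lgen (hc : S.Curve C c) (hφ : IsGen c φ) (x : Place K) :
    ∃ w, Plc.Gen F x (S.α (x.below F) + S.dl φ x) φ w ∧ x.ram F =
      (S.inn C (x.below F) (S.dl φ x) c).rootMultiplicity (S.rho φ x) * x.ord w :=
  Plc.exists_gen (hc.val_psi hφ x).le ((hφ.ker c).2 dvd_rfl) (hc.mem.2 _ _ (S.ok_dl φ x))
    (hc.inn_ne (S.ok_dl φ x)) (hc.smooth _ _ (S.ok_dl φ x) _ (hc.rho_ne_zero hφ x))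

theorem Surf.Curve.local_lift (hc : S.Curve C c) (hφ : IsGen c φ) (x : Place K) {z : K}
    (hz : x.val z ≤ 1) : ∃ u b : F[X], Bd (x.below F) (S.α (x.below F) + S.dl φ x) 0 u ∧
      Bd (x.below F) (S.α (x.below F) + S.dl φ x) 0 b ∧ x.val (aeval φ u) = 1 ∧
      aeval φ u * z = aeval φ b := by
  obtain ⟨w, hw, -⟩ := hc.exists_lgen hφ x
  exact hw.mem_of_le (hc.val_psi hφ x).le hφ.surj hz

theorem Surf.Curve.ram_eq (hc : S.Curve C c) (hφ : IsGen c φ) (x : Place K) :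
    x.ram F = (S.inn C (x.below F) (S.dl φ x) c).rootMultiplicity (S.rho φ x) := by
  obtain ⟨w, hw, h⟩ := hc.exists_lgen hφ x
  rw [h, hw.ord_eq (hc.val_psi hφ x).le hφ.surj, mul_one]

end Pool.Agent.Lib.MP_eeb174_ag
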