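import Pool.Agent.Lib.MP_eeb174_ag.Surf

open Filter Set WithZero Module Polynomial

noncomputable section

namespace Pool.Agent.Lib.MP_eeb174_ag

variable {F : Type} [Field F] [Algebra ℂ F]

namespace Surf

section FF
variable [IsFF F] (S : Surf F)

/-- Sections of a class. -/
def R (N : Cl F) : Submodule ℂ F[X] where
  carrier := {h | (∀ j : ℕ, N.k < j → h.coeff j = 0) ∧
    ∀ P δ, S.ok P δ → Bd P (S.α P + δ) (N.nb P δ) h}
  add_mem' := fun ha hb => ⟨fun j hj => by simp [ha.1 j hj, hb.1 j hj],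
    fun P δ h => (ha.2 P δ h).add (hb.2 P δ h)⟩
  zero_mem' := ⟨fun _ _ => rfl, fun _ _ _ => Bd.zero⟩
  smul_mem' := fun c _ ha => ⟨fun j hj => by simp [ha.1 j hj], fun P δ h => (ha.2 P δ h).smul c⟩

/-- Restriction of a section to a fibre component. -/
abbrev inn (N : Cl F) (P : Place F) (δ : ℤ) (h : F[X]) : ℂ[X] := ini P (S.α P + δ) (N.nb P δ) h

/-- The pencil spanned by `y` and `z` has class exactly `N`. -/
structure Exact (N : Cl F) (y z : F[X]) : Prop where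
  my : y ∈ S.R N
  mz : z ∈ S.R N
  k0 : 0 ≤ N.k
  top : y.coeff N.k.toNat ≠ 0 ∨ z.coeff N.k.toNat ≠ 0
  ex : ∀ P δ, S.ok P δ → S.inn N P δ y ≠ 0 ∨ S.inn N P δ z ≠ 0

/-- `c` is the equation of a smooth curve of class `C` that misses the two sections. -/
structure Curve (C : Cl F) (c : F[X]) : Prop where
  nef : S.Nef C
  monic : c.Monic
  deg : (c.natDegree : ℤ) = C.k
  kpos : 0 < C.k
  mem : c ∈ S.R C
  lo_ne : ∀ P δ, S.ok P δ → (S.inn C P δ c).coeff (S.lo C P δ).toNat ≠ 0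
  hi_ne : ∀ P δ, S.ok P δ → (S.inn C P δ c).coeff (S.hi C P δ).toNat ≠ 0
  pos : ∀ j : ℤ, 0 < j → j < C.k → 0 < (S.D C j).degree
  smooth : ∀ P δ, S.ok P δ → ∀ ρ : ℂ, ρ ≠ 0 → 2 ≤ (S.inn C P δ c).rootMultiplicity ρ →
    P.val (c.eval (algebraMap ℂ F ρ * P.unif ^ (S.α P + δ))) = exp (C.nb P δ - 1)

/-- Near the points of the curve on the component `(P, δ)`, the class of `H` modulo `c` is a local
section of height `n`. -/
def Loc (C : Cl F) (c : F[X]) (P : Place F) (δ n : ℤ) (H : F[X]) : Prop :=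
  ∀ ρ : ℂ, ρ ≠ 0 → (S.inn C P δ c).eval ρ = 0 → ∃ u b : F[X], Bd P (S.α P + δ) 0 u ∧
    (ini P (S.α P + δ) 0 u).eval ρ ≠ 0 ∧ Bd P (S.α P + δ) n b ∧ c ∣ u * H - b

variable {S} {N M C : Cl F} {h g y z c : F[X]} {P : Place F} {δ : ℤ}

lemma mem_R : h ∈ S.R N ↔ (∀ j : ℕ, N.k < j → h.coeff j = 0) ∧
    ∀ P δ, S.ok P δ → Bd P (S.α P + δ) (N.nb P δ) h := Iff.rfl

omit [Algebra ℂ F] [IsFF F] in
lemma coeff_eq_zero_iff (h0 : h ≠ 0) {k : ℤ} :
    (∀ j : ℕ, k < j → h.coeff j = 0) ↔ (h.natDegree : ℤ) ≤ k :=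
  ⟨fun H => not_lt.1 fun h1 => h0 (leadingCoeff_eq_zero.1 (H _ h1)),
    fun H j hj => coeff_eq_zero_of_natDegree_lt (by omega)⟩

lemma natDegree_le_of_mem (H : h ∈ S.R N) (h0 : h ≠ 0) : (h.natDegree : ℤ) ≤ N.k :=
  (coeff_eq_zero_iff h0).1 H.1

lemma mem_R_of (h1 : ∀ j : ℕ, N.k < j → h.coeff j = 0) (h2 : ∀ j : ℕ, h.coeff j ∈ LL (S.D N j)) :
    h ∈ S.R N :=
  ⟨h1, fun P _ hδ j => (h2 j P).trans (exp_le_exp.2 (D_le hδ N j))⟩

lemma LR.coeff_mem (hN : S.LR N) (H : h ∈ S.R N) (j : ℕ) : h.coeff j ∈ LL (S.D N j) := fun P => by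
  obtain ⟨δ, hδ, e⟩ := hN.exists_ok j P
  rw [e]; exact H.2 P δ hδ j

lemma coeff_mem_central (H : h ∈ S.R N) (j : ℕ) : h.coeff j ∈ LL (N.B + (j : ℤ) • S.α) :=
  fun P => by simpa [mul_comm] using H.2 P 0 (S.ok_zero P) j

lemma monomial_mem_R {j : ℕ} {a : F} (hj : (j : ℤ) ≤ N.k) (ha : a ∈ LL (S.D N j)) :
    monomial j a ∈ S.R N :=
  ⟨fun i hi => by rw [coeff_monomial, if_neg (by omega)],
    fun P _ hδ => bd_monomial.2 ((ha P).trans (exp_le_exp.2 (D_le hδ N j)))⟩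

lemma monomial_coeff_mem_R (H : h ∈ S.R N) (j : ℕ) : monomial j (h.coeff j) ∈ S.R N :=
  ⟨fun i hi => by
    rw [coeff_monomial]; split_ifs with e
    · exact H.1 j (e ▸ hi)
    · rfl, fun P δ hδ => bd_monomial.2 (H.2 P δ hδ j)⟩

lemma mul_mem_R (H : h ∈ S.R N) (G : g ∈ S.R M) : h * g ∈ S.R (N + M) := by
  refine ⟨?_, fun P δ hδ => by rw [Cl.add_nb]; exact (H.2 P δ hδ).mul (G.2 P δ hδ)⟩
  by_cases h0 : h = 0
  · simp [h0]
  by_cases g0 : g = 0
  · simp [g0]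
  rw [coeff_eq_zero_iff (mul_ne_zero h0 g0), natDegree_mul h0 g0, Cl.add_k]
  have := natDegree_le_of_mem H h0
  have := natDegree_le_of_mem G g0
  omega

lemma R_mono (hk : N.k ≤ M.k) (hn : ∀ P δ, S.ok P δ → N.nb P δ ≤ M.nb P δ) : S.R N ≤ S.R M :=
  fun _ H => ⟨fun j hj => H.1 j (by omega), fun P δ hδ => (H.2 P δ hδ).mono (hn P δ hδ)⟩

lemma Eqv.R_eq (H : S.Eqv N M) : S.R N = S.R M :=
  le_antisymm (R_mono H.1.le fun P δ h => (H.2 P δ h).le)
    (R_mono H.1.ge fun P δ h => (H.2 P δ h).ge)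

lemma Exact.symm (H : S.Exact N y z) : S.Exact N z y :=
  ⟨H.mz, H.my, H.k0, H.top.symm, fun P δ h => (H.ex P δ h).symm⟩

/-- Gauss's lemma for pencils. -/
lemma Exact.cancel (H : S.Exact N y z) (hy : g * y ∈ S.R M) (hz : g * z ∈ S.R M) :
    g ∈ S.R (M - N) := by
  by_cases g0 : g = 0
  · simp [g0]
  refine ⟨(coeff_eq_zero_iff g0).2 ?_, fun P δ hδ => ?_⟩
  · have key : ∀ w : F[X], w.coeff N.k.toNat ≠ 0 → g * w ∈ S.R M →
        (g.natDegree : ℤ) ≤ M.k - N.k := fun w hw hm => by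
      have w0 : w ≠ 0 := by rintro rfl; simp at hw
      have h1 := natDegree_le_of_mem hm (mul_ne_zero g0 w0)
      have h2 := le_natDegree_of_ne_zero hw
      rw [natDegree_mul g0 w0] at h1
      omega
    exact H.top.elim (key y · hy) (key z · hz)
  · have key : ∀ w : F[X], w ∈ S.R N → S.inn N P δ w ≠ 0 → g * w ∈ S.R M →
        Bd P (S.α P + δ) ((M - N).nb P δ) g := fun w hw h0 hm =>
      (hw.2 P δ hδ).of_mul h0 (by simpa [mul_comm] using hm.2 P δ hδ)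
    exact (H.ex P δ hδ).elim (key y H.my · hy) (key z H.mz · hz)

lemma Exact.exists_coeff (H : S.Exact N y z) (hδ : S.ok P δ) : ∃ w ∈ S.R N, (w = y ∨ w = z) ∧
    ∃ j : ℕ, (j : ℤ) ≤ N.k ∧ P.val (w.coeff j) = exp (N.nb P δ + (S.α P + δ) * j) := by
  have key : ∀ w ∈ S.R N, S.inn N P δ w ≠ 0 →
      ∃ j : ℕ, (j : ℤ) ≤ N.k ∧ P.val (w.coeff j) = exp (N.nb P δ + (S.α P + δ) * j) :=
    fun w hw h0 => by
      obtain ⟨j, hj⟩ := (ini_ne_zero_iff (hw.2 P δ hδ)).1 h0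
      exact ⟨j, not_lt.1 fun h1 => (P.val_eq_exp_iff.1 hj).1 (hw.1 j h1), hj⟩
  exact (H.ex P δ hδ).elim (fun h => ⟨y, H.my, Or.inl rfl, key y H.my h⟩)
    fun h => ⟨z, H.mz, Or.inr rfl, key z H.mz h⟩

lemma Exact.nef (H : S.Exact N y z) : S.Nef N := by
  have key : ∀ P δ, S.ok P δ → ∃ j : ℕ, (j : ℤ) ≤ N.k ∧ ∀ δ', S.ok P δ' →
      N.nb P δ + δ * j ≤ N.nb P δ' + δ' * j := fun P δ hδ => by
    obtain ⟨w, hw, -, j, hj, e⟩ := H.exists_coeff hδ
    refine ⟨j, hj, fun δ' hδ' => ?_⟩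
    have := hw.2 P δ' hδ' j
    rw [e, exp_le_exp] at this
    linarith
  have h1 : ∀ P ∈ S.T₁, S.ok P 1 := fun P h => Or.inr (Or.inl ⟨rfl, h⟩)
  have h2 : ∀ P ∈ S.T₂, S.ok P (-1) := fun P h => Or.inr (Or.inr ⟨rfl, h⟩)
  refine ⟨H.k0, fun P hP => ?_, fun P hP => ?_, fun P hP => ?_, fun P hP => ?_, fun P hP hP' => ?_⟩
  · obtain ⟨j, -, h⟩ := key P 1 (h1 P hP)
    have := h 0 (S.ok_zero P)
    simp at *; omega
  · obtain ⟨i, hi, h'⟩ := key P 0 (S.ok_zero P)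
    have := h' 1 (h1 P hP)
    simp at *; omega
  · obtain ⟨i, hi, h'⟩ := key P 0 (S.ok_zero P)
    have := h' (-1) (h2 P hP)
    simp at *; omega
  · obtain ⟨i, hi, h'⟩ := key P (-1) (h2 P hP)
    have := h' 0 (S.ok_zero P)
    simp at *; omega
  · obtain ⟨i, hi, h'⟩ := key P 0 (S.ok_zero P)
    have := h' (-1) (h2 P hP')
    have := h' 1 (h1 P hP)
    simp at *; omega

lemma exists_exact (S : Surf F) (hy : y ≠ 0) (z : F[X]) : ∃ N, S.Exact N y z := by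
  have key : ∀ (P : Place F) (s : ℤ), ∃ n, Bd P s n y ∧ Bd P s n z ∧
      (ini P s n y ≠ 0 ∨ ini P s n z ≠ 0) := fun P s => by
    obtain ⟨a, ha, ha'⟩ := exists_bd_ini P s hy
    by_cases hz : z = 0
    · exact ⟨a, ha, hz ▸ Bd.zero, Or.inl ha'⟩
    obtain ⟨b, hb, hb'⟩ := exists_bd_ini P s hz
    rcases le_total a b with h | h
    · exact ⟨b, ha.mono h, hb, Or.inr hb'⟩
    · exact ⟨a, ha, hb.mono h, Or.inl ha'⟩
  choose n h1 h2 h3 using key
  have hfin : (Function.support fun P => n P (S.α P)).Finite := by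
    have e1 : ∀ w : F[X], ∀ᶠ P : Place F in cofinite, ∀ j, P.ord (w.coeff j) = 0 := fun w =>
      ((w.support.finite_toSet.biUnion fun j _ => Place.finite_ord (w.coeff j)).subset
        fun P hP => by
          simp only [mem_compl_iff, mem_ofPred_eq, not_forall] at hP
          obtain ⟨j, hj⟩ := hP
          exact mem_biUnion (x := j) (by
            rw [Finset.mem_coe, Polynomial.mem_support_iff]; intro h; simp [h] at hj) hj)
    refine ((e1 y).and ((e1 z).and S.α.hasFiniteSupport.compl_mem_cofinite)).mono fun P hP => ?_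
    have h0 : S.α P = 0 := by simpa using hP.2.2
    have e2 : ∀ w : F[X], (∀ j, P.ord (w.coeff j) = 0) → Bd P (S.α P) (n P (S.α P)) w →
        ini P (S.α P) (n P (S.α P)) w ≠ 0 → n P (S.α P) = 0 := fun w hw hb hi => by
      obtain ⟨j, hj⟩ := (ini_ne_zero_iff hb).1 hi
      have := (P.val_eq_exp_iff.1 hj).2
      rw [hw j, h0] at this
      rw [h0]; omega
    simpa using (h3 P _).elim (e2 y hP.1 (h1 P _)) (e2 z hP.2.1 (h2 P _))
  let N : Cl F := Cl.mk (max y.natDegree z.natDegree : ℕ) (Finsupp.ofSupportFinite _ hfin)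
    (fun P => n P (S.α P) - n P (S.α P + 1)) fun P => n P (S.α P + -1) - n P (S.α P)
  have hN : ∀ P δ, S.ok P δ → N.nb P δ = n P (S.α P + δ) := fun P δ hδ => by
    rcases hδ with rfl | ⟨rfl, -⟩ | ⟨rfl, -⟩ <;> simp [N, Finsupp.ofSupportFinite_coe]
  refine ⟨N, ⟨fun j hj => coeff_eq_zero_of_natDegree_lt ?_, fun P δ hδ => hN P δ hδ ▸ h1 P _⟩,
    ⟨fun j hj => coeff_eq_zero_of_natDegree_lt ?_, fun P δ hδ => hN P δ hδ ▸ h2 P _⟩,
    by simp [N], ?_, fun P δ hδ => by rw [inn, inn, hN P δ hδ]; exact h3 P _⟩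
  · simp only [N, Cl.mk_k] at hj; omega
  · simp only [N, Cl.mk_k] at hj; omega
  · simp only [N, Cl.mk_k, Int.toNat_natCast]
    rcases le_or_gt z.natDegree y.natDegree with h | h
    · rw [max_eq_left h]; exact Or.inl (leadingCoeff_ne_zero.2 hy)
    · rw [max_eq_right h.le]
      exact Or.inr (leadingCoeff_ne_zero.2 (by rintro rfl; simp at h))

namespace Curve
variable (hc : S.Curve C c)
include hc

lemma inn_ne (hδ : S.ok P δ) : S.inn C P δ c ≠ 0 := fun h => hc.lo_ne P δ hδ (by simp [h])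

lemma exact : S.Exact C c c :=
  ⟨hc.mem, hc.mem, hc.kpos.le, Or.inl (by simp [← hc.deg, hc.monic.ne_zero]),
    fun _ _ h => Or.inl (hc.inn_ne h)⟩

lemma D_top : S.D C C.k = 0 := by
  ext P
  obtain ⟨δ, hδ, h⟩ := S.exists_bot P
  have h1 := (coeff_ini_ne_zero (hc.mem.2 P δ hδ)).1 (hc.hi_ne P δ hδ)
  rw [hi_eq_k hδ h, ← hc.deg, Int.toNat_natCast, hc.monic.coeff_natDegree, map_one, ← exp_zero,
    exp_inj, hc.deg] at h1
  rw [hc.nef.D_eq hδ ((hc.nef.lo_le_hi hδ).trans (hc.nef.hi_le hδ)) (hi_eq_k hδ h C).ge, ← h1]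
  rfl

lemma val_coeff_zero (P : Place F) : P.val (c.coeff 0) = exp (S.D C 0 P) := by
  obtain ⟨δ, hδ, h⟩ := S.exists_top P
  have h1 := (coeff_ini_ne_zero (hc.mem.2 P δ hδ)).1 (hc.lo_ne P δ hδ)
  rw [lo_eq_zero hδ h] at h1
  rw [hc.nef.D_eq hδ (lo_eq_zero hδ h C).le ((hc.nef.lo_nonneg hδ).trans (hc.nef.lo_le_hi hδ))]
  simpa using h1

lemma coeff_zero_ne : c.coeff 0 ≠ 0 :=
  (Place.val_eq_exp_iff _).1 (hc.val_coeff_zero (Classical.arbitrary _)) |>.1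

lemma D_zero : S.D C 0 = -divF (c.coeff 0) := by
  ext P
  have := (P.val_eq_exp_iff.1 (hc.val_coeff_zero P)).2
  simp [this]

lemma cancel (H : g * c ∈ S.R M) : g ∈ S.R (M - C) := hc.exact.cancel H H

end Curve

end FF

variable [Algebra (RatFunc ℂ) F] [IsScalarTower ℂ (RatFunc ℂ) F] [FiniteDimensional (RatFunc ℂ) F]
  {S : Surf F} {N : Cl F}

/-- Sections of a class as tuples of coefficients. -/
def LR.equiv (hN : S.LR N) : S.R N ≃ₗ[ℂ] ∀ j : Fin (N.k + 1).toNat, LL (S.D N j) :=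
  LinearEquiv.ofBijective
    (LinearMap.pi fun j : Fin (N.k + 1).toNat => (((lcoeff F j).restrictScalars ℂ).domRestrict _).codRestrict _
      fun h => hN.coeff_mem h.2 j)
    ⟨(injective_iff_map_eq_zero _).2 fun h h0 => Subtype.ext (Polynomial.ext fun j => by
      by_cases hj : j < (N.k + 1).toNat
      · exact congrArg Subtype.val (congrFun h0 ⟨j, hj⟩)
      · exact h.2.1 j (by omega)), fun t =>
      ⟨⟨∑ j : Fin (N.k + 1).toNat, monomial j (t j : F), Submodule.sum_mem _ fun j _ =>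
        monomial_mem_R (by have := j.2; omega) (t j).2⟩, funext fun j => Subtype.ext (by
          simp [coeff_monomial, Fin.val_inj])⟩⟩

lemma LR.finrank_R (hN : S.LR N) :
    (finrank ℂ (S.R N) : ℤ) = ∑ j ∈ Finset.range (N.k + 1).toNat, el (S.D N j) := by
  rw [hN.equiv.finrank_eq, finrank_pi_fintype, Finset.sum_range]
  push_cast; rfl

lemma LR.finite (hN : S.LR N) : FiniteDimensional ℂ (S.R N) :=
  Module.Finite.equiv hN.equiv.symm

end Surf

end Pool.Agent.Lib.MP_eeb174_ag
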