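import Pool.Agent.Lib.MP_eeb174_ag.HClass
import Pool.Agent.Lib.MP_eeb174_ag.Nonbir

open Filter Set WithZero Module Finsupp Polynomial

noncomputable section

namespace Pool.Agent.Lib.MP_eeb174_ag

set_option linter.unusedSectionVars false

variable {F K : Type} [Field F] [Algebra ℂ F] [Algebra (RatFunc ℂ) F]
  [IsScalarTower ℂ (RatFunc ℂ) F] [FiniteDimensional (RatFunc ℂ) F]
  [Field K] [Algebra ℂ K] [Algebra (RatFunc ℂ) K]
  [IsScalarTower ℂ (RatFunc ℂ) K] [FiniteDimensional (RatFunc ℂ) K]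
  [Algebra F K] [IsScalarTower ℂ F K] [FiniteDimensional F K] {x y e : ℤ}

/-- The five monomial sections. -/
def msec (φ : K) (τ : ℕ → F) (i : ℕ) : K := aeval φ (monomial i (τ i))

lemma aeval_smul' (φ : K) (a : ℂ) (h : F[X]) : aeval φ (a • h) = a • aeval φ h :=
  ((aeval φ : F[X] →ₐ[F] K).toLinearMap.restrictScalars ℂ).map_smul a h

namespace Mod.Cv
variable {M : Mod F x y e} {c : F[X]} {φ f : K} (Γ : M.Cv c φ) {N : Cl F} {D Z : Dv K}
  {τ : ℕ → F} (hτ : ∀ j ≤ 4, τ j ≠ 0 ∧ τ j ∈ LL (M.S.D M.H j)) {P : Submodule ℂ K}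
include Γ

lemma ratio (hs : M.Sm N) (hk : N.k = 1) {σ₀ σ₁ : F} (h0 : σ₀ ∈ LL (M.S.D N 0))
    (h1 : σ₁ ∈ LL (M.S.D N 1)) (z0 : σ₀ ≠ 0) (z1 : σ₁ ≠ 0) (e0 : el (M.S.D N 0) ≤ 1)
    (e1 : el (M.S.D N 1) ≤ 1) (hf : Transcendental ℂ f) (h : 0 < el (M.S.res φ N - pol f))
    {a : K} (ha : a ≠ 0) (ha1 : a ∈ P) (ha2 : f * a ∈ P) :
    ∃ g ∈ P, g ≠ 0 ∧ algebraMap F K (σ₁ / σ₀) * φ * g ∈ P := by
  have key : ∀ w ∈ LL (M.S.res φ N), ∃ s t : ℂ,
      w = algebraMap F K σ₀ * (algebraMap ℂ K s + algebraMap ℂ K t *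
        (algebraMap F K (σ₁ / σ₀) * φ)) := fun w hw => by
    obtain ⟨h, h2, rfl⟩ := Γ.lift hs hw
    obtain ⟨s, hs'⟩ := exists_smul_of_el e0 h0 (hs.1.lr.coeff_mem h2 0) z0
    obtain ⟨t, ht⟩ := exists_smul_of_el e1 h1 (hs.1.lr.coeff_mem h2 1) z1
    refine ⟨s, t, ?_⟩
    have := (_root_.map_ne_zero (algebraMap F K)).2 z0
    rw [eq_X_add_C_of_natDegree_le_one (natDegree_le_iff_coeff_eq_zero.2 fun j hj =>
      h2.1 j (by omega)), hs', ht]
    simp only [map_add, map_mul, aeval_C, aeval_X, Algebra.smul_def, map_div₀,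
      ← IsScalarTower.algebraMap_apply]
    field_simp; ring
  obtain ⟨t, ht, h2⟩ := el_pos_iff.1 h
  obtain ⟨a0, a1, h3⟩ := key t (by simpa using mul_mem_LL h2 (one_mem_pol f))
  obtain ⟨b0, b1, h4⟩ := key (t * f) (by simpa using mul_mem_LL h2 (mem_pol f))
  rw [h3, mul_assoc, mul_right_inj' ((_root_.map_ne_zero (algebraMap F K)).2 z0)] at h4
  have h5 : algebraMap F K (σ₁ / σ₀) * φ * (b1 • a - a1 • (f * a)) = a0 • (f * a) - b0 • a := by
    simp only [Algebra.smul_def]; linear_combination (-a) * h4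
  have h6 : ∀ s t : ℂ, s • (f * a) = t • a → s = 0 := fun s t h => by
    by_contra h7
    refine transc_ne_const hf (s⁻¹ * t) (mul_right_cancel₀ ha ?_)
    rw [← Algebra.smul_def, mul_smul, ← h, inv_smul_smul₀ h7]
  refine ⟨_, sub_mem (P.smul_mem b1 ha1) (P.smul_mem a1 ha2), fun h7 => ht ?_,
    h5 ▸ sub_mem (P.smul_mem a0 ha2) (P.smul_mem b0 ha1)⟩
  rw [h7, mul_zero, eq_comm, sub_eq_zero] at h5
  rw [h3, h6 _ _ h5, h6 _ _ (sub_eq_zero.1 h7).symm]; simp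

include hτ

lemma msec_li : LinearIndependent ℂ fun i : Fin 5 => msec φ τ i :=
  Fintype.linearIndependent_iff.2 fun g hg i => by
    have h1 := Γ.eq_zero (h := ∑ j : Fin 5, g j • monomial j (τ j))
      (by simpa only [map_sum, aeval_smul', msec] using hg) (natDegree_sum_le_of_forall_le _ _ fun j _ =>
        (natDegree_smul_le _ _).trans ((natDegree_monomial_le _).trans (by omega)))
    have h2 := congrArg (coeff · i) h1
    simp only [finsetSum_coeff, coeff_smul, coeff_monomial, Fin.val_inj, smul_ite, smul_zero,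
      Finset.sum_ite_eq', Finset.mem_univ, if_true, coeff_zero] at h2
    exact (smul_eq_zero.1 h2).resolve_right (hτ i (by omega)).1

lemma msec_mem {j : ℕ} (hj : j ≤ 4) (hk : (j : ℤ) ≤ N.k) (h : M.S.D M.H j ≤ M.S.D N j) :
    msec φ τ j ∈ LL (M.S.res φ N) :=
  Γ.hc.aeval_mem Γ.hφ (Surf.monomial_mem_R hk (LL_mono h (hτ j hj).2))

lemma ident (hP : P ≤ LL (M.S.res φ M.H)) {s : F} (hs : s ≠ 0) {i : ℕ} (hi : i ≤ 3)
    (h : ∀ j : ℕ, j ≤ 3 → j ≠ i → ∀ g ∈ LL (M.S.D M.H j), s * g ∈ LL (M.S.D M.H (j + 1 : ℕ)) →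
      g = 0) {g : K} (h0 : g ≠ 0) (h1 : g ∈ P) (h2 : algebraMap F K s * φ * g ∈ P) :
    msec φ τ i ∈ P ∧ msec φ τ (i + 1) ∈ P := by
  have hH := sm_H (M := M) Γ.hp
  obtain ⟨G, m0, rfl⟩ := Γ.lift hH (hP h1)
  obtain ⟨G', m1, e1⟩ := Γ.lift hH (hP h2)
  have hd : ∀ G ∈ M.S.R M.H, G.natDegree ≤ 4 := fun G hG =>
    natDegree_le_iff_coeff_eq_zero.2 fun j hj => hG.1 j (by simp [H]; omega)
  have h3 : G' = Polynomial.C s * (G * X) := sub_eq_zero.1 (Γ.eq_zero (by simp [e1]; ring)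
    ((natDegree_sub_le _ _).trans (max_le (by have := hd _ m1; omega) ((natDegree_C_mul_le _ _).trans
      (natDegree_mul_le.trans (by have := hd _ m0; rw [natDegree_X]; omega))))))
  have h4 : ∀ j, G'.coeff (j + 1) = s * G.coeff j := fun j => by rw [h3, coeff_C_mul, coeff_mul_X]
  have h5 : G = monomial i (G.coeff i) := Polynomial.ext fun j => by
    rw [coeff_monomial]
    split_ifs with h6
    · rw [h6]
    by_cases h7 : j ≤ 3
    · exact h j h7 (Ne.symm h6) _ (hH.1.lr.coeff_mem m0 j) (h4 j ▸ hH.1.lr.coeff_mem m1 _)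
    · exact (mul_eq_zero.1 ((h4 j).symm.trans (m1.1 _ (by simp [H]; omega)))).resolve_left hs
  have h6 : G.coeff i ≠ 0 := fun h6 => h0 (by rw [h5, h6]; simp)
  have h7 : ∀ j : ℕ, j ≤ 4 → ∀ a ∈ LL (M.S.D M.H j), a ≠ 0 → aeval φ (monomial j a) ∈ P →
      msec φ τ j ∈ P := fun j hj a ha h8 h9 => by
    obtain ⟨t, ht⟩ := exists_smul_of_el (el_D_H Γ.hF j hj).le ha (hτ j hj).2 h8
    rw [msec, ht, ← smul_monomial, aeval_smul']
    exact P.smul_mem t h9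
  refine ⟨h7 i (by omega) _ (hH.1.lr.coeff_mem m0 i) h6 (h5 ▸ h1), h7 (i + 1) (by omega) _
    (h4 i ▸ hH.1.lr.coeff_mem m1 _) (mul_ne_zero hs h6) ?_⟩
  convert h2 using 1
  rw [h5]; simp; ring

lemma exists_pencil (hq : τ 0 * τ 4 - τ 1 * τ 3 + τ 2 ^ 2 = 0)
    (hb : ∀ z, el (M.S.res φ M.H - single z 1) ≤ 4) (hZ : 0 ≤ Z) (h0 : Z ≠ 0)
    (h4 : 4 ≤ el (M.S.res φ M.H - Z)) :
    ∃ (P : Submodule ℂ K) (D : Dv K), P ≤ LL (M.S.res φ M.H) ∧ P ≤ LL D ∧ 2 ≤ finrank ℂ P ∧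
      D.degree = y + 2 * x - 1 - Z.degree ∧ ¬ (msec φ τ 0 ∈ P ∧ msec φ τ 1 ∈ P) ∧
      ¬ (msec φ τ 3 ∈ P ∧ msec φ τ 4 ∈ P) := by
  classical
  obtain ⟨hx, he, hy⟩ := Γ.hp
  have d0 : (M.S.res φ M.H).degree = y + 3 * x := by rw [Γ.deg_res, nm_H]; simp [Nm.dc]
  have d1 : (M.S.res φ (M.cls 2 (single M.o 4 - single M.p₂ 1) 1 2 0 2)).degree =
      y + 2 * x - 1 := by rw [Γ.deg_res]; simp [nm, Nm.dc]
  have d2 : (M.S.res φ (M.cls 4 (single M.o 4) 2 3 2 4)).degree = y + 2 * x - 1 := by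
    rw [Γ.deg_res]; simp [nm, Nm.dc]; ring
  have o1 := M.h12
  have o2 := M.h23
  rw [← d1]
  refine hz (Γ.msec_li hτ) ?_ hb (lt_of_le_of_ne (Surf.res_mono fun Q δ h => ?_) fun h => ?_)
    (lt_of_le_of_ne (Surf.res_mono fun Q δ h => ?_) fun h => ?_) (d2.trans d1.symm)
    (fun i hi => Γ.msec_mem hτ (by omega) (by simp; omega) fun Q => ?_)
    (fun i hi => Γ.msec_mem hτ (by omega) (by simp; omega) fun Q => ?_) hZ h0 h4
  · have := congrArg (algebraMap F K) hq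
    simp [msec] at this ⊢
    linear_combination φ ^ 4 * this
  · rcases h with rfl | ⟨rfl, h⟩ | ⟨rfl, h⟩
    · simp [H, Finsupp.single_apply]; split_ifs <;> omega
    · rcases M.mem_T₁.1 h with rfl | rfl | rfl <;> simp [H, *]
      omega
    · simp [H, Finsupp.single_apply]; split_ifs <;> omega
  · rw [h] at d1; omega
  · rcases h with rfl | ⟨rfl, h⟩ | ⟨rfl, h⟩
    · simp [H]
    · rcases M.mem_T₁.1 h with rfl | rfl | rfl <;> simp [H]
    · simp [H]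
  · rw [h] at d2; omega
  · have : (i : ℕ) ≤ 2 := hi
    simp [D_eq, H, Finsupp.single_apply]; split_ifs <;> omega
  · have : 2 ≤ (i : ℕ) := hi
    simp [D_eq, H, Finsupp.single_apply]; split_ifs <;> omega

lemma mem_of_type (hP : P ≤ LL (M.S.res φ M.H)) (hN : M.Pen N) (hs : M.Sm N)
    (ht : M.nm N = ⟨1, 1, 1, 0, 0, 0⟩ ∨ M.nm N = ⟨1, 1, 0, 1, 0, 0⟩) (hf : Transcendental ℂ f)
    (h : 0 < el (M.S.res φ N - pol f)) {a : K} (ha : a ≠ 0) (ha1 : a ∈ P) (ha2 : f * a ∈ P) :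
    (msec φ τ 0 ∈ P ∧ msec φ τ 1 ∈ P) ∨ (msec φ τ 3 ∈ P ∧ msec φ τ 4 ∈ P) := by
  classical
  have h1 : ∀ D : Dv F, D.degree ≤ 1 → 0 < el D → el D ≤ 1 := fun D hD h => by
    have := el_le_degree_succ h
    by_cases h0 : D.degree = 1
    · rw [el_eq] <;> rw [Γ.hF] <;> omega
    · omega
  have h3 : ∀ {D E : Dv F} {z : F}, z ∈ LL D → (∀ P, D P ≤ E P) → z ∈ LL E := fun h h' =>
    LL_mono h' h
  have h4 : ∀ {D E : Dv F} {z : F}, z ∈ LL D → z ∈ LL E → z ∈ LL (D ⊓ E) := by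
    intro D E z h h' P
    rw [Finsupp.inf_apply]
    rcases le_total (D P) (E P) with h5 | h5
    · rw [inf_eq_left.2 h5]; exact h P
    · rw [inf_eq_right.2 h5]; exact h' P
  have o1 := o_ne₁ (M := M) Γ.hp
  have o2 := o_ne₂ (M := M) Γ.hp
  have o3 := M.h12
  have hk : N.k = 1 := by rcases ht with ht | ht <;> simp only [nm, Nm.mk.injEq] at ht <;> omega
  have d0 := deg_D_zero hN.nef
  have d1 := deg_D_top hN.nef
  obtain ⟨σ₀, z0, h0⟩ := el_pos_iff.1 hN.p0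
  obtain ⟨σ₁, z1, h2⟩ := el_pos_iff.1 hN.pk
  have e0 := h1 _ (by rcases ht with ht | ht <;> simp [d0, ht]) hN.p0
  have e1 := h1 _ (by rcases ht with ht | ht <;> simp [d1, ht]) hN.pk
  rw [hk] at h2 e1 d1
  rcases ht with ht | ht
  · simp only [nm, Nm.mk.injEq] at ht
    obtain ⟨g, g1, g2, g3⟩ := Γ.ratio hs hk (h3 h2 fun P => by
      simp [D_eq, Finsupp.single_apply, show N.l M.p₁ = 0 by omega, show N.l M.p₂ = 0 by omega,
        show N.r M.p₄ = 1 by omega, ht]; split_ifs <;> omega) h2 z1 z1 e0 e1 hf h ha ha1 ha2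
    refine Or.inr (Γ.ident hτ hP (div_ne_zero z1 z1) (i := 3) le_rfl (fun j hj hj' w m m' => ?_)
      g2 g1 g3)
    rw [div_self z1, one_mul] at m'
    have h5 := h4 m m'
    interval_cases j
    · refine eq_zero_of_el (D := single M.o 3 - single M.p₁ 1 - single M.p₂ 3)
        (el_eq_zero (by simp)).le (h3 h5 fun P => ?_)
      simp [D_H, Finsupp.single_apply]; split_ifs <;> simp_all
    · refine eq_zero_of_mem (M := M) Γ.hp (a := 0) (b := 2) le_rfl (by omega) (by omega) (by omega)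
        (by omega) (h3 h5 fun P => ?_)
      simp [D_H, Finsupp.single_apply]; split_ifs <;> simp_all
    · refine eq_zero_of_mem (M := M) Γ.hp (a := 0) (b := 1) le_rfl (by omega) (by omega) (by omega)
        (by omega) (h3 h5 fun P => ?_)
      simp [D_H, Finsupp.single_apply]; split_ifs <;> simp_all
    · exact absurd rfl hj'
  · rw [ht] at d0
    simp only [nm, Nm.mk.injEq] at ht
    obtain ⟨g, g1, g2, g3⟩ := Γ.ratio hs hk h0 h2 z0 z1 e0 e1 hf h ha ha1 ha2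
    have h5 : σ₁ / σ₀ ∈ LL (single M.p₁ 1 + single M.p₂ 1 - single M.o 1) := by
      have := mul_mem_LL h2 (mem_LL_neg_divF σ₀⁻¹)
      rw [divF_inv, neg_neg, ← neg_neg (divF σ₀), ← eq_neg_divF_of_degree z0 h0 d0.le,
        ← div_eq_mul_inv] at this
      refine h3 this fun P => ?_
      simp [D_eq, Finsupp.single_apply, show N.l M.p₁ = 1 by omega, show N.l M.p₂ = 1 by omega,
        show N.r M.p₄ = 1 by omega, ht]
      omega
    have h6 := val_eq_of_not_mem (x := M.p₁) h5 fun h6 =>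
      not_linEq (M := M) Γ.hp (a := 0) (b := 1) (k := 1) le_rfl (by omega) (by omega) (by omega)
        (by omega) (linEq_of_el_pos (el_pos_iff.2 ⟨_, div_ne_zero z1 z0, h3 h6 fun P => by
          simp; omega⟩)
          (by simp)).symm
    refine Or.inl (Γ.ident hτ hP (div_ne_zero z1 z0) (i := 0) (by omega)
      (fun j hj hj' w m m' => ?_) g2 g1 g3)
    refine eq_zero_of_mem (M := M) Γ.hp (a := 1) (b := 3 - j) (by omega) (by omega) (by omega)
      (by omega) (by omega) ?_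
    by_contra h7
    have h8 := val_eq_of_not_mem (x := M.p₁) m fun h8 => h7 (h3 h8 fun P => by
      rw [D_H _ _ (by omega) (by omega), max_eq_right (by omega), max_eq_left (by omega)]
      simp [Finsupp.single_apply]; split_ifs <;> omega)
    have h9 := m' M.p₁
    rw [map_mul, h6, h8, ← exp_add, exp_le_exp, D_H _ _ (by omega) (by omega),
      D_H _ _ (by omega) (by omega)] at h9
    simp [o1, o3.symm] at h9
    omega

omit hτ

lemma exists_H : ∃ (H : Dv K) (u : Fin 5 → K), H.degree = 3 * x + y ∧ (∀ i, u i ∈ LL H) ∧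
    LinearIndependent ℂ u ∧ u 0 * u 4 - u 1 * u 3 + u 2 ^ 2 = 0 := by
  obtain ⟨τ, hτ, hq⟩ := exists_tau (M := M) Γ.hp Γ.hF
  refine ⟨_, _, by rw [Γ.deg_res, nm_H]; simp [Nm.dc]; ring, fun i => Γ.msec_mem hτ (by omega)
    (by simp [H]; omega) le_rfl, Γ.msec_li hτ, ?_⟩
  have := congrArg (algebraMap F K) hq
  simp [msec] at this ⊢
  linear_combination φ ^ 4 * this

lemma le_deg_of_H (hN : M.Pen N) (hs : M.Sm N) (ht : M.nm N = ⟨1, 3, 0, 0, 0, 0⟩)
    (h : 0 < el (M.S.res φ N - D)) (h4 : 4 ≤ el D) :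
    2 * x + y - e ≤ D.degree ∧ (x = 4 → y = 7 → e = 0 → 17 ≤ D.degree) := by
  obtain ⟨τ, hτ, hq⟩ := exists_tau (M := M) Γ.hp Γ.hF
  have h1 : LinEq (M.S.res φ N) (M.S.res φ M.H) := linEq_res (ht.trans M.nm_H.symm)
    ((linEq_zero_of hN.p0 (by rw [deg_D_zero hN.nef, ht]; rfl)).symm.trans (linEq_zero_of
      ((el_D_H (M := M) Γ.hF 0 (by omega)).symm ▸ one_pos) (by simp [D_H])))
  rw [(h1.sub (LinEq.refl D)).el_eq] at h
  obtain ⟨Z, hZ, h2⟩ := el_pos_iff_linEq.1 h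
  have h3 : LinEq D (M.S.res φ M.H - Z) := by simpa using (LinEq.refl (M.S.res φ M.H)).sub h2
  have h5 := h3.degree_eq
  rw [map_sub, Γ.deg_res, nm_H] at h5
  simp only [Nm.dc] at h5
  obtain ⟨hx, he, hy⟩ := Γ.hp
  by_cases h0 : Z = 0
  · simp [h0] at h5; omega
  obtain ⟨P, E, p1, p2, p3, p4, p5, p6⟩ := Γ.exists_pencil hτ hq (fun z => by
    have h6 := Γ.bpf hN z
    have h7 := Γ.el_le hs
    rw [ht] at h7
    rw [← (h1.sub (LinEq.refl _)).el_eq]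
    simp [Nm.hs] at h7; omega) hZ h0 (h3.el_eq ▸ h4)
  have h6 := Γ.gon E ((Int.ofNat_le.2 p3).trans (finrank_le_el p2))
  refine ⟨by omega, ?_⟩
  rintro rfl rfl rfl
  by_contra h7
  have := finiteDimensional_of_le_LL p1
  obtain ⟨a, ha, a0⟩ := Submodule.exists_mem_ne_zero_of_ne_bot (p := P) (by rintro rfl; simp at p3)
  obtain ⟨b, hb, b0⟩ := SetLike.not_le_iff_exists.1 (show ¬ P ≤ ℂ ∙ a from fun h8 => by
    have := Submodule.finrank_mono h8
    rw [finrank_span_singleton a0] at this; omega)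
  have hf := transc_div a0 fun t ht => b0 (Submodule.mem_span_singleton.2 ⟨t, ht.symm⟩)
  have h8 := div_mul_cancel₀ b a0
  have h9 := degree_le_of_el_pos (el_pos_iff.2 ⟨a, a0, mem_LL_sub_pol (p2 ha) (h8.symm ▸ p2 hb)⟩)
  obtain ⟨N', n1, n2⟩ := Γ.pencil hf (by omega)
  exact (Γ.mem_of_type hτ p1 N'.2 (N'.2.sm Γ.hp (by omega)) (N'.2.good.sp1 (by omega)) hf n1 a0 ha
    (h8.symm ▸ hb)).elim p5 p6

end Mod.Cv

end Pool.Agent.Lib.MP_eeb174_ag
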