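import Pool.Agent.Lib.MP_eeb174_ag.GV

open Filter Set WithZero Module Polynomial

noncomputable section

namespace Pool.Agent.Lib.MP_eeb174_ag

/-- Divisor classes on a blown-up ruled surface: degree on the fibre, central bounds, and the
positions of the left and right break points. -/
def Cl (F : Type) [Field F] [Algebra ℂ F] : Type :=
  ℤ × Dv F × (Place F → ℤ) × (Place F → ℤ)

variable {F : Type} [Field F] [Algebra ℂ F]

instance : AddCommGroup (Cl F) :=
  inferInstanceAs (AddCommGroup (ℤ × Dv F × (Place F → ℤ) × (Place F → ℤ)))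

namespace Cl

/-- Constructor. -/
def mk (k : ℤ) (B : Dv F) (l r : Place F → ℤ) : Cl F := (k, B, l, r)
/-- Degree on the fibre. -/
def k (N : Cl F) : ℤ := N.1
/-- Central bounds. -/
def B (N : Cl F) : Dv F := N.2.1
/-- Left break points. -/
def l (N : Cl F) : Place F → ℤ := N.2.2.1
/-- Right break points. -/
def r (N : Cl F) : Place F → ℤ := N.2.2.2

variable (N M : Cl F) (P : Place F) (a : ℤ) (D : Dv F) (u v : Place F → ℤ)

@[simp] lemma mk_k : (mk a D u v).k = a := rfl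
@[simp] lemma mk_B : (mk a D u v).B = D := rfl
@[simp] lemma mk_l : (mk a D u v).l = u := rfl
@[simp] lemma mk_r : (mk a D u v).r = v := rfl
@[simp] lemma add_k : (N + M).k = N.k + M.k := rfl
@[simp] lemma add_B : (N + M).B = N.B + M.B := rfl
@[simp] lemma add_l : (N + M).l P = N.l P + M.l P := rfl
@[simp] lemma add_r : (N + M).r P = N.r P + M.r P := rfl
@[simp] lemma sub_k : (N - M).k = N.k - M.k := rfl
@[simp] lemma sub_B : (N - M).B = N.B - M.B := rfl
@[simp] lemma sub_l : (N - M).l P = N.l P - M.l P := rfl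
@[simp] lemma sub_r : (N - M).r P = N.r P - M.r P := rfl
@[simp] lemma zero_k : (0 : Cl F).k = 0 := rfl
@[simp] lemma zero_B : (0 : Cl F).B = 0 := rfl
@[simp] lemma zero_l : (0 : Cl F).l P = 0 := rfl
@[simp] lemma zero_r : (0 : Cl F).r P = 0 := rfl

/-- The height of the bounding line number `δ` at `P`. -/
def nb (N : Cl F) (P : Place F) (δ : ℤ) : ℤ := N.B P - δ * if 0 < δ then N.l P else N.r P

@[simp] lemma nb_zero : N.nb P 0 = N.B P := by simp [nb]
@[simp] lemma nb_one : N.nb P 1 = N.B P - N.l P := by simp [nb]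
@[simp] lemma nb_neg_one : N.nb P (-1) = N.B P + N.r P := by simp [nb]
@[simp] lemma add_nb : (N + M).nb P a = N.nb P a + M.nb P a := by
  simp only [nb, add_B, add_l, add_r, Finsupp.add_apply]; split_ifs <;> ring
@[simp] lemma sub_nb : (N - M).nb P a = N.nb P a - M.nb P a := by
  simp only [nb, sub_B, sub_l, sub_r, Finsupp.sub_apply]; split_ifs <;> ring
@[simp] lemma zero_nb : (0 : Cl F).nb P a = 0 := by simp [nb]

/-- The pull-back of a divisor, with a change of the fibre degree. -/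
def pb (a : ℤ) (D : Dv F) : Cl F := mk a D 0 0

@[simp] lemma pb_k : (pb a D).k = a := rfl
@[simp] lemma pb_B : (pb a D).B = D := rfl
@[simp] lemma pb_l : (pb a D).l P = 0 := rfl
@[simp] lemma pb_r : (pb a D).r P = 0 := rfl
@[simp] lemma pb_nb (δ : ℤ) : (pb a D).nb P δ = D P := by simp [nb]

end Cl

/-- A ruled surface with fibres blown up to the left over `T₁` and to the right over `T₂`. -/
structure Surf (F : Type) [Field F] [Algebra ℂ F] where
  α : Dv F
  T₁ : Finset (Place F)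
  T₂ : Finset (Place F)

namespace Surf
variable (S : Surf F)

/-- The fibre components over `P`. -/
def ok (P : Place F) (δ : ℤ) : Prop := δ = 0 ∨ (δ = 1 ∧ P ∈ S.T₁) ∨ (δ = -1 ∧ P ∈ S.T₂)

lemma ok_zero (P : Place F) : S.ok P 0 := Or.inl rfl

/-- The divisor that bounds the coefficient number `j`. -/
def D (N : Cl F) (j : ℤ) : Dv F :=
  N.B + j • S.α - ∑ P ∈ S.T₁, Finsupp.single P (max (N.l P - j) 0) -
    ∑ P ∈ S.T₂, Finsupp.single P (max (j - N.r P) 0)

/-- The left break point does not exceed the right one. -/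
def LR (N : Cl F) : Prop := ∀ P ∈ S.T₁, P ∈ S.T₂ → N.l P ≤ N.r P

/-- Classes that are nef on the fibre components. -/
structure Nef (N : Cl F) : Prop where
  k0 : 0 ≤ N.k
  l0 : ∀ P ∈ S.T₁, 0 ≤ N.l P
  lk : ∀ P ∈ S.T₁, N.l P ≤ N.k
  r0 : ∀ P ∈ S.T₂, 0 ≤ N.r P
  rk : ∀ P ∈ S.T₂, N.r P ≤ N.k
  lr : S.LR N

/-- The intersection number. -/
def ip (N M : Cl F) : ℤ :=
  N.k * M.B.degree + M.k * N.B.degree + N.k * M.k * S.α.degree - ∑ P ∈ S.T₁, N.l P * M.l P -
    ∑ P ∈ S.T₂, (N.k - N.r P) * (M.k - M.r P)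

open Classical in
/-- Left end of the interval on which the line `δ` is active. -/
def lo (N : Cl F) (P : Place F) (δ : ℤ) : ℤ :=
  if δ = 1 then 0 else if δ = 0 then (if P ∈ S.T₁ then N.l P else 0) else N.r P

open Classical in
/-- Right end of the interval on which the line `δ` is active. -/
def hi (N : Cl F) (P : Place F) (δ : ℤ) : ℤ :=
  if δ = 1 then N.l P else if δ = 0 then (if P ∈ S.T₂ then N.r P else N.k) else N.k

/-- Two classes with the same relevant data. -/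
def Eqv (N M : Cl F) : Prop := N.k = M.k ∧ ∀ P δ, S.ok P δ → N.nb P δ = M.nb P δ

variable {S} {N M : Cl F} {P : Place F} {δ j : ℤ}

lemma Eqv.B_eq (h : S.Eqv N M) : N.B = M.B := by
  ext P; simpa using h.2 P 0 (S.ok_zero P)

lemma Eqv.l_eq (h : S.Eqv N M) (hP : P ∈ S.T₁) : N.l P = M.l P := by
  have := h.2 P 1 (Or.inr (Or.inl ⟨rfl, hP⟩))
  simp only [Cl.nb_one, h.B_eq] at this; omega

lemma Eqv.r_eq (h : S.Eqv N M) (hP : P ∈ S.T₂) : N.r P = M.r P := by
  have := h.2 P (-1) (Or.inr (Or.inr ⟨rfl, hP⟩))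
  simp only [Cl.nb_neg_one, h.B_eq] at this; omega

open Classical in
lemma D_apply (N : Cl F) (j : ℤ) (P : Place F) : S.D N j P = N.B P + j * S.α P -
    (if P ∈ S.T₁ then max (N.l P - j) 0 else 0) - if P ∈ S.T₂ then max (j - N.r P) 0 else 0 := by
  simp [D, Finsupp.single_apply]

lemma D_le (h : S.ok P δ) (N : Cl F) (j : ℤ) : S.D N j P ≤ N.nb P δ + (S.α P + δ) * j := by
  rw [D_apply]
  rcases h with rfl | ⟨rfl, h⟩ | ⟨rfl, h⟩ <;> simp only [Cl.nb_zero, Cl.nb_one, Cl.nb_neg_one] <;>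
    split_ifs <;> first | contradiction | (ring_nf; omega)

lemma LR.exists_ok (h : S.LR N) (j : ℤ) (P : Place F) :
    ∃ δ, S.ok P δ ∧ S.D N j P = N.nb P δ + (S.α P + δ) * j := by
  have h0 := h P
  rw [D_apply]
  by_cases h1 : P ∈ S.T₁ ∧ j < N.l P
  · refine ⟨1, Or.inr (Or.inl ⟨rfl, h1.1⟩), ?_⟩
    rw [Cl.nb_one, if_pos h1.1]
    split_ifs with h2
    · have := h0 h1.1 h2; ring_nf; omega
    · ring_nf; omega
  by_cases h2 : P ∈ S.T₂ ∧ N.r P < j
  · refine ⟨-1, Or.inr (Or.inr ⟨rfl, h2.1⟩), ?_⟩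
    rw [Cl.nb_neg_one, if_pos h2.1]
    split_ifs with h3
    · simp only [h3, true_and] at h1; ring_nf; omega
    · ring_nf; omega
  · refine ⟨0, S.ok_zero P, ?_⟩
    rw [Cl.nb_zero]
    split_ifs with h3 h4 h4 <;> simp only [h3, h4, true_and] at h1 h2 <;> ring_nf <;> omega

lemma Nef.lo_nonneg (h : S.Nef N) (hδ : S.ok P δ) : 0 ≤ S.lo N P δ := by
  have h1 := h.l0 P
  have h2 := h.r0 P
  rcases hδ with rfl | ⟨rfl, h⟩ | ⟨rfl, h⟩ <;> simp only [lo] <;> split_ifs <;> simp_all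

lemma Nef.hi_le (h : S.Nef N) (hδ : S.ok P δ) : S.hi N P δ ≤ N.k := by
  have h1 := h.lk P
  have h2 := h.rk P
  rcases hδ with rfl | ⟨rfl, h⟩ | ⟨rfl, h⟩ <;> simp only [hi] <;> split_ifs <;> simp_all

lemma Nef.lo_le_hi (h : S.Nef N) (hδ : S.ok P δ) : S.lo N P δ ≤ S.hi N P δ := by
  have h1 := h.l0 P
  have h2 := h.r0 P
  have h3 := h.lk P
  have h4 := h.rk P
  have h5 := h.lr P
  have h6 := h.k0
  rcases hδ with rfl | ⟨rfl, h⟩ | ⟨rfl, h⟩ <;> simp only [lo, hi] <;> split_ifs <;> simp_all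

lemma Nef.D_eq (h : S.Nef N) (hδ : S.ok P δ) (h1 : S.lo N P δ ≤ j) (h2 : j ≤ S.hi N P δ) :
    S.D N j P = N.nb P δ + (S.α P + δ) * j := by
  have h5 := h.lr P
  rw [D_apply]
  rcases hδ with rfl | ⟨rfl, h⟩ | ⟨rfl, h⟩ <;>
    simp only [lo, hi, Cl.nb_zero, Cl.nb_one, Cl.nb_neg_one] at h1 h2 ⊢ <;>
    split_ifs at h1 h2 ⊢ <;> simp_all <;> ring_nf <;> omega

lemma lo_eq (h : S.ok P δ) (h' : S.ok P (δ + 1)) (N : Cl F) :
    S.lo N P δ = N.nb P δ - N.nb P (δ + 1) := by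
  rcases h with rfl | ⟨rfl, h⟩ | ⟨rfl, h⟩ <;> simp_all [ok, lo]

lemma lo_eq_zero (h : S.ok P δ) (h' : ¬ S.ok P (δ + 1)) (N : Cl F) : S.lo N P δ = 0 := by
  rcases h with rfl | ⟨rfl, h⟩ | ⟨rfl, h⟩ <;> simp_all [ok, lo]

lemma hi_eq (h : S.ok P δ) (h' : S.ok P (δ - 1)) (N : Cl F) :
    S.hi N P δ = N.nb P (δ - 1) - N.nb P δ := by
  rcases h with rfl | ⟨rfl, h⟩ | ⟨rfl, h⟩ <;> simp_all [ok, hi]

lemma hi_eq_k (h : S.ok P δ) (h' : ¬ S.ok P (δ - 1)) (N : Cl F) : S.hi N P δ = N.k := by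
  rcases h with rfl | ⟨rfl, h⟩ | ⟨rfl, h⟩ <;> simp_all [ok, hi]

lemma exists_top (P : Place F) : ∃ δ, S.ok P δ ∧ ¬ S.ok P (δ + 1) := by
  by_cases h : P ∈ S.T₁
  · exact ⟨1, Or.inr (Or.inl ⟨rfl, h⟩), by simp [ok]⟩
  · exact ⟨0, S.ok_zero P, by simp [ok, h]⟩

lemma exists_bot (P : Place F) : ∃ δ, S.ok P δ ∧ ¬ S.ok P (δ - 1) := by
  by_cases h : P ∈ S.T₂
  · exact ⟨-1, Or.inr (Or.inr ⟨rfl, h⟩), by simp [ok]⟩
  · exact ⟨0, S.ok_zero P, by simp [ok, h]⟩

lemma Nef.add (h : S.Nef N) (h' : S.Nef M) : S.Nef (N + M) where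
  k0 := add_nonneg h.k0 h'.k0
  l0 := fun P hP => add_nonneg (h.l0 P hP) (h'.l0 P hP)
  lk := fun P hP => add_le_add (h.lk P hP) (h'.lk P hP)
  r0 := fun P hP => add_nonneg (h.r0 P hP) (h'.r0 P hP)
  rk := fun P hP => add_le_add (h.rk P hP) (h'.rk P hP)
  lr := fun P hP hP' => add_le_add (h.lr P hP hP') (h'.lr P hP hP')

lemma nef_pb (Q : Dv F) : S.Nef (Cl.pb 0 Q) :=
  ⟨le_rfl, fun _ _ => le_rfl, fun _ _ => le_rfl, fun _ _ => le_rfl, fun _ _ => le_rfl,
    fun _ _ _ => le_rfl⟩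

lemma D_add_pb (N : Cl F) (a : ℤ) (Q : Dv F) (j : ℤ) :
    S.D (N + Cl.pb a Q) j = S.D N j + Q := by
  simp only [D, Cl.add_B, Cl.pb_B, Cl.add_l, Cl.pb_l, Cl.add_r, Cl.pb_r, add_zero]; abel

lemma Nef.D_zero (h : S.Nef N) : S.D N 0 = N.B - ∑ P ∈ S.T₁, Finsupp.single P (N.l P) := by
  rw [D, Finset.sum_eq_zero (s := S.T₂) fun P hP => by have := h.r0 P hP; simp; omega,
    Finset.sum_congr rfl fun P hP => by rw [sub_zero, max_eq_left (h.l0 P hP)]]
  simp

lemma Nef.D_top (h : S.Nef N) :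
    S.D N N.k = N.B + N.k • S.α - ∑ P ∈ S.T₂, Finsupp.single P (N.k - N.r P) := by
  rw [D, Finset.sum_eq_zero (s := S.T₁) fun P hP => by have := h.lk P hP; simp; omega,
    Finset.sum_congr rfl (s₂ := S.T₂) fun P hP => by
      rw [max_eq_left (sub_nonneg.2 (h.rk P hP))]]
  simp

lemma Nef.D_zero_add (h : S.Nef N) (h' : S.Nef M) : S.D (N + M) 0 = S.D N 0 + S.D M 0 := by
  rw [(h.add h').D_zero, h.D_zero, h'.D_zero]
  simp only [Cl.add_B, Cl.add_l, Finsupp.single_add, Finset.sum_add_distrib]; abel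

lemma Nef.D_top_add (h : S.Nef N) (h' : S.Nef M) :
    S.D (N + M) (N.k + M.k) = S.D N N.k + S.D M M.k := by
  rw [← Cl.add_k, (h.add h').D_top, h.D_top, h'.D_top]
  simp only [Cl.add_B, Cl.add_r, Cl.add_k, add_sub_add_comm, Finsupp.single_add,
    Finset.sum_add_distrib, add_smul]
  abel

lemma degree_D (N : Cl F) (j : ℤ) : (S.D N j).degree = N.B.degree + j * S.α.degree -
    ∑ P ∈ S.T₁, max (N.l P - j) 0 - ∑ P ∈ S.T₂, max (j - N.r P) 0 := by
  simp [D, map_sum]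

lemma ip_comm (N M : Cl F) : S.ip N M = S.ip M N := by
  simp only [ip, mul_comm (N.l _), mul_comm (N.k - _)]; ring

lemma ip_add (N N' M : Cl F) : S.ip (N + N') M = S.ip N M + S.ip N' M := by
  simp only [ip, Cl.add_k, Cl.add_B, Cl.add_l, Cl.add_r, map_add, add_sub_add_comm, add_mul,
    Finset.sum_add_distrib]
  ring

lemma sum_max_left {a : ℤ} (k : ℕ) (h0 : 0 ≤ a) (h : a ≤ k) :
    2 * ∑ j ∈ Finset.range (k + 1), max (a - j) 0 = a * (a + 1) := by
  induction k with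
  | zero => obtain rfl : a = 0 := by omega
            simp
  | succ k ih =>
    rcases h.lt_or_eq with h | rfl
    · rw [Finset.sum_range_succ, mul_add, ih (by omega), max_eq_right (by omega)]; simp
    · clear ih h0 h
      have : ∀ m : ℕ, ∀ b : ℤ, m ≤ b →
          2 * ∑ j ∈ Finset.range (m + 1), max (b - j) 0 = (m + 1) * (2 * b - m) := by
        intro m b
        induction m with
        | zero => intro hb; simp [max_eq_left (show 0 ≤ b by omega)]
        | succ m ih =>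
          intro hb
          rw [Finset.sum_range_succ, mul_add, ih (by omega), max_eq_left (by omega)]
          push_cast; ring
      rw [this _ _ le_rfl]; ring

lemma sum_max_right {a : ℤ} (k : ℕ) (h0 : 0 ≤ a) (h : a ≤ k) :
    2 * ∑ j ∈ Finset.range (k + 1), max (j - a) 0 = (k - a) * (k - a + 1) := by
  rw [← sum_max_left k (by omega) (by omega), ← Finset.sum_range_reflect]
  congr 1
  refine Finset.sum_congr rfl fun j hj => ?_
  have := Finset.mem_range.1 hj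
  rw [show k + 1 - 1 - j = k - j by omega, Nat.cast_sub (by omega)]
  congr 1; ring

lemma Nef.sum_degree_D (h : S.Nef N) :
    2 * ∑ j ∈ Finset.range (N.k.toNat + 1), (S.D N j).degree =
      S.ip N N + (S.D N 0).degree + (S.D N N.k).degree := by
  obtain ⟨k, hk⟩ := Int.eq_ofNat_of_zero_le h.k0
  have h1 : 2 * ∑ j ∈ Finset.range (k + 1), ∑ P ∈ S.T₁, max (N.l P - j) 0 =
      ∑ P ∈ S.T₁, N.l P * N.l P + ∑ P ∈ S.T₁, N.l P := by
    rw [Finset.sum_comm, Finset.mul_sum, ← Finset.sum_add_distrib]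
    exact Finset.sum_congr rfl fun P hP => by
      rw [sum_max_left k (h.l0 P hP) (hk ▸ h.lk P hP)]; ring
  have h2 : 2 * ∑ j ∈ Finset.range (k + 1), ∑ P ∈ S.T₂, max (j - N.r P) 0 =
      ∑ P ∈ S.T₂, (k - N.r P) * (k - N.r P) + ∑ P ∈ S.T₂, (k - N.r P) := by
    rw [Finset.sum_comm, Finset.mul_sum, ← Finset.sum_add_distrib]
    exact Finset.sum_congr rfl fun P hP => by
      rw [sum_max_right k (h.r0 P hP) (hk ▸ h.rk P hP)]; ring
  have h3 : 2 * ∑ j ∈ Finset.range (k + 1), (j : ℤ) = k * (k + 1) := by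
    have := sum_max_right (a := 0) k le_rfl (by omega)
    simpa using this
  rw [h.D_zero, h.D_top]
  simp only [degree_D, ip, hk, Int.toNat_natCast, Finset.sum_sub_distrib, Finset.sum_add_distrib,
    map_sub, map_add, map_sum, Finsupp.degree_single, map_zsmul, smul_eq_mul, ← Finset.sum_mul,
    Finset.sum_const, Finset.card_range, nsmul_eq_mul] at h1 h2 ⊢
  push_cast
  linear_combination S.α.degree * h3 - h1 - h2

end Surf

end Pool.Agent.Lib.MP_eeb174_ag
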