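import Pool.Agent.Lib.MP_eeb174_ag.GV

open Filter Set WithZero Module Finsupp

noncomputable section

namespace Pool.Agent.Lib.MP_eeb174_ag

variable {K : Type} [Field K] [Algebra ℂ K]

section FF
variable [IsFF K]

/-- Functions regular at `x` and `y` with the same value at both. -/
def same (x y : Place K) : Subalgebra ℂ K where
  carrier := {z | x.val z ≤ 1 ∧ y.val z ≤ 1 ∧ x.res z = y.res z}
  mul_mem' := fun {a b} ha hb => ⟨by rw [map_mul]; exact mul_le_one' ha.1 hb.1,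
    by rw [map_mul]; exact mul_le_one' ha.2.1 hb.2.1,
    by rw [Place.res_mul ha.1 hb.1, Place.res_mul ha.2.1 hb.2.1, ha.2.2, hb.2.2]⟩
  add_mem' := fun {a b} ha hb => ⟨x.val.map_add_le ha.1 hb.1, y.val.map_add_le ha.2.1 hb.2.1,
    by rw [Place.res_add ha.1 hb.1, Place.res_add ha.2.1 hb.2.1, ha.2.2, hb.2.2]⟩
  algebraMap_mem' := fun c => ⟨x.val_const_le c, y.val_const_le c, by simp⟩

lemma mem_same {x y : Place K} {z : K} : z ∈ same x y ↔
    ∃ c : ℂ, x.val (z - algebraMap ℂ K c) < 1 ∧ y.val (z - algebraMap ℂ K c) < 1 :=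
  ⟨fun h => ⟨_, Place.val_sub_res h.1, h.2.2 ▸ Place.val_sub_res h.2.1⟩, fun ⟨_, h1, h2⟩ =>
    ⟨x.mem_iff.1 (x.mem_of_val_sub_lt h1), y.mem_iff.1 (y.mem_of_val_sub_lt h2),
      by rw [Place.res_eq h1, Place.res_eq h2]⟩⟩

lemma same_lt_iff {x y : Place K} {z : K} (h : z ∈ same x y) : x.val z < 1 ↔ y.val z < 1 := by
  rw [← Place.res_eq_zero_iff h.1, ← Place.res_eq_zero_iff h.2.1, h.2.2]

lemma same_eq_iff {x y : Place K} {z : K} (h : z ∈ same x y) : x.val z = 1 ↔ y.val z = 1 := by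
  rw [← Place.res_ne_zero_iff h.1, ← Place.res_ne_zero_iff h.2.1, h.2.2]

lemma inv_mem_same {x y : Place K} {z : K} (h : z ∈ same x y) (h1 : x.val z = 1) :
    z⁻¹ ∈ same x y := by
  have h2 := (same_eq_iff h).1 h1
  have h0 : z ≠ 0 := by rintro rfl; simp at h1
  have h3 : ∀ p : Place K, p.val z = 1 → p.val z⁻¹ ≤ 1 ∧ p.res z⁻¹ = (p.res z)⁻¹ := fun p hp => by
    have h4 : p.val z⁻¹ ≤ 1 := by rw [map_inv₀, hp, inv_one]
    refine ⟨h4, eq_inv_of_mul_eq_one_left ?_⟩
    rw [← Place.res_mul h4 hp.le, inv_mul_cancel₀ h0, Place.res_one]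
  exact ⟨(h3 x h1).1, (h3 y h2).1, by rw [(h3 x h1).2, (h3 y h2).2, h.2.2]⟩

lemma eventually_val_eq_one {z : K} (hz : z ≠ 0) : ∀ᶠ x : Place K in cofinite, x.val z = 1 :=
  (show ∀ᶠ x : Place K in cofinite, x.ord z = 0 from Place.finite_ord z).mono fun x hx => by
    rw [x.val_eq hz, hx]; rfl

omit [IsFF K] in
lemma eventually_apply_eq_zero (D : Dv K) : ∀ᶠ x : Place K in cofinite, D x = 0 :=
  D.hasFiniteSupport

lemma eventually_exact {z : K} (hz : z ≠ 0) (D : Dv K) :
    ∀ᶠ x : Place K in cofinite, x.val z = exp (D x) := by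
  filter_upwards [eventually_val_eq_one hz, eventually_apply_eq_zero D] with x h1 h2
  rw [h1, h2, exp_zero]

lemma eventually_inv_same (z : K) :
    ∀ᶠ x : Place K in cofinite, ∀ y, z ∈ same x y → z⁻¹ ∈ same x y := by
  by_cases hz : z = 0
  · simp [hz]
  · exact (eventually_val_eq_one hz).mono fun x hx y h => inv_mem_same h hx

/-- Elements of a generated field take equal values where the generators do. -/
lemma eventually_same_adjoin {S : Set K} {z : K} (hz : z ∈ IntermediateField.adjoin ℂ S) :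
    ∀ᶠ x : Place K in cofinite, ∀ y, (∀ s ∈ S, s ∈ same x y) → z ∈ same x y := by
  induction hz using IntermediateField.adjoin_induction with
  | mem s hs => exact Eventually.of_forall fun x y h => h s hs
  | algebraMap c => exact Eventually.of_forall fun x y _ => (same x y).algebraMap_mem c
  | add a b _ _ ha hb =>
    filter_upwards [ha, hb] with x h1 h2 y h using add_mem (h1 y h) (h2 y h)
  | inv a _ ha =>
    filter_upwards [ha, eventually_inv_same a] with x h1 h2 y h using h2 y (h1 y h)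
  | mul a b _ _ ha hb =>
    filter_upwards [ha, hb] with x h1 h2 y h using mul_mem (h1 y h) (h2 y h)

omit [IsFF K] in
lemma KV_le_adjoin (V : Submodule ℂ K) {v : K} (hv : v ≠ 0) :
    KV V ≤ IntermediateField.adjoin ℂ ((· / v) '' V) := by
  refine IntermediateField.adjoin_le_iff.2 ?_
  rintro _ ⟨a, ha, b, hb, rfl⟩
  rw [← div_div_div_cancel_right₀ hv]
  exact div_mem (IntermediateField.subset_adjoin _ _ ⟨a, ha, rfl⟩)
    (IntermediateField.subset_adjoin _ _ ⟨b, hb, rfl⟩)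

lemma eventually_same_KV {V : Submodule ℂ K} {v z : K} (hv : v ≠ 0) (hz : z ∈ KV V) :
    ∀ᶠ x : Place K in cofinite, ∀ y, (∀ w ∈ V, w / v ∈ same x y) → z ∈ same x y :=
  (eventually_same_adjoin (KV_le_adjoin V hv hz)).mono fun _ h y h1 =>
    h y (by rintro _ ⟨w, hw, rfl⟩; exact h1 w hw)

lemma val_div_sub_lt {D : Dv K} {x : Place K} {v w : K} {c : ℂ} (hx : x.val v = exp (D x))
    (h : w - c • v ∈ LL (D - single x 1)) : x.val (w / v - algebraMap ℂ K c) < 1 := by
  have h0 : v ≠ 0 := (x.val_eq_exp_iff.1 hx).1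
  have : w / v - algebraMap ℂ K c = (w - c • v) / v := by rw [Algebra.smul_def]; field_simp
  rw [this, map_div₀, hx, div_lt_one₀ exp_pos, x.val_lt_exp_iff]
  exact ((mem_LL_sub_single zero_le_one).1 h).2

/-- A partner of `x` sees the same values of the ratios. -/
lemma same_of_partner {V : Submodule ℂ K} {D : Dv K} (hV : IsBase V D) {x y : Place K} {v : K}
    (hv : v ∈ V) (hx : x.val v = exp (D x))
    (h : V ⊓ LL (D - single x 1) ≤ LL (D - single y 1)) :
    y.val v = exp (D y) ∧ ∀ w ∈ V, w / v ∈ same x y := by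
  have h1 : ∀ w ∈ V, ∃ c : ℂ, w - c • v ∈ V ⊓ LL (D - single x 1) := fun w hw => by
    obtain ⟨c, hc⟩ := exists_sub_smul_mem (hV.le hv) hx (hV.le hw)
    exact ⟨c, sub_mem hw (V.smul_mem c hv), hc⟩
  have h2 : y.val v = exp (D y) := val_eq_of_not_mem (hV.le hv) fun h2 => by
    obtain ⟨w, hw, h3⟩ := hV.ex y
    obtain ⟨c, hc⟩ := h1 w hw
    exact not_mem_of_val_eq h3 (by simpa using add_mem (h hc) (Submodule.smul_mem _ c h2))
  refine ⟨h2, fun w hw => ?_⟩
  obtain ⟨c, hc⟩ := h1 w hw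
  exact mem_same.2 ⟨c, val_div_sub_lt hx hc.2, val_div_sub_lt h2 (h hc)⟩

lemma partner_of_same {V : Submodule ℂ K} {D : Dv K} (hV : V ≤ LL D) {x y : Place K} {v : K}
    (hv : v ∈ V) (hx : x.val v = exp (D x)) (h : ∀ w ∈ V, w / v ∈ same x y) :
    V ⊓ LL (D - single x 1) ≤ LL (D - single y 1) := by
  rintro w ⟨hw, h1⟩
  have h0 : v ≠ 0 := (x.val_eq_exp_iff.1 hx).1
  have h2 := val_div_sub_lt (w := w) (c := 0) hx (by simpa using h1)
  rw [map_zero, sub_zero, same_lt_iff (h w hw), map_div₀,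
    div_lt_one₀ (by simpa [pos_iff_ne_zero] using h0)] at h2
  exact (mem_LL_sub_single zero_le_one).2 ⟨hV hw, y.val_lt_exp_iff.1 (h2.trans_le (hV hv y))⟩

/-- If everything takes equal values then the places agree. -/
lemma eventually_eq_of_same {S : Set K} (hS : IntermediateField.adjoin ℂ S = ⊤) :
    ∀ᶠ x : Place K in cofinite, ∀ y, (∀ s ∈ S, s ∈ same x y) → y = x := by
  obtain ⟨u, hu⟩ := IsFF.ex (K := K)
  obtain ⟨m, b, -, hb⟩ := exists_gens_chartRing hu
  have h1 : ∀ z : K, z ∈ IntermediateField.adjoin ℂ S := fun z => hS ▸ IntermediateField.mem_top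
  filter_upwards [eventually_same_adjoin (h1 u),
    eventually_all.2 fun i => eventually_same_adjoin (h1 (b i))] with x h2 h3 y h
  by_contra hne
  have h4 := h2 y h
  obtain ⟨s, hs, h5, h6⟩ := (good_fin hu).sep (x.mem_iff.2 h4.1) (y.mem_iff.2 h4.2.1) hne
  obtain ⟨p, rfl⟩ := hb s hs
  have h7 : ∑ i, Polynomial.aeval u (p i) * b i ∈ same x y := sum_mem fun i _ =>
    mul_mem (Algebra.adjoin_le (S := same x y) (singleton_subset_iff.2 h4)
      (Polynomial.aeval_mem_adjoin_singleton ℂ u)) (h3 i y h)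
  exact h6.ne ((same_eq_iff h7).1 h5)

open Polynomial in
/-- A proper subfield does not separate the points. -/
lemma eventually_exists_same (L : IntermediateField ℂ K) {u : K} (hu : Transcendental ℂ u)
    (huL : u ∈ L) (hL : L ≠ ⊤) :
    ∀ᶠ x : Place K in cofinite, ∃ y, y ≠ x ∧ ∀ z ∈ L, z ∈ x.O → z ∈ same x y := by
  obtain ⟨θ, hθ⟩ : ∃ θ, θ ∉ L := by
    by_contra h
    push Not at h
    exact hL (eq_top_iff.2 fun z _ => h z)
  have hfin : FiniteDimensional L K := by
    have := IsFF.fin u hu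
    have hle : IntermediateField.adjoin ℂ {u} ≤ L :=
      IntermediateField.adjoin_simple_le_iff.2 huL
    let _ := (IntermediateField.inclusion hle).toAlgebra
    have : IsScalarTower (IntermediateField.adjoin ℂ {u}) L K :=
      IsScalarTower.of_algebraMap_eq fun _ => rfl
    exact Module.Finite.right (IntermediateField.adjoin ℂ {u}) L K
  have hint : IsIntegral L θ := Algebra.IsIntegral.isIntegral θ
  have hdeg : 2 ≤ (minpoly L θ).natDegree :=
    (minpoly.two_le_natDegree_iff hint).2 (by rintro ⟨z, rfl⟩; exact hθ z.2)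
  obtain ⟨a, b, hab⟩ : (minpoly L θ).Separable := Algebra.IsSeparable.isSeparable L θ
  have hc : ∀ p : L[X], ∀ᶠ x : Place K in cofinite, ∀ i, (p.coeff i : K) ∈ x.O := fun p => by
    filter_upwards [(eventually_all_finset p.support).2 fun i _ =>
      eventually_mem (p.coeff i : K)] with x hx i
    by_cases hi : i ∈ p.support
    · exact hx i hi
    · rw [Polynomial.notMem_support_iff.1 hi]; exact x.O.zero_mem
  filter_upwards [hc (minpoly L θ), hc a, hc b] with x h1 h2 h3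
  let A : Subalgebra ℂ L := (chartRing {x}).comap L.val
  have hA : ∀ z : A, x.val ((z : L) : K) ≤ 1 := fun z => x.mem_iff.1 (z.2 x rfl)
  have hl : ∀ p : L[X], (∀ i, (p.coeff i : K) ∈ x.O) → p ∈ lifts (algebraMap A L) := fun p hp =>
    (lifts_iff_coeff_lifts p).2 fun i => ⟨⟨p.coeff i, by rintro _ rfl; exact hp i⟩, rfl⟩
  have hinj : Function.Injective (algebraMap A L) := Subtype.val_injective
  obtain ⟨M, hM, hMd, hMm⟩ := lifts_and_natDegree_eq_and_monic (hl _ h1) (minpoly.monic hint)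
  obtain ⟨a', ha⟩ := (mem_lifts _).1 (hl _ h2)
  obtain ⟨b', hb⟩ := (mem_lifts _).1 (hl _ h3)
  have hsep : M.Separable := ⟨a', b', map_injective _ hinj (by
    rw [Polynomial.map_add, Polynomial.map_mul, Polynomial.map_mul, ← derivative_map, hM, ha, hb,
      hab, Polynomial.map_one])⟩
  let χ : A →+* ℂ :=
    { toFun := fun z => x.res ((z : L) : K)
      map_one' := Place.res_one
      map_mul' := fun z w => Place.res_mul (hA z) (hA w)
      map_zero' := Place.res_zero
      map_add' := fun z w => Place.res_add (hA z) (hA w) }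
  obtain ⟨ρ, hρ, hne⟩ := Finset.exists_mem_ne (s := (M.map χ).roots.toFinset) (by
    rw [Multiset.toFinset_card_of_nodup (nodup_roots hsep.map), IsAlgClosed.card_roots_eq_natDegree,
      hMm.natDegree_map, hMd]
    exact hdeg) (x.res θ)
  have hρ' : M.eval₂ χ ρ = 0 := by
    rw [← eval_map]; exact (mem_roots'.1 (Multiset.mem_toFinset.1 hρ)).2
  let φ : A[X] →ₐ[ℂ] K := aevalTower (L.val.comp A.val) θ
  have hφ : ∀ Q : A[X], φ Q = aeval θ (Q.map (algebraMap A L)) := fun Q => by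
    rw [aeval_def, eval₂_map]; rfl
  let J : Ideal φ.range := (RingHom.ker (eval₂RingHom χ ρ)).map φ.rangeRestrict
  have hJ : J ≠ ⊤ := by
    intro h4
    obtain ⟨Q, hQ, e⟩ := (Ideal.mem_map_iff_of_surjective _ φ.rangeRestrict_surjective).1
      (h4 ▸ Submodule.mem_top : (1 : φ.range) ∈ J)
    have h5 : φ (1 - Q) = 0 := by
      rw [map_sub, map_one, sub_eq_zero]; exact congrArg Subtype.val e.symm
    rw [hφ] at h5
    have h6 := minpoly.dvd L θ h5
    rw [← hM, map_dvd_map _ hinj hMm] at h6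
    have h7 := map_dvd (eval₂RingHom χ ρ) h6
    rw [map_sub, map_one, show eval₂RingHom χ ρ Q = 0 from hQ, coe_eval₂RingHom, hρ'] at h7
    simp at h7
  have hχ : ∀ c : ℂ, χ (algebraMap ℂ A c) = c := fun c => Place.res_const c
  have h4 : φ.rangeRestrict (X - C (algebraMap ℂ A ρ)) ∈ J :=
    Ideal.mem_map_of_mem _ (by simp [RingHom.mem_ker, hχ])
  have h5 : (φ.rangeRestrict (X - C (algebraMap ℂ A ρ)) : K) = θ - algebraMap ℂ K ρ := by
    simp [φ]
  obtain ⟨y, -, hy⟩ := exists_place_of_ideal _ J hJ h4 fun h0 => hθ (by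
    rw [h0] at h5
    rw [sub_eq_zero.1 h5.symm]
    exact L.algebraMap_mem ρ)
  refine ⟨y, fun h => hne (Place.res_eq (h ▸ h5 ▸ y.mem_nonunits_iff.1 (hy _ h4))).symm,
    fun z hz hx => ?_⟩
  let z' : A := ⟨⟨z, hz⟩, by rintro _ rfl; exact hx⟩
  have h6 : φ.rangeRestrict (C (z' - algebraMap ℂ A (χ z'))) ∈ J :=
    Ideal.mem_map_of_mem _ (by simp [RingHom.mem_ker, hχ])
  have h7 : (φ.rangeRestrict (C (z' - algebraMap ℂ A (χ z'))) : K) =
      z - algebraMap ℂ K (x.res z) := by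
    simp [φ, z', χ]
  exact mem_same.2 ⟨_, Place.val_sub_res (x.mem_iff.1 hx), h7 ▸ y.mem_nonunits_iff.1 (hy _ h6)⟩

lemma IsBase.exists_ne_zero {V : Submodule ℂ K} {D : Dv K} (hV : IsBase V D) :
    ∃ v ∈ V, v ≠ 0 := by
  obtain ⟨x⟩ : Nonempty (Place K) := inferInstance
  obtain ⟨v, hv, h⟩ := hV.ex x
  exact ⟨v, hv, (x.val_eq_exp_iff.1 h).1⟩

lemma exists_transc_div {V : Submodule ℂ K} (h2 : 2 ≤ finrank ℂ V) :
    ∃ v ∈ V, ∃ w ∈ V, v ≠ 0 ∧ Transcendental ℂ (w / v) := by
  obtain ⟨v, hv, h0⟩ := Submodule.exists_mem_ne_zero_of_ne_bot (p := V) (by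
    rintro rfl; simp at h2)
  have h1 : ¬ V ≤ ℂ ∙ v := fun h1 => by
    have := Submodule.finrank_mono h1
    rw [finrank_span_singleton h0] at this
    omega
  obtain ⟨w, hw, h3⟩ := SetLike.not_le_iff_exists.1 h1
  exact ⟨v, hv, w, hw, h0, transc_of_not_const fun c hc => h3 (Submodule.mem_span_singleton.2
    ⟨c, by rw [Algebra.smul_def, ← hc, div_mul_cancel₀ _ h0]⟩)⟩

end FF

variable [Algebra (RatFunc ℂ) K] [IsScalarTower ℂ (RatFunc ℂ) K] [FiniteDimensional (RatFunc ℂ) K]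

lemma eventually_ord_sub_res {f : K} (hf : Transcendental ℂ f) :
    ∀ᶠ x : Place K in cofinite, x.val (f - algebraMap ℂ K (x.res f)) = exp (-1) := by
  obtain ⟨d, hd⟩ := exists_deriv (K := K)
  have h1 : ∀ᶠ x : Place K in cofinite, x.ord (d x.unif) = 0 := finite_ord_deriv hd
  have h2 : ∀ᶠ x : Place K in cofinite, x.ord (d f) = 0 := Place.finite_ord _
  filter_upwards [h1, h2, eventually_mem f] with x h3 h4 h5
  have := ord_deriv_of_res hd x hf (Place.val_sub_res (x.mem_iff.1 h5))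
  exact x.val_eq_exp_iff.2 ⟨transc_sub_ne hf _, by omega⟩

theorem eventually_simple {V : Submodule ℂ K} {D : Dv K} (_hV : IsBase V D)
    (h2 : 2 ≤ finrank ℂ V) : ∀ᶠ x in cofinite, ∃ v ∈ V, x.val v = exp (D x - 1) := by
  obtain ⟨v, hv, w, hw, h0, ht⟩ := exists_transc_div h2
  filter_upwards [eventually_ord_sub_res ht, eventually_exact h0 D] with x h3 h4
  refine ⟨w - x.res (w / v) • v, sub_mem hw (V.smul_mem _ hv), ?_⟩
  have : w - x.res (w / v) • v = (w / v - algebraMap ℂ K (x.res (w / v))) * v := by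
    rw [Algebra.smul_def, sub_mul, div_mul_cancel₀ _ h0]
  rw [this, map_mul, h3, h4, ← exp_add, neg_add_eq_sub]

theorem eventually_no_partner {V : Submodule ℂ K} {D : Dv K} (hV : IsBase V D) (hK : KV V = ⊤) :
    ∀ᶠ x in cofinite, ∀ y, y ≠ x → ¬ V ⊓ LL (D - single x 1) ≤ LL (D - single y 1) := by
  obtain ⟨v, hv, h0⟩ := hV.exists_ne_zero
  filter_upwards [eventually_eq_of_same (top_le_iff.1 (hK.ge.trans (KV_le_adjoin V h0))),
    eventually_exact h0 D] with x h1 h2 y hy h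
  exact hy (h1 y (by rintro _ ⟨w, hw, rfl⟩; exact (same_of_partner hV hv h2 h).2 w hw))

theorem eventually_isBase {V : Submodule ℂ K} {D : Dv K} (hV : IsBase V D)
    (h2 : 2 ≤ finrank ℂ V) (hK : KV V = ⊤) :
    ∀ᶠ x in cofinite, IsBase (V ⊓ LL (D - single x 1)) (D - single x 1) := by
  filter_upwards [eventually_simple hV h2, eventually_no_partner hV hK] with x h3 h4
  refine ⟨inf_le_right, fun y => ?_⟩
  by_cases hy : y = x
  · obtain ⟨v, hv, h5⟩ := h3
    exact ⟨v, ⟨hv, (mem_LL_sub_single zero_le_one).2 ⟨hV.le hv, h5.le⟩⟩, by simpa [hy] using h5⟩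
  · obtain ⟨v, hv, h5⟩ := SetLike.not_le_iff_exists.1 (h4 y hy)
    exact ⟨v, hv, by simpa [single_eq_of_ne hy] using val_eq_of_not_mem (hV.le hv.1) h5⟩

theorem eventually_partner {V : Submodule ℂ K} {D : Dv K} (hV : IsBase V D)
    (h2 : 2 ≤ finrank ℂ V) (hK : KV V ≠ ⊤) :
    ∀ᶠ x in cofinite, ∃ y, y ≠ x ∧ V ⊓ LL (D - single x 1) ≤ LL (D - single y 1) := by
  obtain ⟨v, hv, w, hw, h0, ht⟩ := exists_transc_div h2
  filter_upwards [eventually_exists_same _ ht (div_mem_KV hw hv) hK, eventually_exact h0 D]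
    with x ⟨y, hy, h3⟩ h4
  refine ⟨y, hy, partner_of_same hV.le hv h4 fun z hz => h3 _ (div_mem_KV hz hv) ?_⟩
  rw [x.mem_iff, map_div₀, h4, div_le_one₀ exp_pos]
  exact hV.le hz x

theorem adjoin_pair_eq_top {a b : K} {A B : Dv K} (hA : 0 ≤ A) (hB : 0 ≤ B) (hA2 : degree A = 2)
    (hB2 : degree B = 2) (ha : a ∈ LL A) (hb : b ∈ LL B) (ha' : Transcendental ℂ a)
    (hb' : Transcendental ℂ b) (h : ¬ LinEq A B) :
    IntermediateField.adjoin ℂ {a, b} = ⊤ := by
  by_contra hne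
  have h1 : a ∈ IntermediateField.adjoin ℂ {a, b} := IntermediateField.subset_adjoin _ _ (by simp)
  have h2 : b ∈ IntermediateField.adjoin ℂ {a, b} := IntermediateField.subset_adjoin _ _ (by simp)
  obtain ⟨x, ⟨y, hy, h3⟩, h4, h5⟩ := ((eventually_exists_same _ ha' h1 hne).and
    ((eventually_mem a).and (eventually_mem b))).exists
  have key : ∀ {a : K} {A : Dv K}, 0 ≤ A → degree A = 2 → a ∈ LL A → Transcendental ℂ a →
      a ∈ same x y → LinEq A (single x 1 + single y 1) := fun {a A} hA hA2 ha ha' hs => by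
    obtain ⟨c, h6, h7⟩ := mem_same.1 hs
    have h8 : ∀ p : Place K, p.val (a - algebraMap ℂ K c) < 1 →
        p.val (a - algebraMap ℂ K c) ≤ exp (A p - 1) := fun p hp =>
      (p.val_lt_one_iff.1 hp).trans (exp_le_exp.2 (by have : 0 ≤ A p := hA p; omega))
    have h9 : a - algebraMap ℂ K c ∈ LL (A - single x 1 - single y 1) :=
      (mem_LL_sub_single zero_le_one).2 ⟨(mem_LL_sub_single zero_le_one).2
        ⟨sub_mem ha (const_mem_LL hA c), h8 x h6⟩, by simpa [single_eq_of_ne hy] using h8 y h7⟩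
    rw [sub_sub] at h9
    exact (linEq_of_el_pos (el_pos_iff.2 ⟨_, transc_sub_ne ha' c, h9⟩)
      (by rw [map_add, degree_single', degree_single', hA2]; rfl)).symm
  exact h ((key hA hA2 ha ha' (h3 a h1 h4)).trans (key hB hB2 hb hb' (h3 b h2 h5)).symm)

end Pool.Agent.Lib.MP_eeb174_ag
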