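import Pool.Agent.Lib.MP_eeb174_ag.Tri1

open Filter Set WithZero Module Finsupp IntermediateField

noncomputable section

namespace Pool.Agent.Lib.MP_eeb174_ag

variable {K : Type} [Field K] [Algebra ℂ K]

namespace Tri2

lemma deriv_adjoin (δ : Derivation ℂ K K) (a : K) {r : K} (hr : r ∈ ℂ⟮a⟯) :
    ∃ t ∈ ℂ⟮a⟯, δ r = t * δ a := by
  induction hr using IntermediateField.adjoin_induction with
  | mem x hx =>
    obtain rfl : x = a := hx
    exact ⟨1, one_mem _, (one_mul _).symm⟩
  | algebraMap c => exact ⟨0, zero_mem _, by rw [δ.map_algebraMap, zero_mul]⟩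
  | add x y _ _ hx hy =>
    obtain ⟨s, hs, e⟩ := hx
    obtain ⟨t, ht, e'⟩ := hy
    exact ⟨s + t, add_mem hs ht, by rw [map_add, e, e', add_mul]⟩
  | inv x hx h =>
    obtain ⟨s, hs, e⟩ := h
    exact ⟨-x⁻¹ ^ 2 * s, mul_mem (neg_mem (pow_mem (inv_mem hx) 2)) hs, by
      rw [δ.leibniz_inv, e, smul_eq_mul, mul_assoc]⟩
  | mul x y hx hy h h' =>
    obtain ⟨s, hs, e⟩ := h
    obtain ⟨t, ht, e'⟩ := h'
    exact ⟨x * t + y * s, add_mem (mul_mem hx ht) (mul_mem hy hs), by
      rw [δ.leibniz, e, e', smul_eq_mul, smul_eq_mul]; ring⟩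

variable [IsFF K]

lemma deriv_ratio (δ : Derivation ℂ K K) {L : IntermediateField ℂ K} {a b : K}
    (ha : Transcendental ℂ a) (haL : a ∈ L) (hb : b ∈ L) : ∃ t ∈ L, δ b = t * δ a := by
  have := IsFF.fin a ha
  have h0 : ℂ⟮a⟯ ≤ L := IntermediateField.adjoin_simple_le_iff.2 haL
  have h1 : ∀ p : Polynomial ℂ⟮a⟯, Polynomial.aeval b p ∈ L := by
    intro p
    induction p using Polynomial.induction_on' with
    | add p q hp hq => rw [map_add]; exact add_mem hp hq
    | monomial n c =>
      rw [Polynomial.aeval_monomial]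
      exact mul_mem (h0 c.2) (pow_mem hb n)
  have h2 : ∀ p : Polynomial ℂ⟮a⟯, ∃ t ∈ L,
      δ (Polynomial.aeval b p) = Polynomial.aeval b (Polynomial.derivative p) * δ b + t * δ a := by
    intro p
    induction p using Polynomial.induction_on' with
    | add p q hp hq =>
      obtain ⟨s, hs, e⟩ := hp
      obtain ⟨t, ht, e'⟩ := hq
      exact ⟨s + t, add_mem hs ht, by simp only [map_add, e, e']; ring⟩
    | monomial n c =>
      obtain ⟨t, ht, e⟩ := deriv_adjoin δ a c.2
      refine ⟨b ^ n * t, mul_mem (pow_mem hb n) (h0 ht), ?_⟩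
      rw [Polynomial.derivative_monomial, Polynomial.aeval_monomial, Polynomial.aeval_monomial,
        δ.leibniz, δ.leibniz_pow, map_mul, map_natCast]
      change (c : K) • _ + b ^ n • δ (c : K) = (c : K) * _ * _ * _ + _
      rw [e]
      simp only [smul_eq_mul, nsmul_eq_mul]
      ring
  obtain ⟨t, ht, e⟩ := h2 (minpoly ℂ⟮a⟯ b)
  have h3 : Polynomial.aeval b (Polynomial.derivative (minpoly ℂ⟮a⟯ b)) ≠ 0 :=
    (Algebra.IsSeparable.isSeparable ℂ⟮a⟯ b).aeval_derivative_ne_zero (minpoly.aeval _ _)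
  rw [minpoly.aeval, map_zero] at e
  refine ⟨-t / Polynomial.aeval b (Polynomial.derivative (minpoly ℂ⟮a⟯ b)),
    div_mem (neg_mem ht) (h1 _), ?_⟩
  field_simp
  linear_combination -e

/-- Functions regular at two places with the same value. -/
def Same (x y : Place K) : Subalgebra ℂ K where
  carrier := {z | ∃ c : ℂ, x.val (z - algebraMap ℂ K c) < 1 ∧ y.val (z - algebraMap ℂ K c) < 1}
  mul_mem' := by
    rintro a b ⟨c, h1, h2⟩ ⟨d, h3, h4⟩
    have h : ∀ p : Place K, p.val (a - algebraMap ℂ K c) < 1 → p.val (b - algebraMap ℂ K d) < 1 →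
        p.val (a * b - algebraMap ℂ K (c * d)) < 1 := fun p h1 h3 => by
      have e : a * b - algebraMap ℂ K (c * d) =
          (a - algebraMap ℂ K c) * b + algebraMap ℂ K c * (b - algebraMap ℂ K d) := by
        rw [map_mul]; ring
      rw [e]
      refine p.val.map_add_lt ?_ ?_
      · rw [map_mul]
        exact (mul_le_of_le_one_right' (p.mem_iff.1 (p.mem_of_val_sub_lt h3))).trans_lt h1
      · rw [map_mul]
        exact (mul_le_of_le_one_left' (p.val_const_le c)).trans_lt h3
    exact ⟨c * d, h x h1 h3, h y h2 h4⟩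
  add_mem' := by
    rintro a b ⟨c, h1, h2⟩ ⟨d, h3, h4⟩
    have e : a + b - algebraMap ℂ K (c + d) = (a - algebraMap ℂ K c) + (b - algebraMap ℂ K d) := by
      rw [map_add]; ring
    exact ⟨c + d, e ▸ x.val.map_add_lt h1 h3, e ▸ y.val.map_add_lt h2 h4⟩
  algebraMap_mem' := fun c => ⟨c, by simp, by simp⟩

lemma mem_Same {x y : Place K} {z : K} : z ∈ Same x y ↔
    ∃ c : ℂ, x.val (z - algebraMap ℂ K c) < 1 ∧ y.val (z - algebraMap ℂ K c) < 1 := Iff.rfl

lemma val_eq_one_of_sub (p : Place K) {z : K} {c : ℂ} (hc : c ≠ 0)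
    (h : p.val (z - algebraMap ℂ K c) < 1) : p.val z = 1 := by
  have e : z = algebraMap ℂ K c + (z - algebraMap ℂ K c) := by ring
  rw [e, p.val.map_add_eq_of_lt_left (by rwa [p.val_const hc]), p.val_const hc]

lemma Same.inv_mem {x y : Place K} {z : K} (hz : z ∈ Same x y) (h1 : x.val z = 1) :
    z⁻¹ ∈ Same x y := by
  obtain ⟨c, h2, h3⟩ := hz
  have hc : c ≠ 0 := by
    rintro rfl
    simp [h1] at h2
  have h : ∀ p : Place K, p.val (z - algebraMap ℂ K c) < 1 →
      p.val (z⁻¹ - algebraMap ℂ K c⁻¹) < 1 := fun p hp => by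
    have h4 := val_eq_one_of_sub p hc hp
    have h5 : z ≠ 0 := by rintro rfl; simp at h4
    have h6 : algebraMap ℂ K c ≠ 0 := by simpa using hc
    have e : z⁻¹ - algebraMap ℂ K c⁻¹ = -(z - algebraMap ℂ K c) / (z * algebraMap ℂ K c) := by
      rw [map_inv₀]; field_simp; ring
    rw [e, map_div₀, map_mul, h4, p.val_const hc, Valuation.map_neg, mul_one, div_one]
    exact hp
  exact ⟨c⁻¹, h x h2, h y h3⟩

lemma Same.lt_one {x y : Place K} {z : K} (hz : z ∈ Same x y) (h1 : x.val z < 1) :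
    y.val z < 1 := by
  obtain ⟨c, h2, h3⟩ := hz
  have hc : c = 0 := by
    by_contra hc
    exact h1.ne (val_eq_one_of_sub x hc h2)
  simpa [hc] using h3

lemma Same.mem_right {x y : Place K} {z : K} (hz : z ∈ Same x y) : z ∈ y.O := by
  obtain ⟨c, -, h3⟩ := hz
  exact y.mem_of_val_sub_lt h3

lemma ev_exact (D : Dv K) {w : K} (hw : w ≠ 0) :
    ∀ᶠ x : Place K in cofinite, D x = 0 ∧ x.val w = exp (D x) := by
  have h1 : ∀ᶠ x : Place K in cofinite, D x = 0 := D.hasFiniteSupport
  have h2 : ∀ᶠ x : Place K in cofinite, x.ord w = 0 := Place.finite_ord _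
  filter_upwards [h1, h2] with x h1 h2
  exact ⟨h1, by rw [x.val_eq hw, h1, h2, neg_zero]⟩

lemma exact_of_partner {W : Submodule ℂ K} [FiniteDimensional ℂ W] {E : Dv K} (hW : IsBase W E)
    {x y : Place K} (h : W ⊓ LL (E - single x 1) ≤ LL (E - single y 1)) {w : K} (hw : w ∈ W)
    (hx : x.val w = exp (E x)) : y.val w = exp (E y) := by
  have h1 : W ⊓ LL (E - single x 1) = W ⊓ LL (E - single y 1) :=
    Submodule.eq_of_le_of_finrank_le (le_inf inf_le_left h) (by
      have := hW.finrank_inf x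
      have := hW.finrank_inf y
      omega)
  refine val_eq_of_not_mem (hW.le hw) fun h2 => not_mem_of_val_eq hx ?_
  exact (h1.ge ⟨hw, h2⟩).2

lemma div_mem_Same {W : Submodule ℂ K} [FiniteDimensional ℂ W] {E : Dv K} (hW : IsBase W E)
    {x y : Place K} (h : W ⊓ LL (E - single x 1) ≤ LL (E - single y 1)) {v w : K} (hv : v ∈ W)
    (hw : w ∈ W) (hx : x.val w = exp (E x)) : v / w ∈ Same x y := by
  have hy := exact_of_partner hW h hw hx
  have h0 : w ≠ 0 := (x.val_eq_exp_iff.1 hx).1
  obtain ⟨c, hc⟩ := exists_sub_smul_mem (hW.le hw) hx (hW.le hv)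
  have h1 := h ⟨sub_mem hv (W.smul_mem c hw), hc⟩
  have h2 : ∀ p : Place K, p.val w = exp (E p) → v - c • w ∈ LL (E - single p 1) →
      p.val (v / w - algebraMap ℂ K c) < 1 := fun p hp hp' => by
    have e : v / w - algebraMap ℂ K c = (v - c • w) / w := by
      rw [Algebra.smul_def]; field_simp
    rw [e, map_div₀, hp, div_lt_one₀ exp_pos, p.val_lt_exp_iff]
    exact ((mem_LL_sub_single zero_le_one).1 hp').2
  exact ⟨c, h2 x hx hc, h2 y hy h1⟩

lemma eventually_same {W : Submodule ℂ K} [FiniteDimensional ℂ W] {E : Dv K} (hW : IsBase W E)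
    {z : K} (hz : z ∈ KV W) : ∀ᶠ x in cofinite, ∀ y,
      W ⊓ LL (E - single x 1) ≤ LL (E - single y 1) → z ∈ Same x y := by
  induction hz using IntermediateField.adjoin_induction with
  | mem z hz =>
    obtain ⟨v, hv, w, hw, rfl⟩ := hz
    by_cases h0 : w = 0
    · exact Eventually.of_forall fun x y _ => by rw [h0, div_zero]; exact zero_mem _
    · filter_upwards [ev_exact E h0] with x hx y h
      exact div_mem_Same hW h hv hw hx.2
  | algebraMap c => exact Eventually.of_forall fun x y _ => Subalgebra.algebraMap_mem _ c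
  | add a b _ _ ha hb =>
    filter_upwards [ha, hb] with x ha hb y h
    exact add_mem (ha y h) (hb y h)
  | inv a _ ha =>
    by_cases h0 : a = 0
    · exact Eventually.of_forall fun x y _ => by rw [h0, inv_zero]; exact zero_mem _
    · filter_upwards [ha, ev_exact 0 h0] with x ha hx y h
      exact Same.inv_mem (ha y h) (by simpa using hx.2)
  | mul a b _ _ ha hb =>
    filter_upwards [ha, hb] with x ha hb y h
    exact mul_mem (ha y h) (hb y h)

lemma uncountable_place : Uncountable (Place K) := by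
  obtain ⟨u, hu⟩ := IsFF.ex (K := K)
  choose p hp using exists_place_over hu
  have h : Function.Injective p := fun a b h => (p a).res_unique (hp a) (h ▸ hp b)
  exact (h.comp Complex.ofReal_injective).uncountable

lemma exists_forall_of_eventually {P : ℕ → Place K → Prop} (h : ∀ i, ∀ᶠ y in cofinite, P i y) :
    ∃ y, ∀ i, P i y := by
  have := uncountable_place (K := K)
  by_contra h1
  push Not at h1
  refine Set.not_countable_univ ((Set.countable_iUnion fun i =>
    (show {y | ¬ P i y}.Finite from h i).countable).mono fun y _ => ?_)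
  exact Set.mem_iUnion.2 (h1 y)

lemma finite_vanish (D : Dv K) {U : Submodule ℂ K} (hU : U ≠ ⊥) :
    {x : Place K | U ≤ LL (D - single x 1)}.Finite := by
  obtain ⟨u, hu, h0⟩ := (Submodule.ne_bot_iff U).1 hU
  refine Set.Finite.subset (ev_exact D h0) fun x hx hx' => ?_
  exact not_mem_of_val_eq hx'.2 (hx hu)

lemma two_le_ord {δ : Derivation ℂ K K} (hδ : δ ≠ 0) (x : Place K) {b : K} (hb : x.val b < 1)
    (h : x.val (δ b) < x.val (δ x.unif)) : x.val b ≤ exp (-2) := by
  by_cases h0 : b = 0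
  · simp [h0]
  rw [x.val_lt_one_iff, x.val_le_iff h0] at hb
  have h1 := ord_deriv hδ x (z := b) (by omega)
  have h2 := deriv_ne_zero hδ x.transc_unif
  have h3 : δ b ≠ 0 := deriv_ne_zero hδ (transc_of_not_const fun c hc => by
    by_cases h4 : c = 0
    · exact h0 (by rw [hc, h4, map_zero])
    · have := x.ord_eq_of_val (z := b) (m := 0) (by rw [hc, x.val_const h4]; simp)
      omega)
  rw [x.val_eq h2, x.val_eq h3, exp_lt_exp] at h
  rw [x.val_le_iff h0]
  omega

lemma val_deriv_lt {δ : Derivation ℂ K K} (hδ : δ ≠ 0) (x : Place K) {b : K}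
    (hb : x.val b ≤ exp (-2)) : x.val (δ b) < x.val (δ x.unif) := by
  have h2 := deriv_ne_zero hδ x.transc_unif
  by_cases h3 : δ b = 0
  · rw [h3, map_zero, x.val_eq h2]; exact exp_pos
  have h0 : b ≠ 0 := by rintro rfl; exact h3 (map_zero _)
  rw [x.val_le_iff h0] at hb
  have h1 := ord_deriv hδ x (z := b) (by omega)
  rw [x.val_eq h2, x.val_eq h3, exp_lt_exp]
  omega

end Tri2

variable [Algebra (RatFunc ℂ) K] [IsScalarTower ℂ (RatFunc ℂ) K] [FiniteDimensional (RatFunc ℂ) K]

open Tri2 in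
/-- Partners of a general point have the same tangent line. -/
lemma eventually_tangent {W : Submodule ℂ K} {E : Dv K} (hW : IsBase W E)
    (h2 : 2 ≤ finrank ℂ W) (hK : KV W ≠ ⊤) : ∀ᶠ y in cofinite, ∃ y', y' ≠ y ∧
      W ⊓ LL (E - single y 1) ≤ LL (E - single y' 1) ∧
      ∀ w ∈ W, y.val w ≤ exp (E y - 2) → y'.val w ≤ exp (E y' - 2) := by
  have := finiteDimensional_of_le_LL hW.le
  obtain ⟨δ, hδ⟩ := exists_deriv (K := K)
  obtain ⟨w₀, hw₀, h0⟩ := (Submodule.ne_bot_iff W).1 (by
    rintro rfl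
    simp at h2)
  obtain ⟨w₁, hw₁, h1⟩ : ∃ w₁ ∈ W, w₁ ∉ ℂ ∙ w₀ := SetLike.not_le_iff_exists.1 fun h => by
    have := Submodule.finrank_mono h
    rw [finrank_span_singleton h0] at this
    omega
  have ha : Transcendental ℂ (w₁ / w₀) :=
    transc_div h0 fun c hc => h1 (Submodule.mem_span_singleton.2 ⟨c, hc.symm⟩)
  have hδa := deriv_ne_zero hδ ha
  obtain ⟨s, hs⟩ := Module.Finite.iff_fg.1 (inferInstance : Module.Finite ℂ W)
  have h3 : ∀ᶠ y in cofinite, ∀ w ∈ s, ∀ y', W ⊓ LL (E - single y 1) ≤ LL (E - single y' 1) →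
      δ (w / w₀) / δ (w₁ / w₀) ∈ Same y y' := by
    rw [eventually_all_finset]
    intro w hw
    obtain ⟨t, ht, e⟩ := deriv_ratio δ ha (div_mem_KV hw₁ hw₀)
      (div_mem_KV (hs ▸ Submodule.subset_span hw) hw₀)
    rw [e, mul_div_cancel_right₀ _ hδa]
    exact eventually_same hW ht
  have h4 : ∀ᶠ y : Place K in cofinite, y.ord (δ y.unif) = 0 := finite_ord_deriv hδ
  filter_upwards [h3, h4, ev_exact E h0, ev_exact 0 hδa,
    eventually_partner hW h2 hK] with y h3 h4 h5 h6 h7
  obtain ⟨y', hy, h7⟩ := h7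
  refine ⟨y', hy, h7, fun w hw h8 => ?_⟩
  have h9 : δ (w / w₀) / δ (w₁ / w₀) ∈ Same y y' := by
    rw [← hs] at hw
    clear h8
    induction hw using Submodule.span_induction with
    | mem w hw => exact h3 w hw y' h7
    | zero => rw [zero_div, map_zero, zero_div]; exact zero_mem _
    | add a b _ _ ha hb => rw [add_div, map_add, add_div]; exact add_mem ha hb
    | smul c a _ ha =>
      rw [smul_div_assoc, δ.map_smul, smul_div_assoc]; exact Subalgebra.smul_mem _ ha c
  have h10 : y.val (w / w₀) ≤ exp (-2) := by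
    rw [map_div₀, h5.2, div_le_iff₀ exp_pos, ← exp_add]
    exact h8.trans (exp_le_exp.2 (by omega))
  have h11 : y.val (δ (w / w₀) / δ (w₁ / w₀)) < 1 := by
    have := val_deriv_lt hδ y h10
    rw [y.val_eq (deriv_ne_zero hδ y.transc_unif), h4] at this
    rw [map_div₀, h6.2]
    simpa using this
  have h12 := Same.lt_one h9 h11
  rw [map_div₀, div_lt_one₀ (by simpa [pos_iff_ne_zero] using hδa)] at h12
  have h13 := two_le_ord hδ y' (Same.lt_one (div_mem_Same hW h7 hw hw₀ h5.2)
    (h10.trans_lt (by rw [← exp_zero, exp_lt_exp]; omega)))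
    (h12.trans_le (val_deriv_le_unif hδ y' (Same.mem_right (div_mem_Same hW h7 hw₁ hw₀ h5.2))))
  rw [map_div₀, exact_of_partner hW h7 hw₀ h5.2, div_le_iff₀ exp_pos, ← exp_add] at h13
  exact h13.trans (exp_le_exp.2 (by omega))

open Tri2 in
theorem trisecant {V : Submodule ℂ K} {D : Dv K} (hV : IsBase V D) (h4 : 4 ≤ finrank ℂ V)
    (hK : KV V = ⊤) : ∀ᶠ x in cofinite, KV (V ⊓ LL (D - single x 1)) = ⊤ := by
  classical
  have := finiteDimensional_of_le_LL hV.le
  by_contra hcon
  have hinf : {x : Place K | KV (V ⊓ LL (D - single x 1)) ≠ ⊤ ∧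
      IsBase (V ⊓ LL (D - single x 1)) (D - single x 1)}.Infinite := fun h => hcon (by
    filter_upwards [h.compl_mem_cofinite, eventually_isBase hV (by omega) hK] with x h1 h2
    by_contra h3
    exact h1 ⟨h3, h2⟩)
  let p := hinf.natEmbedding
  have h1 : ∀ i, ∀ᶠ y in cofinite, y ≠ (p i).1 ∧ ∃ y', y' ≠ y ∧
      V ⊓ LL (D - single (p i).1 1) ⊓ LL (D - single (p i).1 1 - single y 1) ≤
        LL (D - single (p i).1 1 - single y' 1) ∧
      ∀ w ∈ V ⊓ LL (D - single (p i).1 1), y.val w ≤ exp ((D - single (p i).1 1 : Dv K) y - 2) →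
        y'.val w ≤ exp ((D - single (p i).1 1 : Dv K) y' - 2) := fun i =>
    (eventually_cofinite_ne _).and (eventually_tangent (p i).2.2 (by
      have := hV.finrank_inf (p i).1
      omega) (p i).2.1)
  obtain ⟨y, hy⟩ := exists_forall_of_eventually fun i => (h1 i).and (eventually_no_partner hV hK)
  have hy1 := fun i => (hy i).1
  have hy2 := (hy 0).2
  have hW2 : 2 ≤ finrank ℂ (V ⊓ LL (D - single y 2) : Submodule ℂ K) := by
    have := finrank_le_inf V hV.le (B := single y 2) (by simp)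
    rw [degree_single'] at this
    omega
  obtain ⟨E, hE⟩ := exists_isBase (V ⊓ LL (D - single y 2)) (by
    intro h
    rw [h] at hW2
    simp at hW2)
  have hS : ∀ᶠ z : Place K in cofinite, (E z = 0 ∧ D z = 0) ∧
      ∃ v ∈ V ⊓ LL (D - single y 2), z.val v = exp (E z - 1) :=
    ((show ∀ᶠ z : Place K in cofinite, E z = 0 from E.hasFiniteSupport).and
      (show ∀ᶠ z : Place K in cofinite, D z = 0 from D.hasFiniteSupport)).and
      (eventually_simple hE hW2)
  have hU : ∀ z : Place K, V ⊓ LL (D - (single y 1 + single z 1)) ≠ ⊥ := fun z h => by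
    have := finrank_le_inf V hV.le (B := single y 1 + single z 1) (add_nonneg (by simp) (by simp))
    rw [map_add, degree_single', degree_single', h] at this
    simp at this
    omega
  have hfin := Set.Finite.biUnion hS fun z _ => finite_vanish D (hU z)
  refine Set.infinite_of_injective_forall_mem (f := fun i => (p i).1)
    (Subtype.val_injective.comp p.injective) (fun i => ?_) hfin
  obtain ⟨hne, z, hz, h2, h3⟩ := hy1 i
  generalize (p i).1 = x at hne h2 h3 ⊢
  have hxz : (D - single x 1 : Dv K) z ≤ D z := sub_le_self D (show 0 ≤ single x 1 by simp) z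
  have hxy : (D - single x 1 : Dv K) y = D y := by simp [Finsupp.single_apply, hne.symm]
  simp only [Set.mem_iUnion, Set.mem_ofPred_eq]
  refine ⟨z, ?_, ?_⟩
  · rintro ⟨⟨h5, h6⟩, v, hv, h7⟩
    have h8 : ∀ w ∈ V ⊓ LL (D - single y 2) ⊓ LL (D - single x 1), z.val w ≤ exp (-2) :=
      fun w hw => (h3 w ⟨hw.1.1, hw.2⟩ (hxy ▸ ((mem_LL_sub_single zero_le_two).1 hw.1.2).2)).trans
        (exp_le_exp.2 (by omega))
    have h9 : V ⊓ LL (D - single y 2) ⊓ LL (D - single x 1) =
        V ⊓ LL (D - single y 2) ⊓ LL (E - single z 1) :=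
      Submodule.eq_of_le_of_finrank_le (fun w hw => ⟨hw.1, (mem_LL_sub_single zero_le_one).2
        ⟨hE.le hw.1, (h8 w hw).trans (exp_le_exp.2 (by omega))⟩⟩) (by
          have := hE.finrank_inf z
          have := finrank_inf_le (V ⊓ LL (D - single y 2)) (inf_le_left.trans hV.le) x
          omega)
    have h10 := h8 v (h9.ge ⟨hv, (mem_LL_sub_single zero_le_one).2 ⟨hE.le hv, h7.le⟩⟩)
    rw [h7, exp_le_exp] at h10
    omega
  · have h5 : V ⊓ LL (D - single x 1) ⊓ LL (D - single x 1 - single y 1) ≤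
        V ⊓ LL (D - (single y 1 + single z 1)) := fun w hw => by
      refine ⟨hw.1.1, ?_⟩
      rw [SetLike.mem_coe, ← sub_sub, mem_LL_sub_single zero_le_one, mem_LL_sub_single zero_le_one]
      refine ⟨⟨hV.le hw.1.1, hxy ▸ ((mem_LL_sub_single zero_le_one).1 hw.2).2⟩, ?_⟩
      refine ((mem_LL_sub_single zero_le_one).1 (h2 hw)).2.trans (exp_le_exp.2 ?_)
      have : (D - single y 1 : Dv K) z = D z := by simp [Finsupp.single_apply, hz.symm]
      omega
    have h6 : V ⊓ LL (D - (single y 1 + single z 1)) < V ⊓ LL (D - single y 1) :=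
      lt_of_le_of_ne (inf_le_inf_left _ (LL_mono (sub_le_sub_left (by simp) _))) fun h =>
        hy2 z hz (h.ge.trans (inf_le_right.trans (LL_mono (sub_le_sub_left (by simp) _))))
    have h7 := Submodule.eq_of_le_of_finrank_le h5 (by
      have := Submodule.finrank_lt_finrank_of_lt h6
      have := hV.finrank_inf y
      have := hV.finrank_inf x
      have := finrank_inf_le (V ⊓ LL (D - single x 1)) inf_le_right y
      omega)
    exact h7.ge.trans (inf_le_left.trans inf_le_right)

end Pool.Agent.Lib.MP_eeb174_ag
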