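import Pool.Agent.Lib.MP_eeb174_ag.Sec

open Filter Set WithZero Module Polynomial

noncomputable section

namespace Pool.Agent.Lib.MP_eeb174_ag

section FF
variable {F : Type} [Field F] [Algebra ℂ F] [IsFF F]
  {S : Surf F} {C N : Cl F} {c H H' g : F[X]} {P : Place F} {δ n n' m : ℤ}

lemma Surf.Loc.congr (h : S.Loc C c P δ n H) (hd : c ∣ H' - H) : S.Loc C c P δ n H' :=
  fun ρ h0 h1 => by
    obtain ⟨u, b, hu, hu', hb, e⟩ := h ρ h0 h1
    refine ⟨u, b, hu, hu', hb, ?_⟩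
    rw [show u * H' - b = (u * H - b) + u * (H' - H) by ring]
    exact dvd_add e (hd.mul_left u)

lemma Surf.Loc.mul (h : S.Loc C c P δ n H) (hg : Bd P (S.α P + δ) n' g) :
    S.Loc C c P δ (n' + n) (g * H) := fun ρ h0 h1 => by
  obtain ⟨u, b, hu, hu', hb, e⟩ := h ρ h0 h1
  refine ⟨u, g * b, hu, hu', hg.mul hb, ?_⟩
  rw [show u * (g * H) - g * b = g * (u * H - b) by ring]
  exact e.mul_left g

lemma Surf.Loc.modByMonic (h : S.Loc C c P δ n H) : S.Loc C c P δ n (H %ₘ c) :=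
  h.congr (dvd_modByMonic_sub H c)

lemma Surf.Curve.rootMultiplicity_le (hc : S.Curve C c) (hδ : S.ok P δ)
    (h : S.Loc C c P δ n H) (hn : n < n') (hb : Bd P (S.α P + δ) n' H)
    (h0 : ini P (S.α P + δ) n' H ≠ 0) {ρ : ℂ} (hρ : ρ ≠ 0) :
    (S.inn C P δ c).rootMultiplicity ρ ≤ (ini P (S.α P + δ) n' H).rootMultiplicity ρ := by
  by_cases h1 : (S.inn C P δ c).eval ρ = 0
  swap
  · rw [rootMultiplicity_eq_zero h1]; exact Nat.zero_le _
  obtain ⟨u, b, hu, hu', hb', q, e⟩ := h ρ hρ h1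
  have hcb := hc.mem.2 P δ hδ
  have h2 : Bd P (S.α P + δ) n' (u * H) := by simpa using hu.mul hb
  have h3 : Bd P (S.α P + δ) (C.nb P δ + (n' - C.nb P δ)) (c * q) := by
    rw [← e, add_sub_cancel]; exact h2.sub (hb'.mono hn.le)
  have hq := hcb.of_mul (hc.inn_ne hδ) h3
  have h4 := ini_mul hcb hq
  rw [← e, add_sub_cancel, ini_sub h2 (hb'.mono hn.le), ini_eq_zero_of_lt hb' hn, sub_zero] at h4
  have h5 := ini_mul hu hb
  rw [zero_add, h4] at h5
  have hu0 : ini P (S.α P + δ) 0 u ≠ 0 := fun h => hu' (by simp [h])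
  have h6 := rootMultiplicity_mul (x := ρ) (mul_ne_zero hu0 h0)
  rw [rootMultiplicity_eq_zero hu', zero_add, ← h5,
    rootMultiplicity_mul (h5 ▸ mul_ne_zero hu0 h0)] at h6
  rw [← h6]; exact Nat.le_add_right _ _

lemma Surf.Curve.window' (hc : S.Curve C c) (hH : H.degree < c.degree)
    (h : ∀ δ, S.ok P δ → S.Loc C c P δ (C.nb P δ + m) H) (hδ : S.ok P δ) :
    Bd P (S.α P + δ) (C.nb P δ + m) H := by
  classical
  by_cases H0 : H = 0
  · rw [H0]; exact Bd.zero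
  obtain ⟨μ, hμ, hmin⟩ := Int.exists_least_of_bdd
    (P := fun μ => ∀ δ, S.ok P δ → Bd P (S.α P + δ) (C.nb P δ + m + μ) H) (by
      obtain ⟨a, -, ha⟩ := exists_bd_ini P (S.α P + δ) H0
      exact ⟨a - C.nb P δ - m, fun μ hμ => by
        have := le_of_ini_ne_zero ha (hμ δ hδ); omega⟩) (by
      choose a ha using fun δ => exists_bd P (S.α P + δ) H
      refine ⟨max (a 0 - C.nb P 0 - m) (max (a 1 - C.nb P 1 - m) (a (-1) - C.nb P (-1) - m)),
        fun δ hδ => (ha δ).mono ?_⟩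
      rcases hδ with rfl | ⟨rfl, -⟩ | ⟨rfl, -⟩ <;> omega)
  by_cases hpos : μ ≤ 0
  · exact (hμ δ hδ).mono (by omega)
  exfalso
  obtain ⟨d, ⟨hd, hd'⟩, hdmin⟩ := Int.exists_least_of_bdd
    (P := fun d => S.ok P d ∧ ¬ Bd P (S.α P + d) (C.nb P d + m + μ - 1) H)
    ⟨-1, fun d hd => by rcases hd.1 with rfl | ⟨rfl, -⟩ | ⟨rfl, -⟩ <;> omega⟩ (by
      by_contra hcon
      have := hmin (μ - 1) fun d hd => by
        by_contra h1
        exact hcon ⟨d, hd, by rwa [add_sub_assoc]⟩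
      omega)
  have hb := hμ d hd
  have h0 : ini P (S.α P + d) (C.nb P d + m + μ) H ≠ 0 := fun e => hd' ((ini_eq_zero_iff hb).1 e)
  have hlo := hc.nef.lo_nonneg hd
  have hlh := hc.nef.lo_le_hi hd
  have hdvd : S.inn C P d c ∣ ini P (S.α P + d) (C.nb P d + m + μ) H := by
    rw [IsAlgClosed.dvd_iff_roots_le_roots (hc.inn_ne hd) h0, Multiset.le_iff_count]
    intro ρ
    rw [count_roots, count_roots]
    by_cases hρ : ρ = 0
    · rw [hρ, rootMultiplicity_eq_natTrailingDegree', rootMultiplicity_eq_natTrailingDegree']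
      refine (natTrailingDegree_le_of_ne_zero (hc.lo_ne P d hd)).trans
        (le_natTrailingDegree h0 fun j hj => ?_)
      by_contra hne
      by_cases h1 : S.ok P (d + 1)
      · have h2 := ge_of_coeff_ini hb (by rw [add_assoc]; exact hμ _ h1) hne
        rw [Surf.lo_eq hd h1] at hj hlo
        omega
      · rw [Surf.lo_eq_zero hd h1] at hj; omega
    · exact hc.rootMultiplicity_le hd (h d hd) (by omega) hb h0 hρ
  have h1 := (le_natDegree_of_ne_zero (hc.hi_ne P d hd)).trans (natDegree_le_of_dvd hdvd h0)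
  have h2 := leadingCoeff_ne_zero.2 h0
  rw [leadingCoeff] at h2
  by_cases h3 : S.ok P (d - 1)
  · have h4 : Bd P (S.α P + (d - 1)) (C.nb P (d - 1) + m + μ - 1) H := by
      by_contra h5
      have := hdmin _ ⟨h3, h5⟩
      omega
    have h5 := le_of_coeff_ini hb (by rw [add_sub_assoc]; exact h4) h2
    rw [Surf.hi_eq hd h3] at h1 hlh
    omega
  · have h4 := (natDegree_ini_le (P := P) (s := S.α P + d) (n := C.nb P d + m + μ)
      (h := H)).trans_lt (natDegree_lt_natDegree H0 hH)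
    have := hc.deg
    rw [Surf.hi_eq_k hd h3] at h1
    omega

omit [Algebra ℂ F] [IsFF F] in
lemma X_mul_eq (hc : c.Monic) (h0 : c.coeff 0 ≠ 0) {r : F[X]} (hr : r.degree < c.degree) :
    X * r = (X * r) %ₘ c - Polynomial.C (((X * r) %ₘ c).coeff 0 / c.coeff 0) * c := by
  have h1 : ((X * r) /ₘ c).natDegree = 0 := by
    rw [natDegree_divByMonic _ hc]
    by_cases r0 : r = 0
    · simp [r0]
    · have := natDegree_lt_natDegree r0 hr
      rw [natDegree_X_mul r0]; omega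
  obtain ⟨a, ha⟩ := natDegree_eq_zero.1 h1
  have h2 := modByMonic_add_div (X * r) c
  rw [← ha] at h2
  have h3 := congrArg (coeff · 0) h2
  simp only [coeff_add, coeff_mul_C, coeff_X_mul_zero] at h3
  have h4 : ((X * r) %ₘ c).coeff 0 / c.coeff 0 = -a := by
    rw [div_eq_iff h0]; linear_combination h3
  rw [h4, C_neg]
  linear_combination -h2

lemma Surf.Curve.add_eq_nb (hc : S.Curve C c) (hδ : S.ok P δ) {c₁ c₂ : F[X]} (e : c₁ * c₂ = c)
    (h₁ : Bd P (S.α P + δ) n c₁) (h₁' : ini P (S.α P + δ) n c₁ ≠ 0)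
    (h₂ : Bd P (S.α P + δ) n' c₂) (h₂' : ini P (S.α P + δ) n' c₂ ≠ 0) : n + n' = C.nb P δ :=
  le_antisymm
    (le_of_ini_ne_zero (by rw [← e, ini_mul h₁ h₂]; exact mul_ne_zero h₁' h₂') (hc.mem.2 P δ hδ))
    (le_of_ini_ne_zero (hc.inn_ne hδ) (e ▸ h₁.mul h₂))

lemma Bd.val_eval_lt {s : ℤ} (h : Bd P s n g) {ρ : ℂ} (h0 : (ini P s n g).eval ρ = 0) :
    P.val (g.eval (algebraMap ℂ F ρ * P.unif ^ s)) ≤ exp (n - 1) := by
  have h1 : P.val (algebraMap ℂ F ρ * P.unif ^ s) ≤ exp (-s) := by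
    rw [map_mul, P.val_unif_zpow]; exact mul_le_of_le_one_left' (P.val_const_le ρ)
  rw [← Place.val_zpow_mul_lt_one,
    ← Place.res_eq_zero_iff (Place.val_zpow_mul_le_one.2 (h.val_eval_le h1)), h.res_eval, h0]

lemma Surf.Curve.not_both (hc : S.Curve C c) (hδ : S.ok P δ) {c₁ c₂ : F[X]} (e : c₁ * c₂ = c)
    (h₁ : Bd P (S.α P + δ) n c₁) (h₂ : Bd P (S.α P + δ) n' c₂) (hn : n + n' = C.nb P δ)
    {ρ : ℂ} (hρ : ρ ≠ 0) (r₁ : (ini P (S.α P + δ) n c₁).eval ρ = 0)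
    (r₂ : (ini P (S.α P + δ) n' c₂).eval ρ = 0) : False := by
  have h1 : S.inn C P δ c = ini P (S.α P + δ) n c₁ * ini P (S.α P + δ) n' c₂ := by
    rw [← ini_mul h₁ h₂, e, hn]
  have h2 := hc.smooth P δ hδ ρ hρ ((le_rootMultiplicity_iff (hc.inn_ne hδ)).2 (by
    rw [h1, sq]; exact mul_dvd_mul (dvd_iff_isRoot.2 r₁) (dvd_iff_isRoot.2 r₂)))
  have h3 := mul_le_mul' (h₁.val_eval_lt r₁) (h₂.val_eval_lt r₂)
  rw [← map_mul, ← eval_mul, e, h2, ← exp_add, exp_le_exp] at h3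
  omega

end FF

variable {F : Type} [Field F] [Algebra ℂ F] [Algebra (RatFunc ℂ) F]
  [IsScalarTower ℂ (RatFunc ℂ) F] [FiniteDimensional (RatFunc ℂ) F]
  {S : Surf F} {C N : Cl F} {c H : F[X]}

theorem Surf.Curve.window (hc : S.Curve C c) {P : Place F} {m : ℤ} (hH : H.degree < c.degree)
    (h : ∀ δ, S.ok P δ → S.Loc C c P δ (C.nb P δ + m) H) {δ : ℤ} (hδ : S.ok P δ) :
    Bd P (S.α P + δ) (C.nb P δ + m) H := hc.window' hH h hδ

theorem Surf.Curve.lift (hc : S.Curve C c) (hM : S.Nef (C - N)) (hk : 0 < (C - N).k)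
    (hpos : ∀ i : ℤ, 0 < i → i < (C - N).k → 0 < (S.D (C - N) i).degree)
    (h : ∀ P δ, S.ok P δ → S.Loc C c P δ (N.nb P δ) H) : H %ₘ c ∈ S.R N := by
  let r : ℕ → F[X] := fun i => (X ^ i * H) %ₘ c
  let l : ℕ → F := fun i => (r i).coeff 0 / c.coeff 0
  have hdeg : ∀ i, (r i).degree < c.degree := fun i => degree_modByMonic_lt _ hc.monic
  have hA : ∀ (i : ℕ) P δ, S.ok P δ →
      Bd P (S.α P + δ) (C.nb P δ - S.D (C - N) i P) (r i) := fun i P δ hδ => by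
    have e : (Polynomial.C (P.unif ^ (-S.D (C - N) i P)) * X ^ i * H) %ₘ c =
        Polynomial.C (P.unif ^ (-S.D (C - N) i P)) * r i := by
      rw [mul_assoc, ← smul_eq_C_mul, smul_modByMonic, smul_eq_C_mul]
    rw [sub_eq_add_neg, ← bd_unif_mul, ← e, ← add_zero (C.nb P δ)]
    refine hc.window (degree_modByMonic_lt _ hc.monic) (fun d hd => Surf.Loc.modByMonic ?_) hδ
    have h1 : Bd P (S.α P + d) ((C - N).nb P d)
        (Polynomial.C (P.unif ^ (-S.D (C - N) i P)) * X ^ i) := by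
      rw [C_mul_X_pow_eq_monomial, bd_monomial, P.val_unif_zpow, neg_neg, exp_le_exp]
      exact Surf.D_le hd _ _
    simpa using (h P d hd).mul h1
  have hB : ∀ i : ℕ, l i ∈ LL (-S.D (C - N) i) := fun i P => by
    obtain ⟨δ, hδ, e⟩ := hc.nef.lr.exists_ok 0 P
    have h1 := hA i P δ hδ 0
    rw [map_div₀, hc.val_coeff_zero, div_le_iff₀ (zero_lt_iff.2 exp_ne_zero), ← exp_add]
    refine h1.trans (exp_le_exp.2 (le_of_eq ?_))
    rw [e]; simp only [Finsupp.neg_apply, Nat.cast_zero]; ring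
  have hC : ∀ i, X * r i = r (i + 1) - Polynomial.C (l (i + 1)) * c := fun i => by
    have e : (X * r i) %ₘ c = r (i + 1) := modByMonic_eq_of_dvd_sub hc.monic (by
      rw [pow_succ', mul_assoc, ← mul_sub]; exact (dvd_modByMonic_sub _ c).mul_left X)
    have := X_mul_eq hc.monic hc.coeff_zero_ne (hdeg i)
    rwa [e] at this
  have hD : ∀ i : ℕ, (i : ℤ) < (C - N).k → r i = X ^ i * r 0 := fun i => by
    induction i with
    | zero => simp
    | succ i ih =>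
      intro hi
      have h1 : l (i + 1) = 0 := eq_zero_of_el (el_eq_zero (by
        have := hpos ((i + 1 : ℕ) : ℤ) (by omega) hi
        rw [map_neg]; omega)).le (hB (i + 1))
      have h2 := hC i
      rw [h1, C_0, zero_mul, sub_zero] at h2
      rw [← h2, ih (by omega), pow_succ', mul_assoc]
  have e0 : H %ₘ c = r 0 := by simp [r]
  rw [e0]
  by_cases r0 : r 0 = 0
  · rw [r0]; exact Submodule.zero_mem _
  refine ⟨(Surf.coeff_eq_zero_iff r0).2 ?_, fun P δ hδ => ?_⟩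
  · obtain ⟨i, hi⟩ : ∃ i : ℕ, (i : ℤ) = (C - N).k - 1 := ⟨((C - N).k - 1).toNat, by omega⟩
    have h1 := hdeg i
    rw [hD i (by omega)] at h1
    have h2 := natDegree_lt_natDegree (mul_ne_zero (pow_ne_zero i X_ne_zero) r0) h1
    rw [natDegree_X_pow_mul i r0] at h2
    have := hc.deg
    rw [Cl.sub_k] at hi
    omega
  · obtain ⟨i, hi⟩ := Int.eq_ofNat_of_zero_le (hM.lo_nonneg hδ)
    have h1 := hM.D_eq hδ hi.le (hi ▸ hM.lo_le_hi hδ)
    have h2 : (i : ℤ) ≤ (C - N).k := hi ▸ (hM.lo_le_hi hδ).trans (hM.hi_le hδ)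
    have h3 : Bd P (S.α P + δ) (C.nb P δ - S.D (C - N) i P) (X ^ i * r 0) := by
      cases i with
      | zero => simpa using hA 0 P δ hδ
      | succ i =>
        rw [pow_succ', mul_assoc, ← hD i (by omega), hC]
        refine (hA _ P δ hδ).sub ?_
        rw [sub_eq_neg_add]
        exact (bd_C.2 (hB _ P)).mul (hc.mem.2 P δ hδ)
    refine (bd_X_pow i).of_mul (by rw [ini_X_pow]; exact pow_ne_zero i X_ne_zero) ?_
    convert h3 using 1
    rw [h1, Cl.sub_nb]; ring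

theorem Surf.Curve.irreducible (hc : S.Curve C c) : Irreducible c := by
  classical
  have hk := hc.kpos
  have hdeg := hc.deg
  refine hc.monic.irreducible_iff_natDegree.2 ⟨?_, fun c₁ c₂ m₁ m₂ e => ?_⟩
  · rintro rfl
    simp at hdeg; omega
  by_contra hcon
  obtain ⟨d₁, d₂⟩ := not_or.1 hcon
  have hcop : IsCoprime c₁ c₂ := by
    refine isCoprime_of_irreducible_dvd (fun h => m₁.ne_zero h.1) ?_
    rintro q hq ⟨a₁, e₁⟩ ⟨a₂, e₂⟩
    obtain ⟨P, hP⟩ := Infinite.exists_notMem_finset (S.T₁ ∪ S.T₂)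
    rw [Finset.mem_union, not_or] at hP
    have hδ := S.ok_zero P
    have a₁0 : a₁ ≠ 0 := fun h => m₁.ne_zero (by rw [e₁, h, mul_zero])
    have a₂0 : a₂ ≠ 0 := fun h => m₂.ne_zero (by rw [e₂, h, mul_zero])
    obtain ⟨n, hn, hn'⟩ := exists_bd_ini P (S.α P + 0) hq.ne_zero
    obtain ⟨n₁, hn₁, hn₁'⟩ := exists_bd_ini P (S.α P + 0) a₁0
    obtain ⟨n₂, hn₂, hn₂'⟩ := exists_bd_ini P (S.α P + 0) a₂0
    have b₁ := hn.mul hn₁
    have b₂ := hn.mul hn₂
    have i₁ := ini_mul hn hn₁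
    have i₂ := ini_mul hn hn₂
    rw [← e₁] at b₁ i₁
    rw [← e₂] at b₂ i₂
    have hs := hc.add_eq_nb hδ e b₁ (i₁ ▸ mul_ne_zero hn' hn₁') b₂ (i₂ ▸ mul_ne_zero hn' hn₂')
    have h1 : S.inn C P 0 c = ini P (S.α P + 0) (n + n₁) c₁ * ini P (S.α P + 0) (n + n₂) c₂ := by
      rw [← ini_mul b₁ b₂, e, hs]
    have hlo := hc.lo_ne P 0 hδ
    have hhi := le_natDegree_of_ne_zero (hc.hi_ne P 0 hδ)
    rw [Surf.lo_eq_zero hδ (by simp [Surf.ok, hP.1])] at hlo
    rw [Surf.hi_eq_k hδ (by simp [Surf.ok, hP.2]), h1, i₁,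
      natDegree_mul (mul_ne_zero hn' hn₁') (i₂ ▸ mul_ne_zero hn' hn₂'),
      natDegree_mul hn' hn₁'] at hhi
    have g₁ := natDegree_ini_le (P := P) (s := S.α P + 0) (n := n₁) (h := a₁)
    have g₂ := natDegree_ini_le (P := P) (s := S.α P + 0) (n := n + n₂) (h := c₂)
    have g₃ : c.natDegree = q.natDegree + a₁.natDegree + c₂.natDegree := by
      rw [← e, natDegree_mul m₁.ne_zero m₂.ne_zero, e₁, natDegree_mul hq.ne_zero a₁0]
    have g₄ := hq.natDegree_pos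
    obtain ⟨ρ, hρ⟩ := IsAlgClosed.exists_root (ini P (S.α P + 0) n q)
      (natDegree_pos_iff_degree_pos.1 (by omega)).ne'
    have hρ' : (ini P (S.α P + 0) n q).eval ρ = 0 := hρ
    refine hc.not_both hδ e b₁ b₂ hs (ρ := ρ) ?_ (by rw [i₁, eval_mul, hρ', zero_mul])
      (by rw [i₂, eval_mul, hρ', zero_mul])
    rintro rfl
    refine hlo ?_
    rw [Int.toNat_zero, coeff_zero_eq_eval_zero, h1, i₁, eval_mul, eval_mul, hρ', zero_mul,
      zero_mul]
  obtain ⟨u₁, u₂, hu⟩ := hcop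
  have hloc : ∀ P δ, S.ok P δ → S.Loc C c P δ ((0 : Cl F).nb P δ) (u₁ * c₁) := by
    intro P δ hδ ρ hρ _
    obtain ⟨n₁, hn₁, hn₁'⟩ := exists_bd_ini P (S.α P + δ) m₁.ne_zero
    obtain ⟨n₂, hn₂, hn₂'⟩ := exists_bd_ini P (S.α P + δ) m₂.ne_zero
    have hs := hc.add_eq_nb hδ e hn₁ hn₁' hn₂ hn₂'
    rw [Cl.zero_nb]
    by_cases r₁ : (ini P (S.α P + δ) n₁ c₁).eval ρ = 0
    · refine ⟨Polynomial.C (P.unif ^ n₂) * c₂, 0, bd_unif_mul.2 (by rwa [zero_add]), ?_, Bd.zero,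
        Polynomial.C (P.unif ^ n₂) * u₁, by rw [← e]; ring⟩
      rw [ini_unif_mul, zero_add]
      exact hc.not_both hδ e hn₁ hn₂ hs hρ r₁
    · have b : Bd P (S.α P + δ) 0 (Polynomial.C (P.unif ^ n₁) * c₁) :=
        bd_unif_mul.2 (by rwa [zero_add])
      refine ⟨_, _, b, by rwa [ini_unif_mul, zero_add], b,
        -(Polynomial.C (P.unif ^ n₁) * u₂), ?_⟩
      rw [← e]
      linear_combination (Polynomial.C (P.unif ^ n₁) * c₁) * hu
  have h1 := hc.lift (N := 0) (by rw [sub_zero]; exact hc.nef) (by rwa [sub_zero])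
    (by rw [sub_zero]; exact hc.pos) hloc
  have h2 : c ∣ u₁ * c₁ := by
    rw [← modByMonic_eq_zero_iff_dvd hc.monic]
    by_contra h0
    have h3 := Surf.natDegree_le_of_mem h1 h0
    have h4 : c₁ ∣ (u₁ * c₁) %ₘ c := by
      have := dvd_add ((Dvd.intro _ e).trans (dvd_modByMonic_sub (u₁ * c₁) c))
        (dvd_mul_left c₁ u₁)
      rwa [sub_add_cancel] at this
    have := natDegree_le_of_dvd h4 h0
    rw [Cl.zero_k] at h3
    omega
  rw [← e, mul_comm c₁, mul_dvd_mul_iff_right m₁.ne_zero] at h2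
  have h3 : c₂ ∣ 1 := hu ▸ dvd_add (h2.mul_right c₁) (dvd_mul_left c₂ u₂)
  have := natDegree_le_of_dvd h3 one_ne_zero
  rw [natDegree_one] at this
  omega

end Pool.Agent.Lib.MP_eeb174_ag
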